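import Mathlib

set_option autoImplicit false

/-!
# Symmetric designs: closed substructures
-/

namespace Pool.Agent.L0h26.Hall

open Finset

open scoped Classical in
/-- a symmetric design with points `P`, blocks `L` and incidence `I` -/
structure SD (P L : Type) [Fintype P] [Fintype L] (I : P → L → Prop) (k lam : ℕ) : Prop where
  pts : ∀ m : L, (univ.filter fun x => I x m).card = k
  lns : ∀ x : P, (univ.filter fun m => I x m).card = k
  pp : ∀ x y : P, x ≠ y → (univ.filter fun m => I x m ∧ I y m).card = lam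
  ll : ∀ m n : L, m ≠ n → (univ.filter fun x => I x m ∧ I x n).card = lam

/-- closed substructures -/
structure Cl {P L : Type} (I : P → L → Prop) (F : Finset P) (E : Finset L) : Prop where
  join : ∀ x ∈ F, ∀ y ∈ F, x ≠ y → ∀ m, I x m → I y m → m ∈ E
  meet : ∀ m ∈ E, ∀ n ∈ E, m ≠ n → ∀ x, I x m → I x n → x ∈ F

variable {P L : Type} [Fintype P] [Fintype L] {I : P → L → Prop} {k lam : ℕ}

theorem SD.dual (h : SD P L I k lam) : SD L P (fun m x => I x m) k lam :=
  ⟨h.lns, h.pts, h.ll, h.pp⟩

omit [Fintype P] [Fintype L] in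
theorem Cl.dual {F : Finset P} {E : Finset L} (h : Cl I F E) : Cl (fun m x => I x m) E F :=
  ⟨h.meet, h.join⟩

open scoped Classical in
/-- points on a block -/
noncomputable def on (I : P → L → Prop) (F : Finset P) (b : L) : Finset P := F.filter fun x => I x b

open scoped Classical in
/-- blocks through a point -/
noncomputable def thr (I : P → L → Prop) (E : Finset L) (x : P) : Finset L := E.filter fun m => I x m

omit [Fintype P] [Fintype L] in
theorem mem_on {F : Finset P} {b : L} {x : P} : x ∈ on I F b ↔ x ∈ F ∧ I x b := by simp [on]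

omit [Fintype P] [Fintype L] in
theorem mem_thr {E : Finset L} {b : L} {x : P} : b ∈ thr I E x ↔ b ∈ E ∧ I x b := by simp [thr]

open scoped Classical in
/-- degrees in a closed substructure -/
theorem deg (h : SD P L I k lam) {F : Finset P} {E : Finset L} (hC : Cl I F E) (hlam : 2 ≤ lam)
    {x : P} {b : L} (hx : x ∈ F) (hb : b ∈ E) (hxb : I x b) :
    (thr I E x).card = (on I F b).card := by
  have hx' : x ∈ on I F b := mem_on.2 ⟨hx, hxb⟩
  have hb' : b ∈ thr I E x := mem_thr.2 ⟨hb, hxb⟩
  have h1 := Finset.sum_card_bipartiteAbove_eq_sum_card_bipartiteBelow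
    (s := (on I F b).erase x) (t := (thr I E x).erase b) (fun y m => I y m)
  have h2 : ∀ y ∈ (on I F b).erase x,
      (((thr I E x).erase b).bipartiteAbove (fun y m => I y m) y).card = lam - 1 := by
    intro y hy
    rw [mem_erase, mem_on] at hy
    obtain ⟨hyx, hyF, hyb⟩ := hy
    rw [← h.pp x y (Ne.symm hyx), ← Finset.card_erase_of_mem (a := b)
      (by simp only [mem_filter, mem_univ, true_and]; exact ⟨hxb, hyb⟩)]
    congr 1
    ext m
    simp only [Finset.bipartiteAbove, mem_filter, mem_erase, mem_thr, mem_univ, true_and]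
    constructor
    · rintro ⟨⟨h3, h4, h5⟩, h6⟩
      exact ⟨h3, h5, h6⟩
    · rintro ⟨h3, h5, h6⟩
      exact ⟨⟨h3, hC.join x hx y hyF (Ne.symm hyx) m h5 h6, h5⟩, h6⟩
  have h3 : ∀ m ∈ (thr I E x).erase b,
      (((on I F b).erase x).bipartiteBelow (fun y m => I y m) m).card = lam - 1 := by
    intro m hm
    rw [mem_erase, mem_thr] at hm
    obtain ⟨hmb, hmE, hxm⟩ := hm
    rw [← h.ll b m (Ne.symm hmb), ← Finset.card_erase_of_mem (a := x)
      (by simp only [mem_filter, mem_univ, true_and]; exact ⟨hxb, hxm⟩)]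
    congr 1
    ext y
    simp only [Finset.bipartiteBelow, mem_filter, mem_erase, mem_on, mem_univ, true_and]
    constructor
    · rintro ⟨⟨h3, h4, h5⟩, h6⟩
      exact ⟨h3, h5, h6⟩
    · rintro ⟨h3, h5, h6⟩
      exact ⟨⟨h3, hC.meet b hb m hmE (Ne.symm hmb) y h5 h6, h5⟩, h6⟩
  rw [sum_congr rfl h2, sum_congr rfl h3, sum_const, sum_const, smul_eq_mul, smul_eq_mul,
    card_erase_of_mem hx', card_erase_of_mem hb'] at h1
  have h4 := Nat.eq_of_mul_eq_mul_right (by omega) h1
  have h5 : 0 < (on I F b).card := card_pos.2 ⟨x, hx'⟩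
  have h6 : 0 < (thr I E x).card := card_pos.2 ⟨b, hb'⟩
  omega

open scoped Classical in
/-- the number of points of a closed substructure -/
theorem card_pts (h : SD P L I k lam) {F : Finset P} {E : Finset L} (hC : Cl I F E) (hlam : 2 ≤ lam)
    {x : P} {b : L} (hx : x ∈ F) (hb : b ∈ E) (hxb : I x b) :
    lam * (F.card - 1) = (on I F b).card * ((on I F b).card - 1) := by
  have h1 := Finset.sum_card_bipartiteAbove_eq_sum_card_bipartiteBelow
    (s := F.erase x) (t := thr I E x) (fun y m => I y m)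
  have h2 : ∀ y ∈ F.erase x, ((thr I E x).bipartiteAbove (fun y m => I y m) y).card = lam := by
    intro y hy
    rw [mem_erase] at hy
    rw [← h.pp x y (Ne.symm hy.1)]
    congr 1
    ext m
    simp only [Finset.bipartiteAbove, mem_filter, mem_thr, mem_univ, true_and]
    constructor
    · rintro ⟨⟨h3, h4⟩, h5⟩
      exact ⟨h4, h5⟩
    · rintro ⟨h4, h5⟩
      exact ⟨⟨hC.join x hx y hy.2 (Ne.symm hy.1) m h4 h5, h4⟩, h5⟩
  have h3 : ∀ m ∈ thr I E x, ((F.erase x).bipartiteBelow (fun y m => I y m) m).card =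
      (on I F b).card - 1 := by
    intro m hm
    rw [mem_thr] at hm
    rw [← deg h hC hlam hx hb hxb, deg h hC hlam hx hm.1 hm.2,
      ← Finset.card_erase_of_mem (a := x) (mem_on.2 ⟨hx, hm.2⟩)]
    congr 1
    ext y
    simp only [Finset.bipartiteBelow, mem_filter, mem_erase, mem_on]
    tauto
  rw [sum_congr rfl h2, sum_congr rfl h3, sum_const, sum_const, smul_eq_mul, smul_eq_mul,
    card_erase_of_mem hx, deg h hC hlam hx hb hxb] at h1
  rw [mul_comm]
  exact h1

open scoped Classical in
/-- nested closed substructures -/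
theorem nested (h : SD P L I k lam) {F F' : Finset P} {E E' : Finset L} (hC : Cl I F E)
    (hC' : Cl I F' E') (hF : F ⊆ F') (hE : E ⊆ E') (hlam : 2 ≤ lam)
    {x z : P} {b : L} (hx : x ∈ F) (hb : b ∈ E) (hxb : I x b) (hz : z ∈ F') (hzF : z ∉ F)
    (hzb : I z b) :
    ((on I F b).card - 1) ^ 2 + lam ≤ (on I F' b).card := by
  have h1 := Finset.sum_card_bipartiteAbove_eq_sum_card_bipartiteBelow
    (s := F) (t := (thr I E' z).erase b) (fun y m => I y m)
  have hsplit : ∑ y ∈ F, (((thr I E' z).erase b).bipartiteAbove (fun y m => I y m) y).card =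
      ∑ y ∈ F, (if I y b then lam - 1 else lam) := by
    refine sum_congr rfl fun y hy => ?_
    have hyz : z ≠ y := by
      rintro rfl
      exact hzF hy
    have e : ((thr I E' z).erase b).bipartiteAbove (fun y m => I y m) y =
        (univ.filter fun m => I z m ∧ I y m).erase b := by
      ext m
      simp only [Finset.bipartiteAbove, mem_filter, mem_erase, mem_thr, mem_univ, true_and]
      constructor
      · rintro ⟨⟨h3, h4, h5⟩, h6⟩
        exact ⟨h3, h5, h6⟩
      · rintro ⟨h3, h5, h6⟩
        exact ⟨⟨h3, hC'.join z hz y (hF hy) hyz m h5 h6, h5⟩, h6⟩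
    rw [e]
    split_ifs with hyb
    · rw [card_erase_of_mem (by simp only [mem_filter, mem_univ, true_and]; exact ⟨hzb, hyb⟩),
        h.pp z y hyz]
    · rw [erase_eq_of_notMem (by simp [hyb]), h.pp z y hyz]
  have hright : ∑ m ∈ (thr I E' z).erase b, (F.bipartiteBelow (fun y m => I y m) m).card ≤
      ((thr I E' z).erase b).card := by
    calc _ ≤ ∑ m ∈ (thr I E' z).erase b, 1 := by
          refine sum_le_sum fun m hm => ?_
          rw [mem_erase, mem_thr] at hm
          rw [Finset.card_le_one]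
          intro y hy y' hy'
          simp only [Finset.bipartiteBelow, mem_filter] at hy hy'
          by_contra hne
          have hmE := hC.join y hy.1 y' hy'.1 hne m hy.2 hy'.2
          exact hzF (hC.meet m hmE b hb hm.1 z hm.2.2 hzb)
      _ = _ := by simp
  have hcard : ∑ y ∈ F, (if I y b then lam - 1 else lam) + (on I F b).card = lam * F.card := by
    have e1 : (on I F b).card = ∑ y ∈ F, if I y b then 1 else 0 := by
      rw [on, card_filter]
    rw [e1, ← sum_add_distrib, mul_comm, ← smul_eq_mul, ← sum_const]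
    refine sum_congr rfl fun y _ => ?_
    split_ifs <;> omega
  have hz' : (thr I E' z).card = (on I F' b).card := deg h hC' hlam hz (hE hb) hzb
  have hbz : b ∈ thr I E' z := mem_thr.2 ⟨hE hb, hzb⟩
  rw [card_erase_of_mem hbz, hz'] at hright
  rw [← h1, hsplit] at hright
  have hp := card_pts h hC hlam hx hb hxb
  have hf : 1 ≤ (on I F b).card := card_pos.2 ⟨x, mem_on.2 ⟨hx, hxb⟩⟩
  have hF1 : 1 ≤ F.card := card_pos.2 ⟨x, hx⟩
  have hf' : 1 ≤ (on I F' b).card := card_pos.2 ⟨z, mem_on.2 ⟨hz, hzb⟩⟩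
  obtain ⟨f, hfe⟩ : ∃ f, (on I F b).card = f + 1 := ⟨(on I F b).card - 1, by omega⟩
  obtain ⟨w, hw⟩ : ∃ w, F.card = w + 1 := ⟨F.card - 1, by omega⟩
  obtain ⟨u, hu⟩ : ∃ u, (on I F' b).card = u + 1 := ⟨(on I F' b).card - 1, by omega⟩
  rw [hfe, hw] at hp hcard
  rw [hfe, hu]
  rw [hu] at hright
  simp only [Nat.add_sub_cancel] at hp hright ⊢
  nlinarith

end Pool.Agent.L0h26.Hall
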