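import Mathlib
import Pool.Agent.L0h26.HaA

set_option autoImplicit false

/-!
# Abelian groups of automorphisms which fix a block
-/

namespace Pool.Agent.L0h26.Hall

open Finset MulAction

variable {P L : Type} [Fintype P] [Fintype L] {I : P → L → Prop} {k lam : ℕ}
variable {G : Type} [Group G] [Finite G] [MulAction G P] [MulAction G L]

/-- `G` acts faithfully by automorphisms -/
structure Aut (G : Type) [Group G] {P L : Type} [MulAction G P] [MulAction G L]
    (I : P → L → Prop) : Prop where
  inc : ∀ (g : G) (x : P) (m : L), I (g • x) (g • m) ↔ I x m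
  faithful : ∀ g : G, (∀ x : P, g • x = x) → g = 1

open scoped Classical in
/-- common fixed points -/
noncomputable def fp (P : Type) [Fintype P] [MulAction G P] (S : Subgroup G) : Finset P :=
  univ.filter fun x => ∀ g ∈ S, g • x = x

omit [Finite G] in
theorem mem_fp {S : Subgroup G} {x : P} : x ∈ fp P S ↔ ∀ g ∈ S, g • x = x := by simp [fp]

omit [Finite G] in
/-- small orbits are trivial -/
theorem small_orbit {X : Type} [MulAction G X] (hp : ∀ p : ℕ, p.Prime → p ∣ Nat.card G → lam < p)
    (S : Subgroup G) (x : X) (T : Finset X) (hT : T.card ≤ lam) (hS : ∀ g ∈ S, g • x ∈ T) :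
    ∀ g ∈ S, g • x = x := by
  have h1 : (orbit S x) ⊆ (T : Set X) := by
    rintro y ⟨g, rfl⟩
    exact hS g.1 g.2
  have h2 : (orbit S x).ncard ≤ lam := by
    refine le_trans (Set.ncard_le_ncard h1 T.finite_toSet) ?_
    rw [Set.ncard_coe_finset]
    exact hT
  have h3 : (orbit S x).ncard ∣ Nat.card G := by
    rw [← index_stabilizer]
    exact (Subgroup.index_dvd_card _).trans (Subgroup.card_subgroup_dvd_card S)
  have h4 : (orbit S x).ncard = 1 := by
    by_contra hne
    obtain ⟨p, hp1, hp2⟩ := Nat.exists_prime_and_dvd hne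
    have h5 := hp p hp1 (hp2.trans h3)
    have h6 : 0 < (orbit S x).ncard := by
      rw [Set.ncard_pos (T.finite_toSet.subset h1)]
      exact nonempty_orbit x
    have h7 := Nat.le_of_dvd h6 hp2
    omega
  obtain ⟨a, ha⟩ := Set.ncard_eq_one.1 h4
  intro g hg
  have e1 : g • x ∈ orbit S x := ⟨⟨g, hg⟩, rfl⟩
  have e2 : x ∈ orbit S x := mem_orbit_self x
  rw [ha, Set.mem_singleton_iff] at e1 e2
  rw [e1, e2]

/-- the fixed structure is closed -/
theorem cl_fp (h : SD P L I k lam) (hA : Aut G I)
    (hp : ∀ p : ℕ, p.Prime → p ∣ Nat.card G → lam < p) (S : Subgroup G) :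
    Cl I (fp P S) (fp L S) := by
  classical
  constructor
  · intro x hx y hy hxy m hxm hym
    rw [mem_fp] at hx hy ⊢
    refine small_orbit (lam := lam) hp S m (univ.filter fun m => I x m ∧ I y m)
      (h.pp x y hxy).le ?_
    intro g hg
    simp only [mem_filter, mem_univ, true_and]
    have h1 := (hA.inc g x m).2 hxm
    have h2 := (hA.inc g y m).2 hym
    rw [hx g hg] at h1
    rw [hy g hg] at h2
    exact ⟨h1, h2⟩
  · intro m hm n hn hmn x hxm hxn
    rw [mem_fp] at hm hn ⊢
    refine small_orbit (lam := lam) hp S x (univ.filter fun x => I x m ∧ I x n)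
      (h.ll m n hmn).le ?_
    intro g hg
    simp only [mem_filter, mem_univ, true_and]
    have h1 := (hA.inc g x m).2 hxm
    have h2 := (hA.inc g x n).2 hxn
    rw [hm g hg] at h1
    rw [hn g hg] at h2
    exact ⟨h1, h2⟩

/-- a group which fixes all points of a fixed block is trivial -/
theorem axial_trivial (h : SD P L I k lam) (hA : Aut G I) (hlam : 2 ≤ lam) (hk : 2 ≤ k)
    (hp : ∀ p : ℕ, p.Prime → p ∣ Nat.card G → lam < p) (S : Subgroup G) {b : L}
    (hall : ∀ x, I x b → x ∈ fp P S) : S = ⊥ := by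
  classical
  have hC := cl_fp h hA hp S
  have hE : ∀ m, m ≠ b → m ∈ fp L S := by
    intro m hm
    have h1 : 1 < (univ.filter fun x => I x m ∧ I x b).card := by rw [h.ll m b hm]; omega
    obtain ⟨x, hx, y, hy, hxy⟩ := Finset.one_lt_card.1 h1
    simp only [mem_filter, mem_univ, true_and] at hx hy
    exact hC.join x (hall x hx.2) y (hall y hy.2) hxy m hx.1 hy.1
  have hF : ∀ x, x ∈ fp P S := by
    intro x
    by_cases hxb : I x b
    · exact hall x hxb
    · have h1 : 1 < (univ.filter fun m => I x m).card := by rw [h.lns]; omega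
      obtain ⟨m, hm, n, hn, hmn⟩ := Finset.one_lt_card.1 h1
      simp only [mem_filter, mem_univ, true_and] at hm hn
      refine hC.meet m (hE m ?_) n (hE n ?_) hmn x hm hn
      · rintro rfl; exact hxb hm
      · rintro rfl; exact hxb hn
  rw [Subgroup.eq_bot_iff_forall]
  intro g hg
  exact hA.faithful g fun x => mem_fp.1 (hF x) g hg

theorem pow_step {g g' r K : ℕ} (hg : 1 ≤ g) (h : (g - 1) ^ 2 + 2 ≤ g') (hr : 1 ≤ r)
    (hK : g' ^ (r + 1) ≤ K) : g ^ (r + 2) ≤ K := by
  obtain ⟨u, rfl⟩ : ∃ u, g = u + 1 := ⟨g - 1, by omega⟩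
  simp only [Nat.add_sub_cancel] at h
  have h1 : u + 1 ≤ g' := by nlinarith
  have h2 : (u + 1) ^ 3 ≤ g' ^ 2 := by
    have h3 : (u ^ 2 + 2) ^ 2 ≤ g' ^ 2 := Nat.pow_le_pow_left h 2
    refine le_trans ?_ h3
    zify
    nlinarith [sq_nonneg ((u : ℤ) ^ 2 - u), sq_nonneg ((u : ℤ) - 1), sq_nonneg ((u : ℤ) - 2),
      mul_nonneg (Int.natCast_nonneg u) (sq_nonneg ((u : ℤ) - 1))]
  obtain ⟨s, rfl⟩ : ∃ s, r = s + 1 := ⟨r - 1, by omega⟩
  calc (u + 1) ^ (s + 1 + 2) = (u + 1) ^ s * (u + 1) ^ 3 := by ring
    _ ≤ g' ^ s * g' ^ 2 := Nat.mul_le_mul (Nat.pow_le_pow_left h1 s) h2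
    _ = g' ^ (s + 1 + 1) := by ring
    _ ≤ K := hK

theorem sq_sqrt_bound {g n k : ℕ} (h : (g - 1) ^ 2 + n ≤ k) : g ≤ Nat.sqrt (k - n) + 1 := by
  have h1 : g - 1 ≤ Nat.sqrt (k - n) := by
    rw [Nat.le_sqrt']
    omega
  omega

section

variable (h : SD P L I k lam) (hA : Aut G I) (hlam : 2 ≤ lam) (hk : 2 ≤ k)
  (hp : ∀ p : ℕ, p.Prime → p ∣ Nat.card G → lam < p)

include h hA hlam hk hp

open scoped Classical in
/-- a nontrivial group which fixes a block and a point on it -/
theorem fix_on_block {S : Subgroup G} (hS : S ≠ ⊥) {b : L} (hb : ∀ g ∈ S, g • b = b) {x : P}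
    (hx : x ∈ on I (fp P S) b) : ((on I (fp P S) b).card - 1) ^ 2 + lam ≤ k := by
  obtain ⟨z, hzb, hz⟩ : ∃ z, I z b ∧ z ∉ fp P S := by
    by_contra hcon
    push Not at hcon
    exact hS (axial_trivial h hA hlam hk hp S hcon)
  have hCu : Cl I (univ : Finset P) (univ : Finset L) :=
    ⟨fun _ _ _ _ _ _ _ _ => mem_univ _, fun _ _ _ _ _ _ _ _ => mem_univ _⟩
  have h1 := nested h (cl_fp h hA hp S) hCu (subset_univ _) (subset_univ _) hlam
    (mem_on.1 hx).1 (mem_fp.2 hb) (mem_on.1 hx).2 (mem_univ z) hz hzb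
  have h2 : (on I (univ : Finset P) b).card = k := h.pts b
  rw [h2] at h1
  exact h1

omit [Fintype P] [Fintype L] [Finite G] [MulAction G P] [MulAction G L] h hA hlam hk hp in
theorem inf_card (S H : Subgroup G) : Nat.card S = Nat.card ↥(H ⊓ S) * H.relIndex S := by
  have h1 : (⊥ : Subgroup G).relIndex (H ⊓ S) * (H ⊓ S).relIndex S = (⊥ : Subgroup G).relIndex S :=
    Subgroup.relIndex_mul_relIndex _ _ _ bot_le inf_le_right
  rw [Subgroup.relIndex_bot_left, Subgroup.relIndex_bot_left, Subgroup.inf_relIndex_right] at h1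
  exact h1.symm

/-- the chain of stabilizers -/
theorem chain (hcomm : ∀ a c : G, a * c = c * a) {b : L} (hb : ∀ g : G, g • b = b) {M : ℕ}
    (hM1 : 1 ≤ M) (hM : ∀ z : P, I z b → (stabilizer G z).index ≤ M) :
    ∀ n : ℕ, ∀ S : Subgroup G, Nat.card S ≤ n → S ≠ ⊥ → M ≤ (on I (fp P S) b).card →
      ∃ r : ℕ, 1 ≤ r ∧ Nat.card S ≤ M ^ r ∧
        (on I (fp P S) b).card ^ (r + 1) ≤ (Nat.sqrt (k - lam) + 1) ^ 2 := by
  classical
  intro n
  induction n with
  | zero =>
    intro S hS
    have : 0 < Nat.card S := Nat.card_pos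
    omega
  | succ n ih =>
    intro S hSn hS hMS
    obtain ⟨x, hx⟩ : (on I (fp P S) b).Nonempty := card_pos.1 (by omega)
    have hbS : ∀ g ∈ S, g • b = b := fun g _ => hb g
    have h1 := fix_on_block h hA hlam hk hp hS hbS hx
    obtain ⟨z, hzb, hz⟩ : ∃ z, I z b ∧ z ∉ fp P S := by
      by_contra hcon
      push Not at hcon
      exact hS (axial_trivial h hA hlam hk hp S hcon)
    have hnorm : (stabilizer G z).Normal := by
      constructor
      intro a ha g
      rw [hcomm g a, mul_assoc, mul_inv_cancel, mul_one]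
      exact ha
    have hrel : (stabilizer G z).relIndex S ≤ M := by
      have h2 : (stabilizer G z).relIndex S ∣ (stabilizer G z).index :=
        Subgroup.relIndex_dvd_index_of_normal _ _
      have h3 : 0 < (stabilizer G z).index := Nat.pos_of_ne_zero Subgroup.index_ne_zero_of_finite
      exact (Nat.le_of_dvd h3 h2).trans (hM z hzb)
    have hcard := inf_card S (stabilizer G z)
    by_cases hbot : stabilizer G z ⊓ S = ⊥
    · refine ⟨1, le_rfl, ?_, ?_⟩
      · rw [hcard, hbot, Subgroup.card_bot, one_mul, pow_one]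
        exact hrel
      · exact Nat.pow_le_pow_left (sq_sqrt_bound h1) 2
    · -- the fixed points increase
      have hlt : Nat.card ↥(stabilizer G z ⊓ S) < Nat.card S := by
        rw [hcard]
        have h4 : (stabilizer G z).relIndex S ≠ 1 := by
          rw [Ne, Subgroup.relIndex_eq_one]
          intro hle
          exact hz (mem_fp.2 fun g hg => hle hg)
        have h5 : (stabilizer G z).relIndex S ≠ 0 := by
          intro h0
          rw [h0, mul_zero] at hcard
          have : 0 < Nat.card S := Nat.card_pos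
          omega
        have h6 : 0 < Nat.card ↥(stabilizer G z ⊓ S) := Nat.card_pos
        have h7 : 2 ≤ (stabilizer G z).relIndex S := by omega
        nlinarith
      have hsub : fp P S ⊆ fp P (stabilizer G z ⊓ S) := by
        intro y hy
        rw [mem_fp] at hy ⊢
        intro g hg
        exact hy g (Subgroup.mem_inf.1 hg).2
      have hsubL : fp L S ⊆ fp L (stabilizer G z ⊓ S) := by
        intro y hy
        rw [mem_fp] at hy ⊢
        intro g hg
        exact hy g (Subgroup.mem_inf.1 hg).2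
      have hz' : z ∈ fp P (stabilizer G z ⊓ S) := by
        rw [mem_fp]
        intro g hg
        exact (Subgroup.mem_inf.1 hg).1
      have h8 := nested h (cl_fp h hA hp S) (cl_fp h hA hp (stabilizer G z ⊓ S)) hsub hsubL hlam
        (mem_on.1 hx).1 (mem_fp.2 hbS) (mem_on.1 hx).2 hz' hz hzb
      have hf1 : 1 ≤ (on I (fp P S) b).card := by omega
      have h9 : (on I (fp P S) b).card ≤ (on I (fp P (stabilizer G z ⊓ S)) b).card := by
        refine card_le_card fun y hy => ?_
        rw [mem_on] at hy ⊢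
        exact ⟨hsub hy.1, hy.2⟩
      obtain ⟨r, hr1, hr2, hr3⟩ := ih (stabilizer G z ⊓ S) (by omega) hbot (hMS.trans h9)
      refine ⟨r + 1, by omega, ?_, ?_⟩
      · rw [hcard, pow_succ]
        exact Nat.mul_le_mul hr2 hrel
      · exact pow_step hf1 (le_trans (by omega) h8) hr1 hr3

/-- **Abelian groups which fix a block.** -/
theorem abelian_bound (hcomm : ∀ a c : G, a * c = c * a) {b : L} (hb : ∀ g : G, g • b = b) :
    Nat.card G ≤ k ∨ Nat.card G ≤ (Nat.sqrt (k - lam) + 1) ^ 2 := by
  classical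
  have hne : (univ.filter fun x => I x b).Nonempty := card_pos.1 (by rw [h.pts]; omega)
  obtain ⟨z, hz, hmax⟩ := Finset.exists_max_image (univ.filter fun x => I x b)
    (fun x => (stabilizer G x).index) hne
  simp only [mem_filter, mem_univ, true_and] at hz hmax
  -- orbits of points on `b` stay on `b`
  have horb : ∀ x : P, I x b → ∀ g : G, I (g • x) b := by
    intro x hx g
    have h1 := (hA.inc g x b).2 hx
    rwa [hb g] at h1
  by_cases hS : stabilizer G z = ⊥
  · left
    have h1 : Nat.card G = (stabilizer G z).index := by rw [hS, Subgroup.index_bot]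
    rw [h1, index_stabilizer, ← h.pts b, ← Set.ncard_coe_finset]
    refine Set.ncard_le_ncard ?_ (Finset.finite_toSet _)
    rintro y ⟨g, rfl⟩
    simp only [coe_filter, mem_univ, true_and, Set.mem_ofPred_eq]
    exact horb z hz g
  · right
    have hM1 : 1 ≤ (stabilizer G z).index :=
      Nat.pos_of_ne_zero Subgroup.index_ne_zero_of_finite
    have hfix : (stabilizer G z).index ≤ (on I (fp P (stabilizer G z)) b).card := by
      rw [index_stabilizer, ← Set.ncard_coe_finset]
      refine Set.ncard_le_ncard ?_ (Finset.finite_toSet _)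
      rintro y ⟨g, rfl⟩
      rw [mem_coe, mem_on]
      refine ⟨mem_fp.2 fun s hs => ?_, horb z hz g⟩
      change s • g • z = g • z
      rw [smul_smul, hcomm s g, ← smul_smul, mem_stabilizer_iff.1 hs]
    obtain ⟨r, hr1, hr2, hr3⟩ := chain h hA hlam hk hp hcomm hb hM1 hmax _ (stabilizer G z) le_rfl
      hS hfix
    calc Nat.card G = Nat.card (stabilizer G z) * (stabilizer G z).index :=
          (Subgroup.card_mul_index _).symm
      _ ≤ (stabilizer G z).index ^ r * (stabilizer G z).index := Nat.mul_le_mul_right _ hr2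
      _ = (stabilizer G z).index ^ (r + 1) := (pow_succ _ _).symm
      _ ≤ (on I (fp P (stabilizer G z)) b).card ^ (r + 1) := Nat.pow_le_pow_left hfix _
      _ ≤ _ := hr3

end

end Pool.Agent.L0h26.Hall
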