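import Mathlib
import Pool.Agent.L0h26.HaB
import Pool.Agent.N345.Sym.Basic

set_option autoImplicit false

/-!
# From designs on `Fin v` to points and blocks with a group acting on both
-/

namespace Pool.Agent.L0h26.Hall

open Finset MulAction Pool.Agent.N345.Sym

/-- the blocks -/
def Blk {v : ℕ} (B : Fin v → Finset (Fin v)) : Type := {s : Finset (Fin v) // ∃ i, B i = s}

noncomputable instance {v : ℕ} (B : Fin v → Finset (Fin v)) : Fintype (Blk B) := by
  classical
  exact inferInstanceAs (Fintype {s : Finset (Fin v) // ∃ i, B i = s})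

/-- incidence -/
def Inc {v : ℕ} (B : Fin v → Finset (Fin v)) (x : Fin v) (m : Blk B) : Prop := x ∈ m.1

/-- the block number `i` -/
def blk {v : ℕ} (B : Fin v → Finset (Fin v)) (i : Fin v) : Blk B := ⟨B i, i, rfl⟩

theorem blk_surj {v : ℕ} {B : Fin v → Finset (Fin v)} (m : Blk B) : ∃ i, blk B i = m := by
  obtain ⟨s, i, hi⟩ := m
  exact ⟨i, Subtype.ext hi⟩

section

variable {v k lam : ℕ} {B : Fin v → Finset (Fin v)}

theorem blk_inj (h : Des v k lam B) (hlam : 1 ≤ lam) : Function.Injective (blk B) := by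
  intro i j hij
  exact h.inj hlam (congrArg Subtype.val hij)

open scoped Classical in
theorem sd_of_des (h : Des v k lam B) (hlam : 1 ≤ lam) : SD (Fin v) (Blk B) (Inc B) k lam := by
  have hinj := blk_inj h hlam
  have key : ∀ (Q : Blk B → Prop) [DecidablePred Q] [DecidablePred fun i => Q (blk B i)],
      (univ.filter fun m => Q m).card = (univ.filter fun i => Q (blk B i)).card := by
    intro Q _ _
    symm
    refine Finset.card_bij (fun i _ => blk B i) ?_ ?_ ?_
    · intro i hi
      rw [mem_filter] at hi ⊢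
      exact ⟨mem_univ _, hi.2⟩
    · intro i _ j _ hij
      exact hinj hij
    · intro m hm
      obtain ⟨i, rfl⟩ := blk_surj m
      rw [mem_filter] at hm
      exact ⟨i, mem_filter.2 ⟨mem_univ _, hm.2⟩, rfl⟩
  constructor
  · intro m
    obtain ⟨i, rfl⟩ := blk_surj m
    rw [← h.size i]
    congr 1
    ext x
    rw [mem_filter]
    exact ⟨fun h => h.2, fun h => ⟨mem_univ _, h⟩⟩
  · intro x
    rw [key (fun m => Inc B x m), ← h.rep hlam x]
    congr 1
    ext i
    rw [mem_filter, mem_filter]
    exact Iff.rfl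
  · intro x y hxy
    rw [key (fun m => Inc B x m ∧ Inc B y m), ← h.pair x y hxy]
    congr 1
    ext i
    rw [mem_filter, mem_filter]
    exact Iff.rfl
  · intro m n hmn
    obtain ⟨i, rfl⟩ := blk_surj m
    obtain ⟨j, rfl⟩ := blk_surj n
    have hij : i ≠ j := fun e => hmn (by rw [e])
    rw [← h.inter hlam hij]
    congr 1
    ext x
    rw [mem_filter, mem_inter]
    exact ⟨fun h => h.2, fun h => ⟨mem_univ _, h⟩⟩

end

section

variable {v : ℕ} {B : Fin v → Finset (Fin v)} (A : Subgroup (Equiv.Perm (Fin v)))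
  (hA : ∀ σ ∈ A, Pool.Agent.N345.Sym.Aut B σ)

/-- the action of a group of automorphisms on the blocks -/
@[reducible] def actB : MulAction A (Blk B) where
  smul g m := ⟨m.1.image g.1, by
    obtain ⟨i, hi⟩ := m.2
    obtain ⟨j, hj⟩ := hA g.1 g.2 i
    exact ⟨j, by rw [← hj, hi]⟩⟩
  one_smul m := by
    apply Subtype.ext
    change m.1.image ((1 : A) : Equiv.Perm (Fin v)) = m.1
    ext x
    simp
  mul_smul g g' m := by
    apply Subtype.ext
    change m.1.image ((g * g' : A) : Equiv.Perm (Fin v)) = (m.1.image g'.1).image g.1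
    rw [Finset.image_image]
    rfl

theorem actB_val (g : A) (m : Blk B) : (@SMul.smul A (Blk B) (actB A hA).toSMul g m).1 =
    m.1.image g.1 := rfl

theorem aut_act : @Aut A _ (Fin v) (Blk B) _ (actB A hA) (Inc B) := by
  let _ := actB A hA
  constructor
  · intro g x m
    change g.1 x ∈ m.1.image g.1 ↔ x ∈ m.1
    rw [Finset.mem_image]
    constructor
    · rintro ⟨y, hy, hyx⟩
      rwa [← g.1.injective hyx]
    · intro hx
      exact ⟨x, hx, rfl⟩
  · intro g hg
    apply Subtype.ext
    ext x
    exact congrArg Fin.val (hg x)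

/-- fixed blocks -/
theorem fix_blk {i : Fin v} (hi : ∀ σ ∈ A, (B i).image σ = B i) (g : A) :
    @SMul.smul A (Blk B) (actB A hA).toSMul g (blk B i) = blk B i := by
  apply Subtype.ext
  exact hi g.1 g.2

end

/-- the dual action -/
theorem Aut.dual {G : Type} [Group G] {P L : Type} [Fintype P] [Fintype L] [MulAction G P]
    [MulAction G L] {I : P → L → Prop} {k lam : ℕ} (hS : SD P L I k lam) (hkl : lam < k)
    (h : Aut G I) : Aut G (fun (m : L) (x : P) => I x m) := by
  classical
  refine ⟨fun g m x => h.inc g x m, fun g hg => h.faithful g fun x => ?_⟩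
  by_contra hne
  have h1 : (univ.filter fun m => I x m) ⊆ univ.filter fun m => I (g • x) m ∧ I x m := by
    intro m hm
    simp only [mem_filter, mem_univ, true_and] at hm ⊢
    refine ⟨?_, hm⟩
    have h2 := (h.inc g x m).2 hm
    rwa [hg m] at h2
  have h3 := card_le_card h1
  rw [hS.lns, hS.pp _ _ hne] at h3
  omega

end Pool.Agent.L0h26.Hall
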