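import Mathlib
import Pool.Agent.L0h26.HaC

set_option autoImplicit false
set_option linter.unusedSectionVars false
set_option linter.unusedVariables false

/-!
# Abelian `p`-groups of automorphisms: chains of fixed structures
-/

namespace Pool.Agent.L0h26.Hall

open Finset MulAction

theorem ncard_orbit_pow {H : Type} [Group H] [Finite H] {p a : ℕ} (hp : p.Prime)
    (hH : Nat.card H = p ^ a) {X : Type} [MulAction H X] (x : X) :
    ∃ j : ℕ, j ≤ a ∧ (orbit H x).ncard = p ^ j := by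
  have h1 : (orbit H x).ncard ∣ p ^ a := by
    rw [← hH, ← index_stabilizer]
    exact Subgroup.index_dvd_card _
  exact (Nat.dvd_prime_pow hp).1 h1

/-- if all orbits on an invariant set have length at least `p ^ e` then `p ^ e` divides the number of
its elements -/
theorem dvd_of_orbits {H : Type} [Group H] [Finite H] {p a : ℕ} (hp : p.Prime)
    (hH : Nat.card H = p ^ a) {X : Type} [MulAction H X] (e : ℕ) :
    ∀ n : ℕ, ∀ T : Finset X, T.card ≤ n → (∀ g : H, ∀ x ∈ T, g • x ∈ T) →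
      (∀ x ∈ T, p ^ e ≤ (orbit H x).ncard) → p ^ e ∣ T.card := by
  classical
  intro n
  induction n with
  | zero =>
    intro T hT _ _
    have : T.card = 0 := by omega
    rw [this]
    exact dvd_zero _
  | succ n ih =>
    intro T hT hinv hmin
    rcases T.eq_empty_or_nonempty with rfl | ⟨x, hx⟩
    · simp
    have hsub : orbit H x ⊆ (T : Set X) := by
      rintro y ⟨g, rfl⟩
      exact hinv g x hx
    have hfin : (orbit H x).Finite := T.finite_toSet.subset hsub
    set O := hfin.toFinset with hO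
    have hOT : O ⊆ T := by
      intro y hy
      rw [hO, Set.Finite.mem_toFinset] at hy
      exact hsub hy
    have hOc : O.card = (orbit H x).ncard := (Set.ncard_eq_toFinset_card _ hfin).symm
    obtain ⟨j, -, hj⟩ := ncard_orbit_pow hp hH x
    have h1 : p ^ e ∣ O.card := by
      rw [hOc, hj]
      have h2 := hmin x hx
      rw [hj] at h2
      exact Nat.pow_dvd_pow _ ((Nat.pow_le_pow_iff_right hp.one_lt).1 h2)
    have hxO : x ∈ O := by
      rw [hO, Set.Finite.mem_toFinset]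
      exact mem_orbit_self x
    have hOpos : 0 < O.card := card_pos.2 ⟨x, hxO⟩
    have h3 : (T \ O).card = T.card - O.card := card_sdiff_of_subset hOT
    have h4 := card_le_card hOT
    have h5 : p ^ e ∣ (T \ O).card := by
      refine ih (T \ O) (by omega) ?_ ?_
      · intro g y hy
        rw [mem_sdiff] at hy ⊢
        refine ⟨hinv g y hy.1, fun hg => hy.2 ?_⟩
        rw [hO, Set.Finite.mem_toFinset] at hg ⊢
        have h6 : g⁻¹ • g • y ∈ orbit H x := mem_orbit_of_mem_orbit g⁻¹ hg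
        rwa [inv_smul_smul] at h6
      · intro y hy
        exact hmin y (mem_sdiff.1 hy).1
    have h6 : T.card = (T \ O).card + O.card := by omega
    rw [h6]
    exact dvd_add h5 h1


/-- `q = p ^ e` divides `k - f`, `q ≥ Y` and `q > (f - 1) ^ (1 + 1 / r)` -/
def Wit (p k lam Y r : ℕ) : Prop :=
  ∃ e f : ℕ, 1 ≤ e ∧ 2 ≤ f ∧ (f - 1) ^ 2 + lam ≤ k ∧ Y ≤ p ^ e ∧ p ^ e ≤ k ∧ p ^ e ∣ k - f ∧
    (f - 1) ^ (r + 1) < (p ^ e) ^ r

theorem ar_small {f g M r Y K : ℕ} (hf : 2 ≤ f) (h : (f - 1) ^ 2 + 2 ≤ g) (hM : M ≤ g)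
    {s : ℕ} (ih : s ^ r * (g - 1) ^ (2 * r) ≤ Y ^ (4 * r) * K) :
    (s * M) ^ r * (f - 1) ^ (2 * r) ≤ Y ^ (4 * r) * K := by
  refine le_trans ?_ ih
  obtain ⟨u, rfl⟩ : ∃ u, f = u + 1 := ⟨f - 1, by omega⟩
  obtain ⟨w, rfl⟩ : ∃ w, g = w + 2 := ⟨g - 2, by omega⟩
  have e1 : w + 2 - 1 = w + 1 := by omega
  rw [e1]
  simp only [Nat.add_sub_cancel] at h ⊢
  have h1 : M * u ^ 2 ≤ (w + 1) ^ 2 := by
    calc M * u ^ 2 ≤ (w + 2) * w := Nat.mul_le_mul hM (by omega)
      _ ≤ (w + 1) ^ 2 := by nlinarith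
  rw [mul_pow, mul_assoc, pow_mul, pow_mul, ← mul_pow]
  exact Nat.mul_le_mul_left _ (Nat.pow_le_pow_left h1 r)

theorem ar_large {f g M r K : ℕ} (hf : 2 ≤ f) (h : (f - 1) ^ 2 + 2 ≤ g)
    (hM : M ^ r ≤ (f - 1) ^ (r + 1)) {s : ℕ} (ih : s ^ r * (g - 1) ^ (r + 1) ≤ K) :
    (s * M) ^ r * (f - 1) ^ (r + 1) ≤ K := by
  refine le_trans ?_ ih
  rw [mul_pow, mul_assoc]
  refine Nat.mul_le_mul_left _ ?_
  calc M ^ r * (f - 1) ^ (r + 1) ≤ (f - 1) ^ (r + 1) * (f - 1) ^ (r + 1) :=
        Nat.mul_le_mul_right _ hM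
    _ = ((f - 1) ^ 2) ^ (r + 1) := by ring
    _ ≤ (g - 1) ^ (r + 1) := Nat.pow_le_pow_left (by omega) _

variable {P L : Type} [Fintype P] [Fintype L] {I : P → L → Prop} {k lam : ℕ}
variable {G : Type} [Group G] [Finite G] [MulAction G P] [MulAction G L]

omit [Finite G] in
theorem relIndex_orbit {X : Type} [MulAction G X] (S : Subgroup G) (z : X) :
    (stabilizer G z).relIndex S = (orbit S z).ncard := by
  rw [← index_stabilizer]
  rfl

section

variable (h : SD P L I k lam) (hA : Aut G I) (hlam : 2 ≤ lam) (hk : 2 ≤ k) {p a : ℕ}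
  (hp : p.Prime) (hG : Nat.card G = p ^ a) (hpl : lam < p)

include h hA hlam hk hp hG hpl

theorem primes_gt : ∀ q : ℕ, q.Prime → q ∣ Nat.card G → lam < q := by
  intro q hq hd
  rw [hG] at hd
  rw [(Nat.prime_dvd_prime_iff_eq hq hp).1 (hq.dvd_of_dvd_pow hd)]
  exact hpl

/-- one step: the smallest nontrivial orbit on a fixed block -/
theorem step {S : Subgroup G} (hS : S ≠ ⊥) {b : L} (hb : ∀ g ∈ S, g • b = b)
    (hf : 1 ≤ (on I (fp P S) b).card) :
    ∃ (e : ℕ) (z : P), 1 ≤ e ∧ I z b ∧ z ∉ fp P S ∧ (orbit S z).ncard = p ^ e ∧ p ^ e ≤ k ∧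
      p ^ e ∣ k - (on I (fp P S) b).card ∧ Nat.card S = Nat.card ↥(stabilizer G z ⊓ S) * p ^ e ∧
      (stabilizer G z ⊓ S ≠ ⊥ →
        ((on I (fp P S) b).card - 1) ^ 2 + lam ≤ (on I (fp P (stabilizer G z ⊓ S)) b).card) := by
  classical
  have hpr := primes_gt h hA hlam hk hp hG hpl
  obtain ⟨c, hc⟩ : ∃ c, Nat.card S = p ^ c := by
    have h1 : Nat.card S ∣ p ^ a := by rw [← hG]; exact Subgroup.card_subgroup_dvd_card S
    obtain ⟨c, -, hc⟩ := (Nat.dvd_prime_pow hp).1 h1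
    exact ⟨c, hc⟩
  set T := (univ.filter fun x => I x b) \ fp P S with hT
  have hinvb : ∀ g : S, ∀ x, I x b → I (g • x) b := by
    intro g x hx
    have h1 := (hA.inc g.1 x b).2 hx
    rwa [hb g.1 g.2] at h1
  have hTne : T.Nonempty := by
    by_contra hcon
    rw [not_nonempty_iff_eq_empty, hT, sdiff_eq_empty_iff_subset] at hcon
    exact hS (axial_trivial h hA hlam hk hpr S (b := b) fun x hx => hcon (by simp [hx]))
  obtain ⟨z, hz, hmin⟩ := Finset.exists_min_image T (fun x => (orbit S x).ncard) hTne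
  have hz' : I z b ∧ z ∉ fp P S := by
    rw [hT, mem_sdiff, mem_filter] at hz
    exact ⟨hz.1.2, hz.2⟩
  obtain ⟨e, -, he⟩ := ncard_orbit_pow hp hc z
  have hTinv : ∀ g : S, ∀ x ∈ T, g • x ∈ T := by
    intro g x hx
    rw [hT, mem_sdiff, mem_filter] at hx ⊢
    refine ⟨⟨mem_univ _, hinvb g x hx.1.2⟩, fun hg => hx.2 ?_⟩
    rw [mem_fp] at hg ⊢
    have h1 : g • x = x := by
      have h2 := hg (g⁻¹ : S).1 (g⁻¹ : S).2
      have h3 : (g⁻¹ : S) • g • x = g • x := h2
      rw [inv_smul_smul] at h3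
      exact h3.symm
    rwa [h1] at hg
  have he1 : 1 ≤ e := by
    by_contra hcon
    have h1 : e = 0 := by omega
    rw [h1, pow_zero] at he
    obtain ⟨y, hy⟩ := Set.ncard_eq_one.1 he
    refine hz'.2 (mem_fp.2 fun g hg => ?_)
    have e1 : g • z ∈ orbit S z := ⟨⟨g, hg⟩, rfl⟩
    have e2 : z ∈ orbit S z := mem_orbit_self z
    rw [hy, Set.mem_singleton_iff] at e1 e2
    rw [e1, e2]
  have hTc : T.card = k - (on I (fp P S) b).card := by
    have h1 : (on I (fp P S) b) = (univ.filter fun x => I x b) ∩ fp P S := by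
      ext x
      rw [mem_on, mem_inter, mem_filter]
      exact ⟨fun hx => ⟨⟨mem_univ _, hx.2⟩, hx.1⟩, fun hx => ⟨hx.2, hx.1.2⟩⟩
    have h2 := card_sdiff_add_card_inter (univ.filter fun x => I x b) (fp P S)
    rw [← hT, ← h1, h.pts b] at h2
    omega
  have hek : p ^ e ≤ k := by
    rw [← he, ← h.pts b, ← Set.ncard_coe_finset]
    refine Set.ncard_le_ncard ?_ (Finset.finite_toSet _)
    rintro y ⟨g, rfl⟩
    rw [mem_coe, mem_filter]
    exact ⟨mem_univ _, hinvb g z hz'.1⟩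
  refine ⟨e, z, he1, hz'.1, hz'.2, he, hek, ?_, ?_, ?_⟩
  · rw [← hTc]
    refine dvd_of_orbits hp hc e _ T le_rfl hTinv fun x hx => ?_
    rw [← he]
    exact hmin x hx
  · rw [inf_card S (stabilizer G z), relIndex_orbit, he]
  · intro hbot
    obtain ⟨x, hx⟩ := card_pos.1 (show 0 < (on I (fp P S) b).card by omega)
    have hsub : ∀ {X : Type} [Fintype X] [MulAction G X], fp X S ⊆ fp X (stabilizer G z ⊓ S) := by
      intro X _ _ y hy
      rw [mem_fp] at hy ⊢
      intro g hg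
      exact hy g (Subgroup.mem_inf.1 hg).2
    have hzf : z ∈ fp P (stabilizer G z ⊓ S) := by
      rw [mem_fp]
      intro g hg
      exact (Subgroup.mem_inf.1 hg).1
    exact nested h (cl_fp h hA hpr S) (cl_fp h hA hpr (stabilizer G z ⊓ S)) hsub hsub hlam
      (mem_on.1 hx).1 (mem_fp.2 hb) (mem_on.1 hx).2 hzf hz'.2 hz'.1

/-- **The chain of fixed structures.** -/
theorem chainW (hcomm : ∀ x y : G, x * y = y * x) {Y r : ℕ} (hY : 1 ≤ Y) (hr : 1 ≤ r)
    (hno : ¬ Wit p k lam Y r) :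
    ∀ n : ℕ, ∀ (S : Subgroup G) (b : L), Nat.card S ≤ n → S ≠ ⊥ → (∀ g ∈ S, g • b = b) →
      2 ≤ (on I (fp P S) b).card →
      ((Y ≤ (on I (fp P S) b).card - 1 ∨ Y ≤ p) →
        Nat.card S ^ r * ((on I (fp P S) b).card - 1) ^ (r + 1) ≤ k ^ (r + 1)) ∧
      ((on I (fp P S) b).card - 1 < Y →
        Nat.card S ^ r * ((on I (fp P S) b).card - 1) ^ (2 * r) ≤ Y ^ (4 * r) * k ^ (r + 1)) := by
  classical
  intro n
  induction n with
  | zero =>
    intro S b hS
    have : 0 < Nat.card S := Nat.card_pos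
    omega
  | succ n ih =>
    intro S b hSn hS hb hf
    have hpr := primes_gt h hA hlam hk hp hG hpl
    obtain ⟨e, z, he1, hzb, hzF, horb, hek, hdvd, hcard, hnest⟩ :=
      step h hA hlam hk hp hG hpl hS hb (by omega)
    obtain ⟨x, hx⟩ := card_pos.1 (show 0 < (on I (fp P S) b).card by omega)
    have hbd := fix_on_block h hA hlam hk hpr hS hb hx
    set f := (on I (fp P S) b).card with hfdef
    set M := p ^ e with hM
    have hMp : p ≤ M := by
      calc p = p ^ 1 := (pow_one p).symm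
        _ ≤ p ^ e := Nat.pow_le_pow_right hp.pos he1
    have hMr : M < Y ∨ M ^ r ≤ (f - 1) ^ (r + 1) := by
      by_contra hcon
      push Not at hcon
      exact hno ⟨e, f, he1, hf, hbd, hcon.1, hek, hdvd, hcon.2⟩
    have hlt : Nat.card ↥(stabilizer G z ⊓ S) < Nat.card S := by
      rw [hcard]
      have h6 : 0 < Nat.card ↥(stabilizer G z ⊓ S) := Nat.card_pos
      have h7 : 2 ≤ M := le_trans hp.two_le hMp
      nlinarith
    have hMf : Y ≤ f - 1 ∨ Y ≤ p → M ^ r ≤ (f - 1) ^ (r + 1) := by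
      intro h1
      rcases hMr with h2 | h2
      · rcases h1 with h1 | h1
        · calc M ^ r ≤ (f - 1) ^ r := Nat.pow_le_pow_left (by omega) r
            _ ≤ (f - 1) ^ (r + 1) := Nat.pow_le_pow_right (by omega) (by omega)
        · omega
      · exact h2
    by_cases hbot : stabilizer G z ⊓ S = ⊥
    · have hc1 : Nat.card S = M := by rw [hcard, hbot, Subgroup.card_bot, one_mul]
      rw [hc1]
      have hsq : (f - 1) ^ 2 ≤ k := by omega
      constructor
      · intro h1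
        calc M ^ r * (f - 1) ^ (r + 1) ≤ (f - 1) ^ (r + 1) * (f - 1) ^ (r + 1) :=
              Nat.mul_le_mul_right _ (hMf h1)
          _ = ((f - 1) ^ 2) ^ (r + 1) := by ring
          _ ≤ k ^ (r + 1) := Nat.pow_le_pow_left hsq _
      · intro h1
        have h2 : M ^ r ≤ Y ^ (2 * r) := by
          rcases hMr with h2 | h2
          · calc M ^ r ≤ Y ^ r := Nat.pow_le_pow_left h2.le r
              _ ≤ Y ^ (2 * r) := Nat.pow_le_pow_right hY (by omega)
          · calc M ^ r ≤ (f - 1) ^ (r + 1) := h2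
              _ ≤ Y ^ (r + 1) := Nat.pow_le_pow_left h1.le _
              _ ≤ Y ^ (2 * r) := Nat.pow_le_pow_right hY (by omega)
        calc M ^ r * (f - 1) ^ (2 * r) ≤ Y ^ (2 * r) * Y ^ (2 * r) :=
              Nat.mul_le_mul h2 (Nat.pow_le_pow_left h1.le _)
          _ = Y ^ (4 * r) * 1 := by ring
          _ ≤ Y ^ (4 * r) * k ^ (r + 1) := Nat.mul_le_mul_left _ (Nat.one_le_pow _ _ (by omega))
    · have hn := hnest hbot
      set g := (on I (fp P (stabilizer G z ⊓ S)) b).card with hg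
      have hn2 : (f - 1) ^ 2 + 2 ≤ g := by omega
      have hg2 : 2 ≤ g := by omega
      have hmono : f - 1 ≤ g - 1 := by
        have h1 : f - 1 ≤ (f - 1) ^ 2 := Nat.le_self_pow (by norm_num) _
        omega
      obtain ⟨i1, i2⟩ := ih (stabilizer G z ⊓ S) b (by omega) hbot
        (fun g hg => hb g (Subgroup.mem_inf.1 hg).2) hg2
      rw [← hg] at i1 i2
      rw [hcard]
      constructor
      · intro h1
        exact ar_large hf hn2 (hMf h1) (i1 (h1.imp (fun h => h.trans hmono) id))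
      · intro h1
        by_cases h3 : g - 1 < Y
        · -- `M ≤ g` as the group is commutative
          have hMg : M ≤ g := by
            rw [← horb, hg, ← Set.ncard_coe_finset]
            refine Set.ncard_le_ncard ?_ (Finset.finite_toSet _)
            rintro y ⟨c, rfl⟩
            rw [mem_coe, mem_on]
            refine ⟨mem_fp.2 fun s hs => ?_, ?_⟩
            · change s • c.1 • z = c.1 • z
              rw [smul_smul, hcomm s c.1, ← smul_smul,
                mem_stabilizer_iff.1 (Subgroup.mem_inf.1 hs).1]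
            · have h5 := (hA.inc c.1 z b).2 hzb
              rwa [hb c.1 c.2] at h5
          exact ar_small hf hn2 hMg (i2 h3)
        · push Not at h3
          have i3 := i1 (Or.inl h3)
          have h2 : M ^ r ≤ Y ^ (2 * r) := by
            rcases hMr with h2 | h2
            · calc M ^ r ≤ Y ^ r := Nat.pow_le_pow_left h2.le r
                _ ≤ Y ^ (2 * r) := Nat.pow_le_pow_right hY (by omega)
            · calc M ^ r ≤ (f - 1) ^ (r + 1) := h2
                _ ≤ Y ^ (r + 1) := Nat.pow_le_pow_left h1.le _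
                _ ≤ Y ^ (2 * r) := Nat.pow_le_pow_right hY (by omega)
          have h4 : Nat.card ↥(stabilizer G z ⊓ S) ^ r ≤ k ^ (r + 1) := by
            refine le_trans ?_ i3
            exact Nat.le_mul_of_pos_right _ (Nat.pos_of_ne_zero (by
              have : g - 1 ≠ 0 := by omega
              exact pow_ne_zero _ this))
          calc (Nat.card ↥(stabilizer G z ⊓ S) * M) ^ r * (f - 1) ^ (2 * r)
              = Nat.card ↥(stabilizer G z ⊓ S) ^ r * (M ^ r * (f - 1) ^ (2 * r)) := by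
                rw [mul_pow, mul_assoc]
            _ ≤ k ^ (r + 1) * (Y ^ (2 * r) * Y ^ (2 * r)) :=
                Nat.mul_le_mul h4 (Nat.mul_le_mul h2 (Nat.pow_le_pow_left h1.le _))
            _ = Y ^ (4 * r) * k ^ (r + 1) := by ring

/-- no fixed points -/
theorem abelian_fpf (hcomm : ∀ x y : G, x * y = y * x) (hlk : lam < k) (h1 : k < Nat.card G)
    (h2 : (Nat.sqrt (k - lam) + 1) ^ 2 < Nat.card G) : ∀ x : P, ∃ g : G, g • x ≠ x := by
  intro x
  by_contra hcon
  push Not at hcon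
  have hpr := primes_gt h hA hlam hk hp hG hpl
  rcases abelian_bound h.dual (hA.dual h hlk) hlam hk hpr hcomm (b := x) hcon with h3 | h3 <;> omega

/-- a point stabilizer of a group without fixed points -/
theorem stab_facts (hcomm : ∀ x y : G, x * y = y * x) (hfpf : ∀ x : P, ∃ g : G, g • x ≠ x) (x : P) :
    ∃ b : L, (∀ g ∈ stabilizer G x, g • b = b) ∧ 2 ≤ (on I (fp P (stabilizer G x)) b).card := by
  classical
  have hpr := primes_gt h hA hlam hk hp hG hpl
  have hC := cl_fp h hA hpr (stabilizer G x)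
  obtain ⟨g, hg⟩ := hfpf x
  have hx : x ∈ fp P (stabilizer G x) := mem_fp.2 fun s hs => hs
  have hy : g • x ∈ fp P (stabilizer G x) := mem_fp.2 fun s hs => by
    rw [smul_smul, hcomm s g, ← smul_smul, mem_stabilizer_iff.1 hs]
  obtain ⟨b, hb⟩ := card_pos.1 (show 0 < (univ.filter fun m => I x m ∧ I (g • x) m).card by
    rw [h.pp x (g • x) (Ne.symm hg)]; omega)
  rw [mem_filter] at hb
  have hbE := hC.join x hx (g • x) hy (Ne.symm hg) b hb.2.1 hb.2.2
  refine ⟨b, fun s hs => mem_fp.1 hbE s hs, ?_⟩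
  have h1 : ({x, g • x} : Finset P) ⊆ on I (fp P (stabilizer G x)) b := by
    intro y hyy
    rw [mem_insert, mem_singleton] at hyy
    rw [mem_on]
    rcases hyy with rfl | rfl
    · exact ⟨hx, hb.2.1⟩
    · exact ⟨hy, hb.2.2⟩
  rw [← card_pair (Ne.symm hg)]
  exact card_le_card h1

theorem smallest [Nonempty P] (hfpf : ∀ x : P, ∃ g : G, g • x ≠ x) :
    ∃ (j : ℕ) (x : P), 1 ≤ j ∧ Nat.card (stabilizer G x) * p ^ j = p ^ a ∧
      p ^ j ∣ k * (k - 1) + lam := by
  classical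
  obtain ⟨x, -, hmin⟩ := Finset.exists_min_image (univ : Finset P) (fun x => (orbit G x).ncard)
    univ_nonempty
  obtain ⟨j, -, hj⟩ := ncard_orbit_pow hp hG x
  have hj1 : 1 ≤ j := by
    by_contra hcon
    have h1 : j = 0 := by omega
    rw [h1, pow_zero] at hj
    obtain ⟨y, hy⟩ := Set.ncard_eq_one.1 hj
    obtain ⟨g, hg⟩ := hfpf x
    have e1 : g • x ∈ orbit G x := mem_orbit x g
    have e2 : x ∈ orbit G x := mem_orbit_self x
    rw [hy, Set.mem_singleton_iff] at e1 e2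
    exact hg (e1.trans e2.symm)
  have hd := dvd_of_orbits hp hG j _ (univ : Finset P) le_rfl (fun _ _ _ => mem_univ _)
    (fun y hy => hj ▸ hmin y hy)
  refine ⟨j, x, hj1, ?_, ?_⟩
  · rw [← hj, ← index_stabilizer, Subgroup.card_mul_index, hG]
  · have hCu : Cl I (univ : Finset P) (univ : Finset L) :=
      ⟨fun _ _ _ _ _ _ _ _ => mem_univ _, fun _ _ _ _ _ _ _ _ => mem_univ _⟩
    obtain ⟨b, hb⟩ := card_pos.1 (show 0 < (univ.filter fun m => I x m).card by rw [h.lns]; omega)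
    rw [mem_filter] at hb
    have h1 := card_pts h hCu hlam (mem_univ x) (mem_univ b) hb.2
    have h2 : (on I (univ : Finset P) b).card = k := h.pts b
    rw [h2] at h1
    have h3 : 1 ≤ (univ : Finset P).card := card_pos.2 univ_nonempty
    have h4 : k * (k - 1) + lam = lam * (univ : Finset P).card := by
      rw [← h1]
      obtain ⟨c, hc⟩ : ∃ c, (univ : Finset P).card = c + 1 := ⟨(univ : Finset P).card - 1, by omega⟩
      rw [hc, Nat.add_sub_cancel]
      ring
    rw [h4]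
    exact hd.mul_left _

omit [Fintype P] [Fintype L] [Group G] [Finite G] [MulAction G P] [MulAction G L] h hA hlam hk hG
  hpl in
theorem phi_dvd {f e : ℕ} (he : 1 ≤ e) (hf : 1 ≤ f) (hfk : f ≤ k) (h1 : p ^ e ∣ k - f)
    (h2 : p ∣ k * (k - 1) + lam) : p ∣ f * (f - 1) + lam := by
  have h3 : p ∣ k - f := (dvd_pow_self p (by omega)).trans h1
  have h4 : k * (k - 1) + lam = (k - f) * (k + f - 1) + (f * (f - 1) + lam) := by
    obtain ⟨u, rfl⟩ := Nat.exists_eq_add_of_le hfk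
    obtain ⟨w, rfl⟩ : ∃ w, f = w + 1 := ⟨f - 1, by omega⟩
    have e1 : w + 1 + u - 1 = w + u := by omega
    have e2 : w + 1 + u - (w + 1) = u := by omega
    have e3 : w + 1 + u + (w + 1) - 1 = 2 * w + u + 1 := by omega
    have e4 : w + 1 - 1 = w := by omega
    rw [e1, e2, e3, e4]
    ring
  rw [h4] at h2
  exact (Nat.dvd_add_right (h3.mul_right _)).1 h2

/-- **Large abelian `p`-groups.** -/
theorem main_cases [Nonempty P] (hcomm : ∀ x y : G, x * y = y * x) (hlk : lam < k) (ha : 2 ≤ a)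
    (h1 : k < Nat.card G) (h2 : (Nat.sqrt (k - lam) + 1) ^ 2 < Nat.card G) {Y r : ℕ} (hY : 1 ≤ Y)
    (hr : 1 ≤ r) (hbig : Y ^ (5 * r) * k ^ (r + 1) < (p ^ a) ^ r) :
    (∃ e f : ℕ, 1 ≤ e ∧ 2 ≤ f ∧ (f - 1) ^ 2 + lam ≤ k ∧ Y ≤ p ^ e ∧ p ^ e ≤ k ∧ p ^ e ∣ k - f ∧
      (f - 1) ^ (r + 1) < (p ^ e) ^ r ∧ p ∣ f * (f - 1) + lam) ∨
    ∃ j : ℕ, 2 ≤ j ∧ Y ≤ p ^ j ∧ p ^ j ∣ k * (k - 1) + lam := by
  classical
  have hfpf := abelian_fpf h hA hlam hk hp hG hpl hcomm hlk h1 h2
  obtain ⟨j, x, hj1, hjc, hjd⟩ := smallest h hA hlam hk hp hG hpl hfpf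
  have hpd : p ∣ k * (k - 1) + lam := (dvd_pow_self p (by omega)).trans hjd
  by_cases hW : Wit p k lam Y r
  · left
    obtain ⟨e, f, g1, g2, g3, g4, g5, g6, g7⟩ := hW
    have hfk : f ≤ k := by
      have h5 : f - 1 ≤ (f - 1) ^ 2 := Nat.le_self_pow (by norm_num) _
      omega
    exact ⟨e, f, g1, g2, g3, g4, g5, g6, g7, phi_dvd hp g1 (by omega) hfk g6 hpd⟩
  right
  have hkr : 1 ≤ k ^ (r + 1) := Nat.one_le_pow _ _ (by omega)
  by_cases hS : stabilizer G x = ⊥
  · rw [hS, Subgroup.card_bot, one_mul] at hjc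
    have hja : j = a := Nat.pow_right_injective hp.two_le hjc
    refine ⟨j, by omega, ?_, hjd⟩
    rw [hja]
    by_contra hcon
    push Not at hcon
    have h5 : (p ^ a) ^ r ≤ Y ^ r := Nat.pow_le_pow_left hcon.le r
    have h6 : Y ^ r ≤ Y ^ (5 * r) := Nat.pow_le_pow_right hY (by omega)
    have h7 : Y ^ (5 * r) ≤ Y ^ (5 * r) * k ^ (r + 1) := Nat.le_mul_of_pos_right _ (by omega)
    omega
  obtain ⟨b, hb, hf⟩ := stab_facts h hA hlam hk hp hG hpl hcomm hfpf x
  obtain ⟨c1, c2⟩ := chainW h hA hlam hk hp hG hpl hcomm hY hr hW _ (stabilizer G x) b le_rfl hS hb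
    hf
  have hpos : ∀ n : ℕ, 1 ≤ ((on I (fp P (stabilizer G x)) b).card - 1) ^ n :=
    fun n => Nat.one_le_pow _ _ (by omega)
  have hSr : Nat.card (stabilizer G x) ^ r ≤ Y ^ (4 * r) * k ^ (r + 1) := by
    by_cases h5 : Y ≤ (on I (fp P (stabilizer G x)) b).card - 1
    · calc Nat.card (stabilizer G x) ^ r ≤ _ := Nat.le_mul_of_pos_right _ (hpos (r + 1))
        _ ≤ k ^ (r + 1) := c1 (Or.inl h5)
        _ ≤ _ := Nat.le_mul_of_pos_left _ (Nat.pow_pos (by omega))
    · calc Nat.card (stabilizer G x) ^ r ≤ _ := Nat.le_mul_of_pos_right _ (hpos (2 * r))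
        _ ≤ _ := c2 (by omega)
  have hYj : Y < p ^ j := by
    by_contra hcon
    push Not at hcon
    have h5 : (p ^ a) ^ r ≤ Y ^ (5 * r) * k ^ (r + 1) := by
      rw [← hjc, mul_pow]
      calc Nat.card (stabilizer G x) ^ r * (p ^ j) ^ r ≤ Y ^ (4 * r) * k ^ (r + 1) * Y ^ r :=
            Nat.mul_le_mul hSr (Nat.pow_le_pow_left hcon r)
        _ = Y ^ (5 * r) * k ^ (r + 1) := by ring
    omega
  by_cases hj2 : 2 ≤ j
  · exact ⟨j, hj2, hYj.le, hjd⟩
  exfalso
  have hj : j = 1 := by omega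
  rw [hj, pow_one] at hYj hjc
  have c3 := c1 (Or.inr hYj.le)
  obtain ⟨e, z, he1, hzb, hzF, horb, hek, hdvd, hcard, hnest⟩ :=
    step h hA hlam hk hp hG hpl hS hb (by omega)
  obtain ⟨y, hy⟩ := card_pos.1 (show 0 < (on I (fp P (stabilizer G x)) b).card by omega)
  have hbd := fix_on_block h hA hlam hk (primes_gt h hA hlam hk hp hG hpl) hS hb hy
  have hMp : p ≤ p ^ e := by
    calc p = p ^ 1 := (pow_one p).symm
      _ ≤ p ^ e := Nat.pow_le_pow_right hp.pos he1
  have h5 : (p ^ e) ^ r ≤ ((on I (fp P (stabilizer G x)) b).card - 1) ^ (r + 1) := by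
    by_contra hcon
    push Not at hcon
    exact hW ⟨e, _, he1, hf, hbd, by omega, hek, hdvd, hcon⟩
  have h6 : (p ^ a) ^ r ≤ k ^ (r + 1) := by
    rw [← hjc, mul_pow]
    calc Nat.card (stabilizer G x) ^ r * p ^ r ≤ Nat.card (stabilizer G x) ^ r *
          ((on I (fp P (stabilizer G x)) b).card - 1) ^ (r + 1) :=
          Nat.mul_le_mul_left _ ((Nat.pow_le_pow_left hMp r).trans h5)
      _ ≤ _ := c3
  have h7 : k ^ (r + 1) ≤ Y ^ (5 * r) * k ^ (r + 1) :=
    Nat.le_mul_of_pos_left _ (Nat.pow_pos (by omega))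
  omega

end

/-- **Groups of order `p ^ 2`.** -/
theorem sq_cases [Nonempty P] (h : SD P L I k lam) (hA : Aut G I) (hlam : 2 ≤ lam) (hk : 2 ≤ k)
    {p : ℕ} (hp : p.Prime) (hG : Nat.card G = p ^ 2) (hpl : lam < p) (hlk : lam < k)
    (hkp : k ≤ (p - 1) ^ 2) :
    (p ^ 2 ∣ k * (k - 1) + lam) ∨
    ∃ f : ℕ, 2 ≤ f ∧ f < p ∧ (f - 1) ^ 2 + lam ≤ k ∧ p ∣ k - f ∧ p ∣ f * (f - 1) + lam := by
  classical
  have hcomm : ∀ x y : G, x * y = y * x := by
    have : Fact p.Prime := ⟨hp⟩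
    have := IsPGroup.isMulCommutative_of_card_eq_prime_sq hG
    exact fun x y => mul_comm' x y
  have hp2 := hp.two_le
  have hk1 : k < Nat.card G := by
    rw [hG]
    refine lt_of_le_of_lt hkp (Nat.pow_lt_pow_left (by omega) (by norm_num))
  have hk2 : (Nat.sqrt (k - lam) + 1) ^ 2 < Nat.card G := by
    rw [hG]
    refine Nat.pow_lt_pow_left ?_ (by norm_num)
    have h1 : Nat.sqrt (k - lam) < p - 1 := by
      rw [Nat.sqrt_lt']
      omega
    omega
  have hfpf := abelian_fpf h hA hlam hk hp hG hpl hcomm hlk hk1 hk2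
  obtain ⟨j, x, hj1, hjc, hjd⟩ := smallest h hA hlam hk hp hG hpl hfpf
  by_cases hj2 : 2 ≤ j
  · left
    exact (Nat.pow_dvd_pow p hj2).trans hjd
  right
  have hj : j = 1 := by omega
  rw [hj, pow_one] at hjc hjd
  have hS : stabilizer G x ≠ ⊥ := by
    intro hbot
    rw [hbot, Subgroup.card_bot, one_mul, pow_two] at hjc
    have h5 : p * 1 < p * p := Nat.mul_lt_mul_of_pos_left hp.one_lt hp.pos
    omega
  obtain ⟨b, hb, hf⟩ := stab_facts h hA hlam hk hp hG hpl hcomm hfpf x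
  obtain ⟨e, z, he1, hzb, hzF, horb, hek, hdvd, hcard, hnest⟩ :=
    step h hA hlam hk hp hG hpl hS hb (by omega)
  obtain ⟨y, hy⟩ := card_pos.1 (show 0 < (on I (fp P (stabilizer G x)) b).card by omega)
  have hbd := fix_on_block h hA hlam hk (primes_gt h hA hlam hk hp hG hpl) hS hb hy
  set f := (on I (fp P (stabilizer G x)) b).card
  have hfk : f ≤ k := by
    have h5 : f - 1 ≤ (f - 1) ^ 2 := Nat.le_self_pow (by norm_num) _
    omega
  refine ⟨f, hf, ?_, hbd, (dvd_pow_self p (by omega)).trans hdvd,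
    phi_dvd hp he1 (by omega) hfk hdvd hjd⟩
  by_contra hcon
  push Not at hcon
  have h5 : (p - 1) ^ 2 ≤ (f - 1) ^ 2 := Nat.pow_le_pow_left (by omega) 2
  omega

end Pool.Agent.L0h26.Hall
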