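import Mathlib

set_option autoImplicit false

/-!
# Counting: values `k (k - 1) + lam` with large square factors and related conditions
-/

namespace Pool.Agent.L0h26.HallE

open Finset

/-- the polynomial -/
def ph (lam k : ℕ) : ℕ := k * (k - 1) + lam

theorem card_cls (q c X : ℕ) : ((range (X + 1)).filter fun k => k % q = c % q).card ≤ X / q + 1 := by
  rw [← card_range (X / q + 1)]
  refine card_le_card_of_injOn (fun k => k / q) ?_ ?_
  · intro k hk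
    simp only [coe_filter, Set.mem_ofPred_eq, mem_range] at hk
    simp only [coe_range, Set.mem_Iio]
    exact Nat.lt_succ_of_le (Nat.div_le_div_right (by omega))
  · intro k hk k' hk' hkk
    simp only [coe_filter, Set.mem_ofPred_eq, mem_range] at hk hk'
    simp only at hkk
    rw [← Nat.div_add_mod k q, ← Nat.div_add_mod k' q, hkk, hk.2, hk'.2]

theorem ph_sq {lam k : ℕ} (hk : 1 ≤ k) (hlam : 1 ≤ lam) :
    4 * ph lam k = (2 * k - 1) ^ 2 + (4 * lam - 1) := by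
  obtain ⟨u, rfl⟩ : ∃ u, k = u + 1 := ⟨k - 1, by omega⟩
  obtain ⟨w, rfl⟩ : ∃ w, lam = w + 1 := ⟨lam - 1, by omega⟩
  unfold ph
  have e1 : 2 * (u + 1) - 1 = 2 * u + 1 := by omega
  have e2 : 4 * (w + 1) - 1 = 4 * w + 3 := by omega
  rw [e1, e2, Nat.add_sub_cancel]
  ring

theorem ph_add {lam k u : ℕ} (hk : 1 ≤ k) : ph lam (k + u) = u * (2 * k + u - 1) + ph lam k := by
  obtain ⟨w, rfl⟩ : ∃ w, k = w + 1 := ⟨k - 1, by omega⟩
  unfold ph
  have e1 : w + 1 + u - 1 = w + u := by omega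
  have e2 : 2 * (w + 1) + u - 1 = 2 * w + u + 1 := by omega
  rw [e1, e2, Nat.add_sub_cancel]
  ring

/-- the solutions of `p ^ i ∣ k (k - 1) + lam` lie in two residue classes -/
theorem roots (lam : ℕ) (hlam : 1 ≤ lam) {p : ℕ} (hp : p.Prime) (i X : ℕ) :
    ((((Icc 1 X).filter fun k => p ^ i ∣ ph lam k).card : ℕ) : ℝ) ≤
      2 * ((X : ℝ) * (4 * lam) / (p : ℝ) ^ i + 1) := by
  set K := (Icc 1 X).filter fun k => p ^ i ∣ ph lam k with hK
  rcases K.eq_empty_or_nonempty with h0 | hne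
  · rw [h0]
    simp only [card_empty, Nat.cast_zero]
    positivity
  set k1 := K.min' hne with hk1
  have hk1K : k1 ∈ K := K.min'_mem hne
  have hk1' : (1 ≤ k1 ∧ k1 ≤ X) ∧ p ^ i ∣ ph lam k1 := by
    rw [hK, mem_filter, mem_Icc] at hk1K
    exact hk1K
  set N := 4 * lam - 1 with hN
  set q := p ^ i with hq
  have hq0 : 0 < q := pow_pos hp.pos i
  set g := Nat.gcd q N with hg
  have hg0 : 0 < g := Nat.gcd_pos_of_pos_left _ hq0
  set q' := q / g with hq'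
  have hqq : q' * g = q := Nat.div_mul_cancel (Nat.gcd_dvd_left _ _)
  have hq'0 : 0 < q' := by
    rcases Nat.eq_zero_or_pos q' with h | h
    · rw [h, zero_mul] at hqq
      omega
    · exact h
  -- divisors of both factors divide `N`
  have hboth : ∀ d : ℕ, d ∣ q → d ∣ 2 * k1 - 1 → d ∣ g := by
    intro d hd1 hd2
    refine Nat.dvd_gcd hd1 ?_
    have h1 := ph_sq hk1'.1.1 hlam
    have h2 : d ∣ (2 * k1 - 1) ^ 2 + N := by
      rw [hN, ← h1]
      exact (hd1.trans hk1'.2).mul_left _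
    exact (Nat.dvd_add_right (hd2.trans (dvd_pow_self _ (by norm_num)))).1 h2
  have hcls : ∀ k ∈ K, k % q' = k1 % q' ∨ k % q' = (q' * k1 + 1 - k1) % q' := by
    intro k hk
    have hkk : k1 ≤ k := K.min'_le k hk
    obtain ⟨u, rfl⟩ := Nat.exists_eq_add_of_le hkk
    rw [hK, mem_filter] at hk
    have h1 := hk.2
    rw [ph_add hk1'.1.1] at h1
    have h2 : q ∣ u * (2 * k1 + u - 1) := (Nat.dvd_add_left hk1'.2).1 h1
    obtain ⟨d1, d2, hd1, hd2, hdd⟩ := exists_dvd_and_dvd_of_dvd_mul h2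
    obtain ⟨s, -, hs⟩ := (Nat.dvd_prime_pow hp).1 (show d1 ∣ p ^ i from ⟨d2, hdd⟩)
    obtain ⟨t, -, ht⟩ := (Nat.dvd_prime_pow hp).1 (show d2 ∣ p ^ i from ⟨d1, by rw [← hq, hdd, mul_comm]⟩)
    have hsum : 2 * k1 + u - 1 = u + (2 * k1 - 1) := by omega
    rw [hsum] at hd2
    rcases le_total s t with hst | hst
    · -- `d1` divides both
      have h3 : d1 ∣ d2 := by rw [hs, ht]; exact Nat.pow_dvd_pow p hst
      have h4 : d1 ∣ 2 * k1 - 1 := (Nat.dvd_add_right hd1).1 (h3.trans hd2)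
      have h5 := hboth d1 ⟨d2, hdd⟩ h4
      have h6 : q' ∣ d2 := by
        obtain ⟨c, hc⟩ := h5
        refine ⟨c, ?_⟩
        have h7 : d1 * d2 = d1 * (q' * c) := by
          rw [← hdd, ← hqq, hc]
          ring
        have hd10 : 0 < d1 := by rw [hs]; exact pow_pos hp.pos _
        exact Nat.eq_of_mul_eq_mul_left hd10 h7
      right
      have h8 : q' ∣ u + (2 * k1 - 1) := h6.trans hd2
      have h9 : (k1 + u) + (k1 - 1) ≡ (q' * k1 + 1 - k1) + (k1 - 1) [MOD q'] := by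
        have e1 : (k1 + u) + (k1 - 1) = u + (2 * k1 - 1) := by omega
        have h10 : k1 ≤ q' * k1 := Nat.le_mul_of_pos_left _ hq'0
        have e2 : (q' * k1 + 1 - k1) + (k1 - 1) = q' * k1 := by omega
        rw [e1, e2]
        exact ((Nat.modEq_zero_iff_dvd.2 h8)).trans (Nat.modEq_zero_iff_dvd.2 (dvd_mul_right _ _)).symm
      exact Nat.ModEq.add_right_cancel' _ h9
    · have h3 : d2 ∣ d1 := by rw [hs, ht]; exact Nat.pow_dvd_pow p hst
      have h4 : d2 ∣ 2 * k1 - 1 := (Nat.dvd_add_right (h3.trans hd1)).1 hd2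
      have h5 := hboth d2 ⟨d1, by rw [hdd, mul_comm]⟩ h4
      have h6 : q' ∣ d1 := by
        obtain ⟨c, hc⟩ := h5
        refine ⟨c, ?_⟩
        have h7 : d2 * d1 = d2 * (q' * c) := by
          rw [mul_comm, ← hdd, ← hqq, hc]
          ring
        have hd20 : 0 < d2 := by rw [ht]; exact pow_pos hp.pos _
        exact Nat.eq_of_mul_eq_mul_left hd20 h7
      left
      have h8 : q' ∣ u := h6.trans hd1
      obtain ⟨c, hc⟩ := h8
      rw [hc, Nat.add_mul_mod_self_left]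
  have hcard : K.card ≤ 2 * (X / q' + 1) := by
    have hsub : K ⊆ ((range (X + 1)).filter fun k => k % q' = k1 % q') ∪
        ((range (X + 1)).filter fun k => k % q' = (q' * k1 + 1 - k1) % q') := by
      intro k hk
      have h1 := hcls k hk
      rw [hK, mem_filter, mem_Icc] at hk
      rw [mem_union, mem_filter, mem_filter, mem_range]
      rcases h1 with h1 | h1
      · exact Or.inl ⟨by omega, h1⟩
      · exact Or.inr ⟨by omega, h1⟩
    refine (card_le_card hsub).trans ((card_union_le _ _).trans ?_)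
    have h1 := card_cls q' k1 X
    have h2 := card_cls q' (q' * k1 + 1 - k1) X
    omega
  have h1 : ((K.card : ℕ) : ℝ) ≤ 2 * (((X / q' : ℕ) : ℝ) + 1) := by exact_mod_cast hcard
  refine h1.trans ?_
  have hq'R : (0 : ℝ) < q' := by exact_mod_cast hq'0
  have hqR : (0 : ℝ) < (p : ℝ) ^ i := by exact_mod_cast hq0
  have h2 : ((X / q' : ℕ) : ℝ) ≤ (X : ℝ) / q' := Nat.cast_div_le
  have h3 : (X : ℝ) / q' ≤ (X : ℝ) * (4 * lam) / (p : ℝ) ^ i := by
    rw [div_le_div_iff₀ hq'R hqR]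
    have h4 : g ≤ N := by
      refine Nat.le_of_dvd ?_ (Nat.gcd_dvd_right _ _)
      omega
    have h5 : ((p ^ i : ℕ) : ℝ) = (q' : ℝ) * g := by
      rw [← hq, ← hqq]
      push_cast
      ring
    have h6 : ((p : ℝ)) ^ i = (q' : ℝ) * g := by
      rw [← h5]
      push_cast
      ring
    rw [h6]
    have h7 : (g : ℝ) ≤ 4 * lam := by
      have h8 : g ≤ 4 * lam := by omega
      exact_mod_cast h8
    have hX : (0 : ℝ) ≤ X := Nat.cast_nonneg X
    calc (X : ℝ) * ((q' : ℝ) * g) = (X : ℝ) * q' * g := by ring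
      _ ≤ (X : ℝ) * q' * (4 * lam) := by gcongr
      _ = X * (4 * lam) * q' := by ring
  linarith

/-- two solutions of a Pell equation which are close to each other -/
theorem pell_core {N m u1 u2 w1 w2 : ℕ} (hN : 1 ≤ N) (h1 : u1 ^ 2 + N = m * w1 ^ 2)
    (h2 : u2 ^ 2 + N = m * w2 ^ 2) (hu : u1 % N = u2 % N) (hw : w1 % N = w2 % N) (h12 : u1 ≤ u2)
    (h21 : u2 < 2 * u1) : u1 = u2 := by
  have hu' : (N : ℤ) ∣ (u2 : ℤ) - u1 := (Nat.modEq_iff_dvd (n := N)).1 hu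
  have hw' : (N : ℤ) ∣ (w2 : ℤ) - w1 := (Nat.modEq_iff_dvd (n := N)).1 hw
  have e1 : (u1 : ℤ) ^ 2 + N = m * w1 ^ 2 := by exact_mod_cast h1
  have e2 : (u2 : ℤ) ^ 2 + N = m * w2 ^ 2 := by exact_mod_cast h2
  have hN' : (1 : ℤ) ≤ N := by exact_mod_cast hN
  have ha : (N : ℤ) ∣ (m : ℤ) * w1 * w2 - u1 * u2 := by
    have h3 : (m : ℤ) * w1 * w2 - u1 * u2 = m * w1 * (w2 - w1) - u1 * (u2 - u1) + N := by
      linear_combination -e1
    rw [h3]
    exact dvd_add (dvd_sub (hw'.mul_left _) (hu'.mul_left _)) dvd_rfl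
  obtain ⟨c, hc⟩ := ha
  have hsq : ((u1 : ℤ) * u2 + N * c) ^ 2 = (u1 ^ 2 + N) * (u2 ^ 2 + N) := by
    rw [e1, e2, ← hc]
    ring
  have hnn : 0 ≤ (u1 : ℤ) * u2 + N * c := by
    rw [← hc]
    have : 0 ≤ (m : ℤ) * w1 * w2 := by positivity
    linarith
  have hu1 : (0 : ℤ) ≤ u1 := Int.natCast_nonneg _
  have hu2 : (0 : ℤ) ≤ u2 := Int.natCast_nonneg _
  have g12 : (u1 : ℤ) ≤ u2 := by exact_mod_cast h12
  have g21 : (u2 : ℤ) < 2 * u1 := by exact_mod_cast h21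
  have hprod : 0 ≤ (u1 : ℤ) * u2 := mul_nonneg hu1 hu2
  have hcpos : 0 < c := by
    by_contra hcon
    push Not at hcon
    have h3 : (N : ℤ) * c ≤ 0 := mul_nonpos_of_nonneg_of_nonpos (by linarith) hcon
    have h4 : ((u1 : ℤ) * u2 + N * c) ^ 2 ≤ (u1 * u2) ^ 2 := by
      apply pow_le_pow_left₀ hnn
      linarith
    rw [hsq] at h4
    nlinarith [sq_nonneg (u1 : ℤ), sq_nonneg (u2 : ℤ)]
  have hexp : 2 * ((u1 : ℤ) * u2) * (N * c) + (N * c) ^ 2 = N * (u1 ^ 2 + u2 ^ 2) + N ^ 2 := by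
    linear_combination hsq
  have hexp2 : (2 * ((u1 : ℤ) * u2) * c + N * c ^ 2) = u1 ^ 2 + u2 ^ 2 + N := by
    have h3 : (N : ℤ) * (2 * ((u1 : ℤ) * u2) * c + N * c ^ 2) = N * (u1 ^ 2 + u2 ^ 2 + N) := by
      linear_combination hexp
    exact mul_left_cancel₀ (by linarith) h3
  rcases eq_or_lt_of_le (show 1 ≤ c from hcpos) with h3 | h3
  · rw [← h3] at hexp2
    have h4 : ((u1 : ℤ) - u2) ^ 2 = 0 := by linear_combination -hexp2
    have h5 : (u1 : ℤ) = u2 := by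
      have := pow_eq_zero_iff (n := 2) (by norm_num) |>.1 h4
      linarith
    exact_mod_cast h5
  · exfalso
    have h4 : (2 : ℤ) ≤ c := h3
    have h5 : 4 * ((u1 : ℤ) * u2) ≤ 2 * ((u1 : ℤ) * u2) * c := by nlinarith
    have h6 : (N : ℤ) * 4 ≤ N * c ^ 2 := by nlinarith
    nlinarith [mul_nonneg hu1 hu2, mul_nonneg hu1 hu1]

open scoped Classical in
theorem pell_count (lam X : ℕ) (hlam : 1 ≤ lam) (hX : lam ≤ X) :
    ((Icc 1 X).filter fun k => ∃ p : ℕ, X ^ 3 < p ^ 4 ∧ p ^ 2 ∣ ph lam k).card ≤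
      (Nat.sqrt X + 1) * ((4 * lam) * ((4 * lam) * (Nat.log 2 (2 * X) + 1))) := by
  set N := 4 * lam - 1 with hN
  have hN1 : 1 ≤ N := by omega
  choose! pf hpf using fun (k : ℕ) (h : ∃ p : ℕ, X ^ 3 < p ^ 4 ∧ p ^ 2 ∣ ph lam k) => h
  set S := (Icc 1 X).filter fun k => ∃ p : ℕ, X ^ 3 < p ^ 4 ∧ p ^ 2 ∣ ph lam k with hS
  have hmem : ∀ k ∈ S, (1 ≤ k ∧ k ≤ X) ∧ X ^ 3 < pf k ^ 4 ∧ pf k ^ 2 ∣ ph lam k := by
    intro k hk
    rw [hS, mem_filter, mem_Icc] at hk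
    exact ⟨hk.1, hpf k hk.2⟩
  let F : ℕ → ℕ × ℕ × ℕ × ℕ := fun k =>
    (ph lam k / pf k ^ 2, (2 * k - 1) % N, (2 * pf k) % N, Nat.log 2 (2 * k - 1))
  have hcard : S.card ≤ ((range (Nat.sqrt X + 1)) ×ˢ ((range N) ×ˢ ((range N) ×ˢ
      (range (Nat.log 2 (2 * X) + 1))))).card := by
    refine card_le_card_of_injOn F ?_ ?_
    · intro k hk
      obtain ⟨⟨hk1, hkX⟩, hp1, hp2⟩ := hmem k hk
      simp only [F, coe_product, Set.mem_prod, coe_range, Set.mem_Iio]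
      refine ⟨?_, Nat.mod_lt _ hN1, Nat.mod_lt _ hN1, ?_⟩
      · rw [Nat.lt_succ_iff, Nat.le_sqrt']
        obtain ⟨m, hm⟩ := hp2
        have hppos : 0 < pf k ^ 2 := by
          rcases Nat.eq_zero_or_pos (pf k) with h | h
          · rw [h] at hp1
            omega
          · exact pow_pos h 2
        rw [hm, Nat.mul_div_cancel_left _ hppos]
        have h3 : ph lam k ≤ X ^ 2 := by
          unfold ph
          calc k * (k - 1) + lam ≤ X * (X - 1) + X :=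
                Nat.add_le_add (Nat.mul_le_mul hkX (by omega)) hX
            _ = X ^ 2 := by
                obtain ⟨c, rfl⟩ : ∃ c, X = c + 1 := ⟨X - 1, by omega⟩
                rw [Nat.add_sub_cancel]
                ring
        have h4 : (pf k ^ 2 * m) ^ 2 ≤ (X ^ 2) ^ 2 := Nat.pow_le_pow_left (hm ▸ h3) 2
        have h5 : X ^ 3 * m ^ 2 ≤ X ^ 3 * X := by
          calc X ^ 3 * m ^ 2 ≤ pf k ^ 4 * m ^ 2 := Nat.mul_le_mul_right _ hp1.le
            _ = (pf k ^ 2 * m) ^ 2 := by ring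
            _ ≤ (X ^ 2) ^ 2 := h4
            _ = X ^ 3 * X := by ring
        exact Nat.le_of_mul_le_mul_left h5 (pow_pos (by omega) 3)
      · rw [Nat.lt_succ_iff]
        exact Nat.log_mono_right (by omega)
    · intro k hk k' hk' hkk
      rw [mem_coe] at hk hk'
      obtain ⟨⟨hk1, hkX⟩, hp1, hp2⟩ := hmem k hk
      obtain ⟨⟨hk1', hkX'⟩, hp1', hp2'⟩ := hmem k' hk'
      simp only [F, Prod.mk.injEq] at hkk
      obtain ⟨g1, g2, g3, g4⟩ := hkk
      have key : ∀ k p : ℕ, 1 ≤ k → p ^ 2 ∣ ph lam k →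
          (2 * k - 1) ^ 2 + N = (ph lam k / p ^ 2) * (2 * p) ^ 2 := by
        intro k p hk hp
        rw [hN, ← ph_sq hk hlam]
        obtain ⟨m, hm⟩ := hp
        rcases Nat.eq_zero_or_pos (p ^ 2) with h | h
        · exfalso
          rw [h, zero_mul] at hm
          have h3 := ph_sq hk hlam
          rw [hm] at h3
          omega
        · rw [hm, Nat.mul_div_cancel_left _ h]
          ring
      have q1 := key k (pf k) hk1 hp2
      have q2 := key k' (pf k') hk1' hp2'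
      rw [← g1] at q2
      have l1 : 2 ^ Nat.log 2 (2 * k - 1) ≤ 2 * k - 1 := Nat.pow_log_le_self 2 (by omega)
      have l2 : 2 * k - 1 < 2 ^ (Nat.log 2 (2 * k - 1)).succ := Nat.lt_pow_succ_log_self (by norm_num) _
      have l3 : 2 ^ Nat.log 2 (2 * k' - 1) ≤ 2 * k' - 1 := Nat.pow_log_le_self 2 (by omega)
      have l4 : 2 * k' - 1 < 2 ^ (Nat.log 2 (2 * k' - 1)).succ :=
        Nat.lt_pow_succ_log_self (by norm_num) _
      rw [← g4] at l3 l4
      rw [Nat.pow_succ] at l2 l4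
      rcases le_total (2 * k - 1) (2 * k' - 1) with h3 | h3
      · have := pell_core hN1 q1 q2 g2 g3 h3 (by omega)
        omega
      · have := pell_core hN1 q2 q1 g2.symm g3.symm h3 (by omega)
        omega
  refine hcard.trans ?_
  rw [card_product, card_product, card_product, card_range, card_range, card_range]
  gcongr <;> omega

open scoped Classical in
/-- the values of `k` for which a prime power `p ^ j ≥ Y`, `j ≥ 2`, divides `k (k - 1) + lam` -/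
theorem count1 (lam X T Y : ℕ) (hlam : 1 ≤ lam) (hX : lam ≤ X) (hT : 1 ≤ T) (hY : T ^ 2 ≤ Y) :
    ((((Icc 1 X).filter fun k => ∃ p j : ℕ, p.Prime ∧ 2 ≤ j ∧ Y ≤ p ^ j ∧
      p ^ j ∣ ph lam k).card : ℕ) : ℝ) ≤
      2 * Nat.sqrt (Nat.sqrt (X ^ 3)) + 8 * lam * X / T * (1 + Real.log X) +
      (Nat.sqrt X + 1) * ((4 * lam) * ((4 * lam) * (Nat.log 2 (2 * X) + 1))) := by
  set Z := Nat.sqrt (Nat.sqrt (X ^ 3)) with hZ
  have hZ4 : X ^ 3 < (Z + 1) ^ 4 := by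
    have h1 : Nat.sqrt (X ^ 3) < (Z + 1) ^ 2 := Nat.lt_succ_sqrt' _
    have h2 : X ^ 3 < (Nat.sqrt (X ^ 3) + 1) ^ 2 := Nat.lt_succ_sqrt' _
    calc X ^ 3 < (Nat.sqrt (X ^ 3) + 1) ^ 2 := h2
      _ ≤ ((Z + 1) ^ 2) ^ 2 := Nat.pow_le_pow_left h1 2
      _ = (Z + 1) ^ 4 := by ring
  have hZX : Z ≤ X := by
    rw [hZ]
    have h1 : Nat.sqrt (X ^ 3) ≤ X ^ 2 := by
      rw [← Nat.sqrt_eq' (X ^ 2)]
      refine Nat.sqrt_le_sqrt ?_
      rw [← pow_mul]
      exact Nat.pow_le_pow_right (by omega) (by norm_num)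
    calc Nat.sqrt (Nat.sqrt (X ^ 3)) ≤ Nat.sqrt (X ^ 2) := Nat.sqrt_le_sqrt h1
      _ = X := Nat.sqrt_eq' X
  set i : ℕ → ℕ := fun p => max 2 (Nat.clog p Y) with hi
  have hsub : ((Icc 1 X).filter fun k => ∃ p j : ℕ, p.Prime ∧ 2 ≤ j ∧ Y ≤ p ^ j ∧
      p ^ j ∣ ph lam k) ⊆ (((Icc 1 Z).filter Nat.Prime).biUnion fun p =>
        (Icc 1 X).filter fun k => p ^ i p ∣ ph lam k) ∪
      ((Icc 1 X).filter fun k => ∃ p : ℕ, X ^ 3 < p ^ 4 ∧ p ^ 2 ∣ ph lam k) := by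
    intro k hk
    rw [mem_filter] at hk
    obtain ⟨hkX, p, j, hp, hj, hYj, hd⟩ := hk
    rw [mem_union, mem_biUnion, mem_filter]
    by_cases hpZ : p ≤ Z
    · left
      refine ⟨p, mem_filter.2 ⟨mem_Icc.2 ⟨hp.one_le, hpZ⟩, hp⟩, mem_filter.2 ⟨hkX, ?_⟩⟩
      refine (Nat.pow_dvd_pow p ?_).trans hd
      exact max_le hj (Nat.clog_le_of_le_pow hYj)
    · right
      refine ⟨hkX, p, ?_, (Nat.pow_dvd_pow p hj).trans hd⟩
      exact lt_of_lt_of_le hZ4 (Nat.pow_le_pow_left (by omega) 4)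
  have h1 := (card_le_card hsub).trans (card_union_le _ _)
  have h2 : (((((Icc 1 Z).filter Nat.Prime).biUnion fun p =>
        (Icc 1 X).filter fun k => p ^ i p ∣ ph lam k).card : ℕ) : ℝ) ≤
      2 * Z + 8 * lam * X / T * (1 + Real.log X) := by
    have h3 : (((((Icc 1 Z).filter Nat.Prime).biUnion fun p =>
        (Icc 1 X).filter fun k => p ^ i p ∣ ph lam k).card : ℕ) : ℝ) ≤
        ∑ p ∈ (Icc 1 Z).filter Nat.Prime,
          ((((Icc 1 X).filter fun k => p ^ i p ∣ ph lam k).card : ℕ) : ℝ) := by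
      exact_mod_cast card_biUnion_le
    have hTR : (0 : ℝ) < T := by exact_mod_cast hT
    have h4 : ∀ p ∈ (Icc 1 Z).filter Nat.Prime,
        ((((Icc 1 X).filter fun k => p ^ i p ∣ ph lam k).card : ℕ) : ℝ) ≤
          2 + 8 * lam * X / T * (p : ℝ)⁻¹ := by
      intro p hp
      rw [mem_filter] at hp
      refine (roots lam hlam hp.2 (i p) X).trans ?_
      have hp0 : (0 : ℝ) < p := by exact_mod_cast hp.2.pos
      have h5 : T * p ≤ p ^ i p := by
        have a1 : p ^ 2 ≤ p ^ i p := Nat.pow_le_pow_right hp.2.pos (le_max_left _ _)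
        have a2 : Y ≤ p ^ i p := (Nat.le_pow_clog hp.2.one_lt Y).trans
          (Nat.pow_le_pow_right hp.2.pos (le_max_right _ _))
        have a3 : (T * p) ^ 2 ≤ (p ^ i p) ^ 2 := by
          calc (T * p) ^ 2 = T ^ 2 * p ^ 2 := by ring
            _ ≤ p ^ i p * p ^ i p := Nat.mul_le_mul (hY.trans a2) a1
            _ = (p ^ i p) ^ 2 := by ring
        exact (Nat.pow_le_pow_iff_left (by norm_num)).1 a3
      have h6 : (T : ℝ) * p ≤ (p : ℝ) ^ i p := by exact_mod_cast h5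
      have h7 : (X : ℝ) * (4 * lam) / (p : ℝ) ^ i p ≤ (X : ℝ) * (4 * lam) / (T * p) := by
        gcongr
      calc 2 * ((X : ℝ) * (4 * lam) / (p : ℝ) ^ i p + 1) ≤ 2 * ((X : ℝ) * (4 * lam) / (T * p) + 1) := by
            linarith
        _ = 2 + 8 * lam * X / T * (p : ℝ)⁻¹ := by
            field_simp
            ring
    refine (h3.trans (sum_le_sum h4)).trans ?_
    have h5 : ∑ p ∈ (Icc 1 Z).filter Nat.Prime, (2 + 8 * lam * X / T * (p : ℝ)⁻¹) ≤
        ∑ p ∈ Icc 1 Z, (2 + 8 * lam * X / T * (p : ℝ)⁻¹) := by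
      refine sum_le_sum_of_subset_of_nonneg (filter_subset _ _) ?_
      intro p _ _
      positivity
    refine h5.trans ?_
    rw [sum_add_distrib, sum_const, Nat.card_Icc, ← mul_sum]
    have h6 : ∑ p ∈ Icc 1 Z, (p : ℝ)⁻¹ ≤ 1 + Real.log X := by
      have h7 := harmonic_le_one_add_log Z
      have h8 : ((harmonic Z : ℚ) : ℝ) = ∑ p ∈ Icc 1 Z, (p : ℝ)⁻¹ := by
        rw [harmonic_eq_sum_Icc]
        push_cast
        rfl
      rw [← h8]
      refine h7.trans ?_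
      rcases Nat.eq_zero_or_pos Z with h9 | h9
      · rw [h9]
        simp only [Nat.cast_zero, Real.log_zero]
        have : 0 ≤ Real.log X := Real.log_natCast_nonneg X
        linarith
      · have : Real.log Z ≤ Real.log X :=
          Real.log_le_log (by exact_mod_cast h9) (by exact_mod_cast hZX)
        linarith
    have h7 : (0 : ℝ) ≤ 8 * lam * X / T := by positivity
    have h8 : ((Z + 1 - 1 : ℕ) : ℝ) = Z := by simp
    rw [nsmul_eq_mul, h8]
    nlinarith [mul_le_mul_of_nonneg_left h6 h7]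
  have h3 := pell_count lam X hlam hX
  have h4 : ((((Icc 1 X).filter fun k => ∃ p : ℕ, X ^ 3 < p ^ 4 ∧ p ^ 2 ∣ ph lam k).card : ℕ) : ℝ) ≤
      (Nat.sqrt X + 1) * ((4 * lam) * ((4 * lam) * (Nat.log 2 (2 * X) + 1))) := by
    exact_mod_cast h3
  have h5 : ((((Icc 1 X).filter fun k => ∃ p j : ℕ, p.Prime ∧ 2 ≤ j ∧ Y ≤ p ^ j ∧
      p ^ j ∣ ph lam k).card : ℕ) : ℝ) ≤
      (((((Icc 1 Z).filter Nat.Prime).biUnion fun p =>
        (Icc 1 X).filter fun k => p ^ i p ∣ ph lam k).card : ℕ) : ℝ) +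
      ((((Icc 1 X).filter fun k => ∃ p : ℕ, X ^ 3 < p ^ 4 ∧ p ^ 2 ∣ ph lam k).card : ℕ) : ℝ) := by
    exact_mod_cast h1
  linarith

theorem card_primeFactors_le (n : ℕ) (hn : n ≠ 0) : n.primeFactors.card ≤ Nat.log 2 n := by
  refine Nat.le_log_of_pow_le (by norm_num) ?_
  calc 2 ^ n.primeFactors.card ≤ ∏ p ∈ n.primeFactors, p :=
        pow_card_le_prod _ _ _ fun p hp => (Nat.prime_of_mem_primeFactors hp).two_le
    _ ≤ n := Nat.le_of_dvd (Nat.pos_of_ne_zero hn) (Nat.prod_primeFactors_dvd n)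

theorem card_cls_le {q c X : ℕ} {D : ℝ} (hD : 0 < D) (hq : D ≤ q) (hqX : q ≤ X) :
    ((((range (X + 1)).filter fun k => k % q = c % q).card : ℕ) : ℝ) ≤ 2 * X / D := by
  have hq0 : (0 : ℝ) < q := lt_of_lt_of_le hD hq
  have h1 : ((((range (X + 1)).filter fun k => k % q = c % q).card : ℕ) : ℝ) ≤
      ((X / q : ℕ) : ℝ) + 1 := by exact_mod_cast card_cls q c X
  have h2 : ((X / q : ℕ) : ℝ) ≤ (X : ℝ) / q := Nat.cast_div_le
  have h3 : (1 : ℝ) ≤ (X : ℝ) / q := by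
    rw [le_div_iff₀ hq0, one_mul]
    exact_mod_cast hqX
  have h4 : (X : ℝ) / q ≤ X / D := by gcongr
  calc _ ≤ (X : ℝ) / q + X / q := by linarith
    _ ≤ X / D + X / D := by linarith
    _ = 2 * X / D := by ring

theorem t_le {T Y r h M : ℕ} (hT : 1 ≤ T) (hr : 1 ≤ r) (hY : T ^ (2 * r) ≤ Y) (hYM : Y ≤ M)
    (hM : h ^ (r + 1) < M ^ r) : h * T ≤ M := by
  by_contra hcon
  push Not at hcon
  by_cases h1 : h ≤ T ^ r
  · have h2 : h * T ≤ T ^ (2 * r) := by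
      calc h * T ≤ T ^ r * T := Nat.mul_le_mul_right _ h1
        _ = T ^ (r + 1) := (pow_succ _ _).symm
        _ ≤ T ^ (2 * r) := Nat.pow_le_pow_right hT (by omega)
    omega
  · push Not at h1
    have h2 : M ^ r ≤ (h * T) ^ r := Nat.pow_le_pow_left hcon.le r
    have h3 : (h * T) ^ r ≤ h ^ (r + 1) := by
      rw [mul_pow, pow_succ]
      exact Nat.mul_le_mul_left _ h1.le
    omega

open scoped Classical in
/-- the values of `k` with a prime power `p ^ e ≥ Y` which divides `k - f` for a small `f` with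
`p ∣ f (f - 1) + lam` -/
theorem count2 (lam X T Y r : ℕ) (hlam : 1 ≤ lam) (hT : 1 ≤ T) (hr : 1 ≤ r)
    (hY : T ^ (2 * r) ≤ Y) :
    ((((Icc 1 X).filter fun k => ∃ p e f : ℕ, p.Prime ∧ 1 ≤ e ∧ 2 ≤ f ∧ (f - 1) ^ 2 + lam ≤ k ∧
      Y ≤ p ^ e ∧ p ^ e ≤ k ∧ p ^ e ∣ k - f ∧ (f - 1) ^ (r + 1) < (p ^ e) ^ r ∧
      p ∣ ph lam f).card : ℕ) : ℝ) ≤
      (Nat.log 2 X + 1) ^ 2 * (2 * X / T) * (1 + Real.log X) := by
  set ell := Nat.log 2 X with hell
  let B : ℕ → ℕ → ℕ → Finset ℕ := fun f p e =>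
    if (f - 1) * T ≤ p ^ e ∧ p ^ e ≤ X then (range (X + 1)).filter (fun k => k % p ^ e = f % p ^ e)
    else ∅
  set FF := (Icc 2 (X + 1)).filter fun f => ph lam f ≤ 2 * X with hFF
  have hsub : ((Icc 1 X).filter fun k => ∃ p e f : ℕ, p.Prime ∧ 1 ≤ e ∧ 2 ≤ f ∧
      (f - 1) ^ 2 + lam ≤ k ∧ Y ≤ p ^ e ∧ p ^ e ≤ k ∧ p ^ e ∣ k - f ∧
      (f - 1) ^ (r + 1) < (p ^ e) ^ r ∧ p ∣ ph lam f) ⊆
      FF.biUnion fun f => (ph lam f).primeFactors.biUnion fun p => (Icc 1 ell).biUnion fun e =>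
        B f p e := by
    intro k hk
    rw [mem_filter, mem_Icc] at hk
    obtain ⟨⟨hk1, hkX⟩, p, e, f, hp, he, hf, hfk, hYp, hpk, hd, hM, hpf⟩ := hk
    have hff : f - 1 ≤ (f - 1) ^ 2 := Nat.le_self_pow (by norm_num) _
    have hph : ph lam f = (f - 1) ^ 2 + (f - 1) + lam := by
      obtain ⟨w, rfl⟩ : ∃ w, f = w + 1 := ⟨f - 1, by omega⟩
      unfold ph
      rw [Nat.add_sub_cancel]
      ring
    have hpe : p ^ e ≤ X := hpk.trans hkX
    rw [mem_biUnion]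
    refine ⟨f, ?_, ?_⟩
    · rw [hFF, mem_filter, mem_Icc]
      exact ⟨⟨hf, by omega⟩, by omega⟩
    rw [mem_biUnion]
    refine ⟨p, ?_, ?_⟩
    · rw [Nat.mem_primeFactors]
      exact ⟨hp, hpf, by unfold ph; omega⟩
    rw [mem_biUnion]
    refine ⟨e, ?_, ?_⟩
    · rw [mem_Icc]
      refine ⟨he, ?_⟩
      refine Nat.le_log_of_pow_le (by norm_num) ?_
      exact (Nat.pow_le_pow_left hp.two_le e).trans hpe
    have hc : (f - 1) * T ≤ p ^ e ∧ p ^ e ≤ X := ⟨t_le hT hr hY hYp hM, hpe⟩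
    simp only [B]
    rw [if_pos hc, mem_filter, mem_range]
    refine ⟨by omega, ?_⟩
    exact ((Nat.modEq_iff_dvd' (by omega)).2 hd).symm
  have h1 := card_le_card hsub
  have hTR : (0 : ℝ) < T := by exact_mod_cast hT
  have hB : ∀ f ∈ FF, ∀ p e : ℕ, (((B f p e).card : ℕ) : ℝ) ≤ 2 * X / T * ((f - 1 : ℕ) : ℝ)⁻¹ := by
    intro f hf p e
    rw [hFF, mem_filter, mem_Icc] at hf
    have hf1 : (0 : ℝ) < ((f - 1 : ℕ) : ℝ) := by
      have : 0 < f - 1 := by omega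
      exact_mod_cast this
    simp only [B]
    split_ifs with hc
    · have hD : (0 : ℝ) < ((f - 1 : ℕ) : ℝ) * T := by positivity
      refine (card_cls_le (q := p ^ e) (c := f) hD (by exact_mod_cast hc.1) hc.2).trans ?_
      rw [div_eq_mul_inv, mul_inv, div_eq_mul_inv]
      exact le_of_eq (by ring)
    · simp only [card_empty, Nat.cast_zero]
      positivity
  have h2 : ((((FF.biUnion fun f => (ph lam f).primeFactors.biUnion fun p =>
      (Icc 1 ell).biUnion fun e => B f p e).card : ℕ)) : ℝ) ≤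
      ∑ f ∈ FF, ∑ p ∈ (ph lam f).primeFactors, ∑ e ∈ Icc 1 ell, (((B f p e).card : ℕ) : ℝ) := by
    have h3 : (FF.biUnion fun f => (ph lam f).primeFactors.biUnion fun p =>
      (Icc 1 ell).biUnion fun e => B f p e).card ≤
      ∑ f ∈ FF, ∑ p ∈ (ph lam f).primeFactors, ∑ e ∈ Icc 1 ell, (B f p e).card :=
      card_biUnion_le.trans (sum_le_sum fun f _ => card_biUnion_le.trans
        (sum_le_sum fun p _ => card_biUnion_le))
    exact_mod_cast h3
  have h3 : ∑ f ∈ FF, ∑ p ∈ (ph lam f).primeFactors, ∑ e ∈ Icc 1 ell, (((B f p e).card : ℕ) : ℝ) ≤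
      ∑ f ∈ FF, ((ell : ℝ) + 1) * ((ell : ℝ) * (2 * X / T * ((f - 1 : ℕ) : ℝ)⁻¹)) := by
    refine sum_le_sum fun f hf => ?_
    have hb := hB f hf
    rw [hFF, mem_filter, mem_Icc] at hf
    have hX1 : 1 ≤ X := by
      by_contra hcon
      have : X = 0 := by omega
      omega
    have hpc : (ph lam f).primeFactors.card ≤ ell + 1 := by
      refine (card_primeFactors_le _ (by unfold ph; omega)).trans ?_
      calc Nat.log 2 (ph lam f) ≤ Nat.log 2 (2 * X) := Nat.log_mono_right hf.2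
        _ = ell + 1 := by rw [mul_comm, Nat.log_mul_base (by norm_num) (by omega)]
    calc ∑ p ∈ (ph lam f).primeFactors, ∑ e ∈ Icc 1 ell, (((B f p e).card : ℕ) : ℝ)
        ≤ ∑ p ∈ (ph lam f).primeFactors, ∑ e ∈ Icc 1 ell, (2 * X / T * ((f - 1 : ℕ) : ℝ)⁻¹) :=
          sum_le_sum fun p _ => sum_le_sum fun e _ => hb p e
      _ = ((ph lam f).primeFactors.card : ℝ) * ((ell : ℝ) * (2 * X / T * ((f - 1 : ℕ) : ℝ)⁻¹)) := by
          rw [sum_const, sum_const, nsmul_eq_mul, nsmul_eq_mul, Nat.card_Icc, Nat.add_sub_cancel]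
      _ ≤ _ := by
          refine mul_le_mul_of_nonneg_right ?_ (by positivity)
          exact_mod_cast hpc
  have h4 : ∑ f ∈ FF, ((ell : ℝ) + 1) * ((ell : ℝ) * (2 * X / T * ((f - 1 : ℕ) : ℝ)⁻¹)) ≤
      ∑ f ∈ Icc 2 (X + 1), ((ell : ℝ) + 1) * ((ell : ℝ) * (2 * X / T * ((f - 1 : ℕ) : ℝ)⁻¹)) := by
    refine sum_le_sum_of_subset_of_nonneg (filter_subset _ _) ?_
    intro f _ _
    positivity
  have h5 : ∑ f ∈ Icc 2 (X + 1), ((f - 1 : ℕ) : ℝ)⁻¹ ≤ 1 + Real.log X := by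
    have h7 := harmonic_le_one_add_log X
    have h8 : ((harmonic X : ℚ) : ℝ) = ∑ p ∈ Icc 1 X, (p : ℝ)⁻¹ := by
      rw [harmonic_eq_sum_Icc]
      push_cast
      rfl
    rw [h8] at h7
    refine le_trans (le_of_eq ?_) h7
    refine sum_bij (fun f _ => f - 1) ?_ ?_ ?_ ?_
    · intro f hf
      rw [mem_Icc] at hf ⊢
      omega
    · intro f hf f' hf' hff
      rw [mem_Icc] at hf hf'
      omega
    · intro b hb
      rw [mem_Icc] at hb
      exact ⟨b + 1, by rw [mem_Icc]; omega, by omega⟩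
    · intro f hf
      rfl
  have h6 : ∑ f ∈ Icc 2 (X + 1), ((ell : ℝ) + 1) * ((ell : ℝ) * (2 * X / T * ((f - 1 : ℕ) : ℝ)⁻¹)) =
      ((ell : ℝ) + 1) * ((ell : ℝ) * (2 * X / T)) * ∑ f ∈ Icc 2 (X + 1), ((f - 1 : ℕ) : ℝ)⁻¹ := by
    rw [mul_sum]
    refine sum_congr rfl fun f _ => ?_
    ring
  have h7 : ((ell : ℝ) + 1) * ((ell : ℝ) * (2 * X / T)) * ∑ f ∈ Icc 2 (X + 1), ((f - 1 : ℕ) : ℝ)⁻¹ ≤
      ((ell : ℝ) + 1) ^ 2 * (2 * X / T) * (1 + Real.log X) := by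
    have h8 : (0 : ℝ) ≤ 2 * X / T := by positivity
    have h9 : (0 : ℝ) ≤ ell := Nat.cast_nonneg _
    have h10 : 0 ≤ Real.log X := Real.log_natCast_nonneg X
    have h11 : ((ell : ℝ) + 1) * ((ell : ℝ) * (2 * X / T)) ≤ ((ell : ℝ) + 1) ^ 2 * (2 * X / T) := by
      nlinarith [mul_nonneg h9 h8]
    calc _ ≤ ((ell : ℝ) + 1) * ((ell : ℝ) * (2 * X / T)) * (1 + Real.log X) :=
          mul_le_mul_of_nonneg_left h5 (by positivity)
      _ ≤ _ := mul_le_mul_of_nonneg_right h11 (by linarith)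
  have h8 : ((((Icc 1 X).filter fun k => ∃ p e f : ℕ, p.Prime ∧ 1 ≤ e ∧ 2 ≤ f ∧
      (f - 1) ^ 2 + lam ≤ k ∧ Y ≤ p ^ e ∧ p ^ e ≤ k ∧ p ^ e ∣ k - f ∧
      (f - 1) ^ (r + 1) < (p ^ e) ^ r ∧ p ∣ ph lam f).card : ℕ) : ℝ) ≤
      ((((FF.biUnion fun f => (ph lam f).primeFactors.biUnion fun p =>
      (Icc 1 ell).biUnion fun e => B f p e).card : ℕ)) : ℝ) := by
    exact_mod_cast h1
  linarith

end Pool.Agent.L0h26.HallE
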