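import Mathlib
import Pool.Agent.L0h26.HaE

set_option autoImplicit false

/-!
# Counting: the power saving
-/

namespace Pool.Agent.L0h26.HallE

open Finset

theorem log2_le {X : ℕ} (hX : 1 ≤ X) : (Nat.log 2 X : ℝ) ≤ 2 * Real.log X := by
  have h1 : (2 : ℝ) ^ Nat.log 2 X ≤ X := by exact_mod_cast Nat.pow_log_le_self 2 (by omega)
  have h2 : (Nat.log 2 X : ℝ) * Real.log 2 ≤ Real.log X := by
    rw [← Real.log_pow]
    exact Real.log_le_log (by positivity) h1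
  have h3 : (1 : ℝ) / 2 ≤ Real.log 2 := by
    have := Real.log_two_gt_d9
    linarith
  have h4 : (0 : ℝ) ≤ Nat.log 2 X := Nat.cast_nonneg _
  nlinarith

theorem sqrt_le_rpow (X : ℕ) : (Nat.sqrt X : ℝ) ≤ (X : ℝ) ^ ((1 : ℝ) / 2) := by
  have h1 : ((Nat.sqrt X) ^ 2 : ℕ) ≤ X := Nat.sqrt_le' X
  have h2 : (Nat.sqrt X : ℝ) ^ 2 ≤ X := by exact_mod_cast h1
  rw [← Real.sqrt_eq_rpow]
  exact Real.le_sqrt_of_sq_le h2

theorem sqrt4_le_rpow (X : ℕ) : (Nat.sqrt (Nat.sqrt (X ^ 3)) : ℝ) ≤ (X : ℝ) ^ ((3 : ℝ) / 4) := by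
  have hX : (0 : ℝ) ≤ X := Nat.cast_nonneg X
  have h1 := sqrt_le_rpow (Nat.sqrt (X ^ 3))
  have h2 := sqrt_le_rpow (X ^ 3)
  refine h1.trans ?_
  calc ((Nat.sqrt (X ^ 3) : ℕ) : ℝ) ^ ((1 : ℝ) / 2) ≤ (((X ^ 3 : ℕ) : ℝ) ^ ((1 : ℝ) / 2)) ^ ((1 : ℝ) / 2) :=
        Real.rpow_le_rpow (Nat.cast_nonneg _) h2 (by norm_num)
    _ = (X : ℝ) ^ ((3 : ℝ) / 4) := by
        push_cast
        rw [← Real.rpow_natCast, ← Real.rpow_mul hX, ← Real.rpow_mul hX]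
        norm_num

/-- **Power saving.** -/
theorem final1 {lam s : ℕ} (hlam : 1 ≤ lam) (hs : 1 ≤ s) (W : ℕ → Prop)
    (hW : ∀ k Y : ℕ, 4 ^ s ≤ k → 1 ≤ Y → Y ^ (10 * s) < k → W k →
      (∃ p e f : ℕ, p.Prime ∧ 1 ≤ e ∧ 2 ≤ f ∧ (f - 1) ^ 2 + lam ≤ k ∧
        Y ≤ p ^ e ∧ p ^ e ≤ k ∧ p ^ e ∣ k - f ∧ (f - 1) ^ (2 * s + 1) < (p ^ e) ^ (2 * s) ∧
        p ∣ ph lam f) ∨
      ∃ p j : ℕ, p.Prime ∧ 2 ≤ j ∧ Y ≤ p ^ j ∧ p ^ j ∣ ph lam k) :
    ∃ C : ℝ, ∀ X : ℕ, 1 ≤ X → (({k : ℕ | 1 ≤ k ∧ k ≤ X ∧ W k}.ncard : ℕ) : ℝ) ≤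
      C * (X : ℝ) ^ (1 - 1 / (160 * (s : ℝ) ^ 2)) := by
  classical
  set th : ℝ := 1 / (80 * (s : ℝ) ^ 2) with hth
  have hs1 : (1 : ℝ) ≤ s := by exact_mod_cast hs
  have hs2 : (1 : ℝ) ≤ (s : ℝ) ^ 2 := one_le_pow₀ hs1
  have hth0 : 0 < th := by positivity
  have hth1 : th ≤ 1 / 80 := by
    rw [hth]
    apply one_div_le_one_div_of_le (by norm_num)
    linarith
  have heta : 1 - 1 / (160 * (s : ℝ) ^ 2) = 1 - th / 2 := by
    rw [hth]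
    field_simp
    ring
  rw [heta]
  set ep : ℝ := th / 8 with hep
  have hep0 : 0 < ep := by positivity
  set E : ℝ := 1 + 1 / ep with hE
  have hE1 : 1 ≤ E := by
    rw [hE]
    have : 0 < 1 / ep := by positivity
    linarith
  set X0 : ℕ := 16 ^ s + lam with hX0
  refine ⟨X0 + 3 + 16 * lam * E + 64 * (lam : ℝ) ^ 2 * E + 16 * E ^ 3, ?_⟩
  intro X hX
  have hXR : (1 : ℝ) ≤ X := by exact_mod_cast hX
  have hX0R : (0 : ℝ) < X := by linarith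
  have hpow1 : ∀ {y : ℝ}, 0 ≤ y → (1 : ℝ) ≤ (X : ℝ) ^ y := fun hy => Real.one_le_rpow hXR hy
  have hfin : {k : ℕ | 1 ≤ k ∧ k ≤ X ∧ W k} = ((Icc 1 X).filter W : Finset ℕ) := by
    ext k
    simp only [Set.mem_ofPred_eq, coe_filter, mem_Icc]
    tauto
  rw [hfin, Set.ncard_coe_finset]
  have hmain0 : (0 : ℝ) ≤ (X : ℝ) ^ (1 - th / 2) := by positivity
  by_cases hsmall : X < X0
  · have h1 : (((Icc 1 X).filter W).card : ℝ) ≤ X0 := by
      have h2 : ((Icc 1 X).filter W).card ≤ X := by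
        refine (card_filter_le _ _).trans ?_
        simp
      exact_mod_cast h2.trans hsmall.le
    have h2 : (1 : ℝ) ≤ (X : ℝ) ^ (1 - th / 2) := hpow1 (by linarith)
    have h3 : (X0 : ℝ) ≤ X0 + 3 + 16 * lam * E + 64 * (lam : ℝ) ^ 2 * E + 16 * E ^ 3 := by
      have : 0 ≤ 3 + 16 * lam * E + 64 * (lam : ℝ) ^ 2 * E + 16 * E ^ 3 := by positivity
      linarith
    have h4 : (0 : ℝ) ≤ X0 := Nat.cast_nonneg _
    calc (((Icc 1 X).filter W).card : ℝ) ≤ X0 * 1 := by linarith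
      _ ≤ _ := mul_le_mul h3 h2 (by norm_num) (by linarith)
  push Not at hsmall
  -- the choice of `T`
  set T : ℕ := ⌊(X : ℝ) ^ th⌋₊ with hT
  have hT1 : 1 ≤ T := by
    rw [hT, Nat.one_le_floor_iff]
    exact hpow1 hth0.le
  have hTR : (0 : ℝ) < T := by exact_mod_cast hT1
  have hTle : (T : ℝ) ≤ (X : ℝ) ^ th := Nat.floor_le (by positivity)
  have hTge : (X : ℝ) ^ th / 2 ≤ T := by
    have h1 : (X : ℝ) ^ th < T + 1 := Nat.lt_floor_add_one _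
    have h2 : (1 : ℝ) ≤ T := by exact_mod_cast hT1
    linarith
  have hTX : T ^ (80 * s ^ 2) ≤ X := by
    have h1 : ((T : ℝ)) ^ (80 * s ^ 2) ≤ ((X : ℝ) ^ th) ^ (80 * s ^ 2) :=
      pow_le_pow_left₀ hTR.le hTle _
    have h2 : ((X : ℝ) ^ th) ^ (80 * s ^ 2) = X := by
      rw [← Real.rpow_natCast, ← Real.rpow_mul hX0R.le]
      have h3 : th * ((80 * s ^ 2 : ℕ) : ℝ) = 1 := by
        push_cast
        rw [hth]
        field_simp
      rw [h3, Real.rpow_one]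
    rw [h2] at h1
    exact_mod_cast h1
  set Y : ℕ := T ^ (4 * s) with hY
  have hY1 : 1 ≤ Y := Nat.one_le_pow _ _ (by omega)
  have hsub : (Icc 1 X).filter W ⊆ (Icc 1 (Nat.sqrt X)) ∪
      (((Icc 1 X).filter fun k => ∃ p j : ℕ, p.Prime ∧ 2 ≤ j ∧ Y ≤ p ^ j ∧ p ^ j ∣ ph lam k) ∪
      ((Icc 1 X).filter fun k => ∃ p e f : ℕ, p.Prime ∧ 1 ≤ e ∧ 2 ≤ f ∧ (f - 1) ^ 2 + lam ≤ k ∧
        Y ≤ p ^ e ∧ p ^ e ≤ k ∧ p ^ e ∣ k - f ∧ (f - 1) ^ (2 * s + 1) < (p ^ e) ^ (2 * s) ∧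
        p ∣ ph lam f)) := by
    intro k hk
    rw [mem_filter] at hk
    rw [mem_union, mem_union, mem_filter, mem_filter]
    have hk2 := mem_Icc.1 hk.1
    by_cases h1 : k ≤ Nat.sqrt X
    · exact Or.inl (mem_Icc.2 ⟨hk2.1, h1⟩)
    · right
      have h2 : X < k ^ 2 := by
        push Not at h1
        rwa [Nat.sqrt_lt'] at h1
      have h3 : Y ^ (10 * s) < k := by
        have h4 : (Y ^ (10 * s)) ^ 2 < k ^ 2 := by
          calc (Y ^ (10 * s)) ^ 2 = T ^ (80 * s ^ 2) := by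
                rw [hY]
                ring
            _ ≤ X := hTX
            _ < k ^ 2 := h2
        exact lt_of_pow_lt_pow_left₀ 2 (by omega) h4
      have h4 : 4 ^ s ≤ k := by
        have h5 : (4 ^ s) ^ 2 < k ^ 2 := by
          calc (4 ^ s) ^ 2 = 16 ^ s := by
                rw [← pow_mul, mul_comm, pow_mul]
                norm_num
            _ ≤ X := by omega
            _ < k ^ 2 := h2
        exact (lt_of_pow_lt_pow_left₀ 2 (by omega) h5).le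
      rcases hW k Y h4 hY1 h3 hk.2 with h5 | h5
      · exact Or.inr ⟨hk.1, h5⟩
      · exact Or.inl ⟨hk.1, h5⟩
  have hc := (card_le_card hsub).trans ((card_union_le _ _).trans
    (Nat.add_le_add_left (card_union_le _ _) _))
  have hcR : (((Icc 1 X).filter W).card : ℝ) ≤ (Nat.sqrt X : ℝ) +
      (((((Icc 1 X).filter fun k => ∃ p j : ℕ, p.Prime ∧ 2 ≤ j ∧ Y ≤ p ^ j ∧
        p ^ j ∣ ph lam k).card : ℕ) : ℝ) +
      ((((Icc 1 X).filter fun k => ∃ p e f : ℕ, p.Prime ∧ 1 ≤ e ∧ 2 ≤ f ∧ (f - 1) ^ 2 + lam ≤ k ∧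
        Y ≤ p ^ e ∧ p ^ e ≤ k ∧ p ^ e ∣ k - f ∧ (f - 1) ^ (2 * s + 1) < (p ^ e) ^ (2 * s) ∧
        p ∣ ph lam f).card : ℕ) : ℝ)) := by
    have h1 : (Icc 1 (Nat.sqrt X)).card = Nat.sqrt X := by simp
    rw [h1] at hc
    exact_mod_cast hc
  have hlamX : lam ≤ X := le_trans (by rw [hX0]; exact Nat.le_add_left _ _) hsmall
  have hc1 := count1 lam X T Y hlam hlamX hT1 (by
    rw [hY]
    exact Nat.pow_le_pow_right hT1 (by omega))
  have hc2 := count2 lam X T Y (2 * s) hlam hT1 (by omega) (by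
    rw [hY]
    exact Nat.pow_le_pow_right hT1 (by omega))
  refine hcR.trans ((add_le_add_right (add_le_add hc1 hc2) _).trans ?_)
  -- estimates
  have hlog : 1 + Real.log X ≤ E * (X : ℝ) ^ ep := by
    have h1 := Real.log_le_rpow_div hX0R.le hep0
    have h2 := hpow1 hep0.le
    rw [hE, add_mul, one_mul, one_div_mul_eq_div]
    linarith
  have hlog0 : 0 ≤ Real.log X := Real.log_natCast_nonneg X
  have hell : (Nat.log 2 X : ℝ) + 1 ≤ 2 * (E * (X : ℝ) ^ ep) := by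
    have := log2_le hX
    linarith
  have hell2 : (Nat.log 2 (2 * X) : ℝ) + 1 ≤ 2 * (E * (X : ℝ) ^ ep) := by
    have h1 : Nat.log 2 (2 * X) = Nat.log 2 X + 1 := by
      rw [mul_comm, Nat.log_mul_base (by norm_num) (by omega)]
    rw [h1]
    push_cast
    have := log2_le hX
    linarith
  have hTinv : (X : ℝ) / T ≤ 2 * (X : ℝ) ^ (1 - th) := by
    rw [div_le_iff₀ hTR]
    calc (X : ℝ) = (X : ℝ) ^ (1 - th) * (X : ℝ) ^ th := by
          rw [← Real.rpow_add hX0R]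
          norm_num
      _ = 2 * (X : ℝ) ^ (1 - th) * ((X : ℝ) ^ th / 2) := by ring
      _ ≤ 2 * (X : ℝ) ^ (1 - th) * T := by gcongr
  have hmono : ∀ {y : ℝ}, y ≤ 1 - th / 2 → (X : ℝ) ^ y ≤ (X : ℝ) ^ (1 - th / 2) :=
    fun hy => Real.rpow_le_rpow_of_exponent_le hXR hy
  set Q : ℝ := (X : ℝ) ^ (1 - th / 2) with hQ
  have b1 : (Nat.sqrt X : ℝ) ≤ Q := (sqrt_le_rpow X).trans (hmono (by linarith))
  have b2 : (Nat.sqrt (Nat.sqrt (X ^ 3)) : ℝ) ≤ Q := (sqrt4_le_rpow X).trans (hmono (by linarith))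
  have b3 : 8 * lam * X / T * (1 + Real.log X) ≤ 16 * lam * E * Q := by
    calc 8 * lam * X / T * (1 + Real.log X) = 8 * lam * ((X : ℝ) / T) * (1 + Real.log X) := by ring
      _ ≤ 8 * lam * (2 * (X : ℝ) ^ (1 - th)) * (E * (X : ℝ) ^ ep) := by gcongr
      _ = 16 * lam * E * ((X : ℝ) ^ (1 - th) * (X : ℝ) ^ ep) := by ring
      _ = 16 * lam * E * (X : ℝ) ^ (1 - th + ep) := by rw [← Real.rpow_add hX0R]
      _ ≤ 16 * lam * E * Q := by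
          refine mul_le_mul_of_nonneg_left (hmono ?_) (by positivity)
          rw [hep]
          linarith
  have b4 : ((Nat.sqrt X : ℝ) + 1) * ((4 * lam) * ((4 * lam) * ((Nat.log 2 (2 * X) : ℝ) + 1))) ≤
      64 * (lam : ℝ) ^ 2 * E * Q := by
    have h1 : (Nat.sqrt X : ℝ) + 1 ≤ 2 * (X : ℝ) ^ ((1 : ℝ) / 2) := by
      have h2 := sqrt_le_rpow X
      have h3 := hpow1 (y := (1 : ℝ) / 2) (by norm_num)
      linarith
    calc ((Nat.sqrt X : ℝ) + 1) * ((4 * lam) * ((4 * lam) * ((Nat.log 2 (2 * X) : ℝ) + 1)))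
        ≤ (2 * (X : ℝ) ^ ((1 : ℝ) / 2)) * ((4 * lam) * ((4 * lam) * (2 * (E * (X : ℝ) ^ ep)))) := by
          gcongr
      _ = 64 * (lam : ℝ) ^ 2 * E * ((X : ℝ) ^ ((1 : ℝ) / 2) * (X : ℝ) ^ ep) := by ring
      _ = 64 * (lam : ℝ) ^ 2 * E * (X : ℝ) ^ ((1 : ℝ) / 2 + ep) := by rw [← Real.rpow_add hX0R]
      _ ≤ _ := by
          refine mul_le_mul_of_nonneg_left (hmono ?_) (by positivity)
          rw [hep]
          linarith
  have b5 : ((Nat.log 2 X : ℝ) + 1) ^ 2 * (2 * X / T) * (1 + Real.log X) ≤ 16 * E ^ 3 * Q := by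
    calc ((Nat.log 2 X : ℝ) + 1) ^ 2 * (2 * X / T) * (1 + Real.log X)
        = ((Nat.log 2 X : ℝ) + 1) ^ 2 * (2 * ((X : ℝ) / T)) * (1 + Real.log X) := by ring
      _ ≤ (2 * (E * (X : ℝ) ^ ep)) ^ 2 * (2 * (2 * (X : ℝ) ^ (1 - th))) * (E * (X : ℝ) ^ ep) := by
          gcongr
      _ = 16 * E ^ 3 * (((X : ℝ) ^ ep * (X : ℝ) ^ ep) * (X : ℝ) ^ ep * (X : ℝ) ^ (1 - th)) := by ring
      _ = 16 * E ^ 3 * (X : ℝ) ^ (ep + ep + ep + (1 - th)) := by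
          rw [← Real.rpow_add hX0R, ← Real.rpow_add hX0R, ← Real.rpow_add hX0R]
      _ ≤ _ := by
          refine mul_le_mul_of_nonneg_left (hmono ?_) (by positivity)
          rw [hep]
          linarith
  have hQ0 : 0 ≤ Q := hmain0
  have hX0' : (0 : ℝ) ≤ (X0 : ℝ) * Q := by positivity
  have : (X0 + 3 + 16 * lam * E + 64 * (lam : ℝ) ^ 2 * E + 16 * E ^ 3) * Q =
      X0 * Q + 3 * Q + 16 * lam * E * Q + 64 * (lam : ℝ) ^ 2 * E * Q + 16 * E ^ 3 * Q := by ring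
  rw [this]
  linarith

end Pool.Agent.L0h26.HallE
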