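import Mathlib
import Pool.Agent.L0h26.HaF

set_option autoImplicit false

/-!
# Counting: primes near the square root
-/

namespace Pool.Agent.L0h26.HallE

open Finset

theorem sum_bU_le (s : Finset ℕ) (t : ℕ → Finset ℕ) (f : ℕ → ℝ) (hf : ∀ x, 0 ≤ f x) :
    ∑ x ∈ s.biUnion t, f x ≤ ∑ i ∈ s, ∑ x ∈ t i, f x := by
  induction s using Finset.induction_on with
  | empty => simp
  | insert a s ha ih =>
    rw [biUnion_insert, sum_insert ha]
    have h1 := sum_union_inter (s₁ := t a) (s₂ := s.biUnion t) (f := f)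
    have h2 : 0 ≤ ∑ x ∈ t a ∩ s.biUnion t, f x := sum_nonneg fun x _ => hf x
    linarith

/-- primes between consecutive powers of two -/
theorem dyadic (j : ℕ) (hj : 1 ≤ j) :
    ∑ p ∈ (Icc 1 (2 ^ (j + 1))).filter (fun p : ℕ => p.Prime ∧ 2 ^ j ≤ p), (p : ℝ)⁻¹ ≤ 4 / j := by
  set S := (Icc 1 (2 ^ (j + 1))).filter (fun p : ℕ => p.Prime ∧ 2 ^ j ≤ p) with hS
  have hjR : (0 : ℝ) < j := by exact_mod_cast hj
  have h2j : (0 : ℝ) < 2 ^ j := by positivity
  have hl2 : 0 < Real.log 2 := Real.log_pos (by norm_num)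
  have h1 : ∑ p ∈ S, Real.log (p : ℝ) ≤ Real.log 4 * 2 ^ (j + 1) := by
    have h2 := Chebyshev.theta_le_log4_mul_x (x := (2 : ℝ) ^ (j + 1)) (by positivity)
    refine le_trans ?_ h2
    have h3 : Chebyshev.theta ((2 : ℝ) ^ (j + 1)) =
      ∑ p ∈ (Ioc 0 ⌊(2 : ℝ) ^ (j + 1)⌋₊).filter Nat.Prime, Real.log p := rfl
    have h4 : ⌊(2 : ℝ) ^ (j + 1)⌋₊ = 2 ^ (j + 1) := by
      have : ((2 : ℝ) ^ (j + 1)) = ((2 ^ (j + 1) : ℕ) : ℝ) := by push_cast; rfl
      rw [this, Nat.floor_natCast]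
    rw [h3, h4]
    refine sum_le_sum_of_subset_of_nonneg ?_ ?_
    · intro p hp
      rw [hS, mem_filter, mem_Icc] at hp
      rw [mem_filter, mem_Ioc]
      exact ⟨⟨by omega, hp.1.2⟩, hp.2.1⟩
    · intro p _ _
      exact Real.log_natCast_nonneg p
  have h4 : Real.log 4 = 2 * Real.log 2 := by
    rw [show (4 : ℝ) = 2 ^ 2 by norm_num, Real.log_pow]
    norm_num
  have h5 : (S.card : ℝ) * (j * Real.log 2) ≤ ∑ p ∈ S, Real.log (p : ℝ) := by
    rw [← nsmul_eq_mul, ← sum_const]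
    refine sum_le_sum fun p hp => ?_
    rw [hS, mem_filter] at hp
    rw [← Real.log_pow]
    exact Real.log_le_log (by positivity) (by exact_mod_cast hp.2.2)
  have h6 : (S.card : ℝ) ≤ 4 * 2 ^ j / j := by
    rw [le_div_iff₀ hjR]
    have h7 : (S.card : ℝ) * (j * Real.log 2) ≤ 2 * Real.log 2 * 2 ^ (j + 1) := by
      rw [← h4]
      exact h5.trans h1
    have h8 : ((S.card : ℝ) * j) * Real.log 2 ≤ (4 * 2 ^ j) * Real.log 2 := by
      rw [pow_succ] at h7
      linarith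
    exact le_of_mul_le_mul_right h8 hl2
  calc ∑ p ∈ S, (p : ℝ)⁻¹ ≤ ∑ p ∈ S, ((2 : ℝ) ^ j)⁻¹ := by
        refine sum_le_sum fun p hp => ?_
        rw [hS, mem_filter] at hp
        exact inv_anti₀ h2j (by exact_mod_cast hp.2.2)
    _ = (S.card : ℝ) * ((2 : ℝ) ^ j)⁻¹ := by rw [sum_const, nsmul_eq_mul]
    _ ≤ (4 * 2 ^ j / j) * ((2 : ℝ) ^ j)⁻¹ := by gcongr
    _ = 4 / j := by field_simp

theorem log_ineq {l : ℕ} (hl : 16 ≤ l) : 2 * Nat.log 2 l + 6 ≤ l := by
  have h1 : 2 ^ Nat.log 2 l ≤ l := Nat.pow_log_le_self 2 (by omega)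
  have h2 : 4 ≤ Nat.log 2 l := Nat.le_log_of_pow_le (by norm_num) (by omega)
  have h3 : ∀ n : ℕ, 4 ≤ n → 2 * n + 6 ≤ 2 ^ n := by
    intro n hn
    induction n, hn using Nat.le_induction with
    | base => norm_num
    | succ n hn ih =>
      rw [pow_succ]
      omega
  exact (h3 _ h2).trans h1

/-- the primes between `√(X / l)` and `l √X`, `l = log X` -/
theorem prime_sum {X : ℕ} (hl : 16 ≤ Nat.log 2 X) :
    ∑ p ∈ (Icc 1 (X * Nat.log 2 X)).filter (fun p : ℕ => p.Prime ∧ X < p ^ 2 * Nat.log 2 X ∧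
      p ^ 2 ≤ X * Nat.log 2 X ^ 2), (p : ℝ)⁻¹ ≤
      32 * ((Nat.log 2 (Nat.log 2 X) : ℝ) + 2) / Nat.log 2 X := by
  set l := Nat.log 2 X with hl'
  set m := Nat.log 2 l with hm
  set S := (Icc 1 (X * l)).filter (fun p : ℕ => p.Prime ∧ X < p ^ 2 * l ∧ p ^ 2 ≤ X * l ^ 2) with hS
  have hli := log_ineq hl
  rw [← hm] at hli
  have hX0 : X ≠ 0 := by
    rintro rfl
    simp at hl'
    omega
  set j0 := (l - m - 2) / 2 with hj0
  set j1 := (l + 2 * m + 2) / 2 with hj1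
  have hsub : S ⊆ (Icc j0 j1).biUnion fun j =>
      (Icc 1 (2 ^ (j + 1))).filter (fun p : ℕ => p.Prime ∧ 2 ^ j ≤ p) := by
    intro p hp
    rw [hS, mem_filter, mem_Icc] at hp
    obtain ⟨⟨hp1, -⟩, hpp, ha, hb⟩ := hp
    have g1 : 2 ^ Nat.log 2 p ≤ p := Nat.pow_log_le_self 2 (by omega)
    have g2 : p < 2 ^ (Nat.log 2 p + 1) := Nat.lt_pow_succ_log_self (by norm_num) _
    have g3 : 2 ^ l ≤ X := Nat.pow_log_le_self 2 hX0
    have g4 : X < 2 ^ (l + 1) := Nat.lt_pow_succ_log_self (by norm_num) _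
    have g5 : l < 2 ^ (m + 1) := Nat.lt_pow_succ_log_self (by norm_num) _
    have k1 : 2 * Nat.log 2 p < l + 1 + 2 * (m + 1) := by
      have h1 : 2 ^ (2 * Nat.log 2 p) < 2 ^ (l + 1 + 2 * (m + 1)) := by
        calc 2 ^ (2 * Nat.log 2 p) = (2 ^ Nat.log 2 p) ^ 2 := by rw [← pow_mul, mul_comm]
          _ ≤ p ^ 2 := Nat.pow_le_pow_left g1 2
          _ ≤ X * l ^ 2 := hb
          _ < 2 ^ (l + 1) * (2 ^ (m + 1)) ^ 2 :=
              Nat.mul_lt_mul_of_lt_of_le g4 (Nat.pow_le_pow_left g5.le 2) (by positivity)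
          _ = 2 ^ (l + 1 + 2 * (m + 1)) := by
              rw [← pow_mul, ← pow_add, mul_comm (m + 1) 2]
      exact (Nat.pow_lt_pow_iff_right (by norm_num)).1 h1
    have k2 : l < 2 * (Nat.log 2 p + 1) + (m + 1) := by
      have h1 : 2 ^ l < 2 ^ (2 * (Nat.log 2 p + 1) + (m + 1)) := by
        calc 2 ^ l ≤ X := g3
          _ < p ^ 2 * l := ha
          _ ≤ (2 ^ (Nat.log 2 p + 1)) ^ 2 * 2 ^ (m + 1) :=
              Nat.mul_le_mul (Nat.pow_le_pow_left g2.le 2) g5.le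
          _ = 2 ^ (2 * (Nat.log 2 p + 1) + (m + 1)) := by
              rw [← pow_mul, ← pow_add, mul_comm (Nat.log 2 p + 1) 2]
      exact (Nat.pow_lt_pow_iff_right (by norm_num)).1 h1
    rw [mem_biUnion]
    refine ⟨Nat.log 2 p, ?_, ?_⟩
    · rw [mem_Icc, hj0, hj1]
      omega
    · rw [mem_filter, mem_Icc]
      exact ⟨⟨hp1, g2.le⟩, hpp, g1⟩
  have hj0l : l ≤ 4 * j0 := by omega
  have hl0 : (0 : ℝ) < l := by
    have : 0 < l := by omega
    exact_mod_cast this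
  have h1 : ∑ p ∈ S, (p : ℝ)⁻¹ ≤ ∑ j ∈ Icc j0 j1,
      ∑ p ∈ (Icc 1 (2 ^ (j + 1))).filter (fun p : ℕ => p.Prime ∧ 2 ^ j ≤ p), (p : ℝ)⁻¹ := by
    refine (sum_le_sum_of_subset_of_nonneg hsub ?_).trans (sum_bU_le _ _ _ ?_)
    · intro p _ _
      positivity
    · intro p
      positivity
  have h2 : ∀ j ∈ Icc j0 j1,
      ∑ p ∈ (Icc 1 (2 ^ (j + 1))).filter (fun p : ℕ => p.Prime ∧ 2 ^ j ≤ p), (p : ℝ)⁻¹ ≤ 16 / l := by
    intro j hj
    rw [mem_Icc] at hj
    refine (dyadic j (by omega)).trans ?_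
    have hjR : (0 : ℝ) < j := by
      have : 0 < j := by omega
      exact_mod_cast this
    rw [div_le_div_iff₀ hjR hl0]
    have : (l : ℝ) ≤ 4 * j := by
      have h3 : l ≤ 4 * j := by omega
      exact_mod_cast h3
    linarith
  refine (h1.trans (sum_le_sum h2)).trans ?_
  rw [sum_const, Nat.card_Icc, nsmul_eq_mul]
  have h3 : ((j1 + 1 - j0 : ℕ) : ℝ) ≤ 2 * (m + 2) := by
    have h4 : j1 + 1 - j0 ≤ 2 * (m + 2) := by omega
    exact_mod_cast h4
  calc ((j1 + 1 - j0 : ℕ) : ℝ) * (16 / l) ≤ (2 * (m + 2)) * (16 / l) := by gcongr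
    _ = 32 * ((m : ℝ) + 2) / l := by ring

theorem cls_real (q c X : ℕ) : ((((range (X + 1)).filter fun k => k % q = c % q).card : ℕ) : ℝ) ≤
    (X : ℝ) / q + 1 := by
  have h1 : ((((range (X + 1)).filter fun k => k % q = c % q).card : ℕ) : ℝ) ≤
      ((X / q : ℕ) : ℝ) + 1 := by exact_mod_cast card_cls q c X
  have h2 : ((X / q : ℕ) : ℝ) ≤ (X : ℝ) / q := Nat.cast_div_le
  linarith

theorem ph_le {lam f k : ℕ} (hf : 1 ≤ f) (h : (f - 1) ^ 2 + lam ≤ k) : ph lam f ≤ 2 * k := by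
  have hff : f - 1 ≤ (f - 1) ^ 2 := Nat.le_self_pow (by norm_num) _
  obtain ⟨w, rfl⟩ : ∃ w, f = w + 1 := ⟨f - 1, by omega⟩
  unfold ph
  rw [Nat.add_sub_cancel] at *
  nlinarith

open scoped Classical in
theorem count3 (lam X : ℕ) (hlam : 1 ≤ lam) (hX : lam ≤ X) (hl : 16 ≤ Nat.log 2 X) :
    ((((Icc 1 X).filter fun k => ∃ p : ℕ, p.Prime ∧ k ≤ (p - 1) ^ 2 ∧ (p ^ 2 ∣ ph lam k ∨
      ∃ f : ℕ, 2 ≤ f ∧ f < p ∧ (f - 1) ^ 2 + lam ≤ k ∧ p ∣ k - f ∧ p ∣ ph lam f)).card : ℕ) : ℝ) ≤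
    (X : ℝ) / Nat.log 2 X +
    ((Nat.sqrt (Nat.sqrt (X ^ 3)) * (8 * lam * Nat.log 2 X + 2) +
      (Nat.sqrt X + 1) * ((4 * lam) * ((4 * lam) * (Nat.log 2 (2 * X) + 1)))) +
    ((8 * lam + 2) * (X * (32 * ((Nat.log 2 (Nat.log 2 X) : ℝ) + 2) / Nat.log 2 X) +
      (Nat.sqrt X + 1) * Nat.log 2 X) +
    (Nat.sqrt X + 1) * ((Nat.sqrt X + 1) / Nat.log 2 X + 1))) := by
  set l := Nat.log 2 X with hl'
  set R := Nat.sqrt X with hR
  set Z := Nat.sqrt (Nat.sqrt (X ^ 3)) with hZ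
  have hX0 : X ≠ 0 := by omega
  have hl0 : (0 : ℝ) < l := by
    have : 0 < l := by omega
    exact_mod_cast this
  have hZ4 : X ^ 3 < (Z + 1) ^ 4 := by
    have h1 : Nat.sqrt (X ^ 3) < (Z + 1) ^ 2 := Nat.lt_succ_sqrt' _
    have h2 : X ^ 3 < (Nat.sqrt (X ^ 3) + 1) ^ 2 := Nat.lt_succ_sqrt' _
    calc X ^ 3 < (Nat.sqrt (X ^ 3) + 1) ^ 2 := h2
      _ ≤ ((Z + 1) ^ 2) ^ 2 := Nat.pow_le_pow_left h1 2
      _ = (Z + 1) ^ 4 := by ring
  have hR2 : X < (R + 1) ^ 2 := Nat.lt_succ_sqrt' _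
  set S2 := ((Icc 1 Z).filter fun p : ℕ => p.Prime ∧ X < p ^ 2 * l).biUnion fun p =>
    (Icc 1 X).filter fun k => p ^ 2 ∣ ph lam k with hS2
  set S2' := (Icc 1 X).filter fun k => ∃ p : ℕ, X ^ 3 < p ^ 4 ∧ p ^ 2 ∣ ph lam k with hS2'
  set PP := (Icc 1 (X * l)).filter (fun p : ℕ => p.Prime ∧ X < p ^ 2 * l ∧ p ^ 2 ≤ X * l ^ 2) with hPP
  set S3 := PP.biUnion fun p => ((Icc 1 p).filter fun f => p ^ 1 ∣ ph lam f).biUnion fun f =>
    (range (X + 1)).filter fun k => k % p = f % p with hS3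
  set FF := (Icc 2 (R + 1)).filter fun f => ph lam f ≤ 2 * X with hFF
  set S4 := FF.biUnion fun f => ((ph lam f).primeFactors.filter fun p => X * l ^ 2 < p ^ 2).biUnion
    fun p => (range (X + 1)).filter fun k => k % p = f % p with hS4
  have hsub : ((Icc 1 X).filter fun k => ∃ p : ℕ, p.Prime ∧ k ≤ (p - 1) ^ 2 ∧ (p ^ 2 ∣ ph lam k ∨
      ∃ f : ℕ, 2 ≤ f ∧ f < p ∧ (f - 1) ^ 2 + lam ≤ k ∧ p ∣ k - f ∧ p ∣ ph lam f)) ⊆
      Icc 1 (X / l) ∪ ((S2 ∪ S2') ∪ (S3 ∪ S4)) := by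
    intro k hk
    rw [mem_filter, mem_Icc] at hk
    obtain ⟨⟨hk1, hkX⟩, p, hp, hkp, hor⟩ := hk
    rw [mem_union, mem_union, mem_union, mem_union]
    by_cases h1 : k * l ≤ X
    · left
      rw [mem_Icc]
      exact ⟨hk1, (Nat.le_div_iff_mul_le (by omega)).2 h1⟩
    right
    push Not at h1
    have hkp2 : k < p ^ 2 := by
      have h2 := hp.two_le
      exact lt_of_le_of_lt hkp (Nat.pow_lt_pow_left (by omega) (by norm_num))
    have hXp : X < p ^ 2 * l := lt_of_lt_of_le h1 (Nat.mul_le_mul_right _ hkp2.le)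
    rcases hor with h2 | ⟨f, hf, hfp, hfk, hd, hpf⟩
    · left
      by_cases hpZ : p ≤ Z
      · left
        rw [hS2, mem_biUnion]
        exact ⟨p, mem_filter.2 ⟨mem_Icc.2 ⟨hp.one_le, hpZ⟩, hp, hXp⟩,
          mem_filter.2 ⟨mem_Icc.2 ⟨hk1, hkX⟩, h2⟩⟩
      · right
        rw [hS2', mem_filter]
        exact ⟨mem_Icc.2 ⟨hk1, hkX⟩, p, lt_of_lt_of_le hZ4 (Nat.pow_le_pow_left (by omega) 4), h2⟩
    · right
      have hff : f - 1 ≤ (f - 1) ^ 2 := Nat.le_self_pow (by norm_num) _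
      have hmod : k % p = f % p := ((Nat.modEq_iff_dvd' (by omega)).2 hd).symm
      have hkr : k ∈ (range (X + 1)).filter fun k => k % p = f % p :=
        mem_filter.2 ⟨mem_range.2 (by omega), hmod⟩
      by_cases h3 : p ^ 2 ≤ X * l ^ 2
      · left
        rw [hS3, mem_biUnion]
        refine ⟨p, ?_, ?_⟩
        · rw [hPP, mem_filter, mem_Icc]
          refine ⟨⟨hp.one_le, ?_⟩, hp, hXp, h3⟩
          have h4 : p ^ 2 ≤ (X * l) ^ 2 := by
            refine h3.trans ?_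
            rw [mul_pow]
            exact Nat.mul_le_mul_right _ (Nat.le_self_pow (by norm_num) _)
          exact (Nat.pow_le_pow_iff_left (by norm_num)).1 h4
        · rw [mem_biUnion]
          refine ⟨f, ?_, hkr⟩
          rw [mem_filter, mem_Icc, pow_one]
          exact ⟨⟨by omega, hfp.le⟩, hpf⟩
      · right
        push Not at h3
        rw [hS4, mem_biUnion]
        refine ⟨f, ?_, ?_⟩
        · rw [hFF, mem_filter, mem_Icc]
          refine ⟨⟨hf, ?_⟩, ?_⟩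
          · have h4 : (f - 1) ^ 2 < (R + 1) ^ 2 := by omega
            have h5 := lt_of_pow_lt_pow_left₀ 2 (by omega) h4
            omega
          · have := ph_le (by omega) hfk
            omega
        · rw [mem_biUnion]
          refine ⟨p, ?_, hkr⟩
          rw [mem_filter, Nat.mem_primeFactors]
          exact ⟨⟨hp, hpf, by unfold ph; omega⟩, h3⟩
  have hc := (card_le_card hsub).trans ((card_union_le _ _).trans (Nat.add_le_add_left
    ((card_union_le _ _).trans (Nat.add_le_add (card_union_le _ _) (card_union_le _ _))) _))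
  have hcR : ((((Icc 1 X).filter fun k => ∃ p : ℕ, p.Prime ∧ k ≤ (p - 1) ^ 2 ∧ (p ^ 2 ∣ ph lam k ∨
      ∃ f : ℕ, 2 ≤ f ∧ f < p ∧ (f - 1) ^ 2 + lam ≤ k ∧ p ∣ k - f ∧ p ∣ ph lam f)).card : ℕ) : ℝ) ≤
      (((Icc 1 (X / l)).card : ℕ) : ℝ) + (((S2.card : ℕ) : ℝ) + (S2'.card : ℕ) +
        (((S3.card : ℕ) : ℝ) + (S4.card : ℕ))) := by exact_mod_cast hc
  refine hcR.trans ?_
  refine add_le_add ?_ (add_le_add (add_le_add ?_ ?_) (add_le_add ?_ ?_))
  · rw [Nat.card_Icc, Nat.add_sub_cancel]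
    exact Nat.cast_div_le
  · have h1 : ((S2.card : ℕ) : ℝ) ≤ ∑ p ∈ (Icc 1 Z).filter fun p : ℕ => p.Prime ∧ X < p ^ 2 * l,
        ((((Icc 1 X).filter fun k => p ^ 2 ∣ ph lam k).card : ℕ) : ℝ) := by
      exact_mod_cast card_biUnion_le
    refine h1.trans ?_
    have h2 : ∀ p ∈ (Icc 1 Z).filter fun p : ℕ => p.Prime ∧ X < p ^ 2 * l,
        ((((Icc 1 X).filter fun k => p ^ 2 ∣ ph lam k).card : ℕ) : ℝ) ≤ 8 * lam * l + 2 := by
      intro p hp
      rw [mem_filter] at hp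
      refine (roots lam hlam hp.2.1 2 X).trans ?_
      have hp0 : (0 : ℝ) < (p : ℝ) ^ 2 := by
        have : (0 : ℝ) < p := by exact_mod_cast hp.2.1.pos
        positivity
      have h3 : (X : ℝ) * (4 * lam) / (p : ℝ) ^ 2 ≤ 4 * lam * l := by
        rw [div_le_iff₀ hp0]
        have h4 : (X : ℝ) ≤ (p : ℝ) ^ 2 * l := by exact_mod_cast hp.2.2.le
        have h5 : (0 : ℝ) ≤ 4 * lam := by positivity
        nlinarith [mul_le_mul_of_nonneg_right h4 h5]
      linarith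
    refine (sum_le_sum h2).trans ?_
    rw [sum_const, nsmul_eq_mul]
    refine mul_le_mul_of_nonneg_right ?_ (by positivity)
    have h3 : ((Icc 1 Z).filter fun p : ℕ => p.Prime ∧ X < p ^ 2 * l).card ≤ Z := by
      refine (card_filter_le _ _).trans ?_
      simp
    exact_mod_cast h3
  · exact_mod_cast pell_count lam X hlam hX
  · have h1 : ((S3.card : ℕ) : ℝ) ≤ ∑ p ∈ PP, ∑ f ∈ (Icc 1 p).filter fun f => p ^ 1 ∣ ph lam f,
        ((((range (X + 1)).filter fun k => k % p = f % p).card : ℕ) : ℝ) := by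
      have h2 : S3.card ≤ ∑ p ∈ PP, ∑ f ∈ (Icc 1 p).filter fun f => p ^ 1 ∣ ph lam f,
        ((range (X + 1)).filter fun k => k % p = f % p).card :=
        card_biUnion_le.trans (sum_le_sum fun p _ => card_biUnion_le)
      exact_mod_cast h2
    refine h1.trans ?_
    have h2 : ∀ p ∈ PP, ∑ f ∈ (Icc 1 p).filter fun f => p ^ 1 ∣ ph lam f,
        ((((range (X + 1)).filter fun k => k % p = f % p).card : ℕ) : ℝ) ≤
        (8 * lam + 2) * (X * (p : ℝ)⁻¹ + 1) := by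
      intro p hp
      rw [hPP, mem_filter] at hp
      have hp0 : (0 : ℝ) < p := by exact_mod_cast hp.2.1.pos
      calc ∑ f ∈ (Icc 1 p).filter fun f => p ^ 1 ∣ ph lam f,
          ((((range (X + 1)).filter fun k => k % p = f % p).card : ℕ) : ℝ)
          ≤ ∑ f ∈ (Icc 1 p).filter fun f => p ^ 1 ∣ ph lam f, ((X : ℝ) / p + 1) :=
            sum_le_sum fun f _ => cls_real p f X
        _ = ((((Icc 1 p).filter fun f => p ^ 1 ∣ ph lam f).card : ℕ) : ℝ) * ((X : ℝ) / p + 1) := by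
            rw [sum_const, nsmul_eq_mul]
        _ ≤ (2 * ((p : ℝ) * (4 * lam) / (p : ℝ) ^ 1 + 1)) * ((X : ℝ) / p + 1) :=
            mul_le_mul_of_nonneg_right (roots lam hlam hp.2.1 1 p) (by positivity)
        _ = (8 * lam + 2) * (X * (p : ℝ)⁻¹ + 1) := by
            rw [pow_one]
            field_simp
            ring
    refine (sum_le_sum h2).trans ?_
    rw [← mul_sum]
    refine mul_le_mul_of_nonneg_left ?_ (by positivity)
    rw [sum_add_distrib, ← mul_sum, sum_const, nsmul_eq_mul, mul_one]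
    refine add_le_add ?_ ?_
    · exact mul_le_mul_of_nonneg_left (prime_sum hl) (Nat.cast_nonneg X)
    · have h3 : PP ⊆ Icc 1 ((R + 1) * l) := by
        intro p hp
        rw [hPP, mem_filter, mem_Icc] at hp
        rw [mem_Icc]
        refine ⟨hp.1.1, ?_⟩
        have h4 : p ^ 2 ≤ ((R + 1) * l) ^ 2 := by
          rw [mul_pow]
          exact hp.2.2.2.trans (Nat.mul_le_mul_right _ hR2.le)
        exact (Nat.pow_le_pow_iff_left (by norm_num)).1 h4
      have h4 := card_le_card h3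
      rw [Nat.card_Icc, Nat.add_sub_cancel] at h4
      exact_mod_cast h4
  · have h1 : ((S4.card : ℕ) : ℝ) ≤ ∑ f ∈ FF,
        ∑ p ∈ (ph lam f).primeFactors.filter fun p => X * l ^ 2 < p ^ 2,
        ((((range (X + 1)).filter fun k => k % p = f % p).card : ℕ) : ℝ) := by
      have h2 : S4.card ≤ ∑ f ∈ FF,
        ∑ p ∈ (ph lam f).primeFactors.filter fun p => X * l ^ 2 < p ^ 2,
        ((range (X + 1)).filter fun k => k % p = f % p).card :=
        card_biUnion_le.trans (sum_le_sum fun p _ => card_biUnion_le)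
      exact_mod_cast h2
    refine h1.trans ?_
    have h2 : ∀ f ∈ FF, ∑ p ∈ (ph lam f).primeFactors.filter fun p => X * l ^ 2 < p ^ 2,
        ((((range (X + 1)).filter fun k => k % p = f % p).card : ℕ) : ℝ) ≤
        ((R : ℝ) + 1) / l + 1 := by
      intro f hf
      rw [hFF, mem_filter] at hf
      have hone : ((ph lam f).primeFactors.filter fun p => X * l ^ 2 < p ^ 2).card ≤ 1 := by
        rw [card_le_one]
        intro p hp q hq
        rw [mem_filter, Nat.mem_primeFactors] at hp hq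
        by_contra hne
        have hco : Nat.Coprime p q := (Nat.coprime_primes hp.1.1 hq.1.1).2 hne
        have h3 : p * q ∣ ph lam f := hco.mul_dvd_of_dvd_of_dvd hp.1.2.1 hq.1.2.1
        have h4 : p * q ≤ ph lam f := Nat.le_of_dvd (by unfold ph; omega) h3
        have h5 : (X * l ^ 2) ^ 2 < (p * q) ^ 2 := by
          calc (X * l ^ 2) ^ 2 = (X * l ^ 2) * (X * l ^ 2) := by ring
            _ < p ^ 2 * q ^ 2 := Nat.mul_lt_mul'' hp.2 hq.2
            _ = (p * q) ^ 2 := by ring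
        have h6 : X * l ^ 2 < p * q := lt_of_pow_lt_pow_left₀ 2 (by omega) h5
        have h7 : 2 * X ≤ X * l ^ 2 := by
          rw [mul_comm]
          refine Nat.mul_le_mul_left _ ?_
          nlinarith
        omega
      calc ∑ p ∈ (ph lam f).primeFactors.filter fun p => X * l ^ 2 < p ^ 2,
          ((((range (X + 1)).filter fun k => k % p = f % p).card : ℕ) : ℝ)
          ≤ ∑ p ∈ (ph lam f).primeFactors.filter fun p => X * l ^ 2 < p ^ 2,
            (((R : ℝ) + 1) / l + 1) := by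
            refine sum_le_sum fun p hp => ?_
            rw [mem_filter, Nat.mem_primeFactors] at hp
            have hp0 : (0 : ℝ) < p := by exact_mod_cast hp.1.1.pos
            have h3 : (X : ℝ) / p ≤ ((R : ℝ) + 1) / l := by
              rw [div_le_div_iff₀ hp0 hl0]
              have h4 : (X * l) ^ 2 ≤ ((R + 1) * p) ^ 2 := by
                calc (X * l) ^ 2 = X * (X * l ^ 2) := by ring
                  _ ≤ (R + 1) ^ 2 * p ^ 2 := Nat.mul_le_mul hR2.le hp.2.le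
                  _ = ((R + 1) * p) ^ 2 := by ring
              exact_mod_cast (Nat.pow_le_pow_iff_left (by norm_num)).1 h4
            have := cls_real p f X
            linarith
        _ = ((((ph lam f).primeFactors.filter fun p => X * l ^ 2 < p ^ 2).card : ℕ) : ℝ) *
            (((R : ℝ) + 1) / l + 1) := by rw [sum_const, nsmul_eq_mul]
        _ ≤ 1 * (((R : ℝ) + 1) / l + 1) := by
            refine mul_le_mul_of_nonneg_right ?_ (by positivity)
            exact_mod_cast hone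
        _ = _ := one_mul _
    refine (sum_le_sum h2).trans ?_
    rw [sum_const, nsmul_eq_mul]
    refine mul_le_mul_of_nonneg_right ?_ (by positivity)
    have h3 : FF.card ≤ R + 1 := by
      refine (card_filter_le _ _).trans ?_
      rw [Nat.card_Icc]
      omega
    exact_mod_cast h3

end Pool.Agent.L0h26.HallE
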