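import Mathlib
import Pool.Agent.L0h26.HaG

set_option autoImplicit false

/-!
# Counting: the asymptotic form
-/

namespace Pool.Agent.L0h26.HallE

open Finset

/-- **Primes near the square root.** -/
theorem final2 {lam : ℕ} (hlam : 1 ≤ lam) (K0 : ℕ) (W : ℕ → Prop)
    (hW : ∀ k : ℕ, K0 ≤ k → W k → ∃ p : ℕ, p.Prime ∧ k ≤ (p - 1) ^ 2 ∧ (p ^ 2 ∣ ph lam k ∨
      ∃ f : ℕ, 2 ≤ f ∧ f < p ∧ (f - 1) ^ 2 + lam ≤ k ∧ p ∣ k - f ∧ p ∣ ph lam f)) :
    ∃ C : ℝ, ∀ X : ℕ, 3 ≤ X → (({k : ℕ | 1 ≤ k ∧ k ≤ X ∧ W k}.ncard : ℕ) : ℝ) ≤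
      C * (X * Real.log (Real.log X) / Real.log X) := by
  classical
  set X0 : ℕ := 2 ^ 16 + lam with hX0
  have hlog3 : 1 < Real.log 3 := by
    rw [Real.lt_log_iff_exp_lt (by norm_num)]
    have := Real.exp_one_lt_d9
    linarith
  set c : ℝ := Real.log (Real.log 3) with hc
  have hc0 : 0 < c := Real.log_pos hlog3
  set A : ℝ := 1 + 256 * (18 * lam + 128 * (lam : ℝ) ^ 2 + 40 * lam + 2) + 4 + K0 + 1920 * lam with hA
  refine ⟨X0 / c + A, ?_⟩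
  intro X hX
  have hXR : (3 : ℝ) ≤ X := by exact_mod_cast hX
  have hXpos : (0 : ℝ) < X := by linarith
  set L : ℝ := Real.log X with hL
  have hL3 : Real.log 3 ≤ L := Real.log_le_log (by norm_num) hXR
  have hL1 : 1 < L := lt_of_lt_of_le hlog3 hL3
  have hLL : c ≤ Real.log L := Real.log_le_log (by linarith) hL3
  set LL : ℝ := Real.log L with hLLdef
  have hLL0 : 0 < LL := lt_of_lt_of_le hc0 hLL
  have hLX : L ≤ X := (Real.log_le_sub_one_of_pos hXpos).trans (by linarith)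
  have hfin : {k : ℕ | 1 ≤ k ∧ k ≤ X ∧ W k} = ((Icc 1 X).filter W : Finset ℕ) := by
    ext k
    simp only [Set.mem_ofPred_eq, coe_filter, mem_Icc]
    tauto
  rw [hfin, Set.ncard_coe_finset]
  have hA0 : 0 ≤ A := by positivity
  have hmain0 : 0 ≤ X * LL / L := by positivity
  by_cases hsmall : X < X0
  · have h1 : (((Icc 1 X).filter W).card : ℝ) ≤ X := by
      have h2 : ((Icc 1 X).filter W).card ≤ X := by
        refine (card_filter_le _ _).trans ?_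
        simp
      exact_mod_cast h2
    have h2 : (X : ℝ) ≤ X0 / c * (X * LL / L) := by
      have h3 : X0 / c * (X * LL / L) = X * ((X0 / L) * (LL / c)) := by
        field_simp
      rw [h3]
      have h4 : (1 : ℝ) ≤ X0 / L := by
        rw [le_div_iff₀ (by linarith), one_mul]
        refine hLX.trans ?_
        exact_mod_cast hsmall.le
      have h5 : (1 : ℝ) ≤ LL / c := by
        rw [le_div_iff₀ hc0, one_mul]
        exact hLL
      have h6 : (1 : ℝ) ≤ (X0 / L) * (LL / c) := one_le_mul_of_one_le_of_one_le h4 h5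
      nlinarith
    have h3 : 0 ≤ A * (X * LL / L) := by positivity
    rw [add_mul]
    linarith
  push Not at hsmall
  have hX16 : 2 ^ 16 ≤ X := le_trans (by rw [hX0]; exact Nat.le_add_right _ _) hsmall
  have hlamX : lam ≤ X := le_trans (by rw [hX0]; exact Nat.le_add_left _ _) hsmall
  have hl16 : 16 ≤ Nat.log 2 X := Nat.le_log_of_pow_le (by norm_num) hX16
  set l := Nat.log 2 X with hl
  have hL11 : 11 ≤ L := by
    have h1 : Real.log ((2 : ℝ) ^ 16) ≤ L := Real.log_le_log (by norm_num) (by exact_mod_cast hX16)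
    rw [Real.log_pow] at h1
    have h2 := Real.log_two_gt_d9
    push_cast at h1
    linarith
  have hLL1 : 1 ≤ LL := by
    rw [hLLdef, Real.le_log_iff_exp_le (by linarith)]
    have := Real.exp_one_lt_d9
    linarith
  have hlL : L ≤ l := by
    have h1 : (X : ℝ) < 2 ^ (l + 1) := by
      exact_mod_cast Nat.lt_pow_succ_log_self (by norm_num) X
    have h2 : L < ((l : ℝ) + 1) * Real.log 2 := by
      have h3 := Real.log_lt_log hXpos h1
      rw [Real.log_pow] at h3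
      push_cast at h3
      exact h3
    have h3 := Real.log_two_lt_d9
    have h4 : (0 : ℝ) ≤ (l : ℝ) + 1 := by positivity
    have h5 : ((l : ℝ) + 1) * Real.log 2 ≤ ((l : ℝ) + 1) * 0.6931471808 :=
      mul_le_mul_of_nonneg_left h3.le h4
    by_contra hcon
    push Not at hcon
    linarith
  have hl2L : (l : ℝ) ≤ 2 * L := log2_le (by omega)
  have hlpos : (0 : ℝ) < l := by linarith
  have hm : (Nat.log 2 l : ℝ) + 2 ≤ 6 * LL := by
    have h1 := log2_le (X := l) (by omega)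
    have h2 : Real.log l ≤ Real.log (2 * L) := Real.log_le_log hlpos hl2L
    rw [Real.log_mul (by norm_num) (by linarith)] at h2
    have h3 := Real.log_two_lt_d9
    linarith
  have hsub : (Icc 1 X).filter W ⊆ (Icc 1 K0) ∪
      ((Icc 1 X).filter fun k => ∃ p : ℕ, p.Prime ∧ k ≤ (p - 1) ^ 2 ∧ (p ^ 2 ∣ ph lam k ∨
      ∃ f : ℕ, 2 ≤ f ∧ f < p ∧ (f - 1) ^ 2 + lam ≤ k ∧ p ∣ k - f ∧ p ∣ ph lam f)) := by
    intro k hk
    rw [mem_filter] at hk
    rw [mem_union, mem_filter]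
    by_cases h1 : k ≤ K0
    · exact Or.inl (mem_Icc.2 ⟨(mem_Icc.1 hk.1).1, h1⟩)
    · exact Or.inr ⟨hk.1, hW k (by omega) hk.2⟩
  have hcount := (card_le_card hsub).trans (card_union_le _ _)
  rw [Nat.card_Icc, Nat.add_sub_cancel] at hcount
  have hcR : (((Icc 1 X).filter W).card : ℝ) ≤ (K0 : ℝ) +
      ((((Icc 1 X).filter fun k => ∃ p : ℕ, p.Prime ∧ k ≤ (p - 1) ^ 2 ∧ (p ^ 2 ∣ ph lam k ∨
      ∃ f : ℕ, 2 ≤ f ∧ f < p ∧ (f - 1) ^ 2 + lam ≤ k ∧ p ∣ k - f ∧ p ∣ ph lam f)).card : ℕ) : ℝ) := by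
    exact_mod_cast hcount
  have hc3 := count3 lam X hlam hlamX hl16
  rw [← hl] at hc3
  refine hcR.trans ((add_le_add_right hc3 _).trans ?_)
  -- estimates
  set Q : ℝ := X / L with hQ
  have hQ0 : 0 < Q := by positivity
  set V : ℝ := (X : ℝ) ^ ((3 : ℝ) / 4) * L with hV
  have hV0 : 0 ≤ V := by positivity
  have hVQ : V ≤ 256 * Q := by
    have h1 : L ≤ (X : ℝ) ^ ((1 : ℝ) / 16) / (1 / 16) :=
      Real.log_le_rpow_div hXpos.le (by norm_num)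
    have h2 : L ≤ 16 * (X : ℝ) ^ ((1 : ℝ) / 16) := by linarith
    have h3 : L ^ 2 ≤ 256 * (X : ℝ) ^ ((1 : ℝ) / 8) := by
      calc L ^ 2 ≤ (16 * (X : ℝ) ^ ((1 : ℝ) / 16)) ^ 2 := by gcongr
        _ = 256 * ((X : ℝ) ^ ((1 : ℝ) / 16) * (X : ℝ) ^ ((1 : ℝ) / 16)) := by ring
        _ = 256 * (X : ℝ) ^ ((1 : ℝ) / 8) := by
            rw [← Real.rpow_add hXpos]
            norm_num
    have h4 : (X : ℝ) ^ ((1 : ℝ) / 8) ≤ (X : ℝ) ^ ((1 : ℝ) / 4) :=
      Real.rpow_le_rpow_of_exponent_le (by linarith) (by norm_num)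
    rw [hV, hQ, ← mul_div_assoc, le_div_iff₀ (by linarith)]
    calc (X : ℝ) ^ ((3 : ℝ) / 4) * L * L = (X : ℝ) ^ ((3 : ℝ) / 4) * L ^ 2 := by ring
      _ ≤ (X : ℝ) ^ ((3 : ℝ) / 4) * (256 * (X : ℝ) ^ ((1 : ℝ) / 4)) := by
          gcongr
          linarith
      _ = 256 * ((X : ℝ) ^ ((3 : ℝ) / 4) * (X : ℝ) ^ ((1 : ℝ) / 4)) := by ring
      _ = 256 * X := by
          rw [← Real.rpow_add hXpos]
          norm_num
  have hX34 : (1 : ℝ) ≤ (X : ℝ) ^ ((3 : ℝ) / 4) := Real.one_le_rpow (by linarith) (by norm_num)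
  have hX12 : (X : ℝ) ^ ((1 : ℝ) / 2) ≤ (X : ℝ) ^ ((3 : ℝ) / 4) :=
    Real.rpow_le_rpow_of_exponent_le (by linarith) (by norm_num)
  have hX34V : (X : ℝ) ^ ((3 : ℝ) / 4) ≤ V := by
    rw [hV]
    nlinarith
  have hR12 := sqrt_le_rpow X
  have h112 : (1 : ℝ) ≤ (X : ℝ) ^ ((1 : ℝ) / 2) := Real.one_le_rpow (by linarith) (by norm_num)
  have hR1 : (Nat.sqrt X : ℝ) + 1 ≤ 2 * (X : ℝ) ^ ((3 : ℝ) / 4) := by linarith
  have hR2 : ((Nat.sqrt X : ℝ) + 1) ^ 2 ≤ 4 * X := by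
    have h1 : (Nat.sqrt X : ℝ) + 1 ≤ 2 * (X : ℝ) ^ ((1 : ℝ) / 2) := by linarith
    calc ((Nat.sqrt X : ℝ) + 1) ^ 2 ≤ (2 * (X : ℝ) ^ ((1 : ℝ) / 2)) ^ 2 := by gcongr
      _ = 4 * ((X : ℝ) ^ ((1 : ℝ) / 2) * (X : ℝ) ^ ((1 : ℝ) / 2)) := by ring
      _ = 4 * X := by
          rw [← Real.rpow_add hXpos]
          norm_num
  have hZ := sqrt4_le_rpow X
  have hlam1 : (1 : ℝ) ≤ lam := by exact_mod_cast hlam
  have t0 : (K0 : ℝ) ≤ K0 * Q := by
    have h1 : (1 : ℝ) ≤ Q := by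
      rw [hQ, le_div_iff₀ (by linarith), one_mul]
      exact hLX
    have h2 : (0 : ℝ) ≤ K0 := Nat.cast_nonneg _
    nlinarith
  have t1 : (X : ℝ) / l ≤ Q := by
    rw [hQ]
    gcongr
  have t2 : (Nat.sqrt (Nat.sqrt (X ^ 3)) : ℝ) * (8 * lam * l + 2) ≤ 18 * lam * V := by
    calc (Nat.sqrt (Nat.sqrt (X ^ 3)) : ℝ) * (8 * lam * l + 2)
        ≤ (X : ℝ) ^ ((3 : ℝ) / 4) * (8 * lam * (2 * L) + 2 * lam * L) := by
          gcongr
          nlinarith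
      _ = 18 * lam * V := by
          rw [hV]
          ring
  have t3 : ((Nat.sqrt X : ℝ) + 1) * ((4 * lam) * ((4 * lam) * ((Nat.log 2 (2 * X) : ℝ) + 1))) ≤
      128 * (lam : ℝ) ^ 2 * V := by
    have h1 : Nat.log 2 (2 * X) = l + 1 := by
      rw [mul_comm, Nat.log_mul_base (by norm_num) (by omega)]
    have h2 : (Nat.log 2 (2 * X) : ℝ) + 1 ≤ 4 * L := by
      rw [h1]
      push_cast
      linarith
    calc ((Nat.sqrt X : ℝ) + 1) * ((4 * lam) * ((4 * lam) * ((Nat.log 2 (2 * X) : ℝ) + 1)))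
        ≤ (2 * (X : ℝ) ^ ((3 : ℝ) / 4)) * ((4 * lam) * ((4 * lam) * (4 * L))) := by gcongr
      _ = 128 * (lam : ℝ) ^ 2 * V := by
          rw [hV]
          ring
  have t4 : (8 * (lam : ℝ) + 2) * (X * (32 * ((Nat.log 2 l : ℝ) + 2) / l)) ≤
      1920 * lam * (LL * Q) := by
    calc (8 * (lam : ℝ) + 2) * (X * (32 * ((Nat.log 2 l : ℝ) + 2) / l))
        ≤ (8 * (lam : ℝ) + 2 * lam) * (X * (32 * (6 * LL) / L)) := by
          gcongr
          linarith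
      _ = 1920 * lam * (LL * Q) := by
          rw [hQ]
          ring
  have t5 : (8 * (lam : ℝ) + 2) * (((Nat.sqrt X : ℝ) + 1) * l) ≤ 40 * lam * V := by
    calc (8 * (lam : ℝ) + 2) * (((Nat.sqrt X : ℝ) + 1) * l)
        ≤ (8 * (lam : ℝ) + 2 * lam) * ((2 * (X : ℝ) ^ ((3 : ℝ) / 4)) * (2 * L)) := by
          gcongr
          linarith
      _ = 40 * lam * V := by
          rw [hV]
          ring
  have t6 : ((Nat.sqrt X : ℝ) + 1) * (((Nat.sqrt X : ℝ) + 1) / l + 1) ≤ 4 * Q + 2 * V := by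
    have h1 : ((Nat.sqrt X : ℝ) + 1) * (((Nat.sqrt X : ℝ) + 1) / l + 1) =
        ((Nat.sqrt X : ℝ) + 1) ^ 2 / l + ((Nat.sqrt X : ℝ) + 1) := by ring
    have h2 : ((Nat.sqrt X : ℝ) + 1) ^ 2 / l ≤ 4 * X / L := by gcongr
    have h3 : 4 * (X : ℝ) / L = 4 * Q := by
      rw [hQ]
      ring
    rw [h1]
    linarith
  have hQLL : Q ≤ LL * Q := by nlinarith
  have hfinal : X * LL / L = LL * Q := by
    rw [hQ]
    ring
  rw [hfinal]
  have hXc : 0 ≤ (X0 : ℝ) / c * (LL * Q) := by positivity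
  have e1 : (X0 / c + A) * (LL * Q) = X0 / c * (LL * Q) + A * (LL * Q) := by ring
  rw [e1]
  have hV' : V ≤ 256 * (LL * Q) := by linarith
  have hK : (0 : ℝ) ≤ K0 := Nat.cast_nonneg _
  have w2 : 18 * lam * V ≤ 18 * lam * (256 * (LL * Q)) := by gcongr
  have w3 : 128 * (lam : ℝ) ^ 2 * V ≤ 128 * (lam : ℝ) ^ 2 * (256 * (LL * Q)) := by gcongr
  have w5 : 40 * lam * V ≤ 40 * lam * (256 * (LL * Q)) := by gcongr
  have w0 : K0 * Q ≤ K0 * (LL * Q) := by gcongr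
  have e2 : A * (LL * Q) = LL * Q + 18 * lam * (256 * (LL * Q)) +
      128 * (lam : ℝ) ^ 2 * (256 * (LL * Q)) + 40 * lam * (256 * (LL * Q)) +
      2 * (256 * (LL * Q)) + 4 * (LL * Q) + K0 * (LL * Q) + 1920 * lam * (LL * Q) := by
    rw [hA]
    ring
  rw [e2]
  have e3 : (8 * (lam : ℝ) + 2) * (X * (32 * ((Nat.log 2 l : ℝ) + 2) / l) +
      ((Nat.sqrt X : ℝ) + 1) * l) = (8 * (lam : ℝ) + 2) * (X * (32 * ((Nat.log 2 l : ℝ) + 2) / l)) +
      (8 * (lam : ℝ) + 2) * (((Nat.sqrt X : ℝ) + 1) * l) := by ring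
  rw [e3]
  linarith

end Pool.Agent.L0h26.HallE
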