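import Mathlib
import Pool.Agent.W825.FP.Tot
import Pool.Agent.W854.FA.Fixed

set_option autoImplicit false

/-!
# The number of zeros of `x² + (2 lam - 1) x + lam²` modulo `s`
-/

namespace Pool.Agent.L0h26.HbL

open Finset Pool.Agent.H951R4.OD Pool.Agent.W825.FP

/-- the discriminant -/
def dL (la : ℕ) : ℤ := 1 - 4 * (la : ℤ)

noncomputable def rhoL (la s : ℕ) : ℕ := ((range s).filter (fun x : ℕ => (s : ℤ) ∣ fl la x)).card

/-- the weight -/
noncomputable def rD (la s : ℕ) : ℝ := rr (ch (dL la)) s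

variable {la : ℕ}

theorem dL_neg (h : 1 ≤ la) : dL la < 0 := by unfold dL; omega

theorem dL_nsq (h : 1 ≤ la) : ¬ IsSquare (dL la) := by
  rintro ⟨a, ha⟩
  have := mul_self_nonneg a
  have := dL_neg h
  omega

theorem chD (h : 1 ≤ la) : Chi (ch (dL la)) (4 * |((dL la : ℤ) : ℝ)|) := ch_chi (dL la) (dL_nsq h)

theorem rD_nonneg (h : 1 ≤ la) (s : ℕ) : 0 ≤ rD la s := rr_nonneg (chD h) s

theorem rD_mul (h : 1 ≤ la) {a b : ℕ} (hab : Nat.Coprime a b) :
    rD la (a * b) = rD la a * rD la b := by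
  unfold rD
  rw [B1_rr (chD h), B1_rr (chD h), B1_rr (chD h)]
  exact (B1_mult (chD h)).map_mul_of_coprime hab

theorem rD_pow (h : 1 ≤ la) (p k : ℕ) (hp : p.Prime) :
    rD la (p ^ k) = ∑ i ∈ range (k + 1), ch (dL la) p ^ i := by
  unfold rD rr
  rw [Nat.sum_divisors_prime_pow hp]
  exact sum_congr rfl fun i _ => B1_pow (chD h) p i

theorem rD_one (h : 1 ≤ la) : rD la 1 = 1 := rr_one (chD h)

theorem rD_pow_one (h : 1 ≤ la) (p k : ℕ) (hp : p.Prime) (hc : ch (dL la) p = 1) :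
    rD la (p ^ k) = k + 1 := by
  rw [rD_pow h p k hp, hc]; simp

theorem rD_pow_zero (h : 1 ≤ la) (p k : ℕ) (hp : p.Prime) (hc : ch (dL la) p = 0) :
    rD la (p ^ k) = 1 := by
  rw [rD_pow h p k hp, hc, sum_range_succ', pow_zero]
  simp

theorem rD_prime_mul (h : 1 ≤ la) (p s : ℕ) (hp : p.Prime) (hc : ch (dL la) p = 1) :
    rD la (p * s) ≤ 2 * rD la s := by
  rcases Nat.eq_zero_or_pos s with rfl | hs
  · have := rD_nonneg h 0
    rw [mul_zero]; linarith
  obtain ⟨k, m, hm, rfl⟩ := Nat.exists_eq_pow_mul_and_not_dvd hs.ne' p hp.ne_one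
  have hcop : Nat.Coprime p m := (hp.coprime_iff_not_dvd).2 hm
  have e : p * (p ^ k * m) = p ^ (k + 1) * m := by ring
  rw [e, rD_mul h (hcop.pow_left _), rD_mul h (hcop.pow_left _), rD_pow_one h p _ hp hc,
    rD_pow_one h p _ hp hc]
  have h1 := rD_nonneg h m
  push_cast
  have h2 : (0 : ℝ) ≤ k := Nat.cast_nonneg k
  nlinarith [mul_nonneg h2 h1]

theorem sum_rD (h : 1 ≤ la) : ∃ C : ℝ, 1 ≤ C ∧ ∀ S : ℕ, ∑ s ∈ Icc 1 S, rD la s ≤ C * S := by
  obtain ⟨C, hC, H⟩ := hyper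
  obtain ⟨lam, hlam, H2⟩ := H (ch (dL la)) _ (chD h)
  have hD1 : 1 ≤ (dL la).natAbs := Int.natAbs_pos.2 (by have := dL_neg h; omega)
  set M : ℕ := 4 * (dL la).natAbs with hMdef
  have hM : 4 * |((dL la : ℤ) : ℝ)| = (M : ℝ) := by
    rw [hMdef]; push_cast; rw [Nat.cast_natAbs]; push_cast; ring
  rw [hM] at H2
  set D := ∑ s ∈ Icc 1 M, rD la s with hD
  have hD0 : 0 ≤ D := sum_nonneg fun s _ => rD_nonneg h s
  have hM1 : (1 : ℝ) ≤ M := by exact_mod_cast (by omega : 1 ≤ M)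
  refine ⟨1 + D + lam + C * M, by nlinarith, fun S => ?_⟩
  have hS0 : (0 : ℝ) ≤ S := Nat.cast_nonneg S
  rcases Nat.lt_or_ge S M with h' | h'
  · rcases Nat.eq_zero_or_pos S with rfl | hS
    · simp
    · have h1 : ∑ s ∈ Icc 1 S, rD la s ≤ D := by
        apply sum_le_sum_of_subset_of_nonneg
        · exact Icc_subset_Icc le_rfl h'.le
        · intro s _ _; exact rD_nonneg h s
      have h2 : (1 : ℝ) ≤ S := by exact_mod_cast hS
      have h3 : 0 ≤ (1 + lam + C * M) * S := by positivity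
      nlinarith [mul_nonneg hD0 (by linarith : (0:ℝ) ≤ S - 1)]
  · have h1 := H2 S (by exact_mod_cast h')
    rw [abs_le] at h1
    have h2 : Real.sqrt (M * S) ≤ M * S := by
      rw [Real.sqrt_le_left (by positivity)]
      have h5 : (1 : ℝ) ≤ S := by
        have : (M : ℝ) ≤ S := by exact_mod_cast h'
        linarith
      have h6 : (1 : ℝ) ≤ M * S := by nlinarith
      nlinarith
    have h3 : C * Real.sqrt (M * S) ≤ C * (M * S) := mul_le_mul_of_nonneg_left h2 (by linarith)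
    have h4 := h1.2
    change ∑ s ∈ Icc 1 S, rD la s - lam * S ≤ _ at h4
    nlinarith [mul_nonneg hD0 hS0]

end Pool.Agent.L0h26.HbL
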