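import Mathlib
import Pool.Agent.L0h26.HbA
import Pool.Agent.H951R4.OD.F1

set_option autoImplicit false

/-!
# The number of zeros of `x² + (2 lam - 1) x + lam²` modulo `s`
-/

namespace Pool.Agent.L0h26.HbL

open Finset Pool.Agent.H951R4.OD Pool.Agent.W825.FP

variable {la : ℕ}

theorem fl_mod (la s n : ℕ) : (s : ℤ) ∣ fl la ((n % s : ℕ)) ↔ (s : ℤ) ∣ fl la n := by
  have h : (s : ℤ) ∣ fl la n - fl la ((n % s : ℕ)) := by
    have h1 : (s : ℤ) ∣ (n : ℤ) - ((n % s : ℕ) : ℤ) := by
      refine ⟨((n / s : ℕ) : ℤ), ?_⟩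
      have := Nat.mod_add_div n s
      have h2 : (n : ℤ) = ((n % s : ℕ) : ℤ) + (s : ℤ) * ((n / s : ℕ) : ℤ) := by
        exact_mod_cast this.symm
      linarith
    have h3 : fl la n - fl la ((n % s : ℕ)) = ((n : ℤ) - ((n % s : ℕ) : ℤ)) *
        ((n : ℤ) + ((n % s : ℕ) : ℤ) + (2 * (la : ℤ) - 1)) := by
      unfold fl; ring
    rw [h3]
    exact h1.mul_right _
  constructor
  · intro h1
    have := Int.dvd_add h h1
    simpa using this
  · intro h1
    have := Int.dvd_sub h1 h
    simpa using this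

theorem cntD {p : ℕ} (hp : p.Prime) (hp2 : p ≠ 2) (hpD : ¬ (p : ℤ) ∣ dL la) :
    (rhoL la p : ℝ) = 1 + ch (dL la) p := by
  have e : (2 * (la : ℤ) - 1) ^ 2 - 4 * (la : ℤ) ^ 2 = dL la := by unfold dL; ring
  have h := quad_roots (2 * (la : ℤ) - 1) ((la : ℤ) ^ 2) p hp hp2 (by rw [e]; exact hpD)
  rw [e] at h
  rw [← h]
  rfl

/-- the zeros modulo a prime power -/
theorem rhoL_pow_le (p k e : ℕ) (hp : p.Prime) (he : ¬ ((p : ℤ) ^ (2 * e + 2)) ∣ dL la) :
    rhoL la (p ^ k) ≤ 2 * p ^ e := by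
  classical
  rcases Nat.le_total k e with hke | hke
  · unfold rhoL
    calc _ ≤ (range (p ^ k)).card := card_filter_le _ _
      _ = p ^ k := card_range _
      _ ≤ p ^ e := Nat.pow_le_pow_right hp.pos hke
      _ ≤ 2 * p ^ e := by omega
  rcases (((range (p ^ k)).filter (fun x : ℕ => ((p ^ k : ℕ) : ℤ) ∣ fl la x))).eq_empty_or_nonempty
    with h0 | ⟨x, hx⟩
  · unfold rhoL
    rw [h0, card_empty]
    positivity
  rw [mem_filter, mem_range] at hx
  have hpp : Prime (p : ℤ) := Nat.prime_iff_prime_int.1 hp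
  have hp0 : (0 : ℤ) < p := by exact_mod_cast hp.pos
  set m := p ^ (k - e) with hm
  have hm0 : 0 < m := pow_pos hp.pos _
  -- the two classes
  set r1 := x % m with hr1
  set r2 := (((-(x : ℤ) - (2 * (la : ℤ) - 1)) % (m : ℤ)).toNat) with hr2
  have hr2' : ((r2 : ℕ) : ℤ) = (-(x : ℤ) - (2 * (la : ℤ) - 1)) % (m : ℤ) :=
    Int.toNat_of_nonneg (Int.emod_nonneg _ (by exact_mod_cast hm0.ne'))
  have key : ∀ y : ℕ, ((p ^ k : ℕ) : ℤ) ∣ fl la y → y % m = r1 ∨ y % m = r2 := by
    intro y hy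
    have h1 : ((p : ℤ) ^ k) ∣ ((x : ℤ) - y) * (x + y + (2 * (la : ℤ) - 1)) := by
      have := Int.dvd_sub hx.2 hy
      push_cast at this
      have e1 : fl la x - fl la y = ((x : ℤ) - y) * (x + y + (2 * (la : ℤ) - 1)) := by
        unfold fl; ring
      rwa [e1] at this
    by_cases c1 : ((p : ℤ) ^ (k - e)) ∣ (x : ℤ) - y
    · left
      have h2 : ((m : ℕ) : ℤ) ∣ (x : ℤ) - y := by rw [hm]; push_cast; exact c1
      exact (Nat.modEq_iff_dvd.2 h2)
    by_cases c2 : ((p : ℤ) ^ (k - e)) ∣ (x : ℤ) + y + (2 * (la : ℤ) - 1)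
    · right
      have h2 : ((m : ℕ) : ℤ) ∣ (y : ℤ) - (-(x : ℤ) - (2 * (la : ℤ) - 1)) := by
        rw [hm]; push_cast
        have e1 : (y : ℤ) - (-(x : ℤ) - (2 * (la : ℤ) - 1)) = (x : ℤ) + y + (2 * (la : ℤ) - 1) := by
          ring
        rw [e1]; exact c2
      have h3 : ((y % m : ℕ) : ℤ) = ((r2 : ℕ) : ℤ) := by
        rw [hr2', Int.natCast_mod]
        exact Int.emod_eq_emod_iff_emod_sub_eq_zero.2 (Int.emod_eq_zero_of_dvd h2)
      exact_mod_cast h3
    exfalso
    -- both factors have valuation > e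
    have fa : ∀ u w : ℤ, ((p : ℤ) ^ k) ∣ u * w → ¬ ((p : ℤ) ^ (k - e)) ∣ u →
        ((p : ℤ) ^ (e + 1)) ∣ w := by
      intro u w huw hu
      have hu0 : u ≠ 0 := by rintro rfl; exact hu (dvd_zero _)
      obtain ⟨a, u', hu', rfl⟩ := (FiniteMultiplicity.exists_eq_pow_mul_and_not_dvd
        (Int.finiteMultiplicity_iff.2 ⟨by rw [Int.natAbs_natCast]; exact hp.ne_one, hu0⟩ :
          FiniteMultiplicity (p : ℤ) u)) |> fun ⟨c, h1, h2⟩ => (⟨_, c, h2, h1⟩ :
            ∃ (a : ℕ) (u' : ℤ), ¬ (p : ℤ) ∣ u' ∧ u = (p : ℤ) ^ a * u')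
      have ha : a < k - e := by
        by_contra hcon
        push Not at hcon
        exact hu ((pow_dvd_pow _ hcon).trans (dvd_mul_right _ _))
      have hk' : (p : ℤ) ^ k = (p : ℤ) ^ a * (p : ℤ) ^ (k - a) := by
        rw [← pow_add]; congr 1; omega
      rw [hk', mul_assoc] at huw
      have h3 : ((p : ℤ) ^ (k - a)) ∣ u' * w :=
        (mul_dvd_mul_iff_left (pow_ne_zero _ hp0.ne')).1 huw
      have h4 : IsCoprime ((p : ℤ) ^ (k - a)) u' :=
        IsCoprime.pow_left ((Prime.coprime_iff_not_dvd hpp).2 hu')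
      have h5 := h4.dvd_of_dvd_mul_left h3
      exact (pow_dvd_pow _ (by omega)).trans h5
    have h2 := fa _ _ h1 c1
    have h3 := fa _ _ (by rw [mul_comm]; exact h1) c2
    have hke2 : 2 * e + 2 ≤ k := by
      by_contra hcon
      push Not at hcon
      exact c1 ((pow_dvd_pow _ (by omega)).trans h3)
    have h4 : ((p : ℤ) ^ (e + 1)) ∣ 2 * (x : ℤ) + (2 * (la : ℤ) - 1) := by
      have := Int.dvd_add h2 h3
      convert this using 1; ring
    have h5 : ((p : ℤ) ^ (2 * e + 2)) ∣ (2 * (x : ℤ) + (2 * (la : ℤ) - 1)) ^ 2 := by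
      have e1 : (p : ℤ) ^ (2 * e + 2) = ((p : ℤ) ^ (e + 1)) ^ 2 := by
        rw [← pow_mul]; congr 1; ring
      rw [e1]
      exact pow_dvd_pow_of_dvd h4 2
    have h6 : ((p : ℤ) ^ (2 * e + 2)) ∣ fl la x := by
      have := hx.2
      push_cast at this
      exact (pow_dvd_pow _ hke2).trans this
    apply he
    have e1 : dL la = (2 * (x : ℤ) + (2 * (la : ℤ) - 1)) ^ 2 - 4 * fl la x := by
      unfold dL fl; ring
    rw [e1]
    exact Int.dvd_sub h5 (h6.mul_left 4)
  -- counting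
  have hcount : ∀ r : ℕ, ((range (p ^ k)).filter (fun y => y % m = r)).card ≤ p ^ e := by
    intro r
    have h1 : ((range (p ^ k)).filter (fun y => y % m = r)).card ≤ (range (p ^ e)).card := by
      apply card_le_card_of_injOn (fun y => y / m)
      · intro y hy
        rw [mem_coe, mem_filter, mem_range] at hy
        rw [mem_coe, mem_range]
        have : p ^ k = p ^ e * m := by rw [hm, ← pow_add]; congr 1; omega
        rw [this] at hy
        exact Nat.div_lt_of_lt_mul (by rw [mul_comm]; exact hy.1)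
      · intro y hy z hz hyz
        rw [mem_coe, mem_filter] at hy hz
        simp only at hyz
        have h1 := Nat.mod_add_div y m
        have h2 := Nat.mod_add_div z m
        rw [hy.2] at h1
        rw [hz.2, ← hyz] at h2
        omega
    simpa using h1
  unfold rhoL
  have hsub : (range (p ^ k)).filter (fun y : ℕ => ((p ^ k : ℕ) : ℤ) ∣ fl la y) ⊆
      (range (p ^ k)).filter (fun y => y % m = r1) ∪
      (range (p ^ k)).filter (fun y => y % m = r2) := by
    intro y hy
    rw [mem_filter] at hy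
    rw [mem_union, mem_filter, mem_filter]
    rcases key y hy.2 with h | h
    · exact Or.inl ⟨hy.1, h⟩
    · exact Or.inr ⟨hy.1, h⟩
  have h1 := card_le_card hsub
  have h2 := card_union_le ((range (p ^ k)).filter (fun y => y % m = r1))
    ((range (p ^ k)).filter (fun y => y % m = r2))
  have h3 := hcount r1
  have h4 := hcount r2
  omega

theorem rhoL_mul_le (a b : ℕ) (ha : 1 < a) (hb : 1 < b) (hab : Nat.Coprime a b) :
    rhoL la (a * b) ≤ rhoL la a * rhoL la b := by
  unfold rhoL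
  rw [← card_product]
  apply card_le_card_of_injOn (fun x => (x % a, x % b))
  · intro x hx
    rw [mem_coe, mem_filter, mem_range] at hx
    rw [mem_coe, mem_product, mem_filter, mem_filter, mem_range, mem_range]
    have h1 : (a : ℤ) ∣ fl la x := (by push_cast; exact dvd_mul_right _ _ :
      (a : ℤ) ∣ ((a * b : ℕ) : ℤ)).trans hx.2
    have h2 : (b : ℤ) ∣ fl la x := (by push_cast; exact dvd_mul_left _ _ :
      (b : ℤ) ∣ ((a * b : ℕ) : ℤ)).trans hx.2
    exact ⟨⟨Nat.mod_lt _ (by omega), (fl_mod la a x).2 h1⟩,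
      ⟨Nat.mod_lt _ (by omega), (fl_mod la b x).2 h2⟩⟩
  · intro x hx y hy hxy
    rw [mem_coe, mem_filter, mem_range] at hx hy
    simp only [Prod.mk.injEq] at hxy
    have h1 : x ≡ y [MOD a * b] :=
      (Nat.modEq_and_modEq_iff_modEq_mul hab).1 ⟨hxy.1, hxy.2⟩
    exact Nat.ModEq.eq_of_lt_of_lt h1 hx.1 hy.1

/-- the constant for the prime powers -/
theorem exists_e (h : 1 ≤ la) (p : ℕ) (hp : p.Prime) : ∃ e : ℕ, p ^ e ≤ (dL la).natAbs ∧
    ¬ ((p : ℤ) ^ (2 * e + 2)) ∣ dL la := by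
  have hD0 : dL la ≠ 0 := by have := dL_neg h; omega
  have hD1 : (dL la).natAbs ≠ 0 := Int.natAbs_ne_zero.2 hD0
  refine ⟨Nat.log p (dL la).natAbs, Nat.pow_log_le_self p hD1, fun hd => ?_⟩
  have h1 : p ^ (2 * Nat.log p (dL la).natAbs + 2) ∣ (dL la).natAbs := by
    have := Int.natAbs_dvd_natAbs.2 hd
    rwa [Int.natAbs_pow, Int.natAbs_natCast] at this
  have h2 := Nat.le_of_dvd (Nat.pos_of_ne_zero hD1) h1
  have h3 : (dL la).natAbs < p ^ (Nat.log p (dL la).natAbs + 1) :=
    Nat.lt_pow_succ_log_self hp.one_lt _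
  have h4 : p ^ (Nat.log p (dL la).natAbs + 1) ≤ p ^ (2 * Nat.log p (dL la).natAbs + 2) :=
    Nat.pow_le_pow_right hp.pos (by omega)
  omega

/-- the local factor -/
noncomputable def gf (la p : ℕ) : ℝ := if p ∣ 2 * (dL la).natAbs then 2 * ((dL la).natAbs : ℝ) else 1

theorem gf_one_le (h : 1 ≤ la) (p : ℕ) : 1 ≤ gf la p := by
  unfold gf
  split_ifs
  · have : 1 ≤ (dL la).natAbs := Int.natAbs_pos.2 (by have := dL_neg h; omega)
    have : (1 : ℝ) ≤ ((dL la).natAbs : ℝ) := by exact_mod_cast this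
    linarith
  · exact le_rfl

theorem rhoL_pow_bound (h : 1 ≤ la) (p k : ℕ) (hp : p.Prime) (hk : 0 < k) :
    (rhoL la (p ^ k) : ℝ) ≤ gf la p * rD la (p ^ k) := by
  rcases Nat.eq_zero_or_pos (rhoL la (p ^ k)) with h0 | h0
  · rw [h0]
    have := rD_nonneg h (p ^ k)
    have := gf_one_le h p
    push_cast
    positivity
  have hD1 : 1 ≤ (dL la).natAbs := Int.natAbs_pos.2 (by have := dL_neg h; omega)
  by_cases hpD : p ∣ 2 * (dL la).natAbs
  · have hc : ch (dL la) p = 0 := by
      unfold ch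
      split_ifs with h2
      · have hp2 : p ≠ 2 := by rintro rfl; norm_num at h2
        have h3 : p ∣ (dL la).natAbs := by
          rcases (hp.dvd_mul).1 hpD with h4 | h4
          · exact absurd ((Nat.prime_dvd_prime_iff_eq hp Nat.prime_two).1 h4) hp2
          · exact h4
        have : jacobiSym (dL la) p = 0 := by
          rw [jacobiSym.eq_zero_iff]
          refine ⟨hp.ne_zero, fun hg => ?_⟩
          have h5 : p ∣ Int.gcd (dL la) p := by
            rw [Int.gcd_def, Int.natAbs_natCast]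
            exact Nat.dvd_gcd h3 dvd_rfl
          rw [hg] at h5
          exact hp.ne_one (Nat.dvd_one.1 h5)
        rw [this]; simp
      · rfl
    rw [rD_pow_zero h p k hp hc, mul_one]
    unfold gf
    rw [if_pos hpD]
    obtain ⟨e, he1, he2⟩ := exists_e h p hp
    have h1 := rhoL_pow_le (la := la) p k e hp he2
    have h2 : rhoL la (p ^ k) ≤ 2 * (dL la).natAbs := h1.trans (Nat.mul_le_mul_left _ he1)
    exact_mod_cast h2
  · unfold gf
    rw [if_neg hpD, one_mul]
    have hp2 : p ≠ 2 := by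
      rintro rfl
      exact hpD (dvd_mul_right _ _)
    have hpD' : ¬ (p : ℤ) ∣ dL la := by
      intro h1
      apply hpD
      have h2 := Int.natAbs_dvd_natAbs.2 h1
      rw [Int.natAbs_natCast] at h2
      exact h2.mul_left _
    obtain ⟨x, hx⟩ := card_pos.1 h0
    rw [mem_filter, mem_range] at hx
    have hpx : (p : ℤ) ∣ fl la x := by
      have h1 : (p : ℤ) ∣ ((p ^ k : ℕ) : ℤ) := by
        push_cast; exact dvd_pow_self _ hk.ne'
      exact h1.trans hx.2
    have h7 : 0 < rhoL la p := by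
      apply card_pos.2
      refine ⟨x % p, ?_⟩
      rw [mem_filter, mem_range]
      exact ⟨Nat.mod_lt _ hp.pos, (fl_mod la p x).2 hpx⟩
    have h8 := cntD (la := la) hp hp2 hpD'
    have h9 : ch (dL la) p = 1 := by
      rcases ch_val (dL la) p with h1 | h1 | h1
      · exfalso
        have hodd : p % 2 = 1 := hp.eq_two_or_odd.resolve_left hp2
        rw [ch_of_odd hodd] at h1
        have h2 : jacobiSym (dL la) p = 0 := by exact_mod_cast h1
        rw [jacobiSym.eq_zero_iff] at h2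
        apply h2.2
        rw [Int.gcd_def, Int.natAbs_natCast, Nat.gcd_comm]
        refine (hp.coprime_iff_not_dvd).2 fun h3 => hpD (h3.mul_left _)
      · exact h1
      · rw [h1] at h8
        have : (rhoL la p : ℝ) = 0 := by rw [h8]; norm_num
        have : rhoL la p = 0 := by exact_mod_cast this
        omega
    rw [rD_pow_one h p k hp h9]
    have h10 : rhoL la (p ^ k) ≤ 2 * p ^ 0 := rhoL_pow_le p k 0 hp (by
      intro h11
      apply hpD'
      exact (dvd_pow_self (p : ℤ) (by norm_num)).trans h11)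
    have h11 : (rhoL la (p ^ k) : ℝ) ≤ 2 := by
      rw [pow_zero, mul_one] at h10
      exact_mod_cast h10
    have h12 : (1 : ℝ) ≤ k := by exact_mod_cast hk
    linarith

theorem rhoL_le_prod (h : 1 ≤ la) (s : ℕ) (hs : s ≠ 0) :
    (rhoL la s : ℝ) ≤ (∏ p ∈ s.primeFactors, gf la p) * rD la s := by
  revert hs
  induction s using Nat.recOnPosPrimePosCoprime with
  | prime_pow p n hp hn =>
    intro _
    rw [Nat.primeFactors_prime_pow hn.ne' hp, prod_singleton]
    exact rhoL_pow_bound h p n hp hn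
  | zero => intro h0; exact absurd rfl h0
  | one =>
    intro _
    rw [rD_one h]
    have : rhoL la 1 ≤ 1 := by
      unfold rhoL
      calc _ ≤ (range 1).card := card_filter_le _ _
        _ = 1 := card_range 1
    simp only [Nat.primeFactors_one, prod_empty, mul_one]
    exact_mod_cast this
  | coprime a b ha hb hab iha ihb =>
    intro _
    rw [rD_mul h hab, hab.primeFactors_mul, prod_union hab.disjoint_primeFactors]
    have h1 := iha (by omega)
    have h2 := ihb (by omega)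
    calc (rhoL la (a * b) : ℝ) ≤ rhoL la a * rhoL la b := by
          exact_mod_cast rhoL_mul_le a b ha hb hab
      _ ≤ ((∏ p ∈ a.primeFactors, gf la p) * rD la a) *
          ((∏ p ∈ b.primeFactors, gf la p) * rD la b) :=
          mul_le_mul h1 h2 (Nat.cast_nonneg _) (le_trans (Nat.cast_nonneg _) h1)
      _ = _ := by ring

theorem rhoL_le (h : 1 ≤ la) : ∃ C : ℝ, 1 ≤ C ∧ ∀ s : ℕ, s ≠ 0 → (rhoL la s : ℝ) ≤ C * rD la s := by
  classical
  set P := (2 * (dL la).natAbs).primeFactors with hP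
  have hD1 : 1 ≤ (dL la).natAbs := Int.natAbs_pos.2 (by have := dL_neg h; omega)
  refine ⟨∏ p ∈ P, gf la p, ?_, ?_⟩
  · calc (1 : ℝ) = ∏ p ∈ P, (1 : ℝ) := by simp
      _ ≤ _ := prod_le_prod (fun _ _ => zero_le_one) (fun p _ => gf_one_le h p)
  · intro s hs
    refine (rhoL_le_prod h s hs).trans ?_
    apply mul_le_mul_of_nonneg_right _ (rD_nonneg h s)
    have e1 : ∏ p ∈ s.primeFactors, gf la p = ∏ p ∈ s.primeFactors ∩ P, gf la p := by
      symm
      apply prod_subset inter_subset_left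
      intro p hp hp'
      unfold gf
      rw [if_neg]
      intro hd
      apply hp'
      rw [mem_inter]
      refine ⟨hp, ?_⟩
      rw [hP, Nat.mem_primeFactors]
      exact ⟨(Nat.mem_primeFactors.1 hp).1, hd, by omega⟩
    rw [e1]
    have hg0 : ∀ p, 0 ≤ gf la p := fun p => by linarith [gf_one_le h p]
    rw [← prod_sdiff (inter_subset_right : s.primeFactors ∩ P ⊆ P)]
    have h1 : (1 : ℝ) ≤ ∏ p ∈ P \ (s.primeFactors ∩ P), gf la p := by
      calc (1 : ℝ) = ∏ p ∈ P \ (s.primeFactors ∩ P), (1 : ℝ) := by simp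
        _ ≤ _ := prod_le_prod (fun _ _ => zero_le_one) (fun p _ => gf_one_le h p)
    exact le_mul_of_one_le_left (prod_nonneg fun p _ => hg0 p) h1

end Pool.Agent.L0h26.HbL
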