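import Mathlib
import Pool.Agent.L0h26.HbA

set_option autoImplicit false

/-!
# The sieve in arithmetic progressions, general `lam`
-/

namespace Pool.Agent.L0h26.HbL

open Finset Pool.Agent.H951R4.OD Pool.Agent.H951R4.OD.D2a Pool.Agent.W825.FP

variable {la : ℕ}

/-- indicator of `p ∣ fl la n` -/
noncomputable def aqL (la p n : ℕ) : ℝ := if (p : ℤ) ∣ fl la n then 1 else 0

theorem aqL_01 (la p n : ℕ) : aqL la p n = 0 ∨ aqL la p n = 1 := by
  unfold aqL; split_ifs <;> simp

theorem aqL_per (hla : 1 ≤ la) (p n : ℕ) : aqL la p (n + p) = aqL la p n := by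
  unfold aqL
  have h := (pol_fl la hla).per p n
  have : (p : ℤ) ∣ fl la (n + p) ↔ (p : ℤ) ∣ fl la n := by
    constructor
    · intro h1; have := Int.dvd_sub h1 h; simpa using this
    · intro h1; have := Int.dvd_add h h1; simpa using this
  simp only [this]

theorem aqL_sum (hla : 1 ≤ la) (p : ℕ) (hp : p.Prime) (h6 : ¬ p ∣ cl la) :
    ∑ n ∈ range p, aqL la p n = 1 + ch (dL la) p := by
  have h := (pol_fl la hla).cnt p hp h6
  unfold aqL
  rw [← Finset.sum_filter, Finset.sum_const, nsmul_eq_mul, mul_one, h, one_mul]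
  rfl

theorem sieveAPL (hla : 1 ≤ la) : ∃ C : ℝ, 1 ≤ C ∧ ∀ z N : ℕ, 3 ≤ z →
    C * Real.log z * (1 + Real.log (Real.log z)) ≤ Real.log N → ∀ (a b : ℕ) (A B : Finset ℕ),
    Disjoint A B → (∀ p ∈ A, p.Prime ∧ p ≤ z ∧ ¬ p ∣ b ∧ ¬ p ∣ cl la) →
    (∀ p ∈ B, p.Prime ∧ p ≤ z ∧ ¬ p ∣ b) →
    (((Icc 1 N).filter (fun m => (∀ p ∈ A, ¬ (p : ℤ) ∣ fl la (a + b * m)) ∧
      (∀ p ∈ B, ¬ (p ∣ a + b * m ∧ ¬ p ^ 2 ∣ a + b * m)))).card : ℝ) ≤
      C * N * Real.exp (-(∑ p ∈ A, (1 + ch (dL la) p) / p + ∑ p ∈ B, (1 : ℝ) / p)) := by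
  classical
  obtain ⟨C, hC, H⟩ := sieve
  obtain ⟨C2, hC2, H2⟩ := sum_sq_inv
  refine ⟨C * Real.exp C2, ?_, ?_⟩
  · have := Real.one_le_exp hC2
    nlinarith
  intro z N hz hN a b A B hAB hA hB
  have hN' : C * Real.log z * (1 + Real.log (Real.log z)) ≤ Real.log N := by
    refine le_trans ?_ hN
    have hzR : (3 : ℝ) ≤ z := by exact_mod_cast hz
    have hL1 : 1 < Real.log z := by
      have h1 : Real.log 3 ≤ Real.log z := Real.log_le_log (by norm_num) hzR
      have h3 : 1 < Real.log 3 := by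
        rw [Real.lt_log_iff_exp_lt (by norm_num)]
        have := Real.exp_one_lt_d9
        linarith
      linarith
    have hLL := Real.log_pos hL1
    have := Real.one_le_exp hC2
    have h4 : 0 ≤ Real.log z * (1 + Real.log (Real.log z)) := by positivity
    have h5 : C ≤ C * Real.exp C2 := by nlinarith
    calc C * Real.log z * (1 + Real.log (Real.log z))
        = C * (Real.log z * (1 + Real.log (Real.log z))) := by ring
      _ ≤ C * Real.exp C2 * (Real.log z * (1 + Real.log (Real.log z))) :=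
          mul_le_mul_of_nonneg_right h5 h4
      _ = _ := by ring
  set md : ℕ → ℕ := fun p => if p ∈ A then p else p ^ 2 with hmd
  set h : ℕ → ℕ → ℝ := fun p m => if p ∈ A then aqL la p (a + b * m) else hh p (a + b * m) with hh'
  have hBA : ∀ p ∈ B, p ∉ A := fun p hpB hpA => Finset.disjoint_left.1 hAB hpA hpB
  have hmeanA : ∀ p ∈ A, (∑ n ∈ range (md p), h p n) / md p = (1 + ch (dL la) p) / p := by
    intro p hp
    obtain ⟨h1, -, h3, h4⟩ := hA p hp
    simp only [hmd, hh', if_pos hp]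
    rw [sum_ap h1.pos (aqL la p) (aqL_per hla p) a b ((h1.coprime_iff_not_dvd).2 h3), aqL_sum hla p h1 h4]
  have hmeanB : ∀ p ∈ B, (∑ n ∈ range (md p), h p n) / md p = 1 / (p : ℝ) - 1 / (p : ℝ) ^ 2 := by
    intro p hp
    obtain ⟨h1, -, h3⟩ := hB p hp
    simp only [hmd, hh', if_neg (hBA p hp)]
    rw [sum_ap (pow_pos h1.pos 2) (hh p) (hh_per p) a b
      (((h1.coprime_iff_not_dvd).2 h3).pow_left 2), mean_eq p h1.pos]
  have key := H z N hz hN' (A ∪ B) md h (by
      intro p hp
      rcases Finset.mem_union.1 hp with hp | hp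
      · exact ⟨(hA p hp).1, (hA p hp).2.1, Or.inl (by simp only [hmd, if_pos hp])⟩
      · exact ⟨(hB p hp).1, (hB p hp).2.1, Or.inr (by simp only [hmd, if_neg (hBA p hp)])⟩)
    (by
      intro p hp n
      simp only [hh']
      split_ifs
      · exact aqL_01 _ _ _
      · exact hh_01 _ _)
    (by
      intro p hp n
      simp only [hh', hmd]
      split_ifs with hpA
      · have : a + b * (n + p) = a + b * n + b * p := by ring
        rw [this]
        have : ∀ k m, aqL la p (m + k * p) = aqL la p m := by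
          intro k
          induction k with
          | zero => intro m; simp
          | succ k ih => intro m; rw [Nat.succ_mul, ← add_assoc, aqL_per hla, ih]
        exact this b _
      · have : a + b * (n + p ^ 2) = a + b * n + b * p ^ 2 := by ring
        rw [this]
        have : ∀ k m, hh p (m + k * p ^ 2) = hh p m := by
          intro k
          induction k with
          | zero => intro m; simp
          | succ k ih => intro m; rw [Nat.succ_mul, ← add_assoc, hh_per, ih]
        exact this b _)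
    (by
      intro p hp
      rcases Finset.mem_union.1 hp with hp | hp
      · rw [hmeanA p hp]
        have hp0 : (0 : ℝ) < p := by exact_mod_cast (hA p hp).1.pos
        refine div_le_div_of_nonneg_right ?_ hp0.le
        rcases ch_val (dL la) p with h | h | h <;> rw [h] <;> norm_num
      · rw [hmeanB p hp]
        have hp0 : (0 : ℝ) < p := by exact_mod_cast (hB p hp).1.pos
        have h1 : 0 < 1 / (p : ℝ) ^ 2 := by positivity
        have h2 : 1 / (p : ℝ) ≤ 2 / p := div_le_div_of_nonneg_right (by norm_num) hp0.le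
        linarith)
  rw [Finset.sum_union hAB, Finset.sum_congr rfl hmeanA, Finset.sum_congr rfl hmeanB] at key
  have hcount : (((Icc 1 N).filter (fun m => (∀ p ∈ A, ¬ (p : ℤ) ∣ fl la (a + b * m)) ∧
      (∀ p ∈ B, ¬ (p ∣ a + b * m ∧ ¬ p ^ 2 ∣ a + b * m)))).card : ℝ) ≤
      ∑ n ∈ Icc 1 N, ∏ p ∈ A ∪ B, (1 - h p n) := by
    rw [Finset.card_filter]
    push_cast
    refine Finset.sum_le_sum fun m _ => ?_
    split_ifs with hm
    · rw [Finset.prod_eq_one]
      intro p hp
      simp only [hh']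
      split_ifs with hpA
      · unfold aqL
        rw [if_neg (hm.1 p hpA), sub_zero]
      · have hpB : p ∈ B := (Finset.mem_union.1 hp).resolve_left hpA
        unfold hh
        rw [if_neg (hm.2 p hpB), sub_zero]
    · refine Finset.prod_nonneg fun p hp => ?_
      simp only [hh']
      split_ifs
      · rcases aqL_01 la p (a + b * m) with h | h <;> rw [h] <;> norm_num
      · rcases hh_01 p (a + b * m) with h | h <;> rw [h] <;> norm_num
  refine (hcount.trans key).trans ?_
  have hsq := H2 B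
  rw [Finset.sum_sub_distrib]
  have e1 : C * N * Real.exp (-(∑ p ∈ A, (1 + ch (dL la) p) / p +
      (∑ p ∈ B, (1 : ℝ) / p - ∑ p ∈ B, 1 / (p : ℝ) ^ 2)))
      = C * N * (Real.exp (∑ p ∈ B, 1 / (p : ℝ) ^ 2) *
        Real.exp (-(∑ p ∈ A, (1 + ch (dL la) p) / p + ∑ p ∈ B, (1 : ℝ) / p))) := by
    rw [← Real.exp_add]; congr 2; ring
  rw [e1]
  have e2 : Real.exp (∑ p ∈ B, 1 / (p : ℝ) ^ 2) ≤ Real.exp C2 := Real.exp_le_exp.2 hsq
  calc C * N * (Real.exp (∑ p ∈ B, 1 / (p : ℝ) ^ 2) *
        Real.exp (-(∑ p ∈ A, (1 + ch (dL la) p) / p + ∑ p ∈ B, (1 : ℝ) / p)))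
      ≤ C * N * (Real.exp C2 *
        Real.exp (-(∑ p ∈ A, (1 + ch (dL la) p) / p + ∑ p ∈ B, (1 : ℝ) / p))) := by
        apply mul_le_mul_of_nonneg_left _ (by positivity)
        exact mul_le_mul_of_nonneg_right e2 (Real.exp_pos _).le
    _ = _ := by ring

end Pool.Agent.L0h26.HbL
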