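import Mathlib
import Pool.Agent.L0h26.HbB
import Pool.Agent.L0h26.HbC

set_option autoImplicit false

/-!
# Moduli larger than `X`: the cofactor, general `lam`
-/

namespace Pool.Agent.L0h26.HbL

open Finset Pool.Agent.H951R4.OD Pool.Agent.W825.FP Pool.Agent.W854.FA

variable {la : ℕ}

open Classical in
/-- the `n ≤ X` with cofactor `s` -/
noncomputable def ESL (la X s : ℕ) : Finset ℕ := (Icc 1 X).filter (fun n =>
  s % 2 = 1 ∧ (s : ℤ) ∣ fl la n ∧ (∀ l : ℕ, l.Prime → l ≤ X → ¬ l ∣ cl la →
    (l : ℤ) ∣ fl la n → l ∣ s) ∧ FQ (cl la) s n)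

open Classical in
noncomputable def AAL (la s w z : ℕ) : Finset ℕ :=
  (PI w z).filter (fun l : ℕ => ch (dL la) l = 1 ∧ ¬ l ∣ s)

open Classical in
noncomputable def BBL (la s w v : ℕ) : Finset ℕ :=
  (PI w v).filter (fun l : ℕ => ch (dL la) l = -1 ∧ ch (l : ℤ) s = -1)

/-- large prime divisors of the cofactor -/
noncomputable def BsL (la s w z : ℕ) : ℝ :=
  ∑ l ∈ PI w z, (if ch (dL la) l = 1 ∧ l ∣ s then (1 : ℝ) / l else 0)

noncomputable def YYL (la s w v : ℕ) : ℝ := ∑ l ∈ PI w v, (1 - ch (dL la) l) * ch l s / l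

theorem cl_pos (h : 1 ≤ la) : 0 < cl la := by
  unfold cl
  have : 0 < 4 * la - 1 := by omega
  positivity

theorem not_dvd_cl (h : 1 ≤ la) {w l : ℕ} (hw : cl la ≤ w) (hl : w < l) : ¬ l ∣ cl la := by
  intro hd
  have := Nat.le_of_dvd (cl_pos h) hd
  omega

theorem dL_natAbs (h : 1 ≤ la) : (dL la).natAbs = 4 * la - 1 := by unfold dL; omega

theorem ch_dL_ne (h : 1 ≤ la) {p : ℕ} (hp : p.Prime) (hpc : ¬ p ∣ cl la) : ch (dL la) p ≠ 0 := by
  have hp2 : p ≠ 2 := by
    rintro rfl
    exact hpc ⟨la * (4 * la - 1), by unfold cl; ring⟩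
  have hodd : p % 2 = 1 := hp.eq_two_or_odd.resolve_left hp2
  intro h1
  rw [ch_of_odd hodd] at h1
  have h2 : jacobiSym (dL la) p = 0 := by exact_mod_cast h1
  rw [jacobiSym.eq_zero_iff] at h2
  apply h2.2
  rw [Int.gcd_def, Int.natAbs_natCast, Nat.gcd_comm, dL_natAbs h]
  refine (hp.coprime_iff_not_dvd).2 fun h3 => hpc ?_
  exact h3.trans ⟨2 * la, by unfold cl; ring⟩

theorem ES_leL (hla : 1 ≤ la) : ∃ C : ℝ, 1 ≤ C ∧ ∀ X s w v z : ℕ, 0 < s → 3 ≤ w → cl la ≤ w →
    w ≤ v → v ≤ z → z ≤ X →
    C * Real.log z * (1 + Real.log (Real.log z)) ≤ Real.log ((X / s : ℕ) : ℝ) →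
    ((ESL la X s).card : ℝ) ≤ C * rD la s * (1 + C * (X / s) *
      Real.exp (-(∑ p ∈ AAL la s w z, (1 + ch (dL la) p) / p +
        ∑ p ∈ BBL la s w v, (1 : ℝ) / p))) := by
  classical
  obtain ⟨C0, hC0, H⟩ := sieveAPL hla
  obtain ⟨Cr, hCr, Hr⟩ := rhoL_le hla
  refine ⟨C0 * Cr, by nlinarith, ?_⟩
  intro X s w v z hs hw hcw hwv hvz hzX hlev
  have hCC0 : C0 ≤ C0 * Cr := by nlinarith
  have hCCr : Cr ≤ C0 * Cr := by nlinarith
  set T := C0 * (X / s) *
      Real.exp (-(∑ p ∈ AAL la s w z, (1 + ch (dL la) p) / p +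
        ∑ p ∈ BBL la s w v, (1 : ℝ) / p)) with hT
  have hT0 : 0 ≤ T := by positivity
  have hr0 := rD_nonneg hla s
  have hgoal : Cr * rD la s * (1 + T) ≤ C0 * Cr * rD la s * (1 + C0 * Cr * (X / s) *
      Real.exp (-(∑ p ∈ AAL la s w z, (1 + ch (dL la) p) / p +
        ∑ p ∈ BBL la s w v, (1 : ℝ) / p))) := by
    apply mul_le_mul
    · exact mul_le_mul_of_nonneg_right hCCr hr0
    · have : T ≤ C0 * Cr * (X / s) *
        Real.exp (-(∑ p ∈ AAL la s w z, (1 + ch (dL la) p) / p +
          ∑ p ∈ BBL la s w v, (1 : ℝ) / p)) := by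
        rw [hT]
        apply mul_le_mul_of_nonneg_right _ (Real.exp_pos _).le
        exact mul_le_mul_of_nonneg_right hCC0 (by positivity)
      linarith
    · positivity
    · positivity
  refine le_trans ?_ hgoal
  by_cases h2 : s % 2 = 1
  swap
  · have : ESL la X s = ∅ := by
      rw [eq_empty_iff_forall_notMem]
      intro n hn
      unfold ESL at hn
      rw [mem_filter] at hn
      exact h2 hn.2.1
    rw [this, card_empty]
    push_cast
    positivity
  set R := (range s).filter (fun r : ℕ => (s : ℤ) ∣ fl la r) with hR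
  set F : ℕ → Finset ℕ := fun r => (Icc 1 (X / s)).filter (fun m =>
    (∀ p ∈ AAL la s w z, ¬ (p : ℤ) ∣ fl la (r + s * m)) ∧
      (∀ p ∈ BBL la s w v, ¬ (p ∣ r + s * m ∧ ¬ p ^ 2 ∣ r + s * m))) with hF
  have hchs : ∀ p : ℕ, p.Prime → p ∣ s → ch (p : ℤ) s = 0 := by
    intro p hp hps
    unfold ch
    split_ifs
    · have : jacobiSym (p : ℤ) s = 0 := by
        rw [jacobiSym.eq_zero_iff]
        refine ⟨hs.ne', fun hg => ?_⟩
        rw [Int.gcd_natCast_natCast, Nat.gcd_eq_left hps] at hg
        exact hp.ne_one hg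
      rw [this]; simp
  have hlz : 0 ≤ Real.log z * (1 + Real.log (Real.log z)) := by
    have h1 := one_lt_log ((hw.trans hwv).trans hvz)
    have h3 := Real.log_pos h1
    positivity
  have hFb : ∀ r, ((F r).card : ℝ) ≤ T := by
    intro r
    have h1 := H z (X / s) (by omega) (by
        refine le_trans ?_ hlev
        calc C0 * Real.log z * (1 + Real.log (Real.log z))
            = C0 * (Real.log z * (1 + Real.log (Real.log z))) := by ring
          _ ≤ C0 * Cr * (Real.log z * (1 + Real.log (Real.log z))) :=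
              mul_le_mul_of_nonneg_right hCC0 hlz
          _ = _ := by ring) r s (AAL la s w z) (BBL la s w v) (by
        rw [disjoint_left]
        intro p hp hp'
        unfold AAL at hp
        unfold BBL at hp'
        rw [mem_filter] at hp hp'
        rw [hp.2.1] at hp'
        norm_num at hp') (by
        intro p hp
        unfold AAL at hp
        rw [mem_filter, mem_PI'] at hp
        exact ⟨hp.1.2, hp.1.1.2, hp.2.2, not_dvd_cl hla hcw hp.1.1.1⟩) (by
        intro p hp
        unfold BBL at hp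
        rw [mem_filter, mem_PI'] at hp
        refine ⟨hp.1.2, by omega, fun h => ?_⟩
        have h0 := hchs p hp.1.2 h
        rw [h0] at hp
        norm_num at hp)
    refine h1.trans ?_
    rw [hT]
    apply mul_le_mul_of_nonneg_right _ (Real.exp_pos _).le
    apply mul_le_mul_of_nonneg_left _ (by linarith)
    exact Nat.cast_div_le
  have hsub : ESL la X s ⊆ R.biUnion (fun r => {r} ∪ (F r).image (fun m => r + s * m)) := by
    intro n hn
    unfold ESL at hn
    rw [mem_filter, mem_Icc] at hn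
    obtain ⟨⟨hn1, hnX⟩, -, hsn, hl, hcl⟩ := hn
    rw [mem_biUnion]
    refine ⟨n % s, ?_, ?_⟩
    · rw [hR, mem_filter, mem_range]
      exact ⟨Nat.mod_lt _ hs, (fl_mod la s n).2 hsn⟩
    · rw [mem_union, mem_singleton, mem_image]
      have h2 := Nat.mod_add_div n s
      rcases Nat.eq_zero_or_pos (n / s) with h3 | h3
      · left
        rw [h3, mul_zero, add_zero] at h2
        exact h2.symm
      · right
        refine ⟨n / s, ?_, h2⟩
        simp only [hF]
        rw [mem_filter, mem_Icc, h2]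
        refine ⟨⟨h3, Nat.div_le_div_right hnX⟩, ?_, ?_⟩
        · intro p hp hh
          unfold AAL at hp
          rw [mem_filter, mem_PI'] at hp
          exact hp.2.2 (hl p hp.1.2 (by omega) (not_dvd_cl hla hcw hp.1.1.1) hh)
        · intro p hp hh
          unfold BBL at hp
          rw [mem_filter, mem_PI'] at hp
          exact hcl p ⟨hp.1.2, not_dvd_cl hla hcw hp.1.1.1, hh.1, hh.2⟩ hp.2.2
  calc ((ESL la X s).card : ℝ)
      ≤ ((R.biUnion (fun r => {r} ∪ (F r).image (fun m => r + s * m))).card : ℝ) := by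
        exact_mod_cast card_le_card hsub
    _ ≤ ((∑ r ∈ R, ({r} ∪ (F r).image (fun m => r + s * m)).card : ℕ) : ℝ) := by
        exact_mod_cast card_biUnion_le
    _ = ∑ r ∈ R, ((({r} ∪ (F r).image (fun m => r + s * m)).card : ℕ) : ℝ) := by
        push_cast; rfl
    _ ≤ ∑ r ∈ R, (1 + T) := by
        refine sum_le_sum fun r _ => ?_
        calc ((({r} ∪ (F r).image (fun m => r + s * m)).card : ℕ) : ℝ) ≤
            ((1 + (F r).card : ℕ) : ℝ) := by
              have := card_union_le {r} ((F r).image (fun m => r + s * m))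
              rw [card_singleton] at this
              have h5 := card_image_le (s := F r) (f := fun m => r + s * m)
              exact_mod_cast this.trans (by omega)
          _ ≤ 1 + T := by
              push_cast
              have := hFb r
              linarith
    _ = R.card * (1 + T) := by rw [sum_const, nsmul_eq_mul]
    _ ≤ Cr * rD la s * (1 + T) := by
        apply mul_le_mul_of_nonneg_right _ (by linarith)
        exact Hr s hs.ne'

end Pool.Agent.L0h26.HbL
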