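import Mathlib
import Pool.Agent.L0h26.HbD

set_option autoImplicit false

/-!
# The saving and the moments, general `lam`
-/

namespace Pool.Agent.L0h26.HbL

open Finset Pool.Agent.H951R4.OD Pool.Agent.W825.FP

variable {la : ℕ}

/-- the saving -/
theorem exp_saveL (hla : 1 ≤ la) : ∃ E : ℝ, 1 ≤ E ∧ ∀ s w v z : ℕ, 3 ≤ w → cl la ≤ w → w ≤ v →
    v ≤ z → s % 2 = 1 → (∀ l : ℕ, l.Prime → w < l → l ∣ s → ch (dL la) l ≠ -1) →
    Real.exp (-(∑ p ∈ AAL la s w z, (1 + ch (dL la) p) / p + ∑ p ∈ BBL la s w v, (1 : ℝ) / p)) ≤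
      E * (Real.log w / Real.log z * (Real.log w / Real.log v) ^ (1 / 4 : ℝ)) +
        YYL la s w v ^ 2 + BsL la s w z := by
  classical
  obtain ⟨Cm, hCm, Hm⟩ := mert_int
  obtain ⟨C3, hC3, H3⟩ := char_sum_fixed (dL la) (dL_nsq hla)
  refine ⟨Real.exp (2 * Cm + 2 * C3 + 3), Real.one_le_exp (by positivity), ?_⟩
  intro s w v z hw hcw hwv hvz hodd hs
  have hlw := one_lt_log hw
  have hlv := one_lt_log (hw.trans hwv)
  have hlz := one_lt_log ((hw.trans hwv).trans hvz)
  have hg0 : 0 ≤ Real.log w / Real.log z * (Real.log w / Real.log v) ^ (1 / 4 : ℝ) := by positivity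
  have hBs0 : 0 ≤ BsL la s w z := by
    unfold BsL
    exact sum_nonneg fun _ _ => by split_ifs <;> positivity
  have hpos : ∀ y x : ℕ, ∀ p ∈ PI y x, (0 : ℝ) < p := by
    intro y x p hp
    rw [mem_PI'] at hp
    exact_mod_cast hp.2.pos
  have hch : ∀ x : ℕ, ∀ p ∈ PI w x, ch (dL la) p = 1 ∨ ch (dL la) p = -1 := by
    intro x p hp
    rw [mem_PI'] at hp
    exact (ch_val (dL la) p).resolve_left (ch_dL_ne hla hp.2 (not_dvd_cl hla hcw hp.1.1))
  -- the first sum
  have hA : ∑ p ∈ AAL la s w z, (1 + ch (dL la) p) / p =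
      ∑ p ∈ PI w z, (1 + ch (dL la) p) / p - 2 * BsL la s w z := by
    unfold AAL BsL
    rw [sum_filter, mul_sum, ← sum_sub_distrib]
    refine sum_congr rfl fun p hp => ?_
    rcases hch z p hp with h | h
    · rw [h]
      by_cases hps : p ∣ s
      · rw [if_neg (by tauto), if_pos ⟨rfl, hps⟩]; ring
      · rw [if_pos ⟨rfl, hps⟩, if_neg (by tauto)]; ring
    · rw [h, if_neg (by norm_num), if_neg (by norm_num)]; simp
  have hA2 : Real.log (Real.log z / Real.log w) - Cm - C3 ≤ ∑ p ∈ PI w z, (1 + ch (dL la) p) / p := by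
    have h1 := (abs_le.1 (Hm w z (by omega) (hwv.trans hvz))).1
    have h2 := (abs_le.1 (H3 w z)).1
    have e : ∑ p ∈ PI w z, (1 + ch (dL la) p) / p =
        ∑ p ∈ PI w z, (1 : ℝ) / p + ∑ p ∈ PI w z, ch (dL la) p / p := by
      rw [← sum_add_distrib]
      exact sum_congr rfl fun p _ => by ring
    rw [e]; linarith
  -- the second sum
  have hB : (∑ p ∈ PI w v, (1 : ℝ) / p - ∑ p ∈ PI w v, ch (dL la) p / p - YYL la s w v) / 4 ≤
      ∑ p ∈ BBL la s w v, (1 : ℝ) / p := by
    unfold BBL YYL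
    rw [sum_filter, ← sum_sub_distrib, ← sum_sub_distrib, sum_div]
    refine sum_le_sum fun p hp => ?_
    have hp0 := hpos w v p hp
    rw [mem_PI'] at hp
    rcases hch v p (mem_PI'.2 hp) with h | h
    · rw [h, if_neg (by norm_num)]
      simp
    · rw [h]
      rcases ch_val p s with h1 | h1 | h1
      · exfalso
        refine hs p hp.2 hp.1.1 ?_ h
        rw [ch_of_odd hodd] at h1
        have h2 : jacobiSym (p : ℤ) s = 0 := by exact_mod_cast h1
        rw [jacobiSym.eq_zero_iff, Int.gcd_natCast_natCast] at h2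
        by_contra hps
        exact h2.2 ((hp.2.coprime_iff_not_dvd).2 hps)
      · rw [h1, if_neg (by norm_num)]
        apply le_of_eq; ring
      · rw [h1, if_pos ⟨rfl, rfl⟩]
        apply le_of_eq; ring
  have hB2 := (abs_le.1 (Hm w v (by omega) hwv)).1
  have hB3 := (abs_le.1 (H3 w v)).2
  have hAnn : 0 ≤ ∑ p ∈ AAL la s w z, (1 + ch (dL la) p) / p := by
    apply sum_nonneg
    intro p hp
    unfold AAL at hp
    rw [mem_filter] at hp
    have := hpos w z p hp.1
    rw [hp.2.1]
    positivity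
  have hBnn : 0 ≤ ∑ p ∈ BBL la s w v, (1 : ℝ) / p := sum_nonneg fun _ _ => by positivity
  have hle1 : Real.exp (-(∑ p ∈ AAL la s w z, (1 + ch (dL la) p) / p + ∑ p ∈ BBL la s w v, (1 : ℝ) / p)) ≤
      1 := by
    rw [Real.exp_le_one_iff]; linarith
  set E := Real.exp (2 * Cm + 2 * C3 + 3) with hE
  have hE0 : 0 < E := Real.exp_pos _
  by_cases hY : YYL la s w v ≤ 1
  · by_cases hBs : BsL la s w z ≤ 1
    · have hg : Real.log w / Real.log z * (Real.log w / Real.log v) ^ (1 / 4 : ℝ) =
          Real.exp (-Real.log (Real.log z / Real.log w) -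
            Real.log (Real.log v / Real.log w) / 4) := by
        have hlw0 : Real.log w ≠ 0 := by linarith
        have hlv0 : Real.log v ≠ 0 := by linarith
        have hlz0 : Real.log z ≠ 0 := by linarith
        rw [sub_eq_add_neg, Real.exp_add, Real.exp_neg, Real.exp_log (by positivity), inv_div,
          Real.rpow_def_of_pos (by positivity)]
        congr 2
        rw [Real.log_div hlw0 hlv0, Real.log_div hlv0 hlw0]
        ring
      have h1 : Real.exp (-(∑ p ∈ AAL la s w z, (1 + ch (dL la) p) / p + ∑ p ∈ BBL la s w v, (1 : ℝ) / p)) ≤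
          E * (Real.log w / Real.log z * (Real.log w / Real.log v) ^ (1 / 4 : ℝ)) := by
        rw [hg, hE, ← Real.exp_add]
        apply Real.exp_le_exp.2
        linarith
      have := sq_nonneg (YYL la s w v)
      linarith
    · push Not at hBs
      have := sq_nonneg (YYL la s w v)
      have : 0 ≤ E * (Real.log w / Real.log z * (Real.log w / Real.log v) ^ (1 / 4 : ℝ)) := by
        positivity
      linarith
  · push Not at hY
    have : 0 ≤ E * (Real.log w / Real.log z * (Real.log w / Real.log v) ^ (1 / 4 : ℝ)) := by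
      positivity
    nlinarith

/-- first moment of `Bs` -/
theorem Bs_momentL (hla : 1 ≤ la) (C1 : ℝ) (h1 : 0 ≤ C1) (hC1 : ∀ S : ℕ, ∑ s ∈ Icc 1 S, rD la s ≤ C1 * S)
    (S w z : ℕ) (hw : 0 < w) : ∑ s ∈ Icc 1 S, rD la s * BsL la s w z ≤ 2 * C1 * S / w := by
  unfold BsL
  simp only [mul_sum]
  rw [sum_comm]
  have hterm : ∀ l ∈ PI w z, ∑ s ∈ Icc 1 S, rD la s * (if ch (dL la) l = 1 ∧ l ∣ s then (1 : ℝ) / l else 0)
      ≤ 2 * C1 * S * (1 / (l : ℝ) ^ 2) := by
    intro l hl
    rw [mem_PI'] at hl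
    have hl0 : (0 : ℝ) < l := by exact_mod_cast hl.2.pos
    by_cases hc : ch (dL la) l = 1
    · have e : ∑ s ∈ Icc 1 S, rD la s * (if ch (dL la) l = 1 ∧ l ∣ s then (1 : ℝ) / l else 0) =
          ∑ t ∈ Icc 1 (S / l), rD la (l * t) * (1 / l) := by
        have e1 : ∀ s ∈ Icc 1 S, rD la s * (if ch (dL la) l = 1 ∧ l ∣ s then (1 : ℝ) / l else 0) =
            if l ∣ s then rD la s * (1 / l) else 0 := by
          intro s _
          simp only [hc, true_and]
          split_ifs <;> simp
        rw [sum_congr rfl e1, ← sum_filter]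
        symm
        apply sum_bij (fun t _ => l * t)
        · intro t ht
          rw [mem_Icc] at ht
          rw [mem_filter, mem_Icc]
          refine ⟨⟨Nat.mul_pos hl.2.pos ht.1, ?_⟩, dvd_mul_right _ _⟩
          calc l * t ≤ l * (S / l) := Nat.mul_le_mul_left _ ht.2
            _ ≤ S := Nat.mul_div_le S l
        · intro t _ t' _ h
          exact Nat.eq_of_mul_eq_mul_left hl.2.pos h
        · intro s hs
          rw [mem_filter, mem_Icc] at hs
          obtain ⟨⟨a1, a2⟩, t, rfl⟩ := hs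
          refine ⟨t, ?_, rfl⟩
          rw [mem_Icc]
          refine ⟨Nat.pos_of_mul_pos_left a1, ?_⟩
          rw [Nat.le_div_iff_mul_le hl.2.pos, mul_comm]
          exact a2
        · intro t _; rfl
      rw [e]
      calc ∑ t ∈ Icc 1 (S / l), rD la (l * t) * (1 / (l : ℝ)) ≤
            ∑ t ∈ Icc 1 (S / l), 2 * rD la t * (1 / (l : ℝ)) := by
            refine sum_le_sum fun t _ => ?_
            exact mul_le_mul_of_nonneg_right (rD_prime_mul hla l t hl.2 hc) (by positivity)
        _ = 2 * (1 / (l : ℝ)) * ∑ t ∈ Icc 1 (S / l), rD la t := by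
            rw [mul_sum]; exact sum_congr rfl fun _ _ => by ring
        _ ≤ 2 * (1 / (l : ℝ)) * (C1 * ((S / l : ℕ) : ℝ)) :=
            mul_le_mul_of_nonneg_left (hC1 _) (by positivity)
        _ ≤ 2 * (1 / (l : ℝ)) * (C1 * (S / l)) := by
            apply mul_le_mul_of_nonneg_left _ (by positivity)
            exact mul_le_mul_of_nonneg_left Nat.cast_div_le h1
        _ = _ := by ring
    · have e : ∑ s ∈ Icc 1 S, rD la s * (if ch (dL la) l = 1 ∧ l ∣ s then (1 : ℝ) / l else 0) = 0 := by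
        apply sum_eq_zero
        intro s _
        rw [if_neg (by tauto), mul_zero]
      rw [e]
      positivity
  refine (sum_le_sum hterm).trans ?_
  rw [← mul_sum]
  have h3 := sum_PI_sq w z hw
  calc _ ≤ 2 * C1 * S * (1 / w) := mul_le_mul_of_nonneg_left h3 (by positivity)
    _ = _ := by ring

/-- second moment of `YYL` -/
theorem YY_momentL (hla : 1 ≤ la) (C1 : ℝ) (hC1 : ∀ S : ℕ, ∑ s ∈ Icc 1 S, rD la s ≤ C1 * S)
    (S w v : ℕ) (hw : 0 < w) : ∑ s ∈ Icc 1 S, rD la s * YYL la s w v ^ 2 ≤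
      4 * C1 * S / w + 48 * |((dL la : ℤ) : ℝ)| * Real.sqrt S * v ^ 2 := by
  have hDneg := dL_neg hla
  have hDabs : (1 : ℝ) ≤ |((dL la : ℤ) : ℝ)| := by
    rw [← Int.cast_abs]
    have : 1 ≤ |dL la| := Int.one_le_abs (by omega)
    exact_mod_cast this
  have h := second_moment w v hw (fun l => 1 - ch (dL la) l) (by
      intro p
      rcases ch_val (dL la) p with h | h | h <;> rw [h] <;> norm_num) (Icc 1 S) (rD la)
      (fun m => rD_nonneg hla m) (C1 * S) (12 * |((dL la : ℤ) : ℝ)| * Real.sqrt S) (hC1 S) (by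
      intro p hp p' hp' hpp
      rw [mem_PI'] at hp hp'
      have hns : ¬ IsSquare ((p : ℤ) * p') := by
        have h2 := prod_not_square {p, p'} (by
          intro r hr
          rw [mem_insert, mem_singleton] at hr
          rcases hr with rfl | rfl
          · exact hp.2
          · exact hp'.2) ⟨p, by simp⟩
        rw [prod_pair hpp] at h2
        push_cast at h2
        exact h2
      have hpos : 0 < p * p' := Nat.mul_pos hp.2.pos hp'.2.pos
      have hns2 : ¬ IsSquare (dL la * ((p : ℤ) * p')) := by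
        rintro ⟨a, ha⟩
        have h3 := mul_self_nonneg a
        have h4 : (0 : ℤ) < (p : ℤ) * p' := by exact_mod_cast hpos
        nlinarith
      have hpR : (0 : ℝ) < (p : ℝ) * p' := by exact_mod_cast hpos
      have c1 : Chi (ch (dL la * ((p : ℤ) * p'))) (4 * |((dL la : ℤ) : ℝ)| * (p * p')) := by
        have h5 := ch_chi _ hns2
        have e : 4 * |((dL la * ((p : ℤ) * p') : ℤ) : ℝ)| =
            4 * |((dL la : ℤ) : ℝ)| * (p * p') := by
          push_cast
          rw [abs_mul, abs_of_pos hpR]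
          ring
        rwa [e] at h5
      have c2 : Chi (ch ((p : ℤ) * p')) (4 * |((dL la : ℤ) : ℝ)| * (p * p')) := by
        have h5 := ch_chi _ hns
        refine Chi_mono h5 ?_
        push_cast
        rw [abs_of_pos hpR]
        nlinarith
      have h6 := hyper2 c1 c2 S
      have h7 : ∑ m ∈ Icc 1 S, rD la m * ch ((p : ℤ) * p') m = ∑ n ∈ Icc 1 S, ∑ d ∈ n.divisors,
          ch (dL la * ((p : ℤ) * p')) d * ch ((p : ℤ) * p') (n / d) := by
        refine sum_congr rfl fun n _ => ?_
        unfold rD rr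
        rw [sum_mul]
        refine sum_congr rfl fun d hd => ?_
        rw [Nat.mem_divisors] at hd
        obtain ⟨⟨e, rfl⟩, hne⟩ := hd
        have hd0 : 0 < d := Nat.pos_of_ne_zero (left_ne_zero_of_mul hne)
        rw [Nat.mul_div_cancel_left _ hd0, A1aux.ch_mul_right, ch_mul_left (dL la)]
        ring
      rw [h7]
      refine h6.trans (le_of_eq ?_)
      ring) (by positivity)
  unfold YYL
  calc _ ≤ 4 * (C1 * S) / w + 4 * (12 * |((dL la : ℤ) : ℝ)| * Real.sqrt S) * (v : ℝ) ^ 2 := h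
    _ = _ := by ring

end Pool.Agent.L0h26.HbL
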