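import Mathlib
import Pool.Agent.L0h26.HbE

set_option autoImplicit false

/-!
# Dyadic blocks of cofactors, general `lam`
-/

namespace Pool.Agent.L0h26.HbL

open Finset Pool.Agent.H951R4.OD Pool.Agent.W825.FP Pool.Agent.W854.FA

variable {la : ℕ}

theorem ESL_empty_or (hla : 1 ≤ la) {X s w : ℕ} (hcw : cl la ≤ w) : ESL la X s = ∅ ∨
    (s % 2 = 1 ∧ ∀ l : ℕ, l.Prime → w < l → l ∣ s → ch (dL la) l ≠ -1) := by
  classical
  rcases (ESL la X s).eq_empty_or_nonempty with h | ⟨n, hn⟩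
  · exact Or.inl h
  · right
    unfold ESL at hn
    rw [mem_filter] at hn
    refine ⟨hn.2.1, ?_⟩
    intro l hl hwl hls hc
    have hlc := not_dvd_cl hla hcw hwl
    have hln : (l : ℤ) ∣ fl la n := (Int.natCast_dvd_natCast.2 hls).trans hn.2.2.1
    have hl2 : l ≠ 2 := by
      rintro rfl
      exact hlc ⟨la * (4 * la - 1), by unfold cl; ring⟩
    have hlD : ¬ (l : ℤ) ∣ dL la := by
      intro h1
      have h2 := Int.natAbs_dvd_natAbs.2 h1
      rw [Int.natAbs_natCast, dL_natAbs hla] at h2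
      exact hlc (h2.trans ⟨2 * la, by unfold cl; ring⟩)
    have h1 := cntD (la := la) hl hl2 hlD
    rw [hc] at h1
    have h2 : rhoL la l = 0 := by
      have : (rhoL la l : ℝ) = 0 := by rw [h1]; norm_num
      exact_mod_cast this
    have h3 : 0 < rhoL la l := by
      unfold rhoL
      apply card_pos.2
      refine ⟨n % l, ?_⟩
      rw [mem_filter, mem_range]
      exact ⟨Nat.mod_lt _ hl.pos, (fl_mod la l n).2 hln⟩
    omega

theorem four_blockL (hla : 1 ≤ la) : ∃ C : ℝ, 1 ≤ C ∧ ∀ X j w v z : ℕ, 2 ≤ j → 3 ≤ w →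
    cl la ≤ w → w ≤ v → v ≤ z → z ≤ X →
    C * Real.log z * (1 + Real.log (Real.log z)) ≤ Real.log ((2 ^ (j - 2) : ℕ) : ℝ) →
    ∀ Ym : ℝ, ∑ s ∈ Icc 1 (X / 2 ^ j), rD la s * YYL la s w v ^ 2 ≤ Ym →
    ∑ s ∈ blk X j, ((ESL la X s).card : ℝ) ≤ C * ∑ s ∈ blk X j, rD la s +
      C * (X * (Real.log w / Real.log z * (Real.log w / Real.log v) ^ (1 / 4 : ℝ) + 1 / w) +
        2 ^ j * Ym) := by
  obtain ⟨C0, hC0, H0⟩ := ES_leL hla
  obtain ⟨E, hE, HE⟩ := exp_saveL hla
  obtain ⟨C1, hC1, H1⟩ := sum_rD hla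
  set K : ℝ := 2 * (C0 * C0) * (E * C1 + 2 * C1 + 1) with hK
  have hEC : 0 ≤ E * C1 := by positivity
  have hC00 : 1 ≤ C0 * C0 := by nlinarith
  have hCK : C0 ≤ K := by
    have h1 : C0 ≤ C0 * C0 := by nlinarith
    have h2 : C0 * C0 * 1 ≤ C0 * C0 * (2 * (E * C1 + 2 * C1 + 1)) :=
      mul_le_mul_of_nonneg_left (by linarith) (by positivity)
    rw [hK]; nlinarith
  refine ⟨K, by linarith, ?_⟩
  intro X j w v z hj hw hcw hwv hvz hzX hlev Ym hYm
  set S := X / 2 ^ j with hS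
  set g := Real.log w / Real.log z * (Real.log w / Real.log v) ^ (1 / 4 : ℝ) with hg
  have hlw := one_lt_log hw
  have hlv := one_lt_log (hw.trans hwv)
  have hlz := one_lt_log ((hw.trans hwv).trans hvz)
  have hLL := Real.log_pos hlz
  have hg0 : 0 ≤ g := by rw [hg]; positivity
  have hBs0 : ∀ s, 0 ≤ BsL la s w z := by
    intro s
    unfold BsL
    exact sum_nonneg fun _ _ => by split_ifs <;> positivity
  have hterm : ∀ s ∈ blk X j, ((ESL la X s).card : ℝ) ≤ C0 * rD la s +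
      2 * (C0 * C0) * 2 ^ j * (rD la s * (E * g) + rD la s * YYL la s w v ^ 2 +
        rD la s * BsL la s w z) := by
    intro s hs
    obtain ⟨h1, h2, h3, h4⟩ := mem_blk hs
    have hr := rD_nonneg hla s
    have hB := hBs0 s
    rcases ESL_empty_or hla (X := X) (s := s) hcw with he | ⟨ho, hl⟩
    · rw [he, card_empty]
      have : (0 : ℝ) ≤ C0 * rD la s + 2 * (C0 * C0) * 2 ^ j * (rD la s * (E * g) +
        rD la s * YYL la s w v ^ 2 + rD la s * BsL la s w z) := by positivity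
      simpa using this
    · have h5 := H0 X s w v z h1 hw hcw hwv hvz hzX (by
        have h6 : 2 ^ (j - 2) ≤ X / s :=
          (Nat.pow_le_pow_right (by norm_num) (by omega : j - 2 ≤ j)).trans h2
        have h7 : Real.log ((2 ^ (j - 2) : ℕ) : ℝ) ≤ Real.log ((X / s : ℕ) : ℝ) :=
          Real.log_le_log (by exact_mod_cast pow_pos (by norm_num) _) (by exact_mod_cast h6)
        refine le_trans ?_ h7
        refine le_trans ?_ hlev
        have h8 : 0 ≤ Real.log z * (1 + Real.log (Real.log z)) := by positivity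
        calc C0 * Real.log z * (1 + Real.log (Real.log z))
            = C0 * (Real.log z * (1 + Real.log (Real.log z))) := by ring
          _ ≤ K * (Real.log z * (1 + Real.log (Real.log z))) :=
              mul_le_mul_of_nonneg_right hCK h8
          _ = _ := by ring)
      have h6 := HE s w v z hw hcw hwv hvz ho hl
      have hs0 : (0 : ℝ) < s := by exact_mod_cast h1
      have h7 : (X : ℝ) / s ≤ 2 * 2 ^ j := by
        rw [div_le_iff₀ (by positivity)]
        have : (X : ℝ) ≤ 2 ^ (j + 1) * s := by exact_mod_cast h4.le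
        rw [pow_succ] at this
        linarith
      have h8 : 0 ≤ E * g + YYL la s w v ^ 2 + BsL la s w z := by positivity
      calc ((ESL la X s).card : ℝ) ≤ C0 * rD la s * (1 + C0 * (X / s) *
            Real.exp (-(∑ p ∈ AAL la s w z, (1 + ch (dL la) p) / p +
              ∑ p ∈ BBL la s w v, (1 : ℝ) / p))) := h5
        _ ≤ C0 * rD la s * (1 + C0 * (2 * 2 ^ j) * (E * g + YYL la s w v ^ 2 +
              BsL la s w z)) := by
            apply mul_le_mul_of_nonneg_left _ (by positivity)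
            have : C0 * ((X : ℝ) / s) * Real.exp (-(∑ p ∈ AAL la s w z, (1 + ch (dL la) p) / p +
                ∑ p ∈ BBL la s w v, (1 : ℝ) / p)) ≤
                C0 * (2 * 2 ^ j) * (E * g + YYL la s w v ^ 2 + BsL la s w z) :=
              mul_le_mul (mul_le_mul_of_nonneg_left h7 (by linarith)) h6 (Real.exp_pos _).le
                (by positivity)
            linarith
        _ = _ := by ring
  refine (sum_le_sum hterm).trans ?_
  rw [sum_add_distrib, ← mul_sum, ← mul_sum, sum_add_distrib, sum_add_distrib, ← sum_mul]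
  have hsub : blk X j ⊆ Icc 1 S := by
    intro s hs
    obtain ⟨h1, -, h3, -⟩ := mem_blk hs
    exact mem_Icc.2 ⟨h1, h3⟩
  have h10 : ∑ s ∈ blk X j, rD la s ≤ C1 * S :=
    (sum_le_sum_of_subset_of_nonneg hsub fun s _ _ => rD_nonneg hla s).trans (H1 S)
  have h11 : ∑ s ∈ blk X j, rD la s * YYL la s w v ^ 2 ≤ Ym :=
    (sum_le_sum_of_subset_of_nonneg hsub fun s _ _ =>
      mul_nonneg (rD_nonneg hla s) (sq_nonneg _)).trans hYm
  have h12 : ∑ s ∈ blk X j, rD la s * BsL la s w z ≤ 2 * C1 * S / w :=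
    (sum_le_sum_of_subset_of_nonneg hsub fun s _ _ =>
      mul_nonneg (rD_nonneg hla s) (hBs0 s)).trans
        (Bs_momentL hla C1 (by linarith) H1 S w z (by omega))
  have hSX : (2 : ℝ) ^ j * S ≤ X := by
    have : 2 ^ j * S ≤ X := Nat.mul_div_le X (2 ^ j)
    exact_mod_cast this
  have hYm0 : 0 ≤ Ym := (sum_nonneg fun s _ =>
    mul_nonneg (rD_nonneg hla s) (sq_nonneg _)).trans h11
  have hw0 : (0 : ℝ) < w := by exact_mod_cast (by omega : 0 < w)
  have hr0 : 0 ≤ ∑ s ∈ blk X j, rD la s := sum_nonneg fun s _ => rD_nonneg hla s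
  set C2 : ℝ := 2 * (C0 * C0) with hC2
  have hC20 : 0 ≤ C2 := by positivity
  have h13 : C2 * 2 ^ j * ((∑ s ∈ blk X j, rD la s) * (E * g) +
      ∑ s ∈ blk X j, rD la s * YYL la s w v ^ 2 + ∑ s ∈ blk X j, rD la s * BsL la s w z) ≤
      C2 * 2 ^ j * (C1 * S * (E * g) + Ym + 2 * C1 * S / w) := by
    apply mul_le_mul_of_nonneg_left _ (by positivity)
    have := mul_le_mul_of_nonneg_right h10 (by positivity : 0 ≤ E * g)
    linarith
  have h14 : C2 * 2 ^ j * (C1 * S * (E * g) + Ym + 2 * C1 * S / w) =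
      C2 * ((C1 * E * g + 2 * C1 / w) * (2 ^ j * S) + 2 ^ j * Ym) := by ring
  have h15 : C2 * ((C1 * E * g + 2 * C1 / w) * (2 ^ j * S) + 2 ^ j * Ym) ≤
      C2 * ((C1 * E * g + 2 * C1 / w) * X + 2 ^ j * Ym) := by
    apply mul_le_mul_of_nonneg_left _ (by linarith)
    have : (C1 * E * g + 2 * C1 / w) * (2 ^ j * S) ≤ (C1 * E * g + 2 * C1 / w) * X :=
      mul_le_mul_of_nonneg_left hSX (by positivity)
    linarith
  have h16 : C2 * ((C1 * E * g + 2 * C1 / w) * X + 2 ^ j * Ym) ≤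
      K * (X * (g + 1 / w) + 2 ^ j * Ym) := by
    have e : K * (X * (g + 1 / w) + 2 ^ j * Ym) -
        C2 * ((C1 * E * g + 2 * C1 / w) * X + 2 ^ j * Ym) =
        C2 * (X * g * (2 * C1 + 1) + X * (1 / w) * (E * C1 + 1) +
          2 ^ j * Ym * (E * C1 + 2 * C1)) := by rw [hK]; ring
    have : 0 ≤ C2 * (X * g * (2 * C1 + 1) + X * (1 / w) * (E * C1 + 1) +
          2 ^ j * Ym * (E * C1 + 2 * C1)) := by positivity
    linarith
  have h17 : C0 * ∑ s ∈ blk X j, rD la s ≤ K * ∑ s ∈ blk X j, rD la s :=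
    mul_le_mul_of_nonneg_right hCK hr0
  linarith

end Pool.Agent.L0h26.HbL
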