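import Mathlib
import Pool.Agent.L0h26.HbF
import Pool.Agent.W825.FP.Tot

set_option autoImplicit false

/-!
# The sum over all cofactors, general `lam`
-/

namespace Pool.Agent.L0h26.HbL

open Finset Filter Topology Pool.Agent.H951R4.OD Pool.Agent.W825.FP Pool.Agent.W854.FA

variable {la : ℕ}

theorem YYL_self (la s w : ℕ) : YYL la s w w = 0 := by
  unfold YYL
  have : PI w w = ∅ := by
    ext q
    rw [mem_PI']
    simp only [notMem_empty, iff_false]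
    omega
  rw [this, sum_empty]

/-- one block, good case -/
theorem blk_goodL (hla : 1 ≤ la) (C C1 : ℝ) (hC : 1 ≤ C)
    (H1 : ∀ S : ℕ, ∑ s ∈ Icc 1 S, rD la s ≤ C1 * S)
    (H : ∀ X j w v z : ℕ, 2 ≤ j → 3 ≤ w → cl la ≤ w → w ≤ v → v ≤ z → z ≤ X →
    C * Real.log z * (1 + Real.log (Real.log z)) ≤ Real.log ((2 ^ (j - 2) : ℕ) : ℝ) →
    ∀ Ym : ℝ, ∑ s ∈ Icc 1 (X / 2 ^ j), rD la s * YYL la s w v ^ 2 ≤ Ym →
    ∑ s ∈ blk X j, ((ESL la X s).card : ℝ) ≤ C * ∑ s ∈ blk X j, rD la s +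
      C * (X * (Real.log w / Real.log z * (Real.log w / Real.log v) ^ (1 / 4 : ℝ) + 1 / w) +
        2 ^ j * Ym)) (hC1 : 1 ≤ C1)
    (X j : ℕ) (hcw : cl la ≤ wj j) (hj : 2 ≤ j ∧ 3 ≤ wj j ∧ wj j ≤ vj j ∧
    vj j ≤ zj j ∧ zj j ≤ 2 ^ j ∧
    C * Real.log (zj j) * (1 + Real.log (Real.log (zj j))) ≤ Real.log ((2 ^ (j - 2) : ℕ) : ℝ) ∧
    Real.log (wj j) / Real.log (zj j) ≤ 80 * (j : ℝ) ^ (-(9 / 10) : ℝ) ∧
    (Real.log (wj j) / Real.log (vj j)) ^ (1 / 4 : ℝ) ≤ 3 * (j : ℝ) ^ (-(9 / 80) : ℝ) ∧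
    (vj j : ℝ) ≤ Real.exp (Real.sqrt j)) (hjX : 2 ^ j ≤ X)
    (hgood : vj j ^ 4 * wj j ^ 2 ≤ X / 2 ^ j) :
    ∑ s ∈ blk X j, ((ESL la X s).card : ℝ) ≤ C * ∑ s ∈ blk X j, rD la s +
      C * X * (240 * (j : ℝ) ^ (-(81 / 80) : ℝ) + (1 + 48 * |((dL la : ℤ) : ℝ)| + 4 * C1) * (j : ℝ) ^ (-2 : ℝ)) := by
  obtain ⟨j1, j2, j3, j4, j5, j6, j7, j8, j9⟩ := hj
  have hj0 : (0 : ℝ) < j := by exact_mod_cast (by omega : 0 < j)
  have hm := YY_momentL hla C1 H1 (X / 2 ^ j) (wj j) (vj j) (by omega)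
  refine (H X j (wj j) (vj j) (zj j) j1 j2 hcw j3 j4 (j5.trans hjX) j6 _ hm).trans ?_
  have hw0 : (0 : ℝ) < wj j := by exact_mod_cast (by omega : 0 < wj j)
  have hSX : (2 : ℝ) ^ j * ((X / 2 ^ j : ℕ) : ℝ) ≤ X := by
    have : 2 ^ j * (X / 2 ^ j) ≤ X := Nat.mul_div_le X (2 ^ j)
    exact_mod_cast this
  set S : ℝ := ((X / 2 ^ j : ℕ) : ℝ) with hS
  have hS0 : 0 ≤ S := Nat.cast_nonneg _
  have hg : ((vj j : ℝ) ^ 2 * wj j) ≤ Real.sqrt S := by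
    apply Real.le_sqrt_of_sq_le
    have : ((vj j : ℝ) ^ 4 * wj j ^ 2) ≤ S := by rw [hS]; exact_mod_cast hgood
    calc ((vj j : ℝ) ^ 2 * wj j) ^ 2 = (vj j : ℝ) ^ 4 * wj j ^ 2 := by ring
      _ ≤ S := this
  have hg2 : Real.sqrt S * (vj j : ℝ) ^ 2 ≤ S / wj j := by
    rw [le_div_iff₀ hw0]
    calc Real.sqrt S * (vj j : ℝ) ^ 2 * wj j = Real.sqrt S * ((vj j : ℝ) ^ 2 * wj j) := by ring
      _ ≤ Real.sqrt S * Real.sqrt S := mul_le_mul_of_nonneg_left hg (Real.sqrt_nonneg _)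
      _ = S := Real.mul_self_sqrt hS0
  have hwr : (1 : ℝ) / wj j = (j : ℝ) ^ (-2 : ℝ) := by
    unfold wj
    rw [Real.rpow_neg hj0.le]
    have : (j : ℝ) ^ (2 : ℝ) = (j : ℝ) ^ 2 := by exact_mod_cast Real.rpow_natCast (j : ℝ) 2
    rw [this]
    push_cast
    rw [one_div]
  have hprod : Real.log (wj j) / Real.log (zj j) *
      (Real.log (wj j) / Real.log (vj j)) ^ (1 / 4 : ℝ) ≤ 240 * (j : ℝ) ^ (-(81 / 80) : ℝ) := by
    have hlw := one_lt_log j2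
    have hlv := one_lt_log (j2.trans j3)
    have hlz := one_lt_log ((j2.trans j3).trans j4)
    have h1 : 0 ≤ (Real.log (wj j) / Real.log (vj j)) ^ (1 / 4 : ℝ) := by positivity
    calc _ ≤ (80 * (j : ℝ) ^ (-(9 / 10) : ℝ)) * (3 * (j : ℝ) ^ (-(9 / 80) : ℝ)) :=
          mul_le_mul j7 j8 h1 (by positivity)
      _ = 240 * ((j : ℝ) ^ (-(9 / 10) : ℝ) * (j : ℝ) ^ (-(9 / 80) : ℝ)) := by ring
      _ = _ := by rw [← Real.rpow_add hj0]; norm_num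
  have hX0 : (0 : ℝ) ≤ X := Nat.cast_nonneg _
  have h2 : (2 : ℝ) ^ j * (4 * C1 * S / wj j + 48 * |((dL la : ℤ) : ℝ)| * Real.sqrt S * (vj j : ℝ) ^ 2) ≤
      X * ((4 * C1 + 48 * |((dL la : ℤ) : ℝ)|) * (1 / wj j)) := by
    have h3 : 4 * C1 * S / wj j + 48 * |((dL la : ℤ) : ℝ)| * Real.sqrt S * (vj j : ℝ) ^ 2 ≤
        (4 * C1 + 48 * |((dL la : ℤ) : ℝ)|) * (1 / wj j) * S := by
      have : 48 * |((dL la : ℤ) : ℝ)| * Real.sqrt S * (vj j : ℝ) ^ 2 ≤ 48 * |((dL la : ℤ) : ℝ)| * (S / wj j) := by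
        rw [mul_assoc]; exact mul_le_mul_of_nonneg_left hg2 (by norm_num)
      calc _ ≤ 4 * C1 * S / wj j + 48 * |((dL la : ℤ) : ℝ)| * (S / wj j) := by linarith
        _ = _ := by ring
    calc _ ≤ (2 : ℝ) ^ j * ((4 * C1 + 48 * |((dL la : ℤ) : ℝ)|) * (1 / wj j) * S) :=
          mul_le_mul_of_nonneg_left h3 (by positivity)
      _ = (4 * C1 + 48 * |((dL la : ℤ) : ℝ)|) * (1 / wj j) * (2 ^ j * S) := by ring
      _ ≤ (4 * C1 + 48 * |((dL la : ℤ) : ℝ)|) * (1 / wj j) * X := mul_le_mul_of_nonneg_left hSX (by positivity)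
      _ = _ := by ring
  have h4 := mul_le_mul_of_nonneg_left hprod hX0
  have h5 : C * (X * (Real.log (wj j) / Real.log (zj j) *
      (Real.log (wj j) / Real.log (vj j)) ^ (1 / 4 : ℝ) + 1 / wj j) +
        2 ^ j * (4 * C1 * S / wj j + 48 * |((dL la : ℤ) : ℝ)| * Real.sqrt S * (vj j : ℝ) ^ 2)) ≤
      C * (X * (240 * (j : ℝ) ^ (-(81 / 80) : ℝ)) + X * (1 / wj j) +
        X * ((4 * C1 + 48 * |((dL la : ℤ) : ℝ)|) * (1 / wj j))) := by
    apply mul_le_mul_of_nonneg_left _ (by linarith)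
    rw [mul_add]
    linarith
  refine add_le_add le_rfl (h5.trans (le_of_eq ?_))
  rw [hwr]
  ring

/-- one block, any case -/
theorem blk_badL (C : ℝ) (hC : 1 ≤ C)
    (H : ∀ X j w v z : ℕ, 2 ≤ j → 3 ≤ w → cl la ≤ w → w ≤ v → v ≤ z → z ≤ X →
    C * Real.log z * (1 + Real.log (Real.log z)) ≤ Real.log ((2 ^ (j - 2) : ℕ) : ℝ) →
    ∀ Ym : ℝ, ∑ s ∈ Icc 1 (X / 2 ^ j), rD la s * YYL la s w v ^ 2 ≤ Ym →
    ∑ s ∈ blk X j, ((ESL la X s).card : ℝ) ≤ C * ∑ s ∈ blk X j, rD la s +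
      C * (X * (Real.log w / Real.log z * (Real.log w / Real.log v) ^ (1 / 4 : ℝ) + 1 / w) +
        2 ^ j * Ym))
    (X j : ℕ) (hcw : cl la ≤ wj j) (hj : 2 ≤ j ∧ 3 ≤ wj j ∧ wj j ≤ vj j ∧
    vj j ≤ zj j ∧ zj j ≤ 2 ^ j ∧
    C * Real.log (zj j) * (1 + Real.log (Real.log (zj j))) ≤ Real.log ((2 ^ (j - 2) : ℕ) : ℝ) ∧
    Real.log (wj j) / Real.log (zj j) ≤ 80 * (j : ℝ) ^ (-(9 / 10) : ℝ) ∧
    (Real.log (wj j) / Real.log (vj j)) ^ (1 / 4 : ℝ) ≤ 3 * (j : ℝ) ^ (-(9 / 80) : ℝ) ∧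
    (vj j : ℝ) ≤ Real.exp (Real.sqrt j)) (hjX : 2 ^ j ≤ X) :
    ∑ s ∈ blk X j, ((ESL la X s).card : ℝ) ≤ C * ∑ s ∈ blk X j, rD la s +
      C * X * (81 * (j : ℝ) ^ (-(9 / 10) : ℝ)) := by
  obtain ⟨j1, j2, j3, j4, j5, j6, j7, j8, j9⟩ := hj
  have hj0 : (0 : ℝ) < j := by exact_mod_cast (by omega : 0 < j)
  have hj1 : (1 : ℝ) ≤ j := by exact_mod_cast (by omega : 1 ≤ j)
  refine (H X j (wj j) (wj j) (zj j) j1 j2 hcw le_rfl (j3.trans j4) (j5.trans hjX) j6 0 ?_).trans ?_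
  · apply le_of_eq
    apply sum_eq_zero
    intro s _
    rw [YYL_self]; ring
  · have hlw := one_lt_log j2
    have h1 : Real.log (wj j) / Real.log (wj j) = 1 := div_self (by positivity)
    rw [h1, Real.one_rpow, mul_one, mul_zero, add_zero]
    have h2 : (1 : ℝ) / wj j ≤ (j : ℝ) ^ (-(9 / 10) : ℝ) := by
      unfold wj
      have : (1 : ℝ) / ((j ^ 2 : ℕ) : ℝ) = (j : ℝ) ^ (-2 : ℝ) := by
        rw [Real.rpow_neg hj0.le]
        have : (j : ℝ) ^ (2 : ℝ) = (j : ℝ) ^ 2 := by exact_mod_cast Real.rpow_natCast (j : ℝ) 2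
        rw [this]
        push_cast
        rw [one_div]
      rw [this]
      exact Real.rpow_le_rpow_of_exponent_le hj1 (by norm_num)
    have h3 : Real.log (wj j) / Real.log (zj j) + 1 / wj j ≤ 81 * (j : ℝ) ^ (-(9 / 10) : ℝ) := by
      linarith
    have h4 : (X : ℝ) * (Real.log (wj j) / Real.log (zj j) + 1 / wj j) ≤
        X * (81 * (j : ℝ) ^ (-(9 / 10) : ℝ)) := mul_le_mul_of_nonneg_left h3 (Nat.cast_nonneg _)
    have h5 := mul_le_mul_of_nonneg_left h4 (by linarith : 0 ≤ C)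
    refine add_le_add le_rfl (h5.trans (le_of_eq ?_))
    ring

theorem four_totalL (hla : 1 ≤ la) (ε : ℝ) (hε : 0 < ε) : ∃ J : ℕ, ∀ᶠ X : ℕ in atTop,
    ∑ s ∈ Icc 1 (X / 2 ^ J), ((ESL la X s).card : ℝ) ≤ ε * X := by
  obtain ⟨C, hC, H⟩ := four_blockL hla
  obtain ⟨C1, hC1, H1⟩ := sum_rD hla
  obtain ⟨J0, hJ0⟩ := eventually_atTop.1 (par C hC)
  set f : ℕ → ℝ := fun j => 240 * (j : ℝ) ^ (-(81 / 80) : ℝ) + (1 + 48 * |((dL la : ℤ) : ℝ)| + 4 * C1) * (j : ℝ) ^ (-2 : ℝ)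
    with hf
  have hfs : Summable f := by
    apply Summable.add
    · exact (Real.summable_nat_rpow.2 (by norm_num)).mul_left _
    · exact (Real.summable_nat_rpow.2 (by norm_num)).mul_left _
  obtain ⟨J1, hJ1⟩ := tail_sum f hfs (ε / (3 * C)) (by positivity)
  obtain ⟨J2, hJ2⟩ := pow_unbounded_of_one_lt (3 * C * C1 / ε) (by norm_num : (1 : ℝ) < 2)
  have hcwj : ∀ j, cl la ≤ j → cl la ≤ wj j := by
    intro j hj
    unfold wj
    calc cl la ≤ j := hj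
      _ ≤ j ^ 2 := Nat.le_self_pow (by norm_num) j
  set J := max (max (max J0 J1) J2) (cl la) with hJ
  refine ⟨J, ?_⟩
  have hJJ0 : J0 ≤ J := ((le_max_left _ _).trans (le_max_left _ _)).trans (le_max_left _ _)
  have hJJ1 : J1 ≤ J := ((le_max_right _ _).trans (le_max_left _ _)).trans (le_max_left _ _)
  have hJJ2 : J2 ≤ J := (le_max_right _ _).trans (le_max_left _ _)
  have hJJ3 : cl la ≤ J := le_max_right _ _
  have ht : Tendsto (fun X : ℕ => (2106 : ℝ) * ((Nat.log 2 X : ℕ) : ℝ) ^ (-(2 / 5) : ℝ)) atTop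
      (𝓝 (2106 * 0)) :=
    ((tendsto_rpow_neg_atTop (by norm_num : (0 : ℝ) < 2 / 5)).comp tend_log2).const_mul _
  rw [mul_zero] at ht
  have hev := ht.eventually (gt_mem_nhds (by positivity : 0 < ε / (3 * C)))
  filter_upwards [hev, eventually_ge_atTop 1, tend_log2.eventually_ge_atTop 576] with X hX hX1 hM
  set M := Nat.log 2 X with hMdef
  have hX0 : (0 : ℝ) < X := by exact_mod_cast hX1
  rw [blk_sum]
  have hbig : ∀ j ∈ Icc J M, ∑ s ∈ blk X j, ((ESL la X s).card : ℝ) ≤ C * ∑ s ∈ blk X j, rD la s +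
      (C * X * f j + (if vj j ^ 4 * wj j ^ 2 ≤ X / 2 ^ j then 0 else
        C * X * (81 * (j : ℝ) ^ (-(9 / 10) : ℝ)))) := by
    intro j hj
    rw [mem_Icc] at hj
    have hp := hJ0 j (hJJ0.trans hj.1)
    have h2j : 2 ^ j ≤ X := (Nat.pow_le_pow_right (by norm_num) hj.2).trans
      (Nat.pow_log_le_self 2 (by omega))
    split_ifs with hg
    · rw [add_zero]
      exact blk_goodL hla C C1 hC H1 H hC1 X j (hcwj j (hJJ3.trans hj.1)) hp h2j hg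
    · have h3 := blk_badL C hC H X j (hcwj j (hJJ3.trans hj.1)) hp h2j
      have h4 : 0 ≤ C * X * f j := by
        rw [hf]; positivity
      linarith
  refine (sum_le_sum hbig).trans ?_
  rw [sum_add_distrib, sum_add_distrib, ← mul_sum, ← mul_sum, ← blk_sum]
  have hA : C * ∑ s ∈ Icc 1 (X / 2 ^ J), rD la s ≤ ε / 3 * X := by
    have h1 := H1 (X / 2 ^ J)
    have h2 : ((X / 2 ^ J : ℕ) : ℝ) ≤ X / 2 ^ J := by
      have := Nat.cast_div_le (α := ℝ) (m := X) (n := 2 ^ J)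
      push_cast at this
      exact this
    have h3 : 3 * C * C1 / ε < (2 : ℝ) ^ J := hJ2.trans_le (pow_le_pow_right₀ (by norm_num) hJJ2)
    have h4 : C * C1 / (2 : ℝ) ^ J ≤ ε / 3 := by
      rw [div_lt_iff₀ hε] at h3
      rw [div_le_iff₀ (by positivity)]
      linarith
    calc C * ∑ s ∈ Icc 1 (X / 2 ^ J), rD la s ≤ C * (C1 * (X / 2 ^ J)) := by
          have := mul_le_mul_of_nonneg_left h2 (by linarith : 0 ≤ C1)
          exact mul_le_mul_of_nonneg_left (h1.trans this) (by linarith)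
      _ = (C * C1 / 2 ^ J) * X := by ring
      _ ≤ ε / 3 * X := mul_le_mul_of_nonneg_right h4 hX0.le
  have hB : C * X * ∑ j ∈ Icc J M, f j ≤ ε / 3 * X := by
    have h1 := hJ1 J hJJ1 (Icc J M) (fun j hj => (mem_Icc.1 hj).1)
    calc C * X * ∑ j ∈ Icc J M, f j ≤ C * X * (ε / (3 * C)) :=
          mul_le_mul_of_nonneg_left h1.le (by positivity)
      _ = _ := by field_simp
  have hD : ∑ j ∈ Icc J M, (if vj j ^ 4 * wj j ^ 2 ≤ X / 2 ^ j then (0 : ℝ) else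
        C * X * (81 * (j : ℝ) ^ (-(9 / 10) : ℝ))) ≤ ε / 3 * X := by
    have hM0 : (0 : ℝ) < M := by linarith
    have hsq : Real.sqrt M * 24 ≤ M := by
      have h1 : (24 : ℝ) ≤ Real.sqrt M := Real.le_sqrt_of_sq_le (by linarith)
      calc Real.sqrt M * 24 ≤ Real.sqrt M * Real.sqrt M :=
            mul_le_mul_of_nonneg_left h1 (Real.sqrt_nonneg _)
        _ = M := Real.mul_self_sqrt hM0.le
    have hsq1 : 1 ≤ Real.sqrt M := Real.one_le_sqrt.2 (by linarith)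
    set B := (Icc J M).filter (fun j => ¬ vj j ^ 4 * wj j ^ 2 ≤ X / 2 ^ j) with hB'
    have h1 : ∑ j ∈ Icc J M, (if vj j ^ 4 * wj j ^ 2 ≤ X / 2 ^ j then (0 : ℝ) else
        C * X * (81 * (j : ℝ) ^ (-(9 / 10) : ℝ))) =
        ∑ j ∈ B, C * X * (81 * (j : ℝ) ^ (-(9 / 10) : ℝ)) := by
      rw [hB', sum_filter]
      refine sum_congr rfl fun j _ => ?_
      by_cases h : vj j ^ 4 * wj j ^ 2 ≤ X / 2 ^ j
      · rw [if_pos h, if_neg (not_not.2 h)]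
      · rw [if_neg h, if_pos h]
    rw [h1]
    have hclose : ∀ j ∈ B, (M : ℝ) - j ≤ 12 * Real.sqrt M := by
      intro j hj
      rw [hB', mem_filter, mem_Icc] at hj
      have hp := hJ0 j (hJJ0.trans hj.1.1)
      exact bad_close (by omega) hp.1 hj.1.2 ((hp.2.1).trans hp.2.2.1) hp.2.2.2.2.2.2.2.2 hj.2
    have hterm : ∀ j ∈ B, C * X * (81 * (j : ℝ) ^ (-(9 / 10) : ℝ)) ≤
        C * X * (162 * (M : ℝ) ^ (-(9 / 10) : ℝ)) := by
      intro j hj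
      have h2 := hclose j hj
      have h3 : (M : ℝ) / 2 ≤ j := by linarith
      have h4 : (j : ℝ) ^ (-(9 / 10) : ℝ) ≤ ((M : ℝ) / 2) ^ (-(9 / 10) : ℝ) :=
        Real.rpow_le_rpow_of_nonpos (by positivity) h3 (by norm_num)
      have h5 : ((M : ℝ) / 2) ^ (-(9 / 10) : ℝ) ≤ 2 * (M : ℝ) ^ (-(9 / 10) : ℝ) := by
        rw [Real.div_rpow hM0.le (by norm_num), div_le_iff₀ (by positivity)]
        have h6 : (2 : ℝ) ^ (-1 : ℝ) ≤ (2 : ℝ) ^ (-(9 / 10) : ℝ) :=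
          Real.rpow_le_rpow_of_exponent_le (by norm_num) (by norm_num)
        rw [Real.rpow_neg_one] at h6
        have h7 : 0 < (M : ℝ) ^ (-(9 / 10) : ℝ) := by positivity
        nlinarith
      apply mul_le_mul_of_nonneg_left _ (by positivity)
      linarith
    refine (sum_le_sum hterm).trans ?_
    rw [sum_const, nsmul_eq_mul]
    have hcard : (B.card : ℝ) ≤ 13 * Real.sqrt M := by
      set K := ⌊12 * Real.sqrt M⌋₊ with hK
      have h2 : B ⊆ Icc (M - K) M := by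
        intro j hj
        have h3 := hclose j hj
        rw [hB', mem_filter, mem_Icc] at hj
        rw [mem_Icc]
        refine ⟨?_, hj.1.2⟩
        have h4 : M - j ≤ K := by
          rw [hK]
          apply Nat.le_floor
          rw [Nat.cast_sub hj.1.2]
          exact h3
        omega
      have h3 := card_le_card h2
      rw [Nat.card_Icc] at h3
      have h4 : B.card ≤ K + 1 := by omega
      have h5 : (K : ℝ) ≤ 12 * Real.sqrt M := Nat.floor_le (by positivity)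
      have h6 : (B.card : ℝ) ≤ K + 1 := by exact_mod_cast h4
      linarith
    have h7 : Real.sqrt M * (M : ℝ) ^ (-(9 / 10) : ℝ) = (M : ℝ) ^ (-(2 / 5) : ℝ) := by
      rw [Real.sqrt_eq_rpow, ← Real.rpow_add hM0]; norm_num
    calc (B.card : ℝ) * (C * X * (162 * (M : ℝ) ^ (-(9 / 10) : ℝ))) ≤
          (13 * Real.sqrt M) * (C * X * (162 * (M : ℝ) ^ (-(9 / 10) : ℝ))) :=
          mul_le_mul_of_nonneg_right hcard (by positivity)
      _ = C * X * (2106 * (Real.sqrt M * (M : ℝ) ^ (-(9 / 10) : ℝ))) := by ring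
      _ = C * X * (2106 * (M : ℝ) ^ (-(2 / 5) : ℝ)) := by rw [h7]
      _ ≤ C * X * (ε / (3 * C)) := mul_le_mul_of_nonneg_left hX.le (by positivity)
      _ = _ := by field_simp
  linarith

end Pool.Agent.L0h26.HbL
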