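import Mathlib
import Pool.Agent.L0h26.HbG
import Pool.Agent.W825.FP.Dens
import Pool.Agent.W114.HL.App
import Pool.Agent.W854.FA.Hall

set_option autoImplicit false

/-!
# Automorphisms of prime power order, all prime divisors of `v`
-/

namespace Pool.Agent.L0h26.HbL

open Finset Filter Topology Pool.Agent.H951R4.OD Pool.Agent.H634R3.AA Pool.Agent.H634R3.WG.Lam
  Pool.Agent.W854.FA
open Pool.Agent.W825.FP (ch_of_odd card_PI_le sum_PI_inv mem_PI')
open Pool.Agent.W114.HL (sgn sgn_cases brc_ch poly_val)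

/-- reciprocity for the number of points -/
theorem ch_v {v la p : ℕ} (hv : v % 2 = 1) (hp : p.Prime) (hp2 : p ≠ 2) (hpla : ¬ p ∣ la)
    (hval : (v : ℤ) % p = (la : ℤ) % p) (h : ch (sgn v * (la : ℤ)) p ≠ -1) :
    ch (p : ℤ) v = 1 := by
  have hpo : p % 2 = 1 := hp.eq_two_or_odd.resolve_left hp2
  have hne : jacobiSym (sgn v * (la : ℤ)) p ≠ 0 := by
    intro h0
    rw [jacobiSym.eq_zero_iff] at h0
    apply h0.2
    have h2 : (sgn v * (la : ℤ)).natAbs = la := by
      rcases sgn_cases v with h3 | h3 <;> rw [h3] <;> simp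
    rw [Int.gcd_def, h2, Int.natAbs_natCast, Nat.gcd_comm]
    exact (hp.coprime_iff_not_dvd).2 hpla
  have h1 : jacobiSym (sgn v * (la : ℤ)) p = 1 := by
    rcases jacobiSym.trichotomy (sgn v * (la : ℤ)) p with h2 | h2 | h2
    · exact absurd h2 hne
    · exact h2
    · exfalso
      apply h
      rw [ch_of_odd hpo, h2]
      norm_num
  have hvp : jacobiSym (v : ℤ) p = jacobiSym (la : ℤ) p := by
    rw [jacobiSym.mod_left, hval, ← jacobiSym.mod_left]
  have goal : jacobiSym (p : ℤ) v = 1 := by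
    have hv4 : v % 4 = 1 ∨ v % 4 = 3 := by omega
    rcases hv4 with hv4 | hv4
    · rw [← jacobiSym.quadratic_reciprocity_one_mod_four hv4 (Nat.odd_iff.2 hpo), hvp]
      rw [show sgn v = 1 by unfold sgn; rw [if_neg (by omega)], one_mul] at h1
      exact h1
    · rw [show sgn v = -1 by unfold sgn; rw [if_pos hv4], jacobiSym.mul_left,
        jacobiSym.at_neg_one (Nat.odd_iff.2 hpo)] at h1
      have hp4 : p % 4 = 1 ∨ p % 4 = 3 := by omega
      rcases hp4 with hp4 | hp4
      · rw [ZMod.χ₄_nat_one_mod_four hp4, one_mul] at h1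
        rw [jacobiSym.quadratic_reciprocity_one_mod_four hp4 (Nat.odd_iff.2 hv), hvp]
        exact h1
      · rw [ZMod.χ₄_nat_three_mod_four hp4] at h1
        rw [jacobiSym.quadratic_reciprocity_three_mod_four hp4 hv4, hvp]
        linarith
  rw [ch_of_odd hv, goal]
  norm_num

theorem fl_eq {v k la : ℕ} {B : Fin v → Finset (Fin v)} (hv : 2 ≤ v) (hla : 1 ≤ la)
    (hkv : k < v) (hk : ∀ i, (B i).card = k)
    (hpair : ∀ x y : Fin v, x ≠ y →
      (Finset.univ.filter (fun i => x ∈ B i ∧ y ∈ B i)).card = la) :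
    la < k ∧ fl la (k - la) = ((la * v : ℕ) : ℤ) ∧ k * k = la * (v - 1) + k := by
  obtain ⟨hlk, -, -⟩ := design_facts hv hla hkv hk hpair
  obtain ⟨-, hcount⟩ := repl v k la hv hla B hk hpair
  refine ⟨hlk, ?_, hcount⟩
  unfold fl
  have h1 : (k : ℤ) * k = la * ((v - 1 : ℕ) : ℤ) + k := by exact_mod_cast hcount
  rw [Nat.cast_sub (by omega)] at h1
  rw [Nat.cast_sub hlk.le]
  push_cast at h1 ⊢
  nlinarith

/-- the cofactor of a large prime divisor of the number of points -/
theorem big_modL {v k la : ℕ} {B : Fin v → Finset (Fin v)} (hk2 : 2 ≤ k) (hla : 1 ≤ la)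
    (hkv : k < v) (hk : ∀ i, (B i).card = k)
    (hpair : ∀ x y : Fin v, x ≠ y →
      (Finset.univ.filter (fun i => x ∈ B i ∧ y ∈ B i)).card = la) (hodd : Odd v)
    {σ : Equiv.Perm (Fin v)} (haut : ∀ i, ∃ j, (B i).image σ = B j) {q a : ℕ} (hq : q.Prime)
    (hqv : q ∣ v) (hσ : σ ^ (q ^ a) = 1)
    (heven : Even (univ.filter (fun x : Fin v => σ x = x)).card) {X J : ℕ} (hkX : k ≤ X)
    (hbig : 2 ^ J * X < q) : ∃ s ∈ Icc 1 (X / 2 ^ J), k - la ∈ ESL la X s := by
  classical
  have hv : 2 ≤ v := by omega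
  obtain ⟨hlk, hfl, hcount⟩ := fl_eq hv hla hkv hk hpair
  obtain ⟨s, hs⟩ := hqv
  have hs0 : 0 < s := by
    rcases Nat.eq_zero_or_pos s with h | h
    · subst h; omega
    · exact h
  have hX1 : 1 ≤ X := by omega
  have hXq : X < q := by
    have : X ≤ 2 ^ J * X := Nat.le_mul_of_pos_left _ (by positivity)
    omega
  have hvk : v ≤ k * k := by
    obtain ⟨w, rfl⟩ : ∃ w, v = w + 1 := ⟨v - 1, by omega⟩
    rw [Nat.add_sub_cancel] at hcount
    have : 1 * w ≤ la * w := Nat.mul_le_mul_right _ hla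
    omega
  have hvX : v ≤ X * X := hvk.trans (Nat.mul_le_mul hkX hkX)
  have hvodd : v % 2 = 1 := Nat.odd_iff.1 hodd
  have hsodd : s % 2 = 1 := by
    rcases Nat.mod_two_eq_zero_or_one s with h | h
    · exfalso
      have : v % 2 = 0 := by rw [hs, Nat.mul_mod, h]; simp
      omega
    · exact h
  have hqodd : q % 2 = 1 := by
    rcases Nat.mod_two_eq_zero_or_one q with h | h
    · exfalso
      have : v % 2 = 0 := by rw [hs, Nat.mul_mod, h]; simp
      omega
    · exact h
  have hq2 : q ≠ 2 := by omega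
  refine ⟨s, mem_Icc.2 ⟨hs0, ?_⟩, ?_⟩
  · rw [Nat.le_div_iff_mul_le (by positivity)]
    by_contra hcon
    push Not at hcon
    have h3 : X * X < q * s := by
      calc X * X < X * (s * 2 ^ J) := Nat.mul_lt_mul_of_pos_left hcon (by omega)
        _ = (2 ^ J * X) * s := by ring
        _ ≤ q * s := Nat.mul_le_mul_right _ hbig.le
    omega
  · unfold ESL
    rw [mem_filter, mem_Icc]
    refine ⟨⟨by omega, by omega⟩, hsodd, ?_, ?_, ?_⟩
    · rw [hfl]
      have : s ∣ la * v := ⟨la * q, by rw [hs]; ring⟩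
      exact_mod_cast this
    · intro l hl hlX hlc hln
      rw [hfl] at hln
      have h1 : l ∣ la * v := by exact_mod_cast hln
      have hlla : ¬ l ∣ la := fun h => hlc (by
        unfold cl
        exact (h.trans (dvd_mul_left la 2)).trans (dvd_mul_right _ _))
      have h2 : l ∣ v := (hl.dvd_mul.1 h1).resolve_left hlla
      rw [hs] at h2
      rcases (hl.dvd_mul).1 h2 with h | h
      · have := (Nat.prime_dvd_prime_iff_eq hl hq).1 h
        omega
      · exact h
    · rintro p ⟨hp, hpc, hpn, hpn2⟩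
      have hp2 : p ≠ 2 := by
        rintro rfl
        exact hpc ⟨la * (4 * la - 1), by unfold cl; ring⟩
      have hpla : ¬ p ∣ la := fun h => hpc (by
        unfold cl
        exact (h.trans (dvd_mul_left la 2)).trans (dvd_mul_right _ _))
      have hkv2 : k + 2 ≤ v := by
        have h2 : 2 ≤ k - la := hp.two_le.trans (Nat.le_of_dvd (by omega) hpn)
        by_contra hcon
        have h3 : v = k + 1 := by omega
        subst h3
        rw [Nat.add_sub_cancel] at hcount
        have h4 : k * k = (la + 1) * k := by rw [hcount]; ring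
        have h5 := Nat.eq_of_mul_eq_mul_right (by omega : 0 < k) h4
        omega
      have hd : Pool.Agent.H177R2.SD.IsSymmetricDesign v k la :=
        ⟨hkv, k, B, hk, (repl v k la hv hla B hk hpair).1, hpair⟩
      have h1 := brc_ch hd hk2 hkv2 hp hp2 hpn hpn2 hpla
      have h2 : (v : ℤ) % p = (la : ℤ) % p := by
        have h3 : (p : ℤ) ∣ la * ((v : ℤ) - la) := by
          have h4 : fl la (k - la) = (la : ℤ) * v := by rw [hfl]; push_cast; ring
          unfold fl at h4
          obtain ⟨c, hc⟩ := hpn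
          rw [hc] at h4
          push_cast at h4
          refine ⟨(c : ℤ) * (p * c) + (2 * (la : ℤ) - 1) * c, ?_⟩
          linarith
        have h5 : (p : ℤ) ∣ (v : ℤ) - la := by
          rcases (Nat.prime_iff_prime_int.1 hp).dvd_or_dvd h3 with h | h
          · exact absurd (by exact_mod_cast h) hpla
          · exact h
        exact (Int.ModEq.symm ((Int.modEq_iff_dvd).2 h5))
      have h3 := ch_v hvodd hp hp2 hpla h2 h1
      have h4 := fix_test hv hla hkv hk hpair hodd haut hq hq2 hσ heven hp hpn hpn2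
      rw [hs, A1aux.ch_mul_right] at h3
      intro h5
      rw [h5] at h3
      apply h4
      linarith

open Classical in
/-- one prime -/
theorem cnt_one {la : ℕ} (hla : 1 ≤ la) {q : ℕ} (hq : q.Prime) (hqc : ¬ q ∣ cl la) (X : ℕ) :
    (((Icc 1 X).filter (fun n : ℕ => (q : ℤ) ∣ fl la n)).card : ℝ) ≤ 2 * ((X : ℝ) / q + 1) := by
  have h := count_dvd (pol_fl la hla) hq hqc 1 one_pos (Nat.coprime_one_left q) X
  simp only [one_dvd, true_and, Nat.cast_one, one_mul] at h
  convert h using 3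

open Classical in
/-- the middle range -/
theorem mid_count {la : ℕ} (hla : 1 ≤ la) (X Q2 Q3 : ℕ) (h2 : 2 ≤ Q2) (hc : cl la ≤ Q2)
    (h23 : Q2 ≤ Q3) :
    ∑ q ∈ PI Q2 Q3, (((Icc 1 X).filter (fun n : ℕ => (q : ℤ) ∣ fl la n)).card : ℝ) ≤
      10 * Q3 / Real.log Q3 + 10 * X / Real.log Q2 * (1 + Real.log ((Q3 : ℝ) / Q2)) := by
  have hterm : ∀ q ∈ PI Q2 Q3, (((Icc 1 X).filter (fun n : ℕ => (q : ℤ) ∣ fl la n)).card : ℝ) ≤
      2 + 2 * X * (1 / q) := by
    intro q hq
    rw [mem_PI'] at hq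
    have h := cnt_one hla hq.2 (not_dvd_cl hla hc hq.1.1) X
    calc _ ≤ _ := h
      _ = _ := by ring
  refine (sum_le_sum hterm).trans ?_
  rw [sum_add_distrib, sum_const, nsmul_eq_mul, ← mul_sum]
  have h5 : ((PI Q2 Q3).card : ℝ) ≤ 5 * Q3 / Real.log Q3 := by
    refine le_trans ?_ (card_PI_le Q3 (by omega))
    have : (PI Q2 Q3).card ≤ (PI 0 Q3).card := by
      apply card_le_card
      intro x hx
      rw [mem_PI'] at hx ⊢
      exact ⟨⟨hx.2.pos, hx.1.2⟩, hx.2⟩
    exact_mod_cast this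
  have h6 := sum_PI_inv Q2 Q3 h2 h23
  have h7 : 2 * (X : ℝ) * ∑ q ∈ PI Q2 Q3, (1 : ℝ) / q ≤
      2 * X * (5 / Real.log Q2 * (1 + Real.log ((Q3 : ℝ) / Q2))) :=
    mul_le_mul_of_nonneg_left h6 (by positivity)
  calc _ ≤ 5 * Q3 / Real.log Q3 * 2 + 2 * X * (5 / Real.log Q2 * (1 + Real.log ((Q3 : ℝ) / Q2))) :=
        add_le_add (mul_le_mul_of_nonneg_right h5 (by norm_num)) h7
    _ = _ := by ring

/-- the scale of the middle range -/
noncomputable def Q2X (ε : ℝ) (X : ℕ) : ℕ := ⌊Real.exp ((1 - ε) * Real.log X)⌋₊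

open Classical in
theorem mid_asym {la : ℕ} (hla : 1 ≤ la) (J : ℕ) (ε : ℝ) (hε : 0 < ε) (hε2 : ε ≤ 1 / 2) :
    ∃ N0 : ℕ, ∀ X : ℕ, N0 ≤ X →
    ∑ q ∈ PI (Q2X ε X) (2 ^ J * X), (((Icc 1 X).filter (fun n : ℕ => (q : ℤ) ∣ fl la n)).card : ℝ) ≤
      31 * ε * X := by
  have hlim : Tendsto (fun X : ℕ => Real.log X) atTop atTop :=
    Real.tendsto_log_atTop.comp tendsto_natCast_atTop_atTop
  obtain ⟨K, hK⟩ : ∃ K : ℝ, K = 30 * (3 + J) + 10 * 2 ^ J := ⟨_, rfl⟩
  have hK0 : 0 < K := by rw [hK]; positivity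
  obtain ⟨N0, hN0⟩ := (hlim.eventually_ge_atTop (max (max 6 (K / ε))
    (2 * Real.log (cl la) + 6))).exists_forall_of_atTop
  refine ⟨max N0 2, fun X hX => ?_⟩
  have hX0 := hN0 X ((le_max_left _ _).trans hX)
  have hX2 : 2 ≤ X := (le_max_right _ _).trans hX
  have hL6 : 6 ≤ Real.log X := ((le_max_left _ _).trans (le_max_left _ _)).trans hX0
  have hLK : K / ε ≤ Real.log X := ((le_max_right _ _).trans (le_max_left _ _)).trans hX0
  have hLc : 2 * Real.log (cl la) + 6 ≤ Real.log X := (le_max_right _ _).trans hX0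
  set L := Real.log X with hL
  have hXR : (0 : ℝ) < X := by exact_mod_cast (by omega : 0 < X)
  have hl2 : Real.log 2 < 1 := by
    have := Real.log_two_lt_d9
    linarith
  have hl20 : 0 < Real.log 2 := Real.log_pos (by norm_num)
  have hfl := log_floor_exp ((1 - ε) * L) (by nlinarith)
  have hQe : Q2X ε X = ⌊Real.exp ((1 - ε) * L)⌋₊ := rfl
  rw [← hQe] at hfl
  set Q2 := Q2X ε X with hQ2
  have hlogQ : L / 3 ≤ Real.log Q2 := by
    have : L / 2 ≤ (1 - ε) * L := by nlinarith
    linarith [hfl.1]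
  have hQ22 : 2 ≤ Q2 := by
    by_contra hcon
    have h1 : Q2 = 0 ∨ Q2 = 1 := by omega
    rcases h1 with h1 | h1 <;> rw [h1] at hlogQ <;> simp at hlogQ <;> linarith
  have hQ20 : (0 : ℝ) < Q2 := by exact_mod_cast (by omega : 0 < Q2)
  have hcQ : cl la ≤ Q2 := by
    have hc0 : (0 : ℝ) < cl la := by exact_mod_cast cl_pos hla
    have h1 : Real.log (cl la) ≤ Real.log Q2 := by
      have : L / 2 ≤ (1 - ε) * L := by nlinarith
      linarith [hfl.1]
    have h2 := (Real.log_le_log_iff hc0 hQ20).1 h1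
    exact_mod_cast h2
  have hQX : Q2 ≤ X := by
    have h1 : Real.log Q2 ≤ Real.log X := by
      have : (1 - ε) * L ≤ L := by nlinarith
      linarith [hfl.2]
    have h2 := (Real.log_le_log_iff hQ20 hXR).1 h1
    exact_mod_cast h2
  have hQ23 : Q2 ≤ 2 ^ J * X := hQX.trans (Nat.le_mul_of_pos_left _ (by positivity))
  refine (mid_count hla X Q2 (2 ^ J * X) hQ22 hcQ hQ23).trans ?_
  have hlog3 : L ≤ Real.log ((2 ^ J * X : ℕ) : ℝ) := by
    apply Real.log_le_log hXR
    exact_mod_cast Nat.le_mul_of_pos_left _ (by positivity)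
  have hL0 : 0 < L := by linarith
  have t1 : 10 * ((2 ^ J * X : ℕ) : ℝ) / Real.log ((2 ^ J * X : ℕ) : ℝ) ≤
      10 * 2 ^ J * X / L := by
    have : 10 * ((2 ^ J * X : ℕ) : ℝ) = 10 * 2 ^ J * X := by push_cast; ring
    rw [this]
    exact div_le_div_of_nonneg_left (by positivity) hL0 hlog3
  have t2 : Real.log (((2 ^ J * X : ℕ) : ℝ) / Q2) ≤ J + 1 + ε * L := by
    rw [Real.log_div (by positivity) hQ20.ne']
    push_cast
    rw [Real.log_mul (by positivity) hXR.ne', Real.log_pow, ← hL]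
    have h1 := hfl.1
    have h2 : (J : ℝ) * Real.log 2 ≤ J * 1 := mul_le_mul_of_nonneg_left hl2.le (Nat.cast_nonneg _)
    linarith
  have t3 : 10 * (X : ℝ) / Real.log Q2 * (1 + Real.log (((2 ^ J * X : ℕ) : ℝ) / Q2)) ≤
      30 * X / L * (J + 2 + ε * L) := by
    have h1 : 10 * (X : ℝ) / Real.log Q2 ≤ 30 * X / L := by
      rw [div_le_div_iff₀ (by linarith) hL0]
      nlinarith
    have h2 : 0 ≤ 1 + Real.log (((2 ^ J * X : ℕ) : ℝ) / Q2) := by
      have : 1 ≤ ((2 ^ J * X : ℕ) : ℝ) / Q2 := by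
        rw [le_div_iff₀ hQ20, one_mul]
        exact_mod_cast hQ23
      have := Real.log_nonneg this
      linarith
    exact mul_le_mul h1 (by linarith) h2 (by positivity)
  have t4 : 10 * 2 ^ J * (X : ℝ) / L + 30 * X / L * (J + 2 + ε * L) ≤
      X * (K / L) + 30 * ε * X := by
    have e : 10 * 2 ^ J * (X : ℝ) / L + 30 * X / L * (J + 2 + ε * L) =
        X * ((30 * (2 + J) + 10 * 2 ^ J) / L) + 30 * ε * X := by
      field_simp
      ring
    rw [e, hK]
    have : (30 * (2 + J) + 10 * 2 ^ J) / L ≤ (30 * (3 + (J : ℝ)) + 10 * 2 ^ J) / L :=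
      div_le_div_of_nonneg_right (by linarith) hL0.le
    have := mul_le_mul_of_nonneg_left this hXR.le
    linarith
  have t5 : K / L ≤ ε := by
    rw [div_le_iff₀ hL0]
    rw [div_le_iff₀ hε] at hLK
    linarith
  have t6 := mul_le_mul_of_nonneg_left t5 hXR.le
  linarith

/-- block sizes of symmetric designs with the given `la` and an automorphism of order a power of
a prime `q`, where `q ∣ v` or `q ≤ Q`, fixing an even number of points -/
def KV (la Q : ℕ) (k : ℕ) : Prop :=
  2 ≤ k ∧ ∃ (v : ℕ) (B : Fin v → Finset (Fin v)) (σ : Equiv.Perm (Fin v)) (q a : ℕ), k < v ∧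
    (∀ i, (B i).card = k) ∧ (∀ x y : Fin v, x ≠ y →
      (Finset.univ.filter (fun i => x ∈ B i ∧ y ∈ B i)).card = la) ∧
    (∀ i, ∃ j, (B i).image σ = B j) ∧ q.Prime ∧ (q ∣ v ∨ q ≤ Q) ∧ σ ^ (q ^ a) = 1 ∧
    Even (univ.filter (fun x : Fin v => σ x = x)).card

theorem small_KV (la : ℕ) (hla : 1 ≤ la) (Q : ℕ) : Small (KV la Q) := by
  classical
  intro η hη
  obtain ⟨ε, hε⟩ : ∃ ε : ℝ, ε = min (1 / 2) (η / 200) := ⟨_, rfl⟩
  have hε0 : 0 < ε := by
    rw [hε]
    positivity
  have hε1 : ε ≤ 1 / 2 := by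
    rw [hε]
    exact min_le_left _ _
  have hε2 : ε ≤ η / 200 := by
    rw [hε]
    exact min_le_right _ _
  obtain ⟨J, hJ⟩ := four_totalL hla (η / 4) (by positivity)
  obtain ⟨N4, h4⟩ := hJ.exists_forall_of_atTop
  obtain ⟨N1, h1⟩ := upto (pol_fl la hla) Q ε hε0 (by linarith) (η / 4) (by positivity)
  obtain ⟨N2, h2⟩ := small_squares (η / 4) (by positivity)
  obtain ⟨N5, h5⟩ := mid_asym hla J ε hε0 hε1
  have hlim : Tendsto (fun X : ℕ => (1 - ε) * Real.log X) atTop atTop :=
    (Real.tendsto_log_atTop.comp tendsto_natCast_atTop_atTop).const_mul_atTop (by linarith)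
  obtain ⟨N3, hN3⟩ := (hlim.eventually_ge_atTop (Real.log Q)).exists_forall_of_atTop
  refine ⟨max (max N1 (max N2 N3)) (max N4 N5), fun X hX => ?_⟩
  have hXa := (le_max_left _ _).trans hX
  have hXb := (le_max_right _ _).trans hX
  have hX1 := h1 X ((le_max_left _ _).trans hXa)
  have hX2 := h2 X (((le_max_left _ _).trans (le_max_right _ _)).trans hXa)
  have hX3 := hN3 X (((le_max_right _ _).trans (le_max_right _ _)).trans hXa)
  have hX4 := h4 X ((le_max_left _ _).trans hXb)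
  have hX5 := h5 X ((le_max_right _ _).trans hXb)
  obtain ⟨A3, hA3⟩ : ∃ A3 : Finset ℕ, A3 = (PI (Q2X ε X) (2 ^ J * X)).biUnion
      (fun q => (Icc 1 X).filter (fun n : ℕ => (q : ℤ) ∣ fl la n)) := ⟨_, rfl⟩
  obtain ⟨A4, hA4⟩ : ∃ A4 : Finset ℕ, A4 = (Icc 1 (X / 2 ^ J)).biUnion (ESL la X) := ⟨_, rfl⟩
  have hkey : ∀ k : ℕ, k ≤ X → KV la Q k → la < k ∧ (IsSquare (k - la) ∨
      UP (fl la) (cl la) Q ((1 - ε) * Real.log X) (k - la) ∨ k - la ∈ A3 ∨ k - la ∈ A4) := by
    rintro k hkX ⟨hk2, v, B, σ, q, a, hkv, hsz, hpair, haut, hq, hqs, hord, heven⟩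
    have hv : 2 ≤ v := by omega
    obtain ⟨hlk, hfl, -⟩ := fl_eq hv hla hkv hsz hpair
    refine ⟨hlk, ?_⟩
    rcases Nat.even_or_odd v with he | ho
    · exact Or.inl (schutz_design hv hla hkv hsz hpair he)
    · right
      have hE : EDes (max Q v) v k la B σ q a := ⟨hkv, hsz, hpair, haut, hq, by
        rcases hqs with h | h
        · exact Or.inl h
        · exact Or.inr (h.trans (le_max_left _ _)), hord, heven⟩
      have hq2 := hE.ne_two ho
      have hq0 : (0 : ℝ) < q := by exact_mod_cast hq.pos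
      by_cases hlq : Real.log q ≤ (1 - ε) * Real.log X
      · left
        refine ⟨q, hq, hq2, ?_, hlq, ?_⟩
        · rcases hqs with h | h
          · left
            rw [hfl]
            have : q ∣ la * v := Dvd.dvd.mul_left h _
            exact_mod_cast this
          · exact Or.inr h
        · rintro p ⟨hpp, hpc, hpn, hpn2⟩
          exact fix_test hv hla hkv hsz hpair ho haut hq hq2 hord heven hpp hpn hpn2
      · right
        push Not at hlq
        have hqQ : ¬ q ≤ Q := by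
          intro h
          have h6 : Real.log q ≤ Real.log Q := Real.log_le_log hq0 (by exact_mod_cast h)
          linarith
        have hqv : q ∣ v := hqs.resolve_right hqQ
        by_cases hbig : 2 ^ J * X < q
        · right
          rw [hA4, mem_biUnion]
          exact big_modL hk2 hla hkv hsz hpair ho haut hq hqv hord heven hkX hbig
        · left
          rw [hA3, mem_biUnion]
          refine ⟨q, ?_, ?_⟩
          · rw [mem_PI']
            refine ⟨⟨?_, by omega⟩, hq⟩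
            by_contra hcon
            push Not at hcon
            have h7 : (q : ℝ) ≤ Real.exp ((1 - ε) * Real.log X) := by
              have hcon' : (q : ℝ) ≤ (Q2X ε X : ℝ) := by exact_mod_cast hcon
              refine hcon'.trans ?_
              unfold Q2X
              exact Nat.floor_le (Real.exp_pos _).le
            have h8 := Real.log_le_log hq0 h7
            rw [Real.log_exp] at h8
            linarith
          · rw [mem_filter, mem_Icc]
            refine ⟨⟨by omega, by omega⟩, ?_⟩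
            rw [hfl]
            have : q ∣ la * v := Dvd.dvd.mul_left hqv _
            exact_mod_cast this
  have hsub : (fun k => k - la) '' {k : ℕ | k ≤ X ∧ KV la Q k} ⊆
      {n : ℕ | n ≤ X ∧ IsSquare n} ∪ (((Icc 1 X).filter
        (fun n => UP (fl la) (cl la) Q ((1 - ε) * Real.log X) n) ∪ A3 ∪ A4 : Finset ℕ) :
          Set ℕ) := by
    rintro n ⟨k, ⟨hkX, hk⟩, rfl⟩
    obtain ⟨hlk, h4⟩ := hkey k hkX hk
    rcases h4 with h4 | h4 | h4 | h4
    · left
      exact ⟨(Nat.sub_le _ _).trans hkX, h4⟩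
    · right
      rw [Finset.mem_coe, mem_union, mem_union, mem_filter, mem_Icc]
      exact Or.inl (Or.inl ⟨⟨by show 1 ≤ k - la; omega, (Nat.sub_le _ _).trans hkX⟩, h4⟩)
    · right
      rw [Finset.mem_coe, mem_union, mem_union]
      exact Or.inl (Or.inr h4)
    · right
      rw [Finset.mem_coe, mem_union]
      exact Or.inr h4
  have hinj : Set.InjOn (fun k => k - la) {k : ℕ | k ≤ X ∧ KV la Q k} := by
    rintro a ⟨haX, ha⟩ b ⟨hbX, hb⟩ hab
    have h5 := (hkey a haX ha).1
    have h6 := (hkey b hbX hb).1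
    simp only at hab
    omega
  have h7 := Set.ncard_image_of_injOn hinj
  have h8 := Set.ncard_le_ncard hsub ((fin_le X _).union (Finset.finite_toSet _))
  rw [h7] at h8
  have h9 := h8.trans (Set.ncard_union_le _ _)
  rw [Set.ncard_coe_finset] at h9
  have c1 := card_union_le ((Icc 1 X).filter
    (fun n => UP (fl la) (cl la) Q ((1 - ε) * Real.log X) n) ∪ A3) A4
  have c2 := card_union_le ((Icc 1 X).filter
    (fun n => UP (fl la) (cl la) Q ((1 - ε) * Real.log X) n)) A3
  have c3 : A3.card ≤ ∑ q ∈ PI (Q2X ε X) (2 ^ J * X),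
      ((Icc 1 X).filter (fun n : ℕ => (q : ℤ) ∣ fl la n)).card := by
    rw [hA3]
    exact card_biUnion_le
  have c4 : A4.card ≤ ∑ s ∈ Icc 1 (X / 2 ^ J), (ESL la X s).card := by
    rw [hA4]
    exact card_biUnion_le
  have h10 : {k : ℕ | k ≤ X ∧ KV la Q k}.ncard ≤ {n : ℕ | n ≤ X ∧ IsSquare n}.ncard +
      (((Icc 1 X).filter (fun n => UP (fl la) (cl la) Q ((1 - ε) * Real.log X) n)).card +
        ∑ q ∈ PI (Q2X ε X) (2 ^ J * X),
          ((Icc 1 X).filter (fun n : ℕ => (q : ℤ) ∣ fl la n)).card +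
        ∑ s ∈ Icc 1 (X / 2 ^ J), (ESL la X s).card) := by omega
  have h11 : ({k : ℕ | k ≤ X ∧ KV la Q k}.ncard : ℝ) ≤ ({n : ℕ | n ≤ X ∧ IsSquare n}.ncard : ℝ) +
      ((((Icc 1 X).filter (fun n => UP (fl la) (cl la) Q ((1 - ε) * Real.log X) n)).card : ℝ) +
        ∑ q ∈ PI (Q2X ε X) (2 ^ J * X),
          (((Icc 1 X).filter (fun n : ℕ => (q : ℤ) ∣ fl la n)).card : ℝ) +
        ∑ s ∈ Icc 1 (X / 2 ^ J), ((ESL la X s).card : ℝ)) := by
    exact_mod_cast h10
  have hX0 : (0 : ℝ) ≤ X := Nat.cast_nonneg _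
  have h12 : 31 * ε * X ≤ η / 4 * X := mul_le_mul_of_nonneg_right (by linarith) hX0
  linarith

end Pool.Agent.L0h26.HbL
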