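import Mathlib
import Pool.Agent.L0h26.HbH

set_option autoImplicit false

/-!
# Mertens' theorem for real characters
-/

namespace Pool.Agent.L0h26.HbM

open Finset Pool.Agent.H951R4.OD

variable {χ : ℕ → ℝ} {M lam : ℝ}

/-- the hyperbola method with the value of the series -/
theorem hyper' (h : Chi χ M)
    (hlam : ∀ N : ℕ, |lam - ∑ b ∈ Ioc 0 N, χ b * (1 / (b : ℝ))| ≤ 2 * M * (1 / ((N : ℝ) + 1))) :
    ∀ N : ℕ, M ≤ N → |∑ n ∈ Icc 1 N, rr χ n - lam * N| ≤ 5 * Real.sqrt (M * N) := by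
  have hM : 1 ≤ M := h.one_le
  intro N hN
  have hN0 : (1 : ℝ) ≤ N := hM.trans hN
  set s := Real.sqrt (M * N) with hs
  have hs1 : 1 ≤ s := by
    rw [hs]; apply Real.one_le_sqrt.mpr; nlinarith
  have hs0 : 0 < s := by linarith
  have hss : s * s = M * N := Real.mul_self_sqrt (by positivity)
  set B := ⌊s⌋₊ with hB
  have hBs : (B : ℝ) ≤ s := Nat.floor_le hs0.le
  have hBs' : s < (B : ℝ) + 1 := Nat.lt_floor_add_one s
  have hsN : s ≤ N := by
    rw [hs]; apply Real.sqrt_le_iff.mpr; constructor <;> nlinarith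
  have hBN : B ≤ N := by exact_mod_cast hBs.trans hsN
  rw [b2_sum_rr h N]
  have hsplit : ∑ b ∈ Ioc 0 N, χ b * ((N / b : ℕ) : ℝ) =
      ∑ b ∈ Ioc 0 B, χ b * ((N / b : ℕ) : ℝ) + ∑ b ∈ Ioc B N, χ b * ((N / b : ℕ) : ℝ) := by
    rw [Finset.sum_Ioc_consecutive _ (Nat.zero_le B) hBN]
  -- second part
  have h2 : |∑ b ∈ Ioc B N, χ b * ((N / b : ℕ) : ℝ)| ≤ 2 * M * ((N / (B + 1) : ℕ) : ℝ) :=
    b2_abel h (fun b => ((N / b : ℕ) : ℝ)) B (fun b => by positivity)
      (fun b hb => by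
        have : N / (b + 1) ≤ N / b := Nat.div_le_div_left (by omega) (by omega)
        exact_mod_cast this) N
  have h2' : 2 * M * ((N / (B + 1) : ℕ) : ℝ) ≤ 2 * s := by
    have hdiv : ((N / (B + 1) : ℕ) : ℝ) ≤ N / ((B : ℝ) + 1) := by
      have := @Nat.cast_div_le ℝ _ _ _ N (B + 1)
      push_cast at this
      exact this
    have hdiv2 : (N : ℝ) / ((B : ℝ) + 1) ≤ N / s := by
      apply div_le_div_of_nonneg_left (by positivity) hs0 hBs'.le
    have : M * ((N : ℝ) / s) = s := by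
      rw [mul_div_assoc', ← hss, mul_self_div_self]
    have h3 : M * ((N / (B + 1) : ℕ) : ℝ) ≤ M * ((N : ℝ) / s) :=
      mul_le_mul_of_nonneg_left (hdiv.trans hdiv2) (by linarith)
    rw [this] at h3
    linarith
  -- first part
  have h1 : |∑ b ∈ Ioc 0 B, χ b * ((N / b : ℕ) : ℝ) -
      N * ∑ b ∈ Ioc 0 B, χ b * (1 / (b : ℝ))| ≤ B := by
    rw [Finset.mul_sum, ← Finset.sum_sub_distrib]
    refine (Finset.abs_sum_le_sum_abs _ _).trans ?_
    have : ∀ b ∈ Ioc 0 B, |χ b * ((N / b : ℕ) : ℝ) - N * (χ b * (1 / (b : ℝ)))| ≤ 1 := by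
      intro b hb
      rw [Finset.mem_Ioc] at hb
      have hb0 : (0 : ℝ) < b := by exact_mod_cast hb.1
      have e1 : χ b * ((N / b : ℕ) : ℝ) - N * (χ b * (1 / (b : ℝ))) =
          χ b * (((N / b : ℕ) : ℝ) - N / b) := by ring
      rw [e1, abs_mul]
      have hc1 : |χ b| ≤ 1 := by
        rcases h.val b with h0 | h0 | h0 <;> rw [h0] <;> norm_num
      have hc2 : |((N / b : ℕ) : ℝ) - N / b| ≤ 1 := by
        have g1 : ((N / b : ℕ) : ℝ) ≤ N / b := Nat.cast_div_le
        have g2 : (N : ℝ) / b < ((N / b : ℕ) : ℝ) + 1 := by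
          rw [div_lt_iff₀ hb0]
          have := Nat.lt_div_mul_add (a := N) (b := b) hb.1
          have hcast : (N : ℝ) < ((N / b : ℕ) : ℝ) * b + b := by exact_mod_cast this
          linarith
        rw [abs_le]; constructor <;> linarith
      calc |χ b| * |((N / b : ℕ) : ℝ) - N / b| ≤ 1 * 1 :=
            mul_le_mul hc1 hc2 (abs_nonneg _) zero_le_one
        _ = 1 := one_mul 1
    refine (Finset.sum_le_sum this).trans ?_
    simp
  have h3 : |lam * N - N * ∑ b ∈ Ioc 0 B, χ b * (1 / (b : ℝ))| ≤ 2 * s := by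
    have e1 : lam * N - N * ∑ b ∈ Ioc 0 B, χ b * (1 / (b : ℝ)) =
        (lam - ∑ b ∈ Ioc 0 B, χ b * (1 / (b : ℝ))) * N := by ring
    rw [e1, abs_mul, abs_of_nonneg (by linarith : (0 : ℝ) ≤ N)]
    have hl := hlam B
    have hdiv2 : 1 / ((B : ℝ) + 1) ≤ 1 / s := by
      apply one_div_le_one_div_of_le hs0 hBs'.le
    have : M * (1 / s) * N = s := by
      field_simp
      rw [sq, hss]
    calc |lam - ∑ b ∈ Ioc 0 B, χ b * (1 / (b : ℝ))| * N ≤ 2 * M * (1 / ((B : ℝ) + 1)) * N :=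
          mul_le_mul_of_nonneg_right hl (by linarith)
      _ ≤ 2 * M * (1 / s) * N := by gcongr
      _ = 2 * s := by rw [mul_assoc 2, mul_assoc 2, this]
  rw [hsplit]
  have h2'' := h2.trans h2'
  rw [abs_le] at h1 h2'' h3 ⊢
  constructor <;> linarith [h1.1, h1.2, h2''.1, h2''.2, h3.1, h3.2]

theorem rr_prime (h : Chi χ M) {p : ℕ} (hp : p.Prime) : rr χ p = 1 + χ p := by
  unfold rr
  rw [hp.divisors, sum_insert (by simpa using hp.one_lt.ne), sum_singleton, h.one]

/-- the value of the series is not zero -/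
theorem lam_ne (h : Chi χ M)
    (hlam : ∀ N : ℕ, |lam - ∑ b ∈ Ioc 0 N, χ b * (1 / (b : ℝ))| ≤ 2 * M * (1 / ((N : ℝ) + 1)))
    (hunb : ∀ K : ℝ, ∃ N : ℕ, K < ∑ p ∈ PI 0 N, (1 + χ p) / p) : lam ≠ 0 := by
  intro h0
  have hM : 1 ≤ M := h.one_le
  have hH := hyper' h hlam
  set R : ℕ → ℝ := fun N => ∑ n ∈ Icc 1 N, rr χ n with hR
  have hRmono : ∀ N N' : ℕ, N ≤ N' → R N ≤ R N' := by
    intro N N' hN
    apply sum_le_sum_of_subset_of_nonneg (Icc_subset_Icc_right hN)
    intro n _ _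
    exact rr_nonneg h n
  set N1 := ⌈M⌉₊ with hN1
  have hMN1 : M ≤ N1 := Nat.le_ceil M
  have hN1R : (1 : ℝ) ≤ N1 := hM.trans hMN1
  set K := 5 * Real.sqrt (M * N1) with hK
  have hK0 : 0 ≤ K := by positivity
  have hRb : ∀ N : ℕ, R N ≤ K * Real.sqrt N := by
    intro N
    rcases Nat.eq_zero_or_pos N with h1 | h1
    · subst h1
      simp [hR]
    have h1R : (1 : ℝ) ≤ N := by exact_mod_cast h1
    by_cases h2 : N1 ≤ N
    · have h3 : M ≤ N := hMN1.trans (by exact_mod_cast h2)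
      have h4 := (abs_le.1 (hH N h3)).2
      rw [h0, zero_mul, sub_zero] at h4
      refine h4.trans ?_
      rw [hK, mul_assoc, ← Real.sqrt_mul (by positivity)]
      apply mul_le_mul_of_nonneg_left _ (by norm_num)
      apply Real.sqrt_le_sqrt
      have : M * 1 * N ≤ M * N1 * N := by
        apply mul_le_mul_of_nonneg_right _ (by linarith)
        exact mul_le_mul_of_nonneg_left hN1R (by linarith)
      linarith
    · have h4 := (abs_le.1 (hH N1 hMN1)).2
      rw [h0, zero_mul, sub_zero] at h4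
      have h5 := hRmono N N1 (by omega)
      have h6 : (1 : ℝ) ≤ Real.sqrt N := Real.one_le_sqrt.2 h1R
      calc R N ≤ K := h5.trans h4
        _ = K * 1 := (mul_one _).symm
        _ ≤ K * Real.sqrt N := mul_le_mul_of_nonneg_left h6 hK0
  have hT : ∀ N : ℕ, ∑ n ∈ Icc 1 N, rr χ n / n =
      ∑ n ∈ Icc 1 N, R n * (1 / (n : ℝ) - 1 / ((n : ℝ) + 1)) + R N / ((N : ℝ) + 1) := by
    intro N
    induction N with
    | zero => simp [hR]
    | succ N ih =>
      have e1 : R (N + 1) = R N + rr χ (N + 1) := by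
        rw [hR]
        simp only
        rw [sum_Icc_succ_top (by omega)]
      rw [sum_Icc_succ_top (by omega), sum_Icc_succ_top (by omega), ih, e1]
      push_cast
      have : (N : ℝ) + 1 ≠ 0 := by positivity
      have : (N : ℝ) + 1 + 1 ≠ 0 := by positivity
      field_simp
      ring
  have hs : Summable (fun n : ℕ => K * (n : ℝ) ^ (-(3 / 2) : ℝ)) :=
    (Real.summable_nat_rpow.2 (by norm_num)).mul_left K
  have hTb : ∀ N : ℕ, ∑ n ∈ Icc 1 N, rr χ n / n ≤ ∑' n : ℕ, K * (n : ℝ) ^ (-(3 / 2) : ℝ) + K := by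
    intro N
    rw [hT]
    apply add_le_add
    · refine le_trans ?_ (hs.sum_le_tsum (Icc 1 N) fun n _ => by positivity)
      apply sum_le_sum
      intro n hn
      rw [mem_Icc] at hn
      have hn0 : (0 : ℝ) < n := by exact_mod_cast hn.1
      have e1 : (1 : ℝ) / n - 1 / ((n : ℝ) + 1) ≤ (n : ℝ) ^ (-2 : ℝ) := by
        rw [Real.rpow_neg hn0.le]
        have : (n : ℝ) ^ (2 : ℝ) = (n : ℝ) ^ 2 := by exact_mod_cast Real.rpow_natCast (n : ℝ) 2
        rw [this, div_sub_div _ _ hn0.ne' (by positivity), inv_eq_one_div,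
          div_le_div_iff₀ (by positivity) (by positivity)]
        nlinarith
      have e0 : 0 ≤ (1 : ℝ) / n - 1 / ((n : ℝ) + 1) := by
        rw [sub_nonneg]
        apply one_div_le_one_div_of_le hn0
        linarith
      calc R n * (1 / (n : ℝ) - 1 / ((n : ℝ) + 1)) ≤ (K * Real.sqrt n) * (n : ℝ) ^ (-2 : ℝ) :=
            mul_le_mul (hRb n) e1 e0 (by positivity)
        _ = K * (n : ℝ) ^ (-(3 / 2) : ℝ) := by
            rw [Real.sqrt_eq_rpow, mul_assoc, ← Real.rpow_add hn0]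
            norm_num
    · rw [div_le_iff₀ (by positivity)]
      refine (hRb N).trans ?_
      apply mul_le_mul_of_nonneg_left _ hK0
      rw [Real.sqrt_le_left (by positivity)]
      have : (0 : ℝ) ≤ N := Nat.cast_nonneg _
      nlinarith
  obtain ⟨N, hN⟩ := hunb (∑' n : ℕ, K * (n : ℝ) ^ (-(3 / 2) : ℝ) + K)
  have h1 : ∑ p ∈ PI 0 N, (1 + χ p) / p ≤ ∑ n ∈ Icc 1 N, rr χ n / n := by
    calc ∑ p ∈ PI 0 N, (1 + χ p) / p = ∑ p ∈ PI 0 N, rr χ p / p := by
          apply sum_congr rfl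
          intro p hp
          unfold PI at hp
          rw [mem_filter] at hp
          rw [rr_prime h hp.2]
      _ ≤ _ := by
          apply sum_le_sum_of_subset_of_nonneg
          · intro p hp
            unfold PI at hp
            rw [mem_filter, mem_Ioc] at hp
            rw [mem_Icc]
            omega
          · intro n _ _
            exact div_nonneg (rr_nonneg h n) (Nat.cast_nonneg _)
  linarith [hTb N]

theorem chi_abs (h : Chi χ M) (n : ℕ) : |χ n| ≤ 1 := by
  rcases h.val n with h1 | h1 | h1 <;> rw [h1] <;> norm_num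

/-- the logarithmic sum over prime powers -/
theorem lambda_sum (h : Chi χ M)
    (hlam : ∀ N : ℕ, |lam - ∑ b ∈ Ioc 0 N, χ b * (1 / (b : ℝ))| ≤ 2 * M * (1 / ((N : ℝ) + 1)))
    (hne : lam ≠ 0) : ∃ C : ℝ, ∀ N : ℕ,
    |∑ b ∈ Ioc 0 N, χ b * ArithmeticFunction.vonMangoldt b / b| ≤ C := by
  have hM : 1 ≤ M := h.one_le
  -- the sum of `χ n log n / n`
  set w : ℕ → ℝ := fun n => Real.log n / n with hw
  have hw0 : ∀ n, 0 ≤ w n := fun n => div_nonneg (Real.log_natCast_nonneg n) (Nat.cast_nonneg _)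
  have hwd : ∀ b, 3 + 1 ≤ b → w (b + 1) ≤ w b := by
    intro b hb
    have he : Real.exp 1 < 2.7182818286 := Real.exp_one_lt_d9
    have hb' : (4 : ℝ) ≤ b := by exact_mod_cast hb
    have := Real.log_div_self_antitoneOn (a := (b : ℝ)) (b := ((b + 1 : ℕ) : ℝ))
      (by rw [Set.mem_Ici]; linarith) (by rw [Set.mem_Ici]; push_cast; linarith)
      (by push_cast; linarith)
    exact this
  set K1 : ℝ := ∑ b ∈ Ioc 0 3, |χ b * w b| + 2 * M * w (3 + 1) with hK1
  have hlog : ∀ N : ℕ, |∑ n ∈ Ioc 0 N, χ n * w n| ≤ K1 := by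
    intro N
    have hwn := hw0 (3 + 1)
    by_cases hN : 3 ≤ N
    · rw [← sum_Ioc_consecutive _ (Nat.zero_le 3) hN]
      refine (abs_add_le _ _).trans ?_
      rw [hK1]
      exact add_le_add (abs_sum_le_sum_abs _ _) (b2_abel h w 3 hw0 hwd N)
    · refine (abs_sum_le_sum_abs _ _).trans ?_
      have h1 : ∑ n ∈ Ioc 0 N, |χ n * w n| ≤ ∑ b ∈ Ioc 0 3, |χ b * w b| := by
        apply sum_le_sum_of_subset_of_nonneg
        · intro x hx
          rw [mem_Ioc] at hx ⊢
          omega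
        · intro _ _ _
          exact abs_nonneg _
      have : 0 ≤ 2 * M * w (3 + 1) := by positivity
      rw [hK1]
      linarith
  -- the convolution identity
  set f : ArithmeticFunction ℝ := ⟨fun n => χ n * ArithmeticFunction.vonMangoldt n / n, by simp⟩
    with hf
  set g : ArithmeticFunction ℝ := ⟨fun n => χ n * (1 / (n : ℝ)), by simp⟩ with hg
  have hconv : ∀ n : ℕ, (f * g) n = χ n * w n := by
    intro n
    rcases Nat.eq_zero_or_pos n with h0 | h0
    · subst h0
      simp [hw]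
    rw [ArithmeticFunction.mul_apply]
    have h1 : ∀ x ∈ n.divisorsAntidiagonal, f x.1 * g x.2 =
        χ n / n * ArithmeticFunction.vonMangoldt x.1 := by
      intro x hx
      rw [Nat.mem_divisorsAntidiagonal] at hx
      have hx1 : x.1 ≠ 0 := by
        intro h2
        rw [h2, zero_mul] at hx
        exact hx.2 hx.1.symm
      have hx2 : x.2 ≠ 0 := by
        intro h2
        rw [h2, mul_zero] at hx
        exact hx.2 hx.1.symm
      have hx1' : (x.1 : ℝ) ≠ 0 := by exact_mod_cast hx1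
      have hx2' : (x.2 : ℝ) ≠ 0 := by exact_mod_cast hx2
      change χ x.1 * ArithmeticFunction.vonMangoldt x.1 / x.1 * (χ x.2 * (1 / (x.2 : ℝ))) = _
      rw [← hx.1, h.mul]
      push_cast
      field_simp
    rw [sum_congr rfl h1, ← mul_sum]
    have h2 : ∑ x ∈ n.divisorsAntidiagonal, ArithmeticFunction.vonMangoldt x.1 = Real.log n := by
      rw [Nat.sum_divisorsAntidiagonal (f := fun a _ => ArithmeticFunction.vonMangoldt a)]
      exact ArithmeticFunction.vonMangoldt_sum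
    rw [h2, hw]
    ring
  have hid : ∀ N : ℕ, ∑ n ∈ Ioc 0 N, χ n * w n =
      ∑ b ∈ Ioc 0 N, f b * ∑ m ∈ Ioc 0 (N / b), g m := by
    intro N
    rw [← ArithmeticFunction.sum_Ioc_mul_eq_sum_sum]
    exact sum_congr rfl fun n _ => (hconv n).symm
  -- the error
  have herr : ∀ N : ℕ, |∑ b ∈ Ioc 0 N, f b * (lam - ∑ m ∈ Ioc 0 (N / b), g m)| ≤
      2 * M * (Real.log 4 + 4) := by
    intro N
    rcases Nat.eq_zero_or_pos N with h0 | h0
    · subst h0
      simp
      have : 0 < Real.log 4 := Real.log_pos (by norm_num)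
      positivity
    have hN0 : (0 : ℝ) < N := by exact_mod_cast h0
    refine (abs_sum_le_sum_abs _ _).trans ?_
    have h1 : ∀ b ∈ Ioc 0 N, |f b * (lam - ∑ m ∈ Ioc 0 (N / b), g m)| ≤
        2 * M / N * ArithmeticFunction.vonMangoldt b := by
      intro b hb
      rw [mem_Ioc] at hb
      have hb0 : (0 : ℝ) < b := by exact_mod_cast hb.1
      rw [abs_mul]
      have h2 : |f b| ≤ ArithmeticFunction.vonMangoldt b / b := by
        change |χ b * ArithmeticFunction.vonMangoldt b / b| ≤ _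
        rw [abs_div, abs_mul, abs_of_nonneg (ArithmeticFunction.vonMangoldt_nonneg (n := b)),
          abs_of_pos hb0]
        apply div_le_div_of_nonneg_right _ hb0.le
        have := mul_le_mul_of_nonneg_right (chi_abs h b)
          (ArithmeticFunction.vonMangoldt_nonneg (n := b))
        linarith
      have h3 := hlam (N / b)
      have h4 : 1 / (((N / b : ℕ) : ℝ) + 1) ≤ b / N := by
        rw [div_le_div_iff₀ (by positivity) hN0, one_mul]
        have := Nat.lt_div_mul_add (a := N) (b := b) hb.1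
        have hc : (N : ℝ) < ((N / b : ℕ) : ℝ) * b + b := by exact_mod_cast this
        linarith
      have h5 : |lam - ∑ m ∈ Ioc 0 (N / b), g m| ≤ 2 * M * (b / N) := by
        refine h3.trans ?_
        exact mul_le_mul_of_nonneg_left h4 (by linarith)
      calc |f b| * |lam - ∑ m ∈ Ioc 0 (N / b), g m| ≤
          (ArithmeticFunction.vonMangoldt b / b) * (2 * M * (b / N)) :=
            mul_le_mul h2 h5 (abs_nonneg _)
              (div_nonneg ArithmeticFunction.vonMangoldt_nonneg hb0.le)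
        _ = _ := by field_simp
    refine (sum_le_sum h1).trans ?_
    rw [← mul_sum]
    have h2 := Chebyshev.psi_le_const_mul_self (x := (N : ℝ)) hN0.le
    unfold Chebyshev.psi at h2
    rw [Nat.floor_natCast] at h2
    calc 2 * M / N * ∑ b ∈ Ioc 0 N, ArithmeticFunction.vonMangoldt b ≤
        2 * M / N * ((Real.log 4 + 4) * N) := mul_le_mul_of_nonneg_left h2 (by positivity)
      _ = _ := by field_simp
  refine ⟨(K1 + 2 * M * (Real.log 4 + 4)) / |lam|, fun N => ?_⟩
  have hlp : 0 < |lam| := abs_pos.2 hne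
  rw [le_div_iff₀ hlp]
  have e1 : (∑ b ∈ Ioc 0 N, χ b * ArithmeticFunction.vonMangoldt b / b) * lam =
      ∑ n ∈ Ioc 0 N, χ n * w n + ∑ b ∈ Ioc 0 N, f b * (lam - ∑ m ∈ Ioc 0 (N / b), g m) := by
    rw [hid, ← sum_add_distrib, sum_mul]
    refine sum_congr rfl fun b _ => ?_
    change χ b * ArithmeticFunction.vonMangoldt b / b * lam = _
    have : f b = χ b * ArithmeticFunction.vonMangoldt b / b := rfl
    rw [this]
    ring
  rw [← abs_mul, e1]
  exact (abs_add_le _ _).trans (add_le_add (hlog N) (herr N))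

/-- **Mertens' theorem for a real character.** -/
theorem mertens_chi (h : Chi χ M) (hunb : ∀ K : ℝ, ∃ N : ℕ, K < ∑ p ∈ PI 0 N, (1 + χ p) / p) :
    ∃ C : ℝ, ∀ N : ℕ, |∑ p ∈ PI 0 N, χ p * Real.log p / p| ≤ C := by
  obtain ⟨lam, hlam⟩ := b2_lim h
  obtain ⟨C, hC⟩ := lambda_sum h hlam (lam_ne h hlam hunb)
  have hs := ArithmeticFunction.vonMangoldt.summable_residueClass_non_primes_div (q := 1) (a := 0)
  have hres : ∀ n : ℕ, ArithmeticFunction.vonMangoldt.residueClass (0 : ZMod 1) n =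
      ArithmeticFunction.vonMangoldt n := by
    intro n
    unfold ArithmeticFunction.vonMangoldt.residueClass
    rw [Set.indicator_of_mem]
    show (n : ZMod 1) = 0
    exact Subsingleton.elim _ _
  simp only [hres] at hs
  set F : ℕ → ℝ := fun n => (if n.Prime then 0 else ArithmeticFunction.vonMangoldt n) / (n : ℝ)
    with hF
  have hF0 : ∀ n, 0 ≤ F n := by
    intro n
    rw [hF]
    apply div_nonneg _ (Nat.cast_nonneg _)
    split_ifs
    · exact le_rfl
    · exact ArithmeticFunction.vonMangoldt_nonneg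
  refine ⟨C + ∑' n, F n, fun N => ?_⟩
  have h1 : ∑ b ∈ Ioc 0 N, χ b * ArithmeticFunction.vonMangoldt b / b =
      ∑ p ∈ PI 0 N, χ p * Real.log p / p + ∑ n ∈ Ioc 0 N, χ n * F n := by
    unfold PI
    rw [sum_filter, ← sum_add_distrib]
    refine sum_congr rfl fun n _ => ?_
    rw [hF]
    simp only
    split_ifs with hn
    · rw [ArithmeticFunction.vonMangoldt_apply_prime hn]
      simp
    · ring
  have h2 : |∑ n ∈ Ioc 0 N, χ n * F n| ≤ ∑' n, F n := by
    refine (abs_sum_le_sum_abs _ _).trans ?_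
    refine le_trans ?_ (hs.sum_le_tsum (Ioc 0 N) fun n _ => hF0 n)
    apply sum_le_sum
    intro n _
    rw [abs_mul, abs_of_nonneg (hF0 n)]
    have := mul_le_mul_of_nonneg_right (chi_abs h n) (hF0 n)
    linarith
  have h3 := hC N
  rw [h1] at h3
  rw [abs_le] at h2 h3 ⊢
  constructor <;> linarith [h2.1, h2.2, h3.1, h3.2]

theorem unb (D : ℤ) (hD : ¬ IsSquare D) : ∀ K : ℝ, ∃ N : ℕ, K < ∑ p ∈ PI 0 N, (1 + ch D p) / p := by
  intro K
  obtain ⟨C, hC, H⟩ := char_sum_fixed D hD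
  obtain ⟨C2, H2⟩ := Pool.Agent.Helper256.KM.mertens_inv
  have hlim : Filter.Tendsto (fun N : ℕ => Real.log (Real.log N)) Filter.atTop Filter.atTop :=
    Real.tendsto_log_atTop.comp (Real.tendsto_log_atTop.comp tendsto_natCast_atTop_atTop)
  obtain ⟨N0, hN0⟩ := (hlim.eventually_gt_atTop (K + C + C2)).exists_forall_of_atTop
  refine ⟨max N0 3, ?_⟩
  have h1 := hN0 (max N0 3) (le_max_left _ _)
  have h2 := (abs_le.1 (H2 (max N0 3) (le_max_right _ _))).1
  have h3 := (abs_le.1 (H 0 (max N0 3))).1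
  have h4 : ∑ p ∈ PI 0 (max N0 3), (1 + ch D p) / p =
      ∑ p ∈ (Icc 1 (max N0 3)).filter Nat.Prime, (1 : ℝ) / p +
        ∑ q ∈ PI 0 (max N0 3), ch D q / q := by
    have e : (Icc 1 (max N0 3)).filter Nat.Prime = PI 0 (max N0 3) := by
      unfold PI
      congr 1
    rw [e, ← sum_add_distrib]
    refine sum_congr rfl fun p _ => ?_
    ring
  rw [h4]
  linarith

/-- **Mertens' theorem for the zeros of a quadratic polynomial.** -/
theorem mertens_two (D : ℤ) (hD : ¬ IsSquare D) : ∃ C : ℝ, 0 ≤ C ∧ ∀ N : ℕ, 1 ≤ N →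
    |∑ p ∈ PI 0 N, (1 + ch D p) * (Real.log p / p) - Real.log N| ≤ C := by
  obtain ⟨C1, h1⟩ := mertens_chi (ch_chi D hD) (unb D hD)
  obtain ⟨C2, h2⟩ := Pool.Agent.Helper256.KM.mertens_log
  refine ⟨C1 + C2, ?_, fun N hN => ?_⟩
  · have e1 := (abs_nonneg _).trans (h1 0)
    have e2 := (abs_nonneg _).trans (h2 1 le_rfl)
    linarith
  have e1 := h1 N
  have e2 := h2 N hN
  have e : (Icc 1 N).filter Nat.Prime = PI 0 N := by
    unfold PI
    congr 1
  rw [e] at e2
  have e3 : ∑ p ∈ PI 0 N, (1 + ch D p) * (Real.log p / p) =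
      ∑ p ∈ PI 0 N, Real.log p / p + ∑ p ∈ PI 0 N, ch D p * Real.log p / p := by
    rw [← sum_add_distrib]
    refine sum_congr rfl fun p _ => ?_
    ring
  rw [e3]
  rw [abs_le] at e1 e2 ⊢
  constructor <;> linarith [e1.1, e1.2, e2.1, e2.2]

end Pool.Agent.L0h26.HbM
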