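import Mathlib
import Pool.Agent.L0h26.HbI

set_option autoImplicit false

/-!
# The second moment of the number of small prime divisors
-/

namespace Pool.Agent.L0h26.HbN

open Finset Pool.Agent.H951R4.OD Pool.Agent.L0h26.HbL Pool.Agent.L0h26.HbM
open Pool.Agent.W825.FP (mem_PI')

variable {la : ℕ}

/-! ## Partial summation -/

theorem sq_sum_lower (N : ℕ) (hN : 1 ≤ N) :
    (1 / 2) * Real.log N ^ 2 - (1 - 1 / N) ≤
      ∑ n ∈ Ico 1 N, Real.log n * (Real.log ((n : ℝ) + 1) - Real.log n) := by
  induction N, hN using Nat.le_induction with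
  | base => simp
  | succ N hN ih =>
    rw [sum_Ico_succ_top hN]
    have hN0 : (0 : ℝ) < N := by exact_mod_cast hN
    have hd0 : 0 ≤ Real.log ((N : ℝ) + 1) - Real.log N := by
      rw [sub_nonneg]
      exact Real.log_le_log hN0 (by linarith)
    have hd1 : Real.log ((N : ℝ) + 1) - Real.log N ≤ 1 / N := by
      rw [← Real.log_div (by positivity) hN0.ne']
      have := Real.log_le_sub_one_of_pos (show (0 : ℝ) < ((N : ℝ) + 1) / N by positivity)
      refine this.trans (le_of_eq ?_)
      field_simp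
      ring
    have h1 : (Real.log ((N : ℝ) + 1) - Real.log N) ^ 2 ≤ (1 / N) ^ 2 := pow_le_pow_left₀ hd0 hd1 2
    have h2 : (1 : ℝ) / 2 * (1 / N) ^ 2 ≤ 1 / N - 1 / ((N : ℝ) + 1) := by
      have hN1 : (1 : ℝ) ≤ N := by exact_mod_cast hN
      rw [div_sub_div _ _ hN0.ne' (by positivity), div_pow, one_pow,
        div_mul_div_comm, div_le_div_iff₀ (by positivity) (by positivity)]
      nlinarith
    push_cast
    nlinarith

theorem abel_id (a : ℕ → ℝ) (N : ℕ) (hN : 1 ≤ N) :
    ∑ n ∈ Icc 1 N, a n * Real.log n = (∑ n ∈ Icc 1 N, a n) * Real.log N -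
      ∑ n ∈ Ico 1 N, (∑ m ∈ Icc 1 n, a m) * (Real.log ((n : ℝ) + 1) - Real.log n) := by
  induction N, hN using Nat.le_induction with
  | base => simp
  | succ N hN ih =>
    rw [sum_Icc_succ_top (by omega), sum_Icc_succ_top (by omega), sum_Ico_succ_top hN, ih]
    push_cast
    ring

theorem sq_mertens (a : ℕ → ℝ) (C : ℝ) (hC : ∀ N : ℕ, 1 ≤ N →
    |∑ n ∈ Icc 1 N, a n - Real.log N| ≤ C) (N : ℕ) (hN : 1 ≤ N) :
    ∑ n ∈ Icc 1 N, a n * Real.log n ≤ (1 / 2) * Real.log N ^ 2 + 2 * C * Real.log N + 1 := by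
  rw [abel_id a N hN]
  have hl : 0 ≤ Real.log N := Real.log_natCast_nonneg N
  have h1 := (abs_le.1 (hC N hN)).2
  have h2 : ∑ n ∈ Ico 1 N, (Real.log n - C) * (Real.log ((n : ℝ) + 1) - Real.log n) ≤
      ∑ n ∈ Ico 1 N, (∑ m ∈ Icc 1 n, a m) * (Real.log ((n : ℝ) + 1) - Real.log n) := by
    apply sum_le_sum
    intro n hn
    rw [mem_Ico] at hn
    have hn0 : (0 : ℝ) < n := by exact_mod_cast hn.1
    have hd0 : 0 ≤ Real.log ((n : ℝ) + 1) - Real.log n := by
      rw [sub_nonneg]
      exact Real.log_le_log hn0 (by linarith)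
    apply mul_le_mul_of_nonneg_right _ hd0
    have := (abs_le.1 (hC n hn.1)).1
    linarith
  have h3 : ∑ n ∈ Ico 1 N, (Real.log n - C) * (Real.log ((n : ℝ) + 1) - Real.log n) =
      ∑ n ∈ Ico 1 N, Real.log n * (Real.log ((n : ℝ) + 1) - Real.log n) - C * Real.log N := by
    have h4 : ∑ n ∈ Ico 1 N, (Real.log ((n : ℝ) + 1) - Real.log n) = Real.log N := by
      have := sum_Ico_consecutive (fun n => Real.log ((n : ℝ) + 1) - Real.log n) (le_refl 1) hN
      clear this
      induction N, hN using Nat.le_induction with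
      | base => simp
      | succ N hN ih =>
        rw [sum_Ico_succ_top hN, ih (Real.log_natCast_nonneg N) (abs_le.1 (hC N hN)).2 ?_]
        · push_cast; ring
        · refine sum_le_sum fun n hn => ?_
          rw [mem_Ico] at hn
          have hn0 : (0 : ℝ) < n := by exact_mod_cast hn.1
          have hd0 : 0 ≤ Real.log ((n : ℝ) + 1) - Real.log n := by
            rw [sub_nonneg]
            exact Real.log_le_log hn0 (by linarith)
          apply mul_le_mul_of_nonneg_right _ hd0
          have := (abs_le.1 (hC n hn.1)).1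
          linarith
    rw [← h4, mul_sum, ← sum_sub_distrib]
    refine sum_congr rfl fun n _ => ?_
    ring
  have h5 := sq_sum_lower N hN
  have h6 : (∑ n ∈ Icc 1 N, a n) * Real.log N ≤ (Real.log N + C) * Real.log N :=
    mul_le_mul_of_nonneg_right (by linarith) hl
  have hN0 : (0 : ℝ) < N := by exact_mod_cast hN
  have h7 : (0 : ℝ) ≤ 1 / N := by positivity
  nlinarith

/-! ## Counting multiples -/

open Classical in
theorem cnt_le (la s X : ℕ) (hs : 0 < s) :
    ((Icc 1 X).filter (fun n : ℕ => (s : ℤ) ∣ fl la n)).card ≤ rhoL la s * (X / s + 1) := by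
  have h : ((Icc 1 X).filter (fun n : ℕ => (s : ℤ) ∣ fl la n)).card ≤
      (((range s).filter (fun x : ℕ => (s : ℤ) ∣ fl la x)) ×ˢ range (X / s + 1)).card := by
    apply card_le_card_of_injOn (fun n => (n % s, n / s))
    · intro n hn
      rw [coe_filter, Set.mem_setOf_eq, mem_Icc] at hn
      rw [mem_coe, mem_product, mem_filter, mem_range, mem_range]
      exact ⟨⟨Nat.mod_lt _ hs, (fl_mod la s n).2 hn.2⟩,
        Nat.lt_succ_of_le (Nat.div_le_div_right hn.1.2)⟩
    · intro a _ b _ hab
      simp only [Prod.mk.injEq] at hab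
      rw [← Nat.mod_add_div a s, hab.1, hab.2, Nat.mod_add_div]
  rw [card_product, card_range] at h
  exact h

open Classical in
theorem cnt_ge (la s X : ℕ) (hs : 0 < s) : rhoL la s * (X / s) ≤
    ((Icc 1 X).filter (fun n : ℕ => (s : ℤ) ∣ fl la n)).card := by
  have h : (((range s).filter (fun x : ℕ => (s : ℤ) ∣ fl la x)) ×ˢ range (X / s)).card ≤
      ((Icc 1 X).filter (fun n : ℕ => (s : ℤ) ∣ fl la n)).card := by
    apply card_le_card_of_injOn (fun x => if x.1 = 0 then s * (x.2 + 1) else x.1 + s * x.2)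
    · rintro ⟨r, t⟩ hx
      rw [mem_coe, mem_product, mem_filter, mem_range, mem_range] at hx
      obtain ⟨⟨h1, h2⟩, h3⟩ := hx
      simp only at h1 h2 h3
      have h4 : s * (t + 1) ≤ X := by
        calc s * (t + 1) ≤ s * (X / s) := Nat.mul_le_mul_left s h3
          _ ≤ X := Nat.mul_div_le X s
      rw [mem_coe, mem_filter, mem_Icc]
      simp only
      split_ifs with h0
      · refine ⟨⟨Nat.mul_pos hs (by omega), h4⟩, ?_⟩
        rw [← fl_mod, Nat.mul_mod_right, ← h0]
        exact h2
      · refine ⟨⟨by omega, ?_⟩, ?_⟩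
        · have : s * (t + 1) = s * t + s := by ring
          omega
        · rw [← fl_mod, Nat.add_mul_mod_self_left, Nat.mod_eq_of_lt h1]
          exact h2
    · rintro ⟨r, t⟩ hx ⟨r', t'⟩ hx' hab
      rw [mem_coe, mem_product, mem_filter, mem_range, mem_range] at hx hx'
      obtain ⟨⟨h1, -⟩, -⟩ := hx
      obtain ⟨⟨h1', -⟩, -⟩ := hx'
      simp only at h1 h1' hab
      have key : ∀ r t : ℕ, r < s → (if r = 0 then s * (t + 1) else r + s * t) % s = r := by
        intro r t hr
        split_ifs with h0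
        · rw [Nat.mul_mod_right, h0]
        · rw [Nat.add_mul_mod_self_left, Nat.mod_eq_of_lt hr]
      have e1 : r = r' := by
        rw [← key r t h1, hab, key r' t' h1']
      subst e1
      have e2 : t = t' := by
        split_ifs at hab with h0
        · have := Nat.eq_of_mul_eq_mul_left hs hab
          omega
        · have := Nat.add_left_cancel hab
          exact Nat.eq_of_mul_eq_mul_left hs this
      rw [e2]
  rw [card_product, card_range] at h
  exact h

/-- primes larger than `cl la` -/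
theorem good_prime (hla : 1 ≤ la) {Q0 q : ℕ} (hc : cl la ≤ Q0) (hQ : Q0 < q) (hq : q.Prime) :
    (rhoL la q : ℝ) = 1 + ch (dL la) q ∧ (rhoL la q : ℝ) ≤ 2 ∧ rhoL la (q ^ 2) ≤ 2 := by
  have hqc := not_dvd_cl hla hc hQ
  have hq2 : q ≠ 2 := by
    rintro rfl
    exact hqc ⟨la * (4 * la - 1), by unfold cl; ring⟩
  have hqD : ¬ (q : ℤ) ∣ dL la := by
    intro h1
    have h2 := Int.natAbs_dvd_natAbs.2 h1
    rw [Int.natAbs_natCast, dL_natAbs hla] at h2
    exact hqc (h2.trans ⟨2 * la, by unfold cl; ring⟩)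
  have h1 := cntD (la := la) hq hq2 hqD
  refine ⟨h1, ?_, ?_⟩
  · rw [h1]
    have := chi_abs (chD hla) q
    rw [abs_le] at this
    linarith
  · have h := rhoL_pow_le (la := la) q 2 0 hq (by
      intro h3
      apply hqD
      refine (dvd_pow_self (q : ℤ) (by norm_num)).trans h3)
    simpa using h

end Pool.Agent.L0h26.HbN
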