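import Mathlib
import Pool.Agent.L0h26.HbJ

set_option autoImplicit false

/-!
# The second moment
-/

namespace Pool.Agent.L0h26.HbN

open Finset Pool.Agent.H951R4.OD Pool.Agent.L0h26.HbL Pool.Agent.L0h26.HbM
open Pool.Agent.W825.FP (mem_PI')

variable {la : ℕ}

open Classical in
/-- the `n ≤ X` with `q ∣ fl la n` -/
noncomputable def Aq (la X q : ℕ) : Finset ℕ := (Icc 1 X).filter (fun n : ℕ => (q : ℤ) ∣ fl la n)

open Classical in
/-- the logarithm of the product of the prime divisors in `(Q0, y]` -/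
noncomputable def SS (la Q0 y n : ℕ) : ℝ :=
  ∑ q ∈ PI Q0 y, if (q : ℤ) ∣ fl la n then Real.log q else 0

/-- number of zeros -/
noncomputable def ro (la q : ℕ) : ℝ := (rhoL la q : ℝ)

theorem Aq_le (X s : ℕ) (hs : 0 < s) : ((Aq la X s).card : ℝ) ≤ ro la s * (X / s + 1) := by
  have h := cnt_le la s X hs
  have h1 : ((X / s : ℕ) : ℝ) ≤ X / s := Nat.cast_div_le
  calc ((Aq la X s).card : ℝ) ≤ ((rhoL la s * (X / s + 1) : ℕ) : ℝ) := by exact_mod_cast h
    _ = ro la s * (((X / s : ℕ) : ℝ) + 1) := by unfold ro; push_cast; ring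
    _ ≤ _ := mul_le_mul_of_nonneg_left (by linarith) (Nat.cast_nonneg _)

theorem Aq_ge (X s : ℕ) (hs : 0 < s) : ro la s * (X / s - 1) ≤ ((Aq la X s).card : ℝ) := by
  have h := cnt_ge la s X hs
  have h1 : (X : ℝ) / s - 1 ≤ ((X / s : ℕ) : ℝ) := by
    have hs0 : (0 : ℝ) < s := by exact_mod_cast hs
    have h2 : (X : ℝ) / s < ((X / s : ℕ) : ℝ) + 1 := by
      rw [div_lt_iff₀ hs0]
      have := Nat.lt_div_mul_add (a := X) (b := s) hs
      have hcast : (X : ℝ) < ((X / s : ℕ) : ℝ) * s + s := by exact_mod_cast this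
      linarith
    linarith
  calc ro la s * ((X : ℝ) / s - 1) ≤ ro la s * ((X / s : ℕ) : ℝ) :=
        mul_le_mul_of_nonneg_left h1 (Nat.cast_nonneg _)
    _ = ((rhoL la s * (X / s) : ℕ) : ℝ) := by unfold ro; push_cast; ring
    _ ≤ _ := by exact_mod_cast h

open Classical in
theorem sum_SS (X Q0 y : ℕ) : ∑ n ∈ Icc 1 X, SS la Q0 y n =
    ∑ q ∈ PI Q0 y, Real.log q * ((Aq la X q).card : ℝ) := by
  unfold SS Aq
  rw [sum_comm]
  refine sum_congr rfl fun q _ => ?_
  rw [← sum_filter, sum_const, nsmul_eq_mul, mul_comm]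

open Classical in
theorem sum_SS2 (X Q0 y : ℕ) : ∑ n ∈ Icc 1 X, SS la Q0 y n ^ 2 =
    ∑ q ∈ PI Q0 y, ∑ r ∈ PI Q0 y, Real.log q * Real.log r *
      (((Icc 1 X).filter (fun n : ℕ => (q : ℤ) ∣ fl la n ∧ (r : ℤ) ∣ fl la n)).card : ℝ) := by
  have h : ∀ n ∈ Icc 1 X, SS la Q0 y n ^ 2 = ∑ q ∈ PI Q0 y, ∑ r ∈ PI Q0 y,
      if ((q : ℤ) ∣ fl la n ∧ (r : ℤ) ∣ fl la n) then Real.log q * Real.log r else 0 := by
    intro n _
    unfold SS
    rw [pow_two, sum_mul_sum]
    refine sum_congr rfl fun q _ => sum_congr rfl fun r _ => ?_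
    by_cases h1 : (q : ℤ) ∣ fl la n <;> by_cases h2 : (r : ℤ) ∣ fl la n <;> simp [h1, h2]
  rw [sum_congr rfl h, sum_comm]
  refine sum_congr rfl fun q _ => ?_
  rw [sum_comm]
  refine sum_congr rfl fun r _ => ?_
  rw [← sum_filter, sum_const, nsmul_eq_mul, mul_comm]

/-- the basic sums -/
theorem basic_sums (hla : 1 ≤ la) (Q0 : ℕ) (hc : cl la ≤ Q0) : ∃ C : ℝ, 1 ≤ C ∧
    ∀ y : ℕ, 3 ≤ y →
    |∑ q ∈ PI Q0 y, ro la q * (Real.log q / q) - Real.log y| ≤ C ∧
    ∑ q ∈ PI Q0 y, ro la q * (Real.log q ^ 2 / q) ≤ (1 / 2) * Real.log y ^ 2 + C * Real.log y ∧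
    ∑ q ∈ PI Q0 y, ro la q * Real.log q ≤ 4 * y ∧
    ∑ q ∈ PI Q0 y, ro la q * Real.log q ^ 2 ≤ 4 * y * Real.log y := by
  classical
  obtain ⟨C1, hC1, H1⟩ := mertens_two (dL la) (dL_nsq hla)
  set a : ℕ → ℝ := fun n => if n.Prime then (1 + ch (dL la) n) * (Real.log n / n) else 0 with ha
  have ha0 : ∀ n, 0 ≤ a n := by
    intro n
    rw [ha]
    simp only
    split_ifs
    · have := chi_abs (chD hla) n
      rw [abs_le] at this
      exact mul_nonneg (by linarith) (div_nonneg (Real.log_natCast_nonneg n) (Nat.cast_nonneg _))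
    · exact le_rfl
  have haP : ∀ N : ℕ, ∑ n ∈ Icc 1 N, a n =
      ∑ p ∈ PI 0 N, (1 + ch (dL la) p) * (Real.log p / p) := by
    intro N
    unfold PI
    rw [sum_filter]
    rfl
  have haM : ∀ N : ℕ, 1 ≤ N → |∑ n ∈ Icc 1 N, a n - Real.log N| ≤ C1 := by
    intro N hN
    rw [haP]
    exact H1 N hN
  set K := ∑ p ∈ PI 0 Q0, (1 + ch (dL la) p) * (Real.log p / p) with hK
  have hK0 : 0 ≤ K := by
    rw [hK, ← haP]
    exact sum_nonneg fun n _ => ha0 n
  have hsplit : ∀ y : ℕ, ∑ q ∈ PI Q0 y, ro la q * (Real.log q / q) =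
      ∑ q ∈ PI Q0 y, (1 + ch (dL la) q) * (Real.log q / q) := by
    intro y
    refine sum_congr rfl fun q hq => ?_
    rw [mem_PI'] at hq
    unfold ro
    rw [(good_prime hla hc hq.1.1 hq.2).1]
  have hro2 : ∀ y : ℕ, ∀ q ∈ PI Q0 y, ro la q ≤ 2 := by
    intro y q hq
    rw [mem_PI'] at hq
    exact (good_prime hla hc hq.1.1 hq.2).2.1
  have hro0 : ∀ q : ℕ, 0 ≤ ro la q := fun q => Nat.cast_nonneg _
  have hth : ∀ y : ℕ, ∑ q ∈ PI Q0 y, Real.log q ≤ 2 * y := by
    intro y
    refine le_trans ?_ (Pool.Agent.W854.FA.theta_le y)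
    apply sum_le_sum_of_subset_of_nonneg
    · intro q hq
      rw [mem_PI'] at hq ⊢
      exact ⟨⟨by omega, hq.1.2⟩, hq.2⟩
    · intro p _ _
      exact Real.log_natCast_nonneg p
  refine ⟨2 * C1 + K + 1, by linarith, fun y hy => ⟨?_, ?_, ?_, ?_⟩⟩
  · have h1 := haM y (by omega)
    rw [haP] at h1
    rw [hsplit]
    have h2 : ∑ q ∈ PI Q0 y, (1 + ch (dL la) q) * (Real.log q / q) ≤
        ∑ p ∈ PI 0 y, (1 + ch (dL la) p) * (Real.log p / p) := by
      apply sum_le_sum_of_subset_of_nonneg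
      · intro q hq
        rw [mem_PI'] at hq ⊢
        exact ⟨⟨by omega, hq.1.2⟩, hq.2⟩
      · intro p hp _
        rw [mem_PI'] at hp
        have := ha0 p
        rw [ha] at this
        simpa [hp.2] using this
    have h3 : ∑ p ∈ PI 0 y, (1 + ch (dL la) p) * (Real.log p / p) ≤
        ∑ q ∈ PI Q0 y, (1 + ch (dL la) q) * (Real.log q / q) + K := by
      have h4 : PI 0 y ⊆ PI Q0 y ∪ PI 0 Q0 := by
        intro q hq
        rw [mem_PI'] at hq
        rw [mem_union, mem_PI', mem_PI']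
        by_cases h : q ≤ Q0
        · exact Or.inr ⟨⟨hq.1.1, h⟩, hq.2⟩
        · exact Or.inl ⟨⟨by omega, hq.1.2⟩, hq.2⟩
      have h5 : ∀ p : ℕ, p.Prime → 0 ≤ (1 + ch (dL la) p) * (Real.log p / p) := by
        intro p hp
        have := ha0 p
        rw [ha] at this
        simpa [hp] using this
      refine (sum_le_sum_of_subset_of_nonneg h4 fun p hp _ => h5 p ?_).trans ?_
      · rw [mem_union, mem_PI', mem_PI'] at hp
        rcases hp with hp | hp <;> exact hp.2
      · have e1 := sum_union_inter (s₁ := PI Q0 y) (s₂ := PI 0 Q0)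
          (f := fun p : ℕ => (1 + ch (dL la) p) * (Real.log p / p))
        have e3 : 0 ≤ ∑ p ∈ PI Q0 y ∩ PI 0 Q0, (1 + ch (dL la) p) * (Real.log p / p) := by
          apply sum_nonneg
          intro p hp
          rw [mem_inter, mem_PI'] at hp
          exact h5 p hp.1.2
        linarith
    rw [abs_le] at h1 ⊢
    constructor <;> linarith [h1.1, h1.2]
  · have h1 := sq_mertens a C1 haM y (by omega)
    have h2 : ∑ q ∈ PI Q0 y, ro la q * (Real.log q ^ 2 / q) ≤
        ∑ n ∈ Icc 1 y, a n * Real.log n := by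
      have e : ∑ q ∈ PI Q0 y, ro la q * (Real.log q ^ 2 / q) =
          ∑ q ∈ PI Q0 y, a q * Real.log q := by
        refine sum_congr rfl fun q hq => ?_
        rw [mem_PI'] at hq
        unfold ro
        rw [(good_prime hla hc hq.1.1 hq.2).1, ha]
        simp only [hq.2, if_true]
        ring
      rw [e]
      apply sum_le_sum_of_subset_of_nonneg
      · intro q hq
        rw [mem_PI'] at hq
        rw [mem_Icc]
        omega
      · intro n _ _
        exact mul_nonneg (ha0 n) (Real.log_natCast_nonneg n)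
    have h3 : 1 ≤ Real.log y := (Pool.Agent.W825.FP.one_lt_log hy).le
    nlinarith
  · calc ∑ q ∈ PI Q0 y, ro la q * Real.log q ≤ ∑ q ∈ PI Q0 y, 2 * Real.log q := by
          apply sum_le_sum
          intro q hq
          exact mul_le_mul_of_nonneg_right (hro2 y q hq) (Real.log_natCast_nonneg q)
      _ = 2 * ∑ q ∈ PI Q0 y, Real.log q := by rw [mul_sum]
      _ ≤ 4 * y := by linarith [hth y]
  · calc ∑ q ∈ PI Q0 y, ro la q * Real.log q ^ 2 ≤
          ∑ q ∈ PI Q0 y, (2 * Real.log y) * Real.log q := by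
          apply sum_le_sum
          intro q hq
          have h1 := hro2 y q hq
          rw [mem_PI'] at hq
          have h0 := Real.log_natCast_nonneg q
          have h2 : Real.log q ≤ Real.log y :=
            Real.log_le_log (by exact_mod_cast hq.2.pos) (by exact_mod_cast hq.1.2)
          calc ro la q * Real.log q ^ 2 = ro la q * Real.log q * Real.log q := by ring
            _ ≤ 2 * Real.log y * Real.log q := by
                apply mul_le_mul_of_nonneg_right _ h0
                exact mul_le_mul h1 h2 h0 (by norm_num)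
      _ = 2 * Real.log y * ∑ q ∈ PI Q0 y, Real.log q := by rw [mul_sum]
      _ ≤ 2 * Real.log y * (2 * y) :=
          mul_le_mul_of_nonneg_left (hth y) (by
            have := Real.log_natCast_nonneg y
            positivity)
      _ = _ := by ring

/-- **The second moment about a point.** -/
theorem moment (hla : 1 ≤ la) (Q0 : ℕ) (hc : cl la ≤ Q0) : ∃ C : ℝ, 1 ≤ C ∧
    ∀ X y : ℕ, 3 ≤ y → (y : ℝ) ^ 2 ≤ 4 * X → Real.log X / 2 ≤ Real.log y →
    Real.log y ≤ Real.log X / 2 + 1 →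
    ∑ n ∈ Icc 1 X, (SS la Q0 y n - 5 / 12 * Real.log X) ^ 2 ≤
      X * (19 / 144 * Real.log X ^ 2 + C * (Real.log X + 1)) := by
  classical
  obtain ⟨C, hC, H⟩ := basic_sums hla Q0 hc
  refine ⟨100 * C ^ 2, by nlinarith, fun X y hy hyX hl1 hl2 => ?_⟩
  obtain ⟨b1, b2, b3, b4⟩ := H y hy
  have hX0 : (0 : ℝ) ≤ X := Nat.cast_nonneg _
  set L := Real.log X with hL
  set l := Real.log y with hl
  have hl0 : 1 ≤ l := (Pool.Agent.W825.FP.one_lt_log hy).le
  have hL0 : 0 ≤ L := Real.log_natCast_nonneg X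
  have hyR : (3 : ℝ) ≤ y := by exact_mod_cast hy
  have hyX' : (y : ℝ) ≤ 4 * X := by nlinarith
  set P := PI Q0 y with hP
  set M := ∑ q ∈ P, ro la q * (Real.log q / q) with hM
  have hM1 := (abs_le.1 b1).1
  have hM2 := (abs_le.1 b1).2
  have hlq : ∀ q : ℕ, 0 ≤ Real.log q := fun q => Real.log_natCast_nonneg q
  have hro0 : ∀ q : ℕ, 0 ≤ ro la q := fun q => Nat.cast_nonneg _
  have hM0 : 0 ≤ M := sum_nonneg fun q _ => mul_nonneg (hro0 q)
    (div_nonneg (hlq q) (Nat.cast_nonneg _))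
  -- first moment
  have f1 : X * M - 4 * y ≤ ∑ n ∈ Icc 1 X, SS la Q0 y n := by
    rw [sum_SS]
    have h1 : X * M - ∑ q ∈ P, ro la q * Real.log q ≤
        ∑ q ∈ P, Real.log q * ((Aq la X q).card : ℝ) := by
      rw [hM, mul_sum, ← sum_sub_distrib]
      apply sum_le_sum
      intro q hq
      rw [hP, mem_PI'] at hq
      have h2 := mul_le_mul_of_nonneg_left (Aq_ge (la := la) X q hq.2.pos) (hlq q)
      refine le_trans (le_of_eq ?_) h2
      ring
    linarith
  -- second moment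
  have f2 : ∑ n ∈ Icc 1 X, SS la Q0 y n ^ 2 ≤
      X * ((1 / 2) * l ^ 2 + C * l) + 4 * y * l + X * M ^ 2 + 16 * (y : ℝ) ^ 2 := by
    rw [sum_SS2]
    have hterm : ∀ q ∈ P, ∀ r ∈ P, Real.log q * Real.log r *
        (((Icc 1 X).filter (fun n : ℕ => (q : ℤ) ∣ fl la n ∧ (r : ℤ) ∣ fl la n)).card : ℝ) ≤
        (if q = r then ro la q * (Real.log q ^ 2 / q) * X + ro la q * Real.log q ^ 2 else 0) +
        (X * ((ro la q * (Real.log q / q)) * (ro la r * (Real.log r / r))) +
          (ro la q * Real.log q) * (ro la r * Real.log r)) := by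
      intro q hq r hr
      rw [hP, mem_PI'] at hq hr
      have hq0 : (0 : ℝ) < q := by exact_mod_cast hq.2.pos
      have hr0 : (0 : ℝ) < r := by exact_mod_cast hr.2.pos
      have hnn : 0 ≤ X * ((ro la q * (Real.log q / q)) * (ro la r * (Real.log r / r))) +
          (ro la q * Real.log q) * (ro la r * Real.log r) := by
        have := hlq q
        have := hlq r
        have := hro0 q
        have := hro0 r
        positivity
      by_cases hqr : q = r
      · subst hqr
        rw [if_pos rfl]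
        have h1 : (((Icc 1 X).filter (fun n : ℕ => (q : ℤ) ∣ fl la n ∧ (q : ℤ) ∣ fl la n)).card : ℝ)
            = ((Aq la X q).card : ℝ) := by
          unfold Aq
          simp only [and_self]
        rw [h1]
        have h2 := mul_le_mul_of_nonneg_left (Aq_le (la := la) X q hq.2.pos)
          (mul_nonneg (hlq q) (hlq q))
        have h3 : Real.log q * Real.log q * (ro la q * (X / q + 1)) =
            ro la q * (Real.log q ^ 2 / q) * X + ro la q * Real.log q ^ 2 := by
          field_simp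
        rw [h3] at h2
        linarith
      · rw [if_neg hqr, zero_add]
        have hcop : Nat.Coprime q r := (Nat.coprime_primes hq.2 hr.2).2 hqr
        have h1 : (((Icc 1 X).filter (fun n : ℕ => (q : ℤ) ∣ fl la n ∧ (r : ℤ) ∣ fl la n)).card : ℝ)
            ≤ ((Aq la X (q * r)).card : ℝ) := by
          rw [Nat.cast_le]
          apply card_le_card
          intro n hn
          unfold Aq
          rw [mem_filter] at hn ⊢
          refine ⟨hn.1, ?_⟩
          push_cast
          exact (Nat.isCoprime_iff_coprime.2 hcop).mul_dvd hn.2.1 hn.2.2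
        have h2 := Aq_le (la := la) X (q * r) (Nat.mul_pos hq.2.pos hr.2.pos)
        have h3 : ro la (q * r) ≤ ro la q * ro la r := by
          unfold ro
          exact_mod_cast rhoL_mul_le q r hq.2.one_lt hr.2.one_lt hcop
        have h4 : ((Aq la X (q * r)).card : ℝ) ≤ ro la q * ro la r * (X / (q * r) + 1) := by
          refine h2.trans ?_
          push_cast
          exact mul_le_mul_of_nonneg_right h3 (by positivity)
        have h5 := mul_le_mul_of_nonneg_left (h1.trans h4) (mul_nonneg (hlq q) (hlq r))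
        refine h5.trans (le_of_eq ?_)
        field_simp
    refine (sum_le_sum fun q hq => sum_le_sum fun r hr => hterm q hq r hr).trans ?_
    have e1 : ∑ q ∈ P, ∑ r ∈ P, ((if q = r then ro la q * (Real.log q ^ 2 / q) * X +
        ro la q * Real.log q ^ 2 else 0) +
        (X * ((ro la q * (Real.log q / q)) * (ro la r * (Real.log r / r))) +
          (ro la q * Real.log q) * (ro la r * Real.log r))) =
        (∑ q ∈ P, ro la q * (Real.log q ^ 2 / q)) * X + ∑ q ∈ P, ro la q * Real.log q ^ 2 +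
        (X * M ^ 2 + (∑ q ∈ P, ro la q * Real.log q) ^ 2) := by
      have g1 : ∀ q ∈ P, ∑ r ∈ P, ((if q = r then ro la q * (Real.log q ^ 2 / q) * X +
          ro la q * Real.log q ^ 2 else 0) +
          (X * ((ro la q * (Real.log q / q)) * (ro la r * (Real.log r / r))) +
          (ro la q * Real.log q) * (ro la r * Real.log r))) =
          (ro la q * (Real.log q ^ 2 / q) * X + ro la q * Real.log q ^ 2) +
          (X * ((ro la q * (Real.log q / q)) * M) +
            (ro la q * Real.log q) * ∑ r ∈ P, ro la r * Real.log r) := by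
        intro q hq
        rw [sum_add_distrib, sum_ite_eq, if_pos hq, sum_add_distrib, ← mul_sum, ← mul_sum,
          ← mul_sum]
      rw [sum_congr rfl g1, sum_add_distrib, sum_add_distrib, sum_add_distrib, ← sum_mul,
        ← mul_sum, ← sum_mul, ← sum_mul, ← hM]
      ring
    rw [e1]
    have h6 : 0 ≤ ∑ q ∈ P, ro la q * Real.log q :=
      sum_nonneg fun q _ => mul_nonneg (hro0 q) (hlq q)
    have h7 : (∑ q ∈ P, ro la q * Real.log q) ^ 2 ≤ (4 * y) ^ 2 := pow_le_pow_left₀ h6 b3 2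
    have h8 := mul_le_mul_of_nonneg_right b2 hX0
    linarith
  have f3 : ∑ n ∈ Icc 1 X, (SS la Q0 y n - 5 / 12 * L) ^ 2 =
      ∑ n ∈ Icc 1 X, SS la Q0 y n ^ 2 - 5 / 6 * L * ∑ n ∈ Icc 1 X, SS la Q0 y n +
        25 / 144 * L ^ 2 * X := by
    have : ∀ n ∈ Icc 1 X, (SS la Q0 y n - 5 / 12 * L) ^ 2 =
        SS la Q0 y n ^ 2 - 5 / 6 * L * SS la Q0 y n + 25 / 144 * L ^ 2 := by
      intro n _
      ring
    rw [sum_congr rfl this, sum_add_distrib, sum_sub_distrib, ← mul_sum, sum_const, Nat.card_Icc,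
      Nat.add_sub_cancel, nsmul_eq_mul]
    ring
  rw [f3]
  have f4 := mul_le_mul_of_nonneg_left f1 (show 0 ≤ 5 / 6 * L by positivity)
  -- now polynomial estimates
  have g1 : M ^ 2 ≤ (L / 2 + 1 + C) ^ 2 := by
    apply pow_le_pow_left₀ hM0
    linarith
  have g2 : L / 2 - C ≤ M := by linarith
  have g3 : l ^ 2 ≤ (L / 2 + 1) ^ 2 := pow_le_pow_left₀ (by linarith) hl2 2
  have g4 : X * M ^ 2 ≤ X * (L / 2 + 1 + C) ^ 2 := mul_le_mul_of_nonneg_left g1 hX0
  have g5 : X * ((1 / 2) * l ^ 2 + C * l) ≤ X * ((1 / 2) * (L / 2 + 1) ^ 2 + C * (L / 2 + 1)) := by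
    apply mul_le_mul_of_nonneg_left _ hX0
    have := mul_le_mul_of_nonneg_left hl2 (by linarith : 0 ≤ C)
    linarith
  have g6 : 4 * (y : ℝ) * l ≤ 16 * X * (L / 2 + 1) := by
    apply mul_le_mul (by linarith) hl2 (by linarith) (by positivity)
  have g7 : 5 / 6 * L * (X * M - 4 * y) ≥ 5 / 6 * L * (X * (L / 2 - C) - 16 * X) := by
    apply mul_le_mul_of_nonneg_left _ (by positivity)
    have := mul_le_mul_of_nonneg_left g2 hX0
    linarith
  have g8 : 16 * (y : ℝ) ^ 2 ≤ 64 * X := by linarith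
  have hfin : X * ((1 / 2) * (L / 2 + 1) ^ 2 + C * (L / 2 + 1)) + 16 * X * (L / 2 + 1) +
      X * (L / 2 + 1 + C) ^ 2 + 64 * X - 5 / 6 * L * (X * (L / 2 - C) - 16 * X) +
      25 / 144 * L ^ 2 * X ≤ X * (19 / 144 * L ^ 2 + 100 * C ^ 2 * (L + 1)) := by
    have e : X * (19 / 144 * L ^ 2 + 100 * C ^ 2 * (L + 1)) -
        (X * ((1 / 2) * (L / 2 + 1) ^ 2 + C * (L / 2 + 1)) + 16 * X * (L / 2 + 1) +
      X * (L / 2 + 1 + C) ^ 2 + 64 * X - 5 / 6 * L * (X * (L / 2 - C) - 16 * X) +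
      25 / 144 * L ^ 2 * X) = X * (L * (100 * C ^ 2 - (7 / 3) * C - 137 / 6) +
        (100 * C ^ 2 - C ^ 2 - 3 * C - 163 / 2) ) := by ring
    have hC2 : C ≤ C ^ 2 := by nlinarith
    have hC1 : 1 ≤ C ^ 2 := by nlinarith
    have k1 : 0 ≤ 100 * C ^ 2 - (7 / 3) * C - 137 / 6 := by linarith
    have k2 : 0 ≤ 100 * C ^ 2 - C ^ 2 - 3 * C - 163 / 2 := by linarith
    have k3 := mul_nonneg hL0 k1
    have k4 := mul_nonneg hX0 (add_nonneg k3 k2)
    linarith
  linarith

end Pool.Agent.L0h26.HbN
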