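import Mathlib
import Pool.Agent.L0h26.HbK

set_option autoImplicit false

/-!
# Smooth values
-/

namespace Pool.Agent.L0h26.HbN

open Finset Pool.Agent.H951R4.OD Pool.Agent.L0h26.HbL Pool.Agent.L0h26.HbM Filter Topology
open Pool.Agent.W825.FP (mem_PI')

variable {la : ℕ}

/-- all prime divisors of `fl la n` which do not divide `cl la` are at most `y` -/
def Smo (la y n : ℕ) : Prop := ∀ q : ℕ, q.Prime → ¬ q ∣ cl la → (q : ℤ) ∣ fl la n → q ≤ y

theorem fl_lower (hla : 1 ≤ la) (n : ℕ) (hn : 1 ≤ n) : (n : ℤ) ^ 2 ≤ fl la n := by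
  unfold fl
  have h1 : (1 : ℤ) ≤ la := by exact_mod_cast hla
  have h2 : (1 : ℤ) ≤ n := by exact_mod_cast hn
  nlinarith [sq_nonneg (la : ℤ)]

theorem inv_sq_tail (Q0 y : ℕ) (hQ : 1 ≤ Q0) : ∑ q ∈ PI Q0 y, (1 : ℝ) / q ^ 2 ≤ 1 / Q0 := by
  have h1 : ∑ q ∈ PI Q0 y, (1 : ℝ) / q ^ 2 ≤ ∑ n ∈ Ioc Q0 y, (1 : ℝ) / n ^ 2 := by
    apply sum_le_sum_of_subset_of_nonneg
    · unfold PI
      exact filter_subset _ _
    · intro n _ _
      positivity
  refine h1.trans ?_
  rcases Nat.lt_or_ge y Q0 with h | h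
  · rw [Ioc_eq_empty (by omega), sum_empty]
    positivity
  have key : ∑ n ∈ Ioc Q0 y, (1 : ℝ) / n ^ 2 ≤ 1 / Q0 - 1 / y := by
    induction y, h using Nat.le_induction with
    | base => simp
    | succ y hy ih =>
      rw [sum_Ioc_succ_top (by omega)]
      have ih' := ih ?_
      · have hy0 : (0 : ℝ) < y := by exact_mod_cast (by omega : 0 < y)
        have h2 : (1 : ℝ) / ((y + 1 : ℕ) : ℝ) ^ 2 ≤ 1 / y - 1 / ((y + 1 : ℕ) : ℝ) := by
          push_cast
          rw [div_sub_div _ _ hy0.ne' (by positivity), div_le_div_iff₀ (by positivity)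
            (by positivity)]
          nlinarith
        linarith
      · apply sum_le_sum_of_subset_of_nonneg
        · unfold PI
          exact filter_subset _ _
        · intro n _ _
          positivity
  have : (0 : ℝ) ≤ 1 / y := by positivity
  linarith

/-- number of zeros modulo prime powers -/
theorem rho_pow (hla : 1 ≤ la) (q a : ℕ) (hq : q.Prime) :
    rhoL la (q ^ a) ≤ 2 * (dL la).natAbs := by
  obtain ⟨e, h1, h2⟩ := exists_e hla q hq
  exact (rhoL_pow_le q a e hq h2).trans (Nat.mul_le_mul_left 2 h1)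

open Classical in
noncomputable def E1 (la X Q0 y : ℕ) : Finset ℕ := (PI Q0 y).biUnion (fun q => Aq la X (q ^ 2))

open Classical in
noncomputable def E2 (la X Q0 a : ℕ) : Finset ℕ := (PI 0 Q0).biUnion (fun q => Aq la X (q ^ a))

theorem card_E1 (hla : 1 ≤ la) (X Q0 y : ℕ) (hQ : 1 ≤ Q0) (hc : cl la ≤ Q0) :
    ((E1 la X Q0 y).card : ℝ) ≤ 2 * X / Q0 + 2 * y := by
  classical
  have h1 : ((E1 la X Q0 y).card : ℝ) ≤ ∑ q ∈ PI Q0 y, ((Aq la X (q ^ 2)).card : ℝ) := by
    unfold E1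
    exact_mod_cast card_biUnion_le
  refine h1.trans ?_
  have h2 : ∀ q ∈ PI Q0 y, ((Aq la X (q ^ 2)).card : ℝ) ≤ 2 * X * (1 / (q : ℝ) ^ 2) + 2 := by
    intro q hq
    rw [mem_PI'] at hq
    have h3 := Aq_le (la := la) X (q ^ 2) (pow_pos hq.2.pos 2)
    have h4 : ro la (q ^ 2) ≤ 2 := by
      unfold ro
      exact_mod_cast (good_prime hla hc hq.1.1 hq.2).2.2
    refine h3.trans ?_
    have h5 : (0 : ℝ) ≤ (X : ℝ) / ((q ^ 2 : ℕ) : ℝ) + 1 := by positivity
    refine (mul_le_mul_of_nonneg_right h4 h5).trans (le_of_eq ?_)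
    push_cast
    ring
  refine (sum_le_sum h2).trans ?_
  rw [sum_add_distrib, ← mul_sum, sum_const, nsmul_eq_mul]
  have h3 := inv_sq_tail Q0 y hQ
  have h4 : ((PI Q0 y).card : ℝ) ≤ y := by
    have : (PI Q0 y).card ≤ y := by
      unfold PI
      refine (card_filter_le _ _).trans ?_
      rw [Nat.card_Ioc]
      omega
    exact_mod_cast this
  have h5 := mul_le_mul_of_nonneg_left h3 (by positivity : (0 : ℝ) ≤ 2 * X)
  calc _ ≤ 2 * (X : ℝ) * (1 / Q0) + y * 2 := by linarith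
    _ = _ := by ring

theorem card_E2 (hla : 1 ≤ la) (X Q0 a : ℕ) :
    ((E2 la X Q0 a).card : ℝ) ≤ Q0 * (2 * (dL la).natAbs) * (X / 2 ^ a + 1) := by
  classical
  have h1 : ((E2 la X Q0 a).card : ℝ) ≤ ∑ q ∈ PI 0 Q0, ((Aq la X (q ^ a)).card : ℝ) := by
    unfold E2
    exact_mod_cast card_biUnion_le
  refine h1.trans ?_
  have h2 : ∀ q ∈ PI 0 Q0, ((Aq la X (q ^ a)).card : ℝ) ≤
      (2 * (dL la).natAbs) * (X / 2 ^ a + 1) := by
    intro q hq
    rw [mem_PI'] at hq
    have h3 := Aq_le (la := la) X (q ^ a) (pow_pos hq.2.pos a)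
    have h4 : ro la (q ^ a) ≤ 2 * (dL la).natAbs := by
      unfold ro
      exact_mod_cast rho_pow hla q a hq.2
    refine h3.trans ?_
    have h6 : (X : ℝ) / ((q ^ a : ℕ) : ℝ) ≤ X / 2 ^ a := by
      apply div_le_div_of_nonneg_left (Nat.cast_nonneg _) (by positivity)
      push_cast
      exact pow_le_pow_left₀ (by norm_num) (by exact_mod_cast hq.2.two_le) a
    exact mul_le_mul h4 (by linarith) (by positivity) (by positivity)
  refine (sum_le_sum h2).trans ?_
  rw [sum_const, nsmul_eq_mul]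
  have h4 : ((PI 0 Q0).card : ℝ) ≤ Q0 := by
    have : (PI 0 Q0).card ≤ Q0 := by
      unfold PI
      refine (card_filter_le _ _).trans ?_
      rw [Nat.card_Ioc]
      omega
    exact_mod_cast this
  rw [mul_assoc (Q0 : ℝ)]
  exact mul_le_mul_of_nonneg_right h4 (by positivity)

/-- the logarithm of a smooth value -/
theorem log_le (hla : 1 ≤ la) {X Q0 y a n : ℕ} (hc : cl la ≤ Q0) (hn : n ∈ Icc 1 X)
    (hS : Smo la y n) (h1 : n ∉ E1 la X Q0 y) (h2 : n ∉ E2 la X Q0 a) :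
    2 * Real.log n ≤ a * ∑ q ∈ PI 0 Q0, Real.log q + SS la Q0 y n := by
  classical
  have hn' := mem_Icc.1 hn
  have hn0 : (0 : ℝ) < n := by exact_mod_cast hn'.1
  have hlow := fl_lower hla n hn'.1
  have hnz : (0 : ℤ) < n := by exact_mod_cast hn'.1
  have hpos : 0 < fl la n := lt_of_lt_of_le (by positivity) hlow
  obtain ⟨m, hm⟩ : ∃ m : ℕ, (m : ℤ) = fl la n := ⟨(fl la n).toNat, Int.toNat_of_nonneg hpos.le⟩
  have hm0 : m ≠ 0 := by
    rintro rfl
    rw [← hm] at hpos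
    simp at hpos
  have hdvd : ∀ d : ℕ, (d : ℤ) ∣ fl la n ↔ d ∣ m := by
    intro d
    rw [← hm]
    exact Int.natCast_dvd_natCast
  have hlog : 2 * Real.log n ≤ Real.log m := by
    have h3 : (n : ℝ) ^ 2 ≤ m := by
      have : ((n ^ 2 : ℕ) : ℤ) ≤ (m : ℤ) := by rw [hm]; push_cast; exact hlow
      exact_mod_cast this
    have h4 := Real.log_le_log (by positivity) h3
    rw [Real.log_pow] at h4
    exact_mod_cast h4
  refine hlog.trans ?_
  rw [Real.log_nat_eq_sum_factorization, Finsupp.sum, Nat.support_factorization]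
  have hlp : ∀ q : ℕ, 0 ≤ Real.log q := fun q => Real.log_natCast_nonneg q
  have key : ∀ p ∈ m.primeFactors, (m.factorization p : ℝ) * Real.log p ≤
      (if p ∈ PI 0 Q0 then (a : ℝ) * Real.log p else 0) +
      (if p ∈ PI Q0 y then (if (p : ℤ) ∣ fl la n then Real.log p else 0) else 0) := by
    intro p hp
    rw [Nat.mem_primeFactors] at hp
    obtain ⟨hpp, hpm, -⟩ := hp
    by_cases hpQ : p ≤ Q0
    · have hmem : p ∈ PI 0 Q0 := mem_PI'.2 ⟨⟨hpp.pos, hpQ⟩, hpp⟩
      have hnm : p ∉ PI Q0 y := fun h => by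
        rw [mem_PI'] at h
        omega
      rw [if_pos hmem, if_neg hnm, add_zero]
      apply mul_le_mul_of_nonneg_right _ (hlp p)
      have h3 : m.factorization p < a := by
        by_contra hcon
        push Not at hcon
        apply h2
        unfold E2
        rw [mem_biUnion]
        refine ⟨p, hmem, ?_⟩
        unfold Aq
        rw [mem_filter]
        refine ⟨hn, ?_⟩
        rw [hdvd]
        exact (hpp.pow_dvd_iff_le_factorization hm0).2 hcon
      exact_mod_cast h3.le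
    · have hpc := not_dvd_cl hla hc (not_le.1 hpQ)
      have hpy : p ≤ y := hS p hpp hpc ((hdvd p).2 hpm)
      have hmem : p ∈ PI Q0 y := mem_PI'.2 ⟨⟨by omega, hpy⟩, hpp⟩
      have hnm : p ∉ PI 0 Q0 := fun h => by
        rw [mem_PI'] at h
        omega
      rw [if_neg hnm, if_pos hmem, if_pos ((hdvd p).2 hpm), zero_add]
      have h3 : m.factorization p ≤ 1 := by
        by_contra hcon
        push Not at hcon
        apply h1
        unfold E1
        rw [mem_biUnion]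
        refine ⟨p, hmem, ?_⟩
        unfold Aq
        rw [mem_filter]
        refine ⟨hn, ?_⟩
        rw [hdvd]
        exact (hpp.pow_dvd_iff_le_factorization hm0).2 hcon
      have h4 : (m.factorization p : ℝ) ≤ 1 := by exact_mod_cast h3
      calc (m.factorization p : ℝ) * Real.log p ≤ 1 * Real.log p :=
            mul_le_mul_of_nonneg_right h4 (hlp p)
        _ = _ := one_mul _
  refine (sum_le_sum key).trans ?_
  rw [sum_add_distrib]
  apply add_le_add
  · rw [← sum_filter, mul_sum]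
    apply sum_le_sum_of_subset_of_nonneg
    · intro p hp
      exact (mem_filter.1 hp).2
    · intro p _ _
      exact mul_nonneg (Nat.cast_nonneg _) (hlp p)
  · rw [← sum_filter]
    unfold SS
    apply sum_le_sum_of_subset_of_nonneg
    · intro p hp
      exact (mem_filter.1 hp).2
    · intro p _ _
      split_ifs
      · exact hlp p
      · exact le_rfl

open Classical in
/-- **Smooth values are rare.** -/
theorem smooth_count (hla : 1 ≤ la) (ε : ℝ) (hε : 0 < ε) : ∃ N0 : ℕ, ∀ X : ℕ, N0 ≤ X →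
    (((Icc 1 X).filter (fun n => Smo la (Nat.sqrt X + 1) n)).card : ℝ) ≤ (1 / 19 + ε) * X := by
  obtain ⟨Q0, hQ0⟩ := exists_nat_gt (max (16 / ε) (cl la))
  have hQa : 16 / ε < Q0 := (le_max_left _ _).trans_lt hQ0
  have hQb : (cl la : ℝ) < Q0 := (le_max_right _ _).trans_lt hQ0
  have hc : cl la ≤ Q0 := by exact_mod_cast hQb.le
  have hQ0pos : (0 : ℝ) < Q0 := lt_trans (by positivity) hQa
  have hQ1 : 1 ≤ Q0 := by exact_mod_cast hQ0pos
  obtain ⟨C, hC, HM⟩ := moment hla Q0 hc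
  set B : ℝ := Q0 * (2 * (dL la).natAbs) with hB
  have hB0 : 0 ≤ B := by positivity
  obtain ⟨a, ha⟩ := pow_unbounded_of_one_lt (8 * B / ε) (by norm_num : (1 : ℝ) < 2)
  set K1 : ℝ := a * ∑ q ∈ PI 0 Q0, Real.log q with hK1
  set δ : ℝ := min (1 / 2) (ε / 8) with hδ
  have hδ0 : 0 < δ := by rw [hδ]; positivity
  have hδ1 : δ ≤ ε / 8 := min_le_right _ _
  have hδ2 : δ ≤ 1 / 2 := min_le_left _ _
  have hK10 : 0 ≤ K1 := by
    rw [hK1]
    exact mul_nonneg (Nat.cast_nonneg _) (sum_nonneg fun q _ => Real.log_natCast_nonneg q)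
  have hld : Real.log δ ≤ 0 := Real.log_nonpos hδ0.le (by linarith)
  set K2 : ℝ := K1 - 2 * Real.log δ with hK2
  have hK20 : 0 ≤ K2 := by rw [hK2]; linarith
  set V : ℝ := (((1 / 19 + ε / 4) * (19 / 6) * K2 + 2 * C) / ((ε / 4) * (361 / 144))) with hV
  have hlim : Tendsto (fun X : ℕ => Real.log X) atTop atTop :=
    Real.tendsto_log_atTop.comp tendsto_natCast_atTop_atTop
  obtain ⟨N1, hN1⟩ := (hlim.eventually_ge_atTop (max (max 1 K2) V)).exists_forall_of_atTop
  have hlim2 : Tendsto (fun X : ℕ => (X : ℝ)) atTop atTop := tendsto_natCast_atTop_atTop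
  obtain ⟨N2, hN2⟩ := (hlim2.eventually_ge_atTop (max (16 * B / ε) ((64 / ε) ^ 2))).exists_forall_of_atTop
  refine ⟨max (max N1 N2) 16, fun X hX => ?_⟩
  have hX1 := hN1 X (((le_max_left _ _).trans (le_max_left _ _)).trans hX)
  have hX2 := hN2 X (((le_max_right _ _).trans (le_max_left _ _)).trans hX)
  have hX16 : 16 ≤ X := (le_max_right _ _).trans hX
  set L := Real.log X with hL
  have hL1 : 1 ≤ L := ((le_max_left _ _).trans (le_max_left _ _)).trans hX1
  have hLK : K2 ≤ L := ((le_max_right _ _).trans (le_max_left _ _)).trans hX1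
  have hLV : V ≤ L := (le_max_right _ _).trans hX1
  have hXB : 16 * B / ε ≤ X := (le_max_left _ _).trans hX2
  have hXe : (64 / ε) ^ 2 ≤ X := (le_max_right _ _).trans hX2
  have hX0 : (0 : ℝ) < X := by exact_mod_cast (by omega : 0 < X)
  set y := Nat.sqrt X + 1 with hy
  -- size of `y`
  have hs4 : 4 ≤ Nat.sqrt X := by rw [Nat.le_sqrt]; omega
  have hy3 : 3 ≤ y := by omega
  have hsq1 : (Nat.sqrt X : ℝ) ≤ Real.sqrt X := Real.nat_sqrt_le_real_sqrt
  have hsq2 : Real.sqrt X ≤ y := by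
    rw [hy]
    push_cast
    exact Real.real_sqrt_le_nat_sqrt_succ
  have hsq4 : (4 : ℝ) ≤ Real.sqrt X := le_trans (by exact_mod_cast hs4) hsq1
  have hyle : (y : ℝ) ≤ 2 * Real.sqrt X := by
    rw [hy]
    push_cast
    linarith
  have hsqX : Real.sqrt X * Real.sqrt X = X := Real.mul_self_sqrt hX0.le
  have hyX : (y : ℝ) ^ 2 ≤ 4 * X := by
    have : (y : ℝ) ^ 2 ≤ (2 * Real.sqrt X) ^ 2 := pow_le_pow_left₀ (Nat.cast_nonneg _) hyle 2
    nlinarith
  have hlsq : Real.log (Real.sqrt X) = L / 2 := by rw [Real.log_sqrt hX0.le]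
  have hly1 : L / 2 ≤ Real.log y := by
    rw [← hlsq]
    exact Real.log_le_log (by linarith) hsq2
  have hly2 : Real.log y ≤ L / 2 + 1 := by
    have h1 := Real.log_le_log (by positivity : (0 : ℝ) < y) hyle
    rw [Real.log_mul (by norm_num) (by linarith), hlsq] at h1
    have := Real.log_two_lt_d9
    linarith
  have hmom := HM X y hy3 hyX hly1 hly2
  rw [← hL] at hmom
  obtain ⟨G, hG⟩ : ∃ G : Finset ℕ, G = (Icc 1 X).filter (fun n => Smo la y n ∧ δ * X ≤ n ∧
    n ∉ E1 la X Q0 y ∧ n ∉ E2 la X Q0 a) := ⟨_, rfl⟩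
  -- the good ones
  have hGt : ∀ n ∈ G, (19 / 12 * L - K2) ^ 2 ≤ (SS la Q0 y n - 5 / 12 * L) ^ 2 := by
    intro n hn
    rw [hG, mem_filter] at hn
    obtain ⟨hn1, hn2, hn3, hn4, hn5⟩ := hn
    have h1 := log_le hla hc hn1 hn2 hn4 hn5
    rw [← hK1] at h1
    have h2 : Real.log δ + L ≤ Real.log n := by
      rw [hL, ← Real.log_mul hδ0.ne' hX0.ne']
      exact Real.log_le_log (by positivity) hn3
    apply pow_le_pow_left₀ (by linarith)
    rw [hK2]
    linarith
  have hGc : (G.card : ℝ) * (19 / 12 * L - K2) ^ 2 ≤ X * (19 / 144 * L ^ 2 + C * (L + 1)) := by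
    refine le_trans ?_ hmom
    calc (G.card : ℝ) * (19 / 12 * L - K2) ^ 2 = ∑ n ∈ G, (19 / 12 * L - K2) ^ 2 := by
          rw [sum_const, nsmul_eq_mul]
      _ ≤ ∑ n ∈ G, (SS la Q0 y n - 5 / 12 * L) ^ 2 := sum_le_sum hGt
      _ ≤ _ := by
          apply sum_le_sum_of_subset_of_nonneg
          · rw [hG]
            exact filter_subset _ _
          · intro n _ _
            positivity
  have hkey : 19 / 144 * L ^ 2 + C * (L + 1) ≤ (1 / 19 + ε / 4) * (19 / 12 * L - K2) ^ 2 := by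
    have hden : 0 < (ε / 4) * (361 / 144) := by positivity
    rw [hV, div_le_iff₀ hden] at hLV
    have h1 := mul_le_mul_of_nonneg_right hLV (by linarith : 0 ≤ L)
    have h2 : C * (L + 1) ≤ 2 * C * L := by nlinarith
    have h3 : (1 / 19 + ε / 4) * (19 / 12 * L - K2) ^ 2 =
        19 / 144 * L ^ 2 + L * ((ε / 4) * (361 / 144)) * L - (1 / 19 + ε / 4) * (19 / 6) * K2 * L +
          (1 / 19 + ε / 4) * K2 ^ 2 := by ring
    rw [h3]
    have h4 : 0 ≤ (1 / 19 + ε / 4) * K2 ^ 2 := by positivity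
    nlinarith
  have hGb : (G.card : ℝ) ≤ (1 / 19 + ε / 4) * X := by
    have hpos : 0 < (19 / 12 * L - K2) ^ 2 := by
      apply pow_pos
      linarith
    have h1 : (G.card : ℝ) * (19 / 12 * L - K2) ^ 2 ≤
        ((1 / 19 + ε / 4) * X) * (19 / 12 * L - K2) ^ 2 := by
      refine hGc.trans ?_
      have := mul_le_mul_of_nonneg_left hkey hX0.le
      linarith
    exact le_of_mul_le_mul_right h1 hpos
  -- the exceptions
  have hE1 := card_E1 hla X Q0 y hQ1 hc
  have hE2 := card_E2 hla X Q0 a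
  rw [← hB] at hE2
  have hsub : (Icc 1 X).filter (fun n => Smo la y n) ⊆
      G ∪ (E1 la X Q0 y ∪ (E2 la X Q0 a ∪ Icc 1 ⌊δ * X⌋₊)) := by
    intro n hn
    rw [mem_filter] at hn
    rw [mem_union, mem_union, mem_union, mem_Icc]
    by_cases k1 : n ∈ E1 la X Q0 y
    · exact Or.inr (Or.inl k1)
    by_cases k2 : n ∈ E2 la X Q0 a
    · exact Or.inr (Or.inr (Or.inl k2))
    by_cases k3 : δ * X ≤ n
    · left
      rw [hG, mem_filter]
      exact ⟨hn.1, hn.2, k3, k1, k2⟩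
    · right; right; right
      push Not at k3
      exact ⟨(mem_Icc.1 hn.1).1, Nat.le_floor k3.le⟩
  have hcard := card_le_card hsub
  have u1 := card_union_le G (E1 la X Q0 y ∪ (E2 la X Q0 a ∪ Icc 1 ⌊δ * X⌋₊))
  have u2 := card_union_le (E1 la X Q0 y) (E2 la X Q0 a ∪ Icc 1 ⌊δ * X⌋₊)
  have u3 := card_union_le (E2 la X Q0 a) (Icc 1 ⌊δ * X⌋₊)
  rw [Nat.card_Icc, Nat.add_sub_cancel] at u3
  have hfl : ((⌊δ * X⌋₊ : ℕ) : ℝ) ≤ δ * X := Nat.floor_le (by positivity)
  have htot : (((Icc 1 X).filter (fun n => Smo la y n)).card : ℝ) ≤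
      (G.card : ℝ) + ((E1 la X Q0 y).card + ((E2 la X Q0 a).card + ⌊δ * X⌋₊)) := by
    exact_mod_cast (by omega : ((Icc 1 X).filter (fun n => Smo la y n)).card ≤
      G.card + ((E1 la X Q0 y).card + ((E2 la X Q0 a).card + ⌊δ * X⌋₊)))
  have t1 : 2 * (X : ℝ) / Q0 ≤ ε / 8 * X := by
    rw [div_le_iff₀ hQ0pos]
    rw [div_lt_iff₀ hε] at hQa
    nlinarith
  have t2 : 2 * (y : ℝ) ≤ ε / 16 * X := by
    have h1 : 64 / ε ≤ Real.sqrt X := Real.le_sqrt_of_sq_le hXe
    rw [div_le_iff₀ hε] at h1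
    nlinarith
  have t3 : B * ((X : ℝ) / 2 ^ a + 1) ≤ ε / 8 * X + ε / 16 * X := by
    have h1 : B * ((X : ℝ) / 2 ^ a) ≤ ε / 8 * X := by
      rw [mul_div_assoc', div_le_iff₀ (by positivity)]
      rw [div_lt_iff₀ hε] at ha
      nlinarith
    have h2 : B ≤ ε / 16 * X := by
      rw [div_le_iff₀ hε] at hXB
      linarith
    linarith
  have t4 : δ * X ≤ ε / 8 * X := mul_le_mul_of_nonneg_right hδ1 hX0.le
  have t5 : 0 < ε * X := by positivity
  nlinarith

end Pool.Agent.L0h26.HbN
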