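import Mathlib
import Pool.Agent.L0h26.HaD
import Pool.Agent.L0h26.HaH
import Pool.Agent.L0h26.HbP

set_option autoImplicit false

/-!
# Automorphisms of order a large prime divisor of the number of points
-/

namespace Pool.Agent.L0h26.HbQ

open Finset MulAction Filter Topology Pool.Agent.L0h26.Hall Pool.Agent.L0h26.HallE

section

variable {P L : Type} [Fintype P] [Fintype L] {I : P → L → Prop} {k lam : ℕ}
variable {G : Type} [Group G] [Finite G] [MulAction G P] [MulAction G L]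

/-- a group of prime order with a fixed point -/
theorem prime_case (h : SD P L I k lam) (hA : Aut G I) (hlam : 2 ≤ lam) (hk : 2 ≤ k)
    {p : ℕ} (hp : p.Prime) (hG : Nat.card G = p) (hpl : lam < p)
    (hdv : p ∣ k * (k - 1) + lam) {x : P} (hx : ∀ g : G, g • x = x) :
    ∃ f : ℕ, 2 ≤ f ∧ (f - 1) ^ 2 + lam ≤ k ∧ p ∣ k - f ∧ p ∣ f * (f - 1) + lam := by
  classical
  have hG1 : Nat.card G = p ^ 1 := by rw [pow_one]; exact hG
  have hnl : ¬ p ∣ lam := fun hd => by
    have := Nat.le_of_dvd (by omega) hd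
    omega
  -- a fixed block through `x`
  obtain ⟨b, hb, hxb⟩ : ∃ b : L, (∀ g : G, g • b = b) ∧ I x b := by
    by_contra hcon
    push Not at hcon
    have h1 : p ^ 1 ∣ (univ.filter fun m => I x m).card := by
      refine dvd_of_orbits hp hG1 1 _ (univ.filter fun m => I x m) le_rfl ?_ ?_
      · intro g m hm
        rw [mem_filter] at hm ⊢
        refine ⟨mem_univ _, ?_⟩
        have := (hA.inc g x m).2 hm.2
        rwa [hx g] at this
      · intro m hm
        rw [mem_filter] at hm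
        obtain ⟨j, hj, hjc⟩ := ncard_orbit_pow hp hG1 (H := G) m
        have hj0 : j ≠ 0 := by
          rintro rfl
          rw [pow_zero, Set.ncard_eq_one] at hjc
          obtain ⟨m', hm'⟩ := hjc
          have e1 : m ∈ orbit G m := mem_orbit_self m
          rw [hm', Set.mem_singleton_iff] at e1
          refine hcon m (fun g => ?_) hm.2
          have e2 : g • m ∈ orbit G m := mem_orbit m g
          rw [hm', Set.mem_singleton_iff] at e2
          rw [e2, ← e1]
        rw [hjc]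
        exact Nat.pow_le_pow_right hp.pos (by omega)
    rw [h.lns, pow_one] at h1
    apply hnl
    exact (Nat.dvd_add_right (h1.mul_right (k - 1))).1 hdv
  have hS : (⊤ : Subgroup G) ≠ ⊥ := by
    intro hbot
    have h1 : Nat.card (⊤ : Subgroup G) = 1 := by rw [hbot]; exact Subgroup.card_bot
    rw [Subgroup.card_top, hG] at h1
    exact hp.one_lt.ne' h1
  have hb' : ∀ g ∈ (⊤ : Subgroup G), g • b = b := fun g _ => hb g
  have hxon : x ∈ on I (fp P (⊤ : Subgroup G)) b := mem_on.2 ⟨mem_fp.2 fun g _ => hx g, hxb⟩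
  have hf1 : 1 ≤ (on I (fp P (⊤ : Subgroup G)) b).card := card_pos.2 ⟨x, hxon⟩
  obtain ⟨e, z, he1, -, -, -, -, hdvd, -, -⟩ := step h hA hlam hk hp hG1 hpl hS hb' hf1
  have hbd := fix_on_block h hA hlam hk (primes_gt h hA hlam hk hp hG1 hpl) hS hb' hxon
  set f := (on I (fp P (⊤ : Subgroup G)) b).card with hf
  have hfk : f ≤ k := by
    have h5 : f - 1 ≤ (f - 1) ^ 2 := Nat.le_self_pow (by norm_num) _
    omega
  have hpk : p ∣ k - f := (dvd_pow_self p (by omega)).trans hdvd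
  refine ⟨f, ?_, hbd, hpk, phi_dvd hp he1 hf1 hfk hdvd hdv⟩
  by_contra hcon
  have hf' : f = 1 := by omega
  rw [hf'] at hpk
  apply hnl
  exact (Nat.dvd_add_right (hpk.mul_left k)).1 hdv

end

open Pool.Agent.H951R4.OD Pool.Agent.L0h26.HbL Pool.Agent.L0h26.HbN Pool.Agent.H634R3.AA

/-- automorphisms of prime order `q ∣ v`, `q > lam`, with a fixed point -/
theorem design_case {v k lam : ℕ} {B : Fin v → Finset (Fin v)}
    (hd : Pool.Agent.N345.Sym.Des v k lam B) (hlam : 2 ≤ lam)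
    {σ : Equiv.Perm (Fin v)} (hσ : ∀ i, ∃ j, (B i).image σ = B j) {q : ℕ} (hq : q.Prime)
    (hord : orderOf σ = q) (hql : lam < q) (hqv : q ∣ v) {x : Fin v} (hx : σ x = x) :
    ∃ f : ℕ, 2 ≤ f ∧ (f - 1) ^ 2 + lam ≤ k ∧ q ∣ k - f ∧ q ∣ f * (f - 1) + lam := by
  classical
  have hS := sd_of_des hd (by omega)
  obtain ⟨T, hT⟩ : ∃ T : Subgroup (Equiv.Perm (Fin v)), T = Subgroup.zpowers σ := ⟨_, rfl⟩
  have hpow : ∀ n : ℕ, ∀ i, ∃ j, (B i).image (σ ^ n) = B j := by
    intro n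
    induction n with
    | zero =>
      intro i
      refine ⟨i, ?_⟩
      simp
    | succ n ih =>
      intro i
      obtain ⟨j, hj⟩ := hσ i
      obtain ⟨l, hl⟩ := ih j
      refine ⟨l, ?_⟩
      rw [← hl, ← hj, Finset.image_image]
      rfl
  have hA : ∀ τ ∈ T, ∀ i, ∃ j, (B i).image τ = B j := by
    intro τ hτ
    rw [hT] at hτ
    obtain ⟨n, hn⟩ := (Subgroup.mem_zpowers_iff.1 hτ)
    obtain ⟨m, hm⟩ : ∃ m : ℕ, σ ^ n = σ ^ m := by
      refine ⟨(n % (orderOf σ : ℤ)).toNat, ?_⟩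
      have h0 : (0 : ℤ) < orderOf σ := by
        rw [hord]
        exact_mod_cast hq.pos
      rw [← zpow_natCast, Int.toNat_of_nonneg (Int.emod_nonneg _ h0.ne'), zpow_mod_orderOf]
    rw [← hn, hm]
    exact hpow m
  let _ : MulAction T (Blk B) := actB T hA
  have hau : Aut T (Inc B) := aut_act T hA
  have hcard : Nat.card T = q := by rw [hT, Nat.card_zpowers, hord]
  have hdv : q ∣ k * (k - 1) + lam := by
    have h1 := hd.two_le
    have h2 := hd.lt
    obtain ⟨-, hcount⟩ := Pool.Agent.H951R4.OD.repl v k lam (by omega) (by omega) B hd.size hd.pair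
    have h3 : k * (k - 1) + lam = lam * v := by
      obtain ⟨u, rfl⟩ : ∃ u, k = u + 1 := ⟨k - 1, by omega⟩
      obtain ⟨w, rfl⟩ : ∃ w, v = w + 1 := ⟨v - 1, by omega⟩
      simp only [Nat.add_sub_cancel] at hcount ⊢
      nlinarith
    rw [h3]
    exact hqv.mul_left _
  refine prime_case hS hau hlam hd.two_le hq hcard hql hdv (x := x) ?_
  rintro ⟨τ, hτ⟩
  rw [hT] at hτ
  obtain ⟨n, hn⟩ := (Subgroup.mem_zpowers_iff.1 hτ)
  change τ x = x
  rw [← hn]
  exact (Equiv.Perm.zpow_apply_eq_self_of_apply_eq_self hx n)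

theorem small_of_le {S T : ℕ → Prop} (h : ∀ k, S k → T k) (hT : Small T) : Small S := by
  intro ε hε
  obtain ⟨N0, hN0⟩ := hT ε hε
  refine ⟨N0, fun N hN => le_trans ?_ (hN0 N hN)⟩
  have h1 := Set.ncard_le_ncard (fun k (hk : k ≤ N ∧ S k) => (⟨hk.1, h k hk.2⟩ : k ≤ N ∧ T k))
    (fin_le N T)
  exact_mod_cast h1

theorem small_or {S T : ℕ → Prop} (hS : Small S) (hT : Small T) : Small (fun k => S k ∨ T k) := by
  intro ε hε
  obtain ⟨N1, h1⟩ := hS (ε / 2) (by positivity)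
  obtain ⟨N2, h2⟩ := hT (ε / 2) (by positivity)
  refine ⟨max N1 N2, fun N hN => ?_⟩
  have e1 := h1 N ((le_max_left _ _).trans hN)
  have e2 := h2 N ((le_max_right _ _).trans hN)
  have hsub : {v : ℕ | v ≤ N ∧ (S v ∨ T v)} ⊆ {v : ℕ | v ≤ N ∧ S v} ∪ {v : ℕ | v ≤ N ∧ T v} := by
    rintro v ⟨hv, h | h⟩
    · exact Or.inl ⟨hv, h⟩
    · exact Or.inr ⟨hv, h⟩
  have h3 := (Set.ncard_le_ncard hsub ((fin_le N S).union (fin_le N T))).trans
    (Set.ncard_union_le _ _)
  have h4 : ({v : ℕ | v ≤ N ∧ (S v ∨ T v)}.ncard : ℝ) ≤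
      ({v : ℕ | v ≤ N ∧ S v}.ncard : ℝ) + ({v : ℕ | v ≤ N ∧ T v}.ncard : ℝ) := by exact_mod_cast h3
  linarith

theorem small_tends {S : ℕ → Prop} (h : Small S) :
    Tendsto (fun N : ℕ => ({v : ℕ | v ≤ N ∧ S v}.ncard : ℝ) / (N : ℝ)) atTop (𝓝 0) := by
  rw [Metric.tendsto_atTop]
  intro ε hε
  obtain ⟨N0, h0⟩ := h (ε / 2) (by positivity)
  refine ⟨max N0 1, fun N hN => ?_⟩
  have h1 := h0 N (le_trans (le_max_left _ _) hN)
  have hN1 : (0 : ℝ) < N := by
    exact_mod_cast (lt_of_lt_of_le zero_lt_one ((le_max_right _ _).trans hN))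
  rw [Real.dist_eq, sub_zero, abs_of_nonneg (by positivity), div_lt_iff₀ hN1]
  have : 0 < ε / 2 * N := by positivity
  linarith

/-- the loglog bound gives density zero -/
theorem small_W {W : ℕ → Prop} (hW1 : ∀ k, W k → 1 ≤ k) (h : ∃ C : ℝ, ∀ X : ℕ, 3 ≤ X →
    (({k : ℕ | 1 ≤ k ∧ k ≤ X ∧ W k}.ncard : ℕ) : ℝ) ≤
      C * (X * Real.log (Real.log X) / Real.log X)) : Small W := by
  obtain ⟨C, hC⟩ := h
  intro ε hε
  have hlim : Tendsto (fun X : ℕ => Real.log (X : ℝ)) atTop atTop :=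
    Real.tendsto_log_atTop.comp tendsto_natCast_atTop_atTop
  have h2 := Real.isLittleO_log_id_atTop.bound (c := ε / (|C| + 1)) (by positivity)
  have h3 := hlim.eventually (h2.and (eventually_ge_atTop 1))
  obtain ⟨N0, hN0⟩ := h3.exists_forall_of_atTop
  refine ⟨max N0 3, fun X hX => ?_⟩
  obtain ⟨h4, h5⟩ := hN0 X ((le_max_left _ _).trans hX)
  have hX3 : 3 ≤ X := (le_max_right _ _).trans hX
  have h6 := hC X hX3
  have e : {k : ℕ | 1 ≤ k ∧ k ≤ X ∧ W k} = {k : ℕ | k ≤ X ∧ W k} := by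
    ext k
    exact ⟨fun h => h.2, fun h => ⟨hW1 k h.2, h⟩⟩
  rw [e] at h6
  refine h6.trans ?_
  simp only [id] at h4
  rw [Real.norm_eq_abs, Real.norm_eq_abs, abs_of_pos (by linarith : 0 < Real.log (X : ℝ))] at h4
  have hL0 : 0 < Real.log (X : ℝ) := by linarith
  have hLL : 0 ≤ Real.log (Real.log X) := Real.log_nonneg h5
  rw [abs_of_nonneg hLL] at h4
  have hX0 : (0 : ℝ) < X := by exact_mod_cast (by omega : 0 < X)
  have h7 : Real.log (Real.log X) / Real.log X ≤ ε / (|C| + 1) := by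
    rw [div_le_iff₀ hL0]
    exact h4
  have h8 : 0 ≤ Real.log (Real.log X) / Real.log X := by positivity
  calc C * (X * Real.log (Real.log X) / Real.log X)
      = X * (C * (Real.log (Real.log X) / Real.log X)) := by ring
    _ ≤ X * ((|C| + 1) * (ε / (|C| + 1))) := by
        apply mul_le_mul_of_nonneg_left _ hX0.le
        have h9 : C ≤ |C| + 1 := by linarith [le_abs_self C]
        calc C * (Real.log (Real.log X) / Real.log X) ≤
            (|C| + 1) * (Real.log (Real.log X) / Real.log X) := mul_le_mul_of_nonneg_right h9 h8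
          _ ≤ _ := mul_le_mul_of_nonneg_left h7 (by positivity)
    _ = ε * X := by
        field_simp

/-- some symmetric design has a group of automorphisms with an order divisible by a prime divisor
`q ≥ 1 + √k` of `v` -/
def LP (lam k : ℕ) : Prop :=
  ∃ (v : ℕ) (B : Fin v → Finset (Fin v)) (A : Subgroup (Equiv.Perm (Fin v))) (q : ℕ),
    Pool.Agent.N345.Sym.Des v k lam B ∧ (∀ σ ∈ A, ∀ i, ∃ j, (B i).image σ = B j) ∧ q.Prime ∧
      1 + Real.sqrt k ≤ q ∧ q ∣ v ∧ q ∣ Nat.card A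

theorem small_LP (lam : ℕ) (hlam : 2 ≤ lam) : Small (LP lam) := by
  have h1 := small_KV lam (by omega) 0
  have h2 : Small (fun k => LP lam k ∧ ¬ KV lam 0 k) := by
    apply small_W
    · rintro k ⟨⟨v, B, A, q, hd, -⟩, -⟩
      have := hd.two_le
      omega
    · refine final2 (lam := lam) (by omega) (lam ^ 2) _ ?_
      rintro k hk0 ⟨⟨v, B, A, q, hd, hA, hq, hqk, hqv, hqA⟩, hno⟩
      have hkp : k ≤ (q - 1) ^ 2 := by
        have h1 : Real.sqrt k ≤ ((q - 1 : ℕ) : ℝ) := by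
          rw [Nat.cast_sub hq.one_le]
          push_cast
          linarith
        have h2 : (k : ℝ) ≤ ((q - 1 : ℕ) : ℝ) ^ 2 := (Real.sqrt_le_left (by positivity)).1 h1
        exact_mod_cast h2
      have hpl : lam < q := by
        have h1 : lam ≤ q - 1 := (Nat.pow_le_pow_iff_left (by norm_num)).1 (hk0.trans hkp)
        have := hq.two_le
        omega
      have : Fact q.Prime := ⟨hq⟩
      obtain ⟨τ, hτ⟩ := exists_prime_orderOf_dvd_card' (G := A) q hqA
      have hord : orderOf τ.1 = q := by rw [Subgroup.orderOf_coe, hτ]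
      obtain ⟨x, hx⟩ : ∃ x : Fin v, τ.1 x = x := by
        by_contra hcon
        push Not at hcon
        apply hno
        refine ⟨hd.two_le, v, B, τ.1, q, 1, hd.lt, hd.size, hd.pair, hA τ.1 τ.2, hq, Or.inl hqv,
          ?_, ?_⟩
        · rw [pow_one, ← hord]
          exact pow_orderOf_eq_one _
        · rw [filter_false_of_mem (fun x _ => hcon x)]
          simp
      obtain ⟨f, h1, h2, h3, h4⟩ := design_case hd hlam (hA τ.1 τ.2) hq hord hpl hqv hx
      refine ⟨q, hq, hkp, Or.inr ⟨f, h1, ?_, h2, h3, h4⟩⟩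
      by_contra hcon
      push Not at hcon
      have h5 : (q - 1) ^ 2 ≤ (f - 1) ^ 2 := Nat.pow_le_pow_left (by omega) 2
      omega
  refine small_of_le (fun k hk => ?_) (small_or h1 h2)
  by_cases h : KV lam 0 k
  · exact Or.inl h
  · exact Or.inr ⟨hk, h⟩

/-- some symmetric design has a group of automorphisms with an order divisible by the number of
points, or transitive on the points -/
def VT (lam k : ℕ) : Prop :=
  ∃ (v : ℕ) (B : Fin v → Finset (Fin v)) (A : Subgroup (Equiv.Perm (Fin v))),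
    Pool.Agent.N345.Sym.Des v k lam B ∧ (∀ σ ∈ A, ∀ i, ∃ j, (B i).image σ = B j) ∧
      (v ∣ Nat.card A ∨ ∀ x y : Fin v, ∃ h ∈ A, h x = y)

theorem card_of_trans {v : ℕ} (hv : 1 ≤ v) (A : Subgroup (Equiv.Perm (Fin v)))
    (h : ∀ x y : Fin v, ∃ h ∈ A, h x = y) : v ∣ Nat.card A := by
  have hp : MulAction.IsPretransitive A (Fin v) := ⟨fun x y => by
    obtain ⟨g, hg, hgx⟩ := h x y
    exact ⟨⟨g, hg⟩, hgx⟩⟩
  obtain ⟨x⟩ : Nonempty (Fin v) := ⟨⟨0, by omega⟩⟩
  have h1 := (MulAction.stabilizer A x).index_dvd_card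
  rw [MulAction.index_stabilizer_of_transitive, Nat.card_fin] at h1
  exact h1

theorem count_VT (lam : ℕ) (hlam : 2 ≤ lam) (ε : ℝ) (hε : 0 < ε) : ∃ N0 : ℕ, ∀ N : ℕ, N0 ≤ N →
    ({k : ℕ | k ≤ N ∧ VT lam k}.ncard : ℝ) ≤ (1 / 19 + ε) * N := by
  classical
  obtain ⟨N1, h1⟩ := small_LP lam hlam (ε / 2) (by positivity)
  obtain ⟨N2, h2⟩ := smooth_count (la := lam) (by omega) (ε / 2) (by positivity)
  refine ⟨max N1 N2, fun N hN => ?_⟩
  have e1 := h1 N ((le_max_left _ _).trans hN)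
  have e2 := h2 N ((le_max_right _ _).trans hN)
  obtain ⟨W, hW⟩ : ∃ W : Finset ℕ, W =
      (Icc 1 N).filter (fun n => Smo lam (Nat.sqrt N + 1) n) := ⟨_, rfl⟩
  have hsub : {k : ℕ | k ≤ N ∧ VT lam k} ⊆ {k : ℕ | k ≤ N ∧ LP lam k} ∪
      (W.image (fun n => n + lam) : Finset ℕ) := by
    rintro k ⟨hkN, v, B, A, hd, hA, hvA⟩
    have hk2 := hd.two_le
    have hkv := hd.lt
    have hvc : v ∣ Nat.card A := by
      rcases hvA with h | h
      · exact h
      · exact card_of_trans (by omega) A h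
    by_cases hLP : LP lam k
    · exact Or.inl ⟨hkN, hLP⟩
    right
    obtain ⟨hlk, hfl, -⟩ := fl_eq (by omega) (by omega : 1 ≤ lam) hkv hd.size hd.pair
    rw [Finset.mem_coe, Finset.mem_image]
    refine ⟨k - lam, ?_, by omega⟩
    rw [hW, mem_filter, mem_Icc]
    refine ⟨⟨by omega, by omega⟩, ?_⟩
    intro q hq hqc hqf
    have hqv : q ∣ v := by
      rw [hfl] at hqf
      have h3 : q ∣ lam * v := by exact_mod_cast hqf
      refine (hq.dvd_mul.1 h3).resolve_left (fun h => hqc ?_)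
      unfold cl
      exact (h.trans (dvd_mul_left lam 2)).trans (dvd_mul_right _ _)
    by_contra hcon
    push Not at hcon
    apply hLP
    refine ⟨v, B, A, q, hd, hA, hq, ?_, hqv, hqv.trans hvc⟩
    have h4 : ((Nat.sqrt N + 1 + 1 : ℕ) : ℝ) ≤ q := by exact_mod_cast hcon
    push_cast at h4
    have h5 : Real.sqrt k ≤ Real.sqrt N := Real.sqrt_le_sqrt (by exact_mod_cast hkN)
    have h6 : Real.sqrt N ≤ Nat.sqrt N + 1 := Real.real_sqrt_le_nat_sqrt_succ
    linarith
  have h3 := (Set.ncard_le_ncard hsub ((fin_le N _).union (Finset.finite_toSet _))).trans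
    (Set.ncard_union_le _ _)
  rw [Set.ncard_coe_finset] at h3
  have h4 := card_image_le (s := W) (f := fun n => n + lam)
  have h5 : ({k : ℕ | k ≤ N ∧ VT lam k}.ncard : ℝ) ≤
      ({k : ℕ | k ≤ N ∧ LP lam k}.ncard : ℝ) + (W.card : ℝ) := by
    exact_mod_cast h3.trans (Nat.add_le_add_left h4 _)
  rw [hW] at h5
  have : ({k : ℕ | k ≤ N ∧ LP lam k}.ncard : ℝ) +
      (((Icc 1 N).filter (fun n => Smo lam (Nat.sqrt N + 1) n)).card : ℝ) ≤
      ε / 2 * N + (1 / 19 + ε / 2) * N := add_le_add e1 e2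
  refine h5.trans (this.trans (le_of_eq ?_))
  ring

end Pool.Agent.L0h26.HbQ
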